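import Pool.Agent.Helper54.GT.StA

/-!
# GT, part A: (CD) descent of constants
-/

set_option autoImplicit false

namespace Pool.Agent.Helper54.GT

open Polynomial
open Pool.Agent.Helper3.HY (fK RR LL)

/-- A homomorphism of fields, extended to the rational functions. -/
noncomputable def rm_CD {k l : Type} [Field k] [Field l] (j : k →+* l) : RatFunc k →+* RatFunc l :=
  IsFractionRing.map (A := k[X]) (B := l[X]) (j := mapRingHom j) (map_injective j j.injective)

lemma rm_alg_CD {k l : Type} [Field k] [Field l] (j : k →+* l) (p : k[X]) :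
    rm_CD j (algebraMap k[X] (RatFunc k) p) = algebraMap l[X] (RatFunc l) (p.map j) := by
  unfold rm_CD IsFractionRing.map
  rw [IsLocalization.map_eq]
  rfl

lemma fixed_CD {F k : Type} [Field F] [Field k] (i : F →+* k) (j : k →+* k)
    (hj : ∀ x, j x = x → x ∈ Set.range i) (x : RatFunc k) (hx : rm_CD j x = x) :
    x ∈ Set.range (rm_CD i) := by
  have hd0 : algebraMap k[X] (RatFunc k) x.denom ≠ 0 := by
    rw [Ne, FaithfulSMul.algebraMap_eq_zero_iff]; exact x.denom_ne_zero
  have hd1 : algebraMap k[X] (RatFunc k) (x.denom.map j) ≠ 0 := by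
    rw [Ne, FaithfulSMul.algebraMap_eq_zero_iff]
    exact (x.monic_denom.map j).ne_zero
  have h1 : algebraMap k[X] (RatFunc k) (x.num.map j) / algebraMap k[X] (RatFunc k) (x.denom.map j) =
      algebraMap k[X] (RatFunc k) x.num / algebraMap k[X] (RatFunc k) x.denom := by
    rw [RatFunc.num_div_denom]
    conv_rhs => rw [← hx, ← RatFunc.num_div_denom x]
    rw [map_div₀, rm_alg_CD, rm_alg_CD]
  rw [div_eq_div_iff hd1 hd0, ← map_mul, ← map_mul] at h1
  have h2 : x.num.map j * x.denom = x.num * x.denom.map j :=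
    (IsFractionRing.injective k[X] (RatFunc k)) h1
  have hc : IsCoprime x.num x.denom := x.isCoprime_num_denom
  have hc' : IsCoprime (x.num.map j) (x.denom.map j) := by
    have := hc.map (mapRingHom j)
    simpa using this
  have hdd : x.denom ∣ x.denom.map j :=
    hc.symm.dvd_of_dvd_mul_left (Dvd.intro_left _ h2)
  have hdd' : x.denom.map j ∣ x.denom :=
    hc'.symm.dvd_of_dvd_mul_left (Dvd.intro_left _ h2.symm)
  have hden : x.denom.map j = x.denom :=
    eq_of_monic_of_associated (x.monic_denom.map j) x.monic_denom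
      (associated_of_dvd_dvd hdd' hdd)
  have hnum : x.num.map j = x.num := by
    rw [hden] at h2
    exact mul_right_cancel₀ x.denom_ne_zero h2
  have lift : ∀ p : k[X], p.map j = p → ∃ q : F[X], q.map i = p := by
    intro p hp
    rw [← mem_lifts, lifts_iff_coeff_lifts]
    intro n
    apply hj
    conv_rhs => rw [← hp]
    rw [coeff_map]
  obtain ⟨N, hN⟩ := lift _ hnum
  obtain ⟨D, hD⟩ := lift _ hden
  refine ⟨algebraMap F[X] (RatFunc F) N / algebraMap F[X] (RatFunc F) D, ?_⟩
  rw [map_div₀, rm_alg_CD, rm_alg_CD, hN, hD, RatFunc.num_div_denom]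

lemma frob_CD (F : Type) [Field F] [Fintype F] (x : kk F) (hx : x ^ Fintype.card F = x) :
    x ∈ Set.range (algebraMap F (kk F)) := by
  classical
  have hq : 1 < Fintype.card F := Fintype.one_lt_card
  have hne : (X ^ Fintype.card F - X : F[X]) ≠ 0 := FiniteField.X_pow_card_sub_X_ne_zero F hq
  have hdeg : (X ^ Fintype.card F - X : F[X]).natDegree = Fintype.card F :=
    FiniteField.X_pow_card_sub_X_natDegree_eq F hq
  have hmon : (X ^ Fintype.card F - X : F[X]).Monic := by
    apply monic_X_pow_sub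
    rw [degree_X]
    exact_mod_cast hq
  have hroots : (X ^ Fintype.card F - X : F[X]).roots = Finset.univ.val :=
    FiniteField.roots_X_pow_card_sub_X F
  have hprod : (X ^ Fintype.card F - X : F[X]) = ∏ c : F, (X - C c) := by
    have h := prod_multiset_X_sub_C_of_monic_of_roots_card_eq hmon (by
      rw [hroots, hdeg]; rfl)
    rw [hroots] at h
    rw [← h]
    rfl
  have h0 : aeval x (X ^ Fintype.card F - X : F[X]) = 0 := by
    simp [hx]
  rw [hprod, map_prod, Finset.prod_eq_zero_iff] at h0
  obtain ⟨c, -, hc⟩ := h0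
  refine ⟨c, ?_⟩
  rw [map_sub, aeval_X, aeval_C, sub_eq_zero] at hc
  exact hc.symm

theorem aCD : StCD := by
  intro F _ _ h2 f a hf hirr _ b hb
  classical
  set i : F →+* kk F := algebraMap F (kk F) with hi
  set j : kk F →+* kk F := (FiniteField.frobeniusAlgHom F (kk F)).toRingHom with hj
  have hji : ∀ x : F, j (i x) = i x := fun x => (FiniteField.frobeniusAlgHom F (kk F)).commutes x
  have hjx : ∀ x : kk F, j x = x ^ Fintype.card F := fun x => rfl
  have hfix : ∀ x, j x = x → x ∈ Set.range i := fun x hx => frob_CD F x (by rw [← hjx, hx])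
  set Ψ : RatFunc F →+* KK F := rm_CD i with hΨ
  set Φ : KK F →+* KK F := rm_CD j with hΦ
  -- the polynomials in question come from `F`
  have hex : ∀ p : F[X][X], fK (exC p) = (fK p).map Ψ := by
    intro p
    unfold fK exC
    rw [Polynomial.map_map, Polynomial.map_map]
    congr 1
    ext x
    · simp only [RingHom.coe_comp, Function.comp_apply, coe_mapRingHom]
      rw [rm_alg_CD]
    · simp only [RingHom.coe_comp, Function.comp_apply, coe_mapRingHom]
      rw [rm_alg_CD]
  have hΦΨ : ∀ x, Φ (Ψ x) = Ψ x := by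
    intro x
    rw [← RatFunc.num_div_denom x, map_div₀, map_div₀, rm_alg_CD, rm_alg_CD, rm_alg_CD, rm_alg_CD]
    have : ∀ p : F[X], (p.map i).map j = p.map i := by
      intro p
      ext n
      simp [coeff_map, hji]
    rw [this, this]
  have hΦe : ∀ p : F[X][X], (fK (exC p)).map Φ = fK (exC p) := by
    intro p
    rw [hex, Polynomial.map_map]
    congr 1
    ext x
    all_goals simp [hΦΨ]
  set h := fK (exC f) with hh
  set A := fK (exC a) with hA
  have hhm : h.Monic := by
    rw [hh, hex]
    exact (hf.map _).map _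
  -- the remainder
  set b' := b %ₘ h with hb'
  have hbb : h ∣ b - b' := by
    refine ⟨b /ₘ h, ?_⟩
    rw [hb', sub_eq_iff_eq_add, add_comm]
    exact (modByMonic_add_div b h).symm
  have hb1 : h ∣ b' ^ 2 - A := by
    have : b' ^ 2 - A = (b ^ 2 - A) - (b - b') * (b + b') := by ring
    rw [this]
    exact dvd_sub hb (Dvd.dvd.mul_right hbb _)
  have hdeg : b'.degree < h.degree := degree_modByMonic_lt b hhm
  have hb2 : h ∣ b'.map Φ ^ 2 - A := by
    have := map_dvd (mapRingHom Φ) hb1
    simp only [coe_mapRingHom, Polynomial.map_sub, Polynomial.map_pow] at this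
    rwa [hh, hA, hΦe, hΦe] at this
  have hdeg2 : (b'.map Φ).degree < h.degree := lt_of_le_of_lt degree_map_le hdeg
  have hb3 : h ∣ (b'.map Φ - b') * (b'.map Φ + b') := by
    have : (b'.map Φ - b') * (b'.map Φ + b') = (b'.map Φ ^ 2 - A) - (b' ^ 2 - A) := by ring
    rw [this]
    exact dvd_sub hb2 hb1
  have hcases : b'.map Φ = b' ∨ b'.map Φ = -b' := by
    rcases hirr.prime.dvd_or_dvd hb3 with h' | h'
    · left
      have := eq_zero_of_dvd_of_degree_lt h' (lt_of_le_of_lt (degree_sub_le _ _)
        (max_lt hdeg2 hdeg))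
      exact sub_eq_zero.mp this
    · right
      have := eq_zero_of_dvd_of_degree_lt h' (lt_of_le_of_lt (degree_add_le _ _)
        (max_lt hdeg2 hdeg))
      exact eq_neg_of_add_eq_zero_left this
  -- the correcting constant
  have hu₀ : ∃ u₀ : kk F, u₀ ≠ 0 ∧ (algebraMap (kk F)[X] (KK F) (C u₀)) ≠ 0 ∧ j (u₀ ^ 2) = u₀ ^ 2 ∧
      (C (algebraMap (kk F)[X] (KK F) (C u₀)) * b').map Φ =
        C (algebraMap (kk F)[X] (KK F) (C u₀)) * b' := by
    rcases hcases with hc | hc
    · refine ⟨1, one_ne_zero, by simp, by simp, ?_⟩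
      simp [hc]
    · have hq : 1 < Fintype.card F := Fintype.one_lt_card
      obtain ⟨u₀, hu⟩ := IsAlgClosed.exists_pow_nat_eq (-1 : kk F)
        (n := Fintype.card F - 1) (by omega)
      have hu0 : u₀ ≠ 0 := by
        rintro rfl
        rw [zero_pow (by omega)] at hu
        exact neg_ne_zero.mpr one_ne_zero hu.symm
      have huj : j u₀ = -u₀ := by
        rw [hjx]
        have : Fintype.card F = (Fintype.card F - 1) + 1 := by omega
        rw [this, pow_succ, hu]
        ring
      refine ⟨u₀, hu0, ?_, ?_, ?_⟩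
      · rw [Ne, FaithfulSMul.algebraMap_eq_zero_iff, C_eq_zero]
        exact hu0
      · rw [map_pow, huj]; ring
      · rw [Polynomial.map_mul, hc, Polynomial.map_C]
        have : Φ (algebraMap (kk F)[X] (KK F) (C u₀)) = -algebraMap (kk F)[X] (KK F) (C u₀) := by
          rw [hΦ, rm_alg_CD, Polynomial.map_C, huj, C_neg, map_neg]
        rw [this, C_neg]
        ring
  obtain ⟨u₀, hu0, hu0', huj, hub⟩ := hu₀
  obtain ⟨u, hu⟩ := hfix _ huj
  have hune : u ≠ 0 := by
    rintro rfl
    rw [map_zero] at hu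
    exact hu0 (pow_eq_zero_iff (by norm_num) |>.mp hu.symm)
  set b'' := C (algebraMap (kk F)[X] (KK F) (C u₀)) * b' with hb''
  have hlift : ∃ b₀ : (RatFunc F)[X], b₀.map Ψ = b'' := by
    rw [← mem_lifts, lifts_iff_coeff_lifts]
    intro n
    apply fixed_CD i j hfix
    conv_rhs => rw [← hub]
    rw [coeff_map]
  obtain ⟨b₀, hb₀⟩ := hlift
  have hconst : algebraMap (kk F)[X] (KK F) (C u₀) ^ 2 =
      Ψ (algebraMap F[X] (RatFunc F) (C u)) := by
    rw [hΨ, rm_alg_CD, Polynomial.map_C, hu, ← map_pow, ← C_pow]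
  have hdvd : fK f ∣ b₀ ^ 2 - fK (C (C u) * a) := by
    rw [← map_dvd_map Ψ Ψ.injective (hf.map _)]
    rw [← hex, Polynomial.map_sub, Polynomial.map_pow, hb₀]
    have : (fK (C (C u) * a)).map Ψ = C (algebraMap (kk F)[X] (KK F) (C u₀)) ^ 2 * A := by
      have e1 : fK (C (C u) * a) = C (algebraMap F[X] (RatFunc F) (C u)) * fK a := by
        simp only [fK, Polynomial.map_mul, Polynomial.map_C]
      rw [e1, Polynomial.map_mul, Polynomial.map_C, ← hex, ← C_pow, hconst]
    rw [this, hb'', mul_pow, ← mul_sub]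
    exact Dvd.dvd.mul_left hb1 _
  refine ⟨u, hune, AdjoinRoot.mk (fK f) b₀, ?_⟩
  have h3 : algebraMap (RR f) (LL f) (AdjoinRoot.mk f (C (C u) * a)) =
      AdjoinRoot.mk (fK f) (fK (C (C u) * a)) := by
    change AdjoinRoot.map (algebraMap F[X] (RatFunc F)) f (fK f) dvd_rfl
      (AdjoinRoot.mk f (C (C u) * a)) = _
    unfold AdjoinRoot.map
    rw [AdjoinRoot.lift_mk]
    generalize (C (C u) * a) = p
    induction p using Polynomial.induction_on' with
    | add p q hp hq =>
      rw [eval₂_add, hp, hq]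
      simp only [fK, Polynomial.map_add, map_add]
    | monomial n c =>
      rw [eval₂_monomial]
      simp only [fK, Polynomial.map_monomial]
      rw [← C_mul_X_pow_eq_monomial, map_mul, map_pow, AdjoinRoot.mk_X, AdjoinRoot.mk_C]
      rfl
  rw [h3, ← map_mul, ← sq]
  have h4 : AdjoinRoot.mk (fK f) (b₀ ^ 2 - fK (C (C u) * a)) = 0 := AdjoinRoot.mk_eq_zero.mpr hdvd
  rw [map_sub, sub_eq_zero] at h4
  exact h4.symm

end Pool.Agent.Helper54.GT
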