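import Pool.Agent.Helper54.GT.StA

/-!
# GT, part A, module CHR: characters of products of symmetric groups
-/

set_option autoImplicit false

namespace Pool.Agent.Helper54.GT

/-- A character of a symmetric group is trivial or the sign. -/
theorem hom_CHR {α : Type} [Fintype α] [DecidableEq α] (f : Equiv.Perm α → ℤˣ)
    (hf : ∀ σ τ, f (σ * τ) = f σ * f τ) :
    (∀ σ, f σ = 1) ∨ ∀ σ, f σ = Equiv.Perm.sign σ := by
  classical
  let s : Equiv.Perm α →* ℤˣ := MonoidHom.mk' f hf
  by_cases hs : Function.Surjective s
  · right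
    intro σ
    have h := Equiv.Perm.eq_sign_of_surjective_hom hs
    have h2 : s σ = Equiv.Perm.sign σ := by rw [h]
    exact h2
  · left
    intro σ
    rcases Int.units_eq_one_or (f σ) with h | h
    · exact h
    · exfalso
      apply hs
      intro u
      rcases Int.units_eq_one_or u with hu | hu
      · exact ⟨1, by rw [hu]; exact map_one s⟩
      · exact ⟨σ, by rw [hu]; exact h⟩

/-- The product formula, for a subgroup given by the predicate `H`. -/
theorem prod_CHR {ι : Type} [Fintype ι] [DecidableEq ι] {n : ι → ℕ}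
    (φ : (∀ i, Equiv.Perm (Fin (n i))) → ℤˣ) (H : (∀ i, Equiv.Perm (Fin (n i))) → Prop)
    (hφ : ∀ σ τ, H σ → H τ → φ (σ * τ) = φ σ * φ τ)
    (h1 : H 1) (hres : ∀ σ, H σ → ∀ S : Finset ι, H (fun i => if i ∈ S then σ i else 1))
    (hchar : ∀ i, (∀ ρ, H (Pi.mulSingle i ρ) → φ (Pi.mulSingle i ρ) = 1) ∨
      ∀ ρ, H (Pi.mulSingle i ρ) → φ (Pi.mulSingle i ρ) = Equiv.Perm.sign ρ) :
    ∃ T : Finset ι, ∀ σ, H σ → φ σ = ∏ i ∈ T, Equiv.Perm.sign (σ i) := by
  classical
  have hone : φ 1 = 1 := by
    have h := hφ 1 1 h1 h1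
    rw [mul_one] at h
    have h3 : φ 1 * 1 = φ 1 * φ 1 := by rw [mul_one]; exact h
    exact (mul_left_cancel h3).symm
  -- single factors
  have hsing : ∀ σ, H σ → ∀ i, H (Pi.mulSingle i (σ i)) := by
    intro σ hσ i
    have h := hres σ hσ {i}
    have he : (fun j => if j ∈ ({i} : Finset ι) then σ j else 1) = Pi.mulSingle i (σ i) := by
      funext j
      by_cases hj : j = i
      · subst hj
        simp
      · simp [hj]
    rw [he] at h
    exact h
  let T : Finset ι := Finset.univ.filter
    (fun i => ∀ ρ, H (Pi.mulSingle i ρ) → φ (Pi.mulSingle i ρ) = Equiv.Perm.sign ρ)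
  refine ⟨T, ?_⟩
  intro σ hσ
  have key : ∀ S : Finset ι, φ (fun i => if i ∈ S then σ i else 1) =
      ∏ i ∈ S, φ (Pi.mulSingle i (σ i)) := by
    intro S
    induction S using Finset.induction_on with
    | empty =>
      have he : (fun i => if i ∈ (∅ : Finset ι) then σ i else 1) = 1 := by
        funext j
        simp
      rw [he, hone]
      simp
    | insert a S ha ih =>
      have he : (fun i => if i ∈ insert a S then σ i else 1) =
          Pi.mulSingle a (σ a) * (fun i => if i ∈ S then σ i else 1) := by
        funext j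
        by_cases hj : j = a
        · subst hj
          simp [ha]
        · simp [hj]
      rw [he, hφ _ _ (hsing σ hσ a) (hres σ hσ S), ih, Finset.prod_insert ha]
  have hall := key Finset.univ
  have he : (fun i => if i ∈ (Finset.univ : Finset ι) then σ i else 1) = σ := by
    funext j
    simp
  rw [he] at hall
  rw [hall]
  rw [← Finset.prod_subset (Finset.subset_univ T)]
  · apply Finset.prod_congr rfl
    intro i hi
    have hi2 := (Finset.mem_filter.mp hi).2
    exact hi2 (σ i) (hsing σ hσ i)
  · intro i _ hi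
    rcases hchar i with h | h
    · exact h (σ i) (hsing σ hσ i)
    · exact absurd (Finset.mem_filter.mpr ⟨Finset.mem_univ i, h⟩) hi

/-- A permutation fixing `b₀` comes from the other points. -/
theorem sub_CHR {m : ℕ} (b₀ : Fin m) (ρ : Equiv.Perm (Fin m)) (hρ : ρ b₀ = b₀) :
    ∃ τ : Equiv.Perm {b : Fin m // b ≠ b₀}, Equiv.Perm.ofSubtype τ = ρ := by
  have h1 : ∀ x, ρ x ≠ b₀ ↔ x ≠ b₀ := by
    intro x
    constructor
    · intro hx hx2
      exact hx (by rw [hx2, hρ])
    · intro hx hx2
      exact hx (ρ.injective (by rw [hx2, hρ]))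
  exact ⟨ρ.subtypePerm h1, Equiv.Perm.ofSubtype_subtypePerm (p := fun x => x ≠ b₀) h1 (by
    intro x hx hx2
    exact hx (by rw [hx2, hρ]))⟩

theorem aCHR : StCHR := by
  intro ι _ _ n φ
  constructor
  · intro hφ
    obtain ⟨T, hT⟩ := prod_CHR φ (fun _ => True) (fun σ τ _ _ => hφ σ τ) trivial
      (fun _ _ _ => trivial) (by
        intro i
        rcases hom_CHR (fun ρ : Equiv.Perm (Fin (n i)) => φ (Pi.mulSingle i ρ)) (by
          intro σ τ
          show φ (Pi.mulSingle i (σ * τ)) = _
          rw [Pi.mulSingle_mul, hφ]) with h | h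
        · exact Or.inl fun ρ _ => h ρ
        · exact Or.inr fun ρ _ => h ρ)
    exact ⟨T, fun σ => hT σ trivial⟩
  · intro i₀ b₀ hφ
    obtain ⟨T, hT⟩ := prod_CHR φ (fun σ => σ i₀ b₀ = b₀) hφ (by simp) (by
        intro σ hσ S
        by_cases h : i₀ ∈ S
        · simpa [h] using hσ
        · simp [h]) (by
        intro i
        by_cases hi : i = i₀
        · subst hi
          rcases hom_CHR (fun ρ : Equiv.Perm {b : Fin (n i) // b ≠ b₀} =>
            φ (Pi.mulSingle i (Equiv.Perm.ofSubtype ρ))) (by
              intro σ τ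
              show φ (Pi.mulSingle i (Equiv.Perm.ofSubtype (σ * τ))) = _
              rw [map_mul, Pi.mulSingle_mul]
              apply hφ
              · rw [Pi.mulSingle_eq_same]
                exact Equiv.Perm.ofSubtype_apply_of_not_mem σ (by simp)
              · rw [Pi.mulSingle_eq_same]
                exact Equiv.Perm.ofSubtype_apply_of_not_mem τ (by simp)) with h | h
          · left
            intro ρ hρ
            rw [Pi.mulSingle_eq_same] at hρ
            obtain ⟨τ, hτ⟩ := sub_CHR b₀ ρ hρ
            have h3 := h τ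
            rw [hτ] at h3
            exact h3
          · right
            intro ρ hρ
            rw [Pi.mulSingle_eq_same] at hρ
            obtain ⟨τ, hτ⟩ := sub_CHR b₀ ρ hρ
            have h3 := h τ
            rw [← Equiv.Perm.sign_ofSubtype, hτ] at h3
            exact h3
        · rcases hom_CHR (fun ρ : Equiv.Perm (Fin (n i)) => φ (Pi.mulSingle i ρ)) (by
            intro σ τ
            show φ (Pi.mulSingle i (σ * τ)) = _
            rw [Pi.mulSingle_mul]
            apply hφ
            · rw [Pi.mulSingle_eq_of_ne (Ne.symm hi)]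
              rfl
            · rw [Pi.mulSingle_eq_of_ne (Ne.symm hi)]
              rfl) with h | h
          · exact Or.inl fun ρ _ => h ρ
          · exact Or.inr fun ρ _ => h ρ)
    exact ⟨T, hT⟩

end Pool.Agent.Helper54.GT
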