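import Pool.Agent.Helper54.GT.StA

/-!
# GT, part A, module DIV: monic divisors over a finite field and Frobenius invariant sets of roots
-/

set_option autoImplicit false

namespace Pool.Agent.Helper54.GT

open Polynomial Module Finset Filter Topology
open Pool.Agent.Helper3.HY (TType)

/-- a Frobenius power as a ring homomorphism -/
private theorem frob_DIV {κ k : Type} [Field κ] [Fintype κ] [Field k] (j : κ →+* k) :
    ∃ φ : k →+* k, (∀ z, φ z = z ^ Fintype.card κ) ∧ ∀ a : κ, φ (j a) = j a := by
  obtain ⟨p, hp⟩ := CharP.exists κ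
  obtain ⟨m, hm1, hm2⟩ := FiniteField.card κ p
  have : CharP k p := charP_of_injective_ringHom j.injective p
  have : Fact p.Prime := ⟨hm1⟩
  refine ⟨iterateFrobenius k p m, fun z => ?_, fun a => ?_⟩
  · rw [iterateFrobenius_def, hm2]
  · rw [iterateFrobenius_def, ← hm2, ← map_pow, FiniteField.pow_card]

/-- the fixed points of the Frobenius power -/
private theorem fix_DIV {κ k : Type} [Field κ] [Fintype κ] [Field k] (j : κ →+* k) (z : k)
    (hz : z ^ Fintype.card κ = z) : ∃ a, j a = z := by
  classical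
  by_contra hcon
  push Not at hcon
  have hP0 : (X ^ Fintype.card κ - X : k[X]) ≠ 0 :=
    FiniteField.X_pow_card_sub_X_ne_zero k Fintype.one_lt_card
  have hdeg : (X ^ Fintype.card κ - X : k[X]).natDegree = Fintype.card κ :=
    FiniteField.X_pow_card_sub_X_natDegree_eq k Fintype.one_lt_card
  have hsub : (insert z (univ.image j)).val ⊆ (X ^ Fintype.card κ - X : k[X]).roots := by
    intro w hw
    rw [Finset.mem_val, mem_insert, mem_image] at hw
    rw [mem_roots hP0, IsRoot.def, eval_sub, eval_pow, eval_X, sub_eq_zero]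
    rcases hw with rfl | ⟨a, _, rfl⟩
    · exact hz
    · rw [← map_pow, FiniteField.pow_card]
  have hc := card_le_degree_of_subset_roots hsub
  rw [hdeg, card_insert_of_notMem, card_image_of_injective _ j.injective, card_univ] at hc
  · omega
  · intro h
    rw [mem_image] at h
    obtain ⟨a, _, ha⟩ := h
    exact hcon a ha

private theorem two_DIV {κ k : Type} [Field κ] [Field k] (j : κ →+* k) (ψ ψ' : κ[X]) (z : k)
    (h1 : ψ.Monic) (h2 : Irreducible ψ) (h3 : ψ'.Monic) (h4 : Irreducible ψ')
    (h5 : ψ.eval₂ j z = 0) (h6 : ψ'.eval₂ j z = 0) : ψ = ψ' := by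
  have hd : ψ ∣ ψ' := by
    by_contra hnd
    obtain ⟨a, b, hab⟩ := (h2.coprime_iff_not_dvd).mpr hnd
    have := congrArg (eval₂ j z) hab
    rw [eval₂_add, eval₂_mul, eval₂_mul, h5, h6, eval₂_one] at this
    simp at this
  exact eq_of_monic_of_associated h1 h3 ((h2.dvd_irreducible_iff_associated h4).mp hd)

private theorem factor_DIV {κ k : Type} [Field κ] [Field k] (j : κ →+* k) (h : κ[X]) (z : k)
    (hm : h.Monic) (hz : h.eval₂ j z = 0) :
    ∃ ψ : κ[X], ψ.Monic ∧ Irreducible ψ ∧ ψ ∣ h ∧ ψ.eval₂ j z = 0 := by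
  let _ := j.toAlgebra
  have hint : IsIntegral κ z := ⟨h, hm, hz⟩
  exact ⟨minpoly κ z, minpoly.monic hint, minpoly.irreducible hint, minpoly.dvd κ z hz,
    minpoly.aeval κ z⟩

open Classical in
/-- the main facts -/
private theorem facts_DIV {κ k : Type} [Field κ] [Fintype κ] [Field k] (j : κ →+* k) (n : ℕ)
    (h : κ[X]) (τ : Fin n → k) (σ : Equiv.Perm (Fin n)) (hj : h.map j = ∏ b, (X - C (τ b)))
    (hτ : Function.Injective τ) (hσ : ∀ b, τ b ^ Fintype.card κ = τ (σ b)) :
    (∀ T : Finset (Fin n), T.map σ.toEmbedding = T →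
      ∃ p : κ[X], p.Monic ∧ p.map j = ∏ b ∈ T, (X - C (τ b)) ∧ p.natDegree = T.card) ∧
    (∀ ψ : κ[X], (univ.filter (fun b => ψ.eval₂ j (τ b) = 0)).map σ.toEmbedding =
      univ.filter (fun b => ψ.eval₂ j (τ b) = 0)) ∧
    (∀ (ψ : κ[X]) (T : Finset (Fin n)), ψ ≠ 0 → (∀ b ∈ T, ψ.eval₂ j (τ b) = 0) →
      T.card ≤ ψ.natDegree) ∧
    (∀ (T : Finset (Fin n)) (ψ : κ[X]), ψ.map j ∣ ∏ b ∈ T, (X - C (τ b)) → ¬ IsUnit ψ →
      ∃ b ∈ T, ψ.eval₂ j (τ b) = 0) := by
  obtain ⟨φ, hφ, hφj⟩ := frob_DIV j
  refine ⟨fun T hT => ?_, fun ψ => ?_, fun ψ T hψ hroot => ?_, fun T ψ hd hu => ?_⟩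
  · have hmon : (∏ b ∈ T, (X - C (τ b))).Monic := monic_prod_of_monic _ _ (fun b _ => monic_X_sub_C _)
    have hfix : (∏ b ∈ T, (X - C (τ b))).map φ = ∏ b ∈ T, (X - C (τ b)) := by
      rw [Polynomial.map_prod]
      conv_rhs => rw [← hT, prod_map]
      apply prod_congr rfl
      intro b _
      rw [Polynomial.map_sub, map_X, map_C, hφ, hσ]
      rfl
    have hl : (∏ b ∈ T, (X - C (τ b))) ∈ lifts j := by
      rw [lifts_iff_coeff_lifts]
      intro i
      have h1 : φ ((∏ b ∈ T, (X - C (τ b))).coeff i) = (∏ b ∈ T, (X - C (τ b))).coeff i := by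
        rw [← coeff_map, hfix]
      rw [hφ] at h1
      exact fix_DIV j _ h1
    obtain ⟨p, hp1, hp2, hp3⟩ := lifts_and_natDegree_eq_and_monic hl hmon
    refine ⟨p, hp3, hp1, ?_⟩
    rw [hp2, natDegree_prod_of_monic _ _ (fun b _ => monic_X_sub_C _)]
    simp
  · apply Finset.eq_of_subset_of_card_le
    · intro b hb
      rw [Finset.mem_map] at hb
      obtain ⟨b', hb', rfl⟩ := hb
      rw [mem_filter] at hb' ⊢
      refine ⟨mem_univ _, ?_⟩
      have h1 := hom_eval₂ ψ j φ (τ b')
      rw [hb'.2, map_zero, hφ, hσ] at h1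
      have h2 : φ.comp j = j := RingHom.ext hφj
      rw [h2] at h1
      exact h1.symm
    · rw [card_map]
  · have hψ' : ψ.map j ≠ 0 := (Polynomial.map_ne_zero_iff j.injective).mpr hψ
    have hsub : (T.image τ).val ⊆ (ψ.map j).roots := by
      intro w hw
      rw [Finset.mem_val, mem_image] at hw
      obtain ⟨b, hb, rfl⟩ := hw
      rw [mem_roots hψ', IsRoot.def, eval_map]
      exact hroot b hb
    have hc := card_le_degree_of_subset_roots hsub
    rwa [card_image_of_injective _ hτ, natDegree_map] at hc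
  · have hu' : ¬ IsUnit (ψ.map j) := by
      intro h1
      apply hu
      rw [isUnit_iff_degree_eq_zero] at h1 ⊢
      rwa [degree_map] at h1
    obtain ⟨r, hr1, hr2, hr3⟩ := exists_monic_irreducible_factor (ψ.map j) hu'
    obtain ⟨b, hb, hrb⟩ := (hr2.prime).exists_mem_finset_dvd (hr3.trans hd)
    refine ⟨b, hb, ?_⟩
    have h1 : r = X - C (τ b) := eq_of_monic_of_associated hr1 (monic_X_sub_C _)
      ((hr2.dvd_irreducible_iff_associated (irreducible_X_sub_C _)).mp hrb)
    rw [h1, dvd_iff_isRoot, IsRoot.def, eval_map] at hr3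
    exact hr3

theorem aDIV : StDIV := by
  classical
  intro κ k _ _ _ j n h τ σ hm hj hτ hσ
  obtain ⟨F1, F2, F3, F4⟩ := facts_DIV j n h τ σ hj hτ hσ
  have hh0 : h ≠ 0 := hm.ne_zero
  have hhdeg : h.natDegree = n := by
    rw [← natDegree_map j, hj, natDegree_prod_of_monic _ _ (fun b _ => monic_X_sub_C _)]
    simp
  have hroot : ∀ b, h.eval₂ j (τ b) = 0 := by
    intro b
    rw [← eval_map, hj, eval_prod]
    exact prod_eq_zero (mem_univ b) (by simp)
  have hdvd : ∀ (p : κ[X]) (T : Finset (Fin n)), p.map j = ∏ b ∈ T, (X - C (τ b)) → p ∣ h := by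
    intro p T hp
    rw [← map_dvd_map' j, hp, hj]
    exact prod_dvd_prod_of_subset _ _ _ (subset_univ _)
  refine ⟨?_, ?_, ?_⟩
  · -- counting
    choose m hm1 hm2 hm3 hm4 using fun b => factor_DIV j h (τ b) hm (hroot b)
    have hΨ : {ψ : κ[X] | ψ.Monic ∧ Irreducible ψ ∧ ψ ∣ h} = ((univ.image m : Finset κ[X]) : Set κ[X]) := by
      ext ψ
      rw [Set.mem_ofPred_eq, coe_image, coe_univ, Set.image_univ, Set.mem_range]
      constructor
      · rintro ⟨h1, h2, h3⟩
        have h4 : ψ.map j ∣ ∏ b ∈ univ, (X - C (τ b)) := by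
          rw [← hj]; exact Polynomial.map_dvd j h3
        obtain ⟨b, _, hb⟩ := F4 univ ψ h4 h2.not_isUnit
        exact ⟨b, two_DIV j _ _ (τ b) (hm1 b) (hm2 b) h1 h2 (hm4 b) hb⟩
      · rintro ⟨b, rfl⟩
        exact ⟨hm1 b, hm2 b, hm3 b⟩
    have hT : {T : Finset (Fin n) | T.map σ.toEmbedding = T} =
        (fun S : Finset κ[X] => univ.filter (fun b => m b ∈ S)) ''
          (((univ.image m).powerset : Finset (Finset κ[X])) : Set (Finset κ[X])) := by
      ext T
      rw [Set.mem_ofPred_eq, Set.mem_image]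
      constructor
      · intro hT
        refine ⟨T.image m, ?_, ?_⟩
        · rw [mem_coe, mem_powerset]
          exact image_subset_image (subset_univ _)
        · ext b
          rw [mem_filter, mem_image]
          constructor
          · rintro ⟨_, b', hb', he⟩
            obtain ⟨p, hp1, hp2, hp3⟩ := F1 T hT
            have h1 : p.eval₂ j (τ b') = 0 := by
              rw [← eval_map, hp2, eval_prod]
              exact prod_eq_zero hb' (by simp)
            have h2 : m b' ∣ p := by
              by_contra hnd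
              obtain ⟨a, c, hac⟩ := ((hm2 b').coprime_iff_not_dvd).mpr hnd
              have := congrArg (eval₂ j (τ b')) hac
              rw [eval₂_add, eval₂_mul, eval₂_mul, h1, hm4 b', eval₂_one] at this
              simp at this
            obtain ⟨c, hc⟩ := h2
            have h3 : p.eval₂ j (τ b) = 0 := by
              rw [hc, eval₂_mul, he, hm4 b, zero_mul]
            rw [← eval_map, hp2, eval_prod, prod_eq_zero_iff] at h3
            obtain ⟨b'', hb'', h4⟩ := h3
            rw [eval_sub, eval_X, eval_C, sub_eq_zero] at h4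
            rw [hτ h4]
            exact hb''
          · intro hb
            exact ⟨mem_univ _, b, hb, rfl⟩
      · rintro ⟨S, _, rfl⟩
        apply Finset.eq_of_subset_of_card_le
        · intro b hb
          rw [Finset.mem_map] at hb
          obtain ⟨b', hb', rfl⟩ := hb
          rw [mem_filter] at hb' ⊢
          refine ⟨mem_univ _, ?_⟩
          have h1 : b' ∈ univ.filter (fun b => (m b').eval₂ j (τ b) = 0) :=
            mem_filter.mpr ⟨mem_univ _, hm4 b'⟩
          have h2 : σ b' ∈ univ.filter (fun b => (m b').eval₂ j (τ b) = 0) := by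
            rw [← F2 (m b'), Finset.mem_map]
            exact ⟨b', h1, rfl⟩
          have h3 := (mem_filter.mp h2).2
          have h4 : m (σ b') = m b' :=
            two_DIV j _ _ (τ (σ b')) (hm1 _) (hm2 _) (hm1 _) (hm2 _) (hm4 _) h3
          show m (σ b') ∈ S
          rw [h4]
          exact hb'.2
        · rw [card_map]
    rw [hΨ, hT, Set.ncard_coe_finset, Set.InjOn.ncard_image, Set.ncard_coe_finset, card_powerset]
    intro S hS S' hS' he
    rw [mem_coe, mem_powerset] at hS hS'
    simp only at he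
    ext ψ
    constructor
    · intro hψ
      obtain ⟨b, _, rfl⟩ := mem_image.mp (hS hψ)
      have : b ∈ univ.filter (fun b => m b ∈ S) := mem_filter.mpr ⟨mem_univ _, hψ⟩
      rw [he] at this
      exact (mem_filter.mp this).2
    · intro hψ
      obtain ⟨b, _, rfl⟩ := mem_image.mp (hS' hψ)
      have : b ∈ univ.filter (fun b => m b ∈ S') := mem_filter.mpr ⟨mem_univ _, hψ⟩
      rw [← he] at this
      exact (mem_filter.mp this).2
  · intro hn
    constructor
    · intro hT
      have hnu : ¬ IsUnit h := by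
        intro h1
        rw [isUnit_iff_degree_eq_zero, degree_eq_natDegree hh0, hhdeg] at h1
        have : n = 0 := by exact_mod_cast h1
        omega
      obtain ⟨ψ, h1, h2, h3⟩ := exists_monic_irreducible_factor h hnu
      have h4 : ψ.map j ∣ ∏ b ∈ univ, (X - C (τ b)) := by
        rw [← hj]; exact Polynomial.map_dvd j h3
      obtain ⟨b, _, hb⟩ := F4 univ ψ h4 h2.not_isUnit
      have h5 := hT _ (F2 ψ)
      have h6 : univ.filter (fun b => ψ.eval₂ j (τ b) = 0) = univ := by
        rcases h5 with h5 | h5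
        · exfalso
          have : b ∈ univ.filter (fun b => ψ.eval₂ j (τ b) = 0) := mem_filter.mpr ⟨mem_univ _, hb⟩
          rw [h5] at this
          exact absurd this (notMem_empty _)
        · exact h5
      have h7 : n ≤ ψ.natDegree := by
        have := F3 ψ univ h1.ne_zero (fun b hb => by
          rw [← h6] at hb; exact (mem_filter.mp hb).2)
        rwa [card_univ, Fintype.card_fin] at this
      have h8 : h = ψ := eq_of_monic_of_dvd_of_natDegree_le h1 hm h3 (by rw [hhdeg]; exact h7)
      rw [h8]; exact h2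
    · intro hirr T hT
      obtain ⟨p, hp1, hp2, hp3⟩ := F1 T hT
      rcases (dvd_iff_exists_eq_mul_left.mp (hdvd p T hp2)) with ⟨c, hc⟩
      rcases hirr.isUnit_or_isUnit hc with h1 | h1
      · right
        have h2 : p.natDegree = n := by
          have hc0 : c ≠ 0 := h1.ne_zero
          rw [← hhdeg, hc, natDegree_mul hc0 hp1.ne_zero,
            natDegree_eq_zero_of_isUnit h1, zero_add]
        rw [hp3] at h2
        rw [← card_eq_iff_eq_univ, h2, Fintype.card_fin]
      · left
        have h2 := natDegree_eq_zero_of_isUnit h1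
        rw [hp3] at h2
        exact card_eq_zero.mp h2
  · intro g b₀ hn hg hb₀ hT
    have h1 : τ b₀ ^ Fintype.card κ = τ b₀ := by rw [hσ, hb₀]
    obtain ⟨a, ha⟩ := fix_DIV j _ h1
    have h2 : X - C a ∣ h := by
      rw [dvd_iff_isRoot, IsRoot.def]
      apply j.injective
      rw [map_zero, ← eval₂_at_apply, ha]
      exact hroot b₀
    obtain ⟨p, hp⟩ := h2
    have hpm : p.Monic := by
      have : ((X - C a) * p).Monic := hp ▸ hm
      exact (monic_X_sub_C a).of_mul_monic_left this
    have hpdeg : p.natDegree = 2 * g := by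
      have : h.natDegree = 1 + p.natDegree := by
        rw [hp, (monic_X_sub_C a).natDegree_mul hpm, natDegree_X_sub_C]
      omega
    have hpj : p.map j = ∏ b ∈ univ.erase b₀, (X - C (τ b)) := by
      have h3 : (X - C (τ b₀)) * p.map j = (X - C (τ b₀)) * ∏ b ∈ univ.erase b₀, (X - C (τ b)) := by
        rw [mul_prod_erase univ (fun b => X - C (τ b)) (mem_univ b₀), ← hj, hp, Polynomial.map_mul,
          Polynomial.map_sub, map_X, map_C, ha]
      exact mul_left_cancel₀ (X_sub_C_ne_zero _) h3
    refine ⟨a, p, hpm, ?_, hpdeg, hp⟩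
    have hpu : ¬ IsUnit p := by
      intro h3
      have := natDegree_eq_zero_of_isUnit h3
      omega
    obtain ⟨ψ, q1, q2, q3⟩ := exists_monic_irreducible_factor p hpu
    have q4 : ψ.map j ∣ ∏ b ∈ univ.erase b₀, (X - C (τ b)) := by
      rw [← hpj]; exact Polynomial.map_dvd j q3
    obtain ⟨b, hb, q5⟩ := F4 _ ψ q4 q2.not_isUnit
    have q6 : b₀ ∉ univ.filter (fun b => ψ.eval₂ j (τ b) = 0) := by
      intro h3
      have h4 := (mem_filter.mp h3).2
      obtain ⟨c, hc⟩ := q4
      have h5 : (∏ b ∈ univ.erase b₀, (X - C (τ b))).eval (τ b₀) = 0 := by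
        rw [hc, eval_mul, eval_map, h4, zero_mul]
      rw [eval_prod, prod_eq_zero_iff] at h5
      obtain ⟨b', hb', h6⟩ := h5
      rw [eval_sub, eval_X, eval_C, sub_eq_zero] at h6
      exact (mem_erase.mp hb').1 (hτ h6).symm
    have q7 : univ.filter (fun b => ψ.eval₂ j (τ b) = 0) = {b₀}ᶜ := by
      rcases hT _ (F2 ψ) q6 with h5 | h5
      · exfalso
        have : b ∈ univ.filter (fun b => ψ.eval₂ j (τ b) = 0) := mem_filter.mpr ⟨mem_univ _, q5⟩
        rw [h5] at this
        exact absurd this (notMem_empty _)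
      · exact h5
    have q8 : 2 * g ≤ ψ.natDegree := by
      have := F3 ψ ({b₀}ᶜ) q1.ne_zero (fun b hb => by
        rw [← q7] at hb; exact (mem_filter.mp hb).2)
      rw [card_compl, card_singleton, Fintype.card_fin] at this
      omega
    have q9 : p = ψ := eq_of_monic_of_dvd_of_natDegree_le q1 hpm q3 (by rw [hpdeg]; exact q8)
    rw [q9]; exact q2

end Pool.Agent.Helper54.GT
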