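import Pool.Agent.Helper54.GT.StA

set_option autoImplicit false

namespace Pool.Agent.Helper54.GT

open Polynomial Finset

theorem vdm_DSC {B : Type} [Field B] (n : ℕ) (τ : Fin n → B) :
    (Matrix.vandermonde τ).det ^ 2 = ∏ b, ∏ c ∈ univ.erase b, (τ b - τ c) ∨
    (Matrix.vandermonde τ).det ^ 2 = -∏ b, ∏ c ∈ univ.erase b, (τ b - τ c) := by
  classical
  have h0 : ∀ b : Fin n, ∏ c ∈ univ.erase b, (τ b - τ c) =
      (∏ c ∈ Ioi b, (τ b - τ c)) * ∏ c ∈ Iio b, (τ b - τ c) := by
    intro b
    rw [← Finset.prod_union]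
    · congr 1
      ext c
      simp only [mem_erase, mem_univ, and_true, mem_union, mem_Ioi, mem_Iio]
      constructor
      · intro h; exact lt_or_gt_of_ne (Ne.symm h)
      · rintro (h | h)
        · exact ne_of_gt h
        · exact ne_of_lt h
    · rw [Finset.disjoint_left]
      intro c hc hc'
      rw [mem_Ioi] at hc
      rw [mem_Iio] at hc'
      exact lt_asymm hc hc'
  have h1 : ∏ b : Fin n, ∏ c ∈ Iio b, (τ b - τ c) = (Matrix.vandermonde τ).det := by
    rw [Matrix.det_vandermonde]
    apply Finset.prod_comm'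
    intro x y
    simp
  have h2 : ∃ s : B, (s = 1 ∨ s = -1) ∧
      ∏ b : Fin n, ∏ c ∈ Ioi b, (τ b - τ c) = s * (Matrix.vandermonde τ).det := by
    refine ⟨∏ b : Fin n, (-1 : B) ^ (Ioi b).card, ?_, ?_⟩
    · rw [Finset.prod_pow_eq_pow_sum]
      exact neg_one_pow_eq_or B _
    · rw [Matrix.det_vandermonde, ← Finset.prod_mul_distrib]
      refine Finset.prod_congr rfl fun b _ => ?_
      rw [← Finset.prod_const, ← Finset.prod_mul_distrib]
      refine Finset.prod_congr rfl fun c _ => ?_
      ring
  obtain ⟨s, hs, h2⟩ := h2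
  have h3 : ∏ b, ∏ c ∈ univ.erase b, (τ b - τ c) = s * (Matrix.vandermonde τ).det ^ 2 := by
    simp_rw [h0]
    rw [Finset.prod_mul_distrib, h1, h2]
    ring
  rw [h3]
  rcases hs with rfl | rfl
  · left; ring
  · right; ring

theorem ev_DSC {B : Type} [Field B] (n : ℕ) (τ : Fin n → B) (b : Fin n) :
    eval (τ b) (derivative (∏ c, (X - C (τ c)))) = ∏ c ∈ univ.erase b, (τ b - τ c) := by
  classical
  rw [derivative_prod_finset, eval_finsetSum, Finset.sum_eq_single b]
  · simp [eval_prod]
  · intro c _ hcb
    rw [eval_mul, eval_prod, Finset.prod_eq_zero (i := b)]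
    · simp
    · simp [Ne.symm hcb]
    · simp
  · simp

theorem aDSC : StDSC := by
  intro F _ f B _ φ n τ hf hn hfac
  classical
  rcases Nat.eq_zero_or_pos n with h0 | hpos
  · subst h0
    left
    have : f = 1 := by
      exact Polynomial.eq_one_of_monic_natDegree_zero hf hn
    rw [this]
    have h1 : (1 : F[X][X]) = C 1 := by simp
    rw [h1, discr_C]
    simp [Matrix.det_isEmpty]
  · have hdeg : 0 < f.degree := by
      rw [← natDegree_pos_iff_degree_pos, hn]; exact hpos
    have h1 := resultant_deriv hdeg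
    rw [hf.leadingCoeff, mul_one, hn] at h1
    have h2 := congrArg φ h1
    rw [← resultant_map_map, ← derivative_map, hfac] at h2
    have hnd : (∏ b, (X - C (τ b))).natDegree = n := by
      rw [natDegree_prod_of_monic _ _ (fun b _ => monic_X_sub_C _)]
      simp
    have h3 : (∏ b, (X - C (τ b))).resultant (derivative (∏ b, (X - C (τ b)))) n (n - 1) =
        ∏ b, ∏ c ∈ univ.erase b, (τ b - τ c) := by
      have h4 := resultant_prod_left (univ : Finset (Fin n)) (fun b => (X - C (τ b) : B[X]))
        (derivative (∏ b, (X - C (τ b)))) (n - 1) (by simp) (by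
          refine (natDegree_derivative_le _).trans ?_
          rw [hnd])
      rw [hnd] at h4
      rw [h4]
      refine Finset.prod_congr rfl fun b _ => ?_
      rw [natDegree_X_sub_C, resultant_X_sub_C_left, ev_DSC]
      refine (natDegree_derivative_le _).trans ?_
      rw [hnd]
    rw [h3] at h2
    rw [map_mul, map_pow, map_neg, map_one] at h2
    rcases vdm_DSC n τ with h5 | h5 <;> rcases neg_one_pow_eq_or B (n * (n - 1) / 2) with h6 | h6 <;>
      rw [h5, h2, h6]
    · left; ring
    · right; ring
    · right; ring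
    · left; ring

end Pool.Agent.Helper54.GT
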