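import Pool.Agent.Helper54.GT.StA

/-!
# GT, part A: the residue field in the algebraic closure
-/

set_option autoImplicit false

namespace Pool.Agent.Helper54.GT

open Polynomial Module Finset Filter Topology
open Pool.Agent.Helper54.PT (Prm prm)
open Pool.Agent.Helper3.HY (fK RR LL kp red TType)

/-- the residue field in the algebraic closure -/
theorem aEB : StEB := by
  intro F _ _ P t ht
  have hfin : Module.Finite F (kp P) := (AdjoinRoot.powerBasis' P.2.1).finite
  have h1 : Finite (kp P) := Module.finite_of_finite F
  refine ⟨h1, ?_, AdjoinRoot.lift (algebraMap F (kk F)) t ht, fun p => ?_⟩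
  · rw [Module.natCard_eq_pow_finrank (K := F), (AdjoinRoot.powerBasis' P.2.1).finrank,
      AdjoinRoot.powerBasis'_dim, Nat.card_eq_fintype_card]
  · exact AdjoinRoot.lift_mk ht p

end Pool.Agent.Helper54.GT
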