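import Pool.Agent.Helper54.GT.StA

set_option autoImplicit false

namespace Pool.Agent.Helper54.GT

open Polynomial Module

theorem aFIX : StFIX := by
  intro K Ω _ _ _ _ h2 L x hx hs
  by_contra hxL
  have hac : IsAlgClosed Ω := IsAlgClosure.isAlgClosed K
  have halg : Algebra.IsAlgebraic K Ω := IsAlgClosure.isAlgebraic
  have halgL : Algebra.IsAlgebraic L Ω := Algebra.IsAlgebraic.tower_top (K := K) L
  have hnorm : Normal L Ω := by
    have : IsAlgClosure L Ω := ⟨hac, halgL⟩
    infer_instance
  have hxne : x ∉ Set.range (algebraMap L Ω) := by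
    rintro ⟨y, rfl⟩
    exact hxL y.2
  have hint : IsIntegral L x := Algebra.IsIntegral.isIntegral x
  set a : L := ⟨x ^ 2, hx⟩ with ha
  have hmon : (X ^ 2 - C a : L[X]).Monic := monic_X_pow_sub_C a two_ne_zero
  have hroot : aeval x (X ^ 2 - C a : L[X]) = 0 := by
    simp [ha, IntermediateField.algebraMap_apply]
  have hdeg2 : 2 ≤ (minpoly L x).natDegree := by
    rw [minpoly.two_le_natDegree_iff hint]
    exact hxne
  have hmp : minpoly L x = X ^ 2 - C a := by
    have hdvd := minpoly.dvd L x hroot
    refine (eq_of_monic_of_dvd_of_natDegree_le (minpoly.monic hint) hmon hdvd ?_).symm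
    rw [natDegree_X_pow_sub_C]
    exact hdeg2
  have hroot' : aeval (-x) (X ^ 2 - C a : L[X]) = 0 := by
    simp [ha, IntermediateField.algebraMap_apply]
  have hconj : IsConjRoot L x (-x) := by
    rw [isConjRoot_iff_aeval_eq_zero hint, hmp]
    exact hroot'
  obtain ⟨σ, hσ⟩ := hconj.exists_algEquiv
  have h1 : (σ.restrictScalars K) (-x) = -x := by
    have h3 := hs (σ.restrictScalars K) (fun l hl => by
      have := σ.commutes ⟨l, hl⟩
      exact this)
    rw [map_neg, h3]
  have h4 : (σ.restrictScalars K) (-x) = x := hσ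
  have h5 : -x = x := h1.symm.trans h4
  have h6 : (2 : Ω) * x = 0 := by
    have : x + x = 0 := by nth_rewrite 1 [← h5]; exact neg_add_cancel x
    rw [two_mul]; exact this
  have h7 : (2 : Ω) ≠ 0 := by
    intro h
    apply h2
    apply (algebraMap K Ω).injective
    rw [map_ofNat, map_zero]
    exact h
  have h8 : x = 0 := (mul_eq_zero.1 h6).resolve_left h7
  exact hxL (h8 ▸ zero_mem L)

end Pool.Agent.Helper54.GT
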