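import Pool.Agent.Helper54.GT.StA

set_option autoImplicit false

namespace Pool.Agent.Helper54.GT

open Polynomial Module Finset Filter Topology
open Pool.Agent.Helper54.PT (Prm prm)
open Pool.Agent.Helper3.HY (fK RR LL kp red TType)
open Pool.Agent.Helper3.GT (Gd GdF HypF facs TyI TyT Rp GeoSn StFAC)

private theorem card_rootSet_le_GAL {K : Type} [Field K] (h : K[X]) (E : Type) [Field E]
    [Algebra K E] : Nat.card (h.rootSet E) ≤ h.natDegree := by
  classical
  rw [Nat.card_coe_set_eq, rootSet_def, Set.ncard_coe_finset]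
  refine (Multiset.toFinset_card_le _).trans ?_
  refine (card_roots' _).trans ?_
  rw [natDegree_map]

private theorem lift_GAL {K E Ω : Type} [Field K] [Field E] [Field Ω] [Algebra K E] [Algebra K Ω]
    [Normal K Ω] (j : E →ₐ[K] Ω) (ϕ : E ≃ₐ[K] E) : ∃ s : Ω ≃ₐ[K] Ω, ∀ x, s (j x) = j (ϕ x) := by
  let _ : Algebra E Ω := j.toRingHom.toAlgebra
  have : IsScalarTower K E Ω := IsScalarTower.of_algebraMap_eq fun x => (j.commutes x).symm
  exact ⟨ϕ.liftNormal Ω, fun x => AlgEquiv.liftNormal_commutes ϕ Ω x⟩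

private theorem fac_GAL {Ω : Type} [Field Ω] (q : Polynomial Ω) (hq : q.Monic) (n : ℕ)
    (hn : q.natDegree = n) (θ : Fin n → Ω) (hθ : Function.Injective θ)
    (hr : ∀ b, q.eval (θ b) = 0) : q = ∏ b, (X - C (θ b)) := by
  have h1 : (univ.val.map θ) ≤ q.roots := by
    rw [Multiset.le_iff_subset ((Multiset.nodup_map_iff_of_injective hθ).2 univ.nodup)]
    intro x hx
    obtain ⟨b, -, rfl⟩ := Multiset.mem_map.1 hx
    exact (mem_roots hq.ne_zero).2 (hr b)
  have h2 : q.roots.card ≤ (univ.val.map θ).card := by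
    refine (card_roots' _).trans ?_
    rw [hn, Multiset.card_map]
    simp
  have h3 := Multiset.eq_of_le_of_card_le h1 h2
  have h4 : q.roots.card = q.natDegree := by
    rw [← h3, hn, Multiset.card_map]
    simp
  have h5 := prod_multiset_X_sub_C_of_monic_of_roots_card_eq hq h4
  rw [← h5, ← h3, Multiset.map_map]
  rfl

private theorem key_GAL {K Ω : Type} [Field K] [Field Ω] [Algebra K Ω] [IsAlgClosed Ω]
    [Normal K Ω] {ι : Type} [Fintype ι] (n : ι → ℕ) (h : ι → K[X])
    (hm : ∀ i, (h i).Monic) (hd : ∀ i, (h i).natDegree = n i) (hn : ∀ i, 2 ≤ n i)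
    (hG : Nat.card (∏ i, h i).Gal = ∏ i, (n i).factorial) :
    ∃ θ : ∀ i, Fin (n i) → Ω, (∀ i, Function.Injective (θ i)) ∧
      (∀ i, (h i).map (algebraMap K Ω) = ∏ b, (X - C (θ i b))) ∧
      ∀ σ : (∀ i, Equiv.Perm (Fin (n i))), ∃ s : Ω ≃ₐ[K] Ω, ∀ i b, s (θ i b) = θ i (σ i b) := by
  classical
  obtain ⟨H, hH⟩ : ∃ H : K[X], H = ∏ i, h i := ⟨_, rfl⟩
  rw [← hH] at hG
  have hH0 : H ≠ 0 := by
    rw [hH]
    exact (monic_prod_of_monic _ _ fun i _ => hm i).ne_zero
  have hsp : ∀ j, ((h j).map (algebraMap K H.SplittingField)).Splits := fun j =>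
    (SplittingField.splits H).of_dvd (map_ne_zero hH0)
      ((map_dvd_map' _).mpr (by rw [hH]; exact Finset.dvd_prod_of_mem _ (Finset.mem_univ j)))
  have hfact : ∀ j, Fact (((h j).map (algebraMap K H.SplittingField)).Splits) := fun j => ⟨hsp j⟩
  obtain ⟨Φ, hΦ⟩ : ∃ Φ : (H.SplittingField ≃ₐ[K] H.SplittingField) →*
      ∀ j, Equiv.Perm ((h j).rootSet H.SplittingField),
      Φ = MonoidHom.pi fun j => (Gal.galActionHom (h j) H.SplittingField).comp
        (Gal.restrict (h j) H.SplittingField) := ⟨_, rfl⟩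
  have hΦ1 : ∀ (ϕ : H.SplittingField ≃ₐ[K] H.SplittingField) (j : ι)
      (x : (h j).rootSet H.SplittingField), ((Φ ϕ j x : _) : H.SplittingField) = ϕ x := by
    intro ϕ j x
    rw [hΦ]
    exact Gal.galActionHom_restrict (h j) H.SplittingField ϕ x
  have hinj : Function.Injective Φ := by
    rw [injective_iff_map_eq_one]
    intro ϕ hϕ
    refine Gal.ext (p := H) (σ := ϕ) (τ := (1 : H.Gal)) ?_
    intro x hx
    rw [mem_rootSet_of_ne hH0] at hx
    have hx2 : aeval x (∏ i, h i) = 0 := by
      rw [← hH]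
      exact hx
    rw [map_prod, Finset.prod_eq_zero_iff] at hx2
    obtain ⟨j, -, hj⟩ := hx2
    have hx' : x ∈ (h j).rootSet H.SplittingField :=
      (mem_rootSet_of_ne (hm j).ne_zero).2 hj
    have h1 := hΦ1 ϕ j ⟨x, hx'⟩
    rw [hϕ] at h1
    exact h1.symm
  have hfin : ∀ j, Finite ((h j).rootSet H.SplittingField) := fun j => by
    exact (rootSet_finite (h j) H.SplittingField).to_subtype
  have hle : ∀ j, (Nat.card ((h j).rootSet H.SplittingField)).factorial ≤
      (n j).factorial := fun j => by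
    rw [← hd j]
    exact Nat.factorial_le (card_rootSet_le_GAL (h j) H.SplittingField)
  have hcardpi : Nat.card (∀ j, Equiv.Perm ((h j).rootSet H.SplittingField)) =
      ∏ j, (Nat.card ((h j).rootSet H.SplittingField)).factorial := by
    rw [Nat.card_pi]
    exact Finset.prod_congr rfl fun j _ => Nat.card_perm
  have hG' : Nat.card (H.SplittingField ≃ₐ[K] H.SplittingField) =
    ∏ i, (n i).factorial := hG
  have hcle : ∏ i, (n i).factorial ≤
      ∏ j, (Nat.card ((h j).rootSet H.SplittingField)).factorial := by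
    rw [← hG', ← hcardpi]
    exact Nat.card_le_card_of_injective Φ hinj
  have heq : ∀ j, Nat.card ((h j).rootSet H.SplittingField) = n j := by
    intro j
    by_contra hne
    have hlt : (Nat.card ((h j).rootSet H.SplittingField)).factorial <
        (n j).factorial := by
      refine lt_of_le_of_ne (hle j) fun he => hne ?_
      exact (Nat.factorial_inj' (Or.inr (hn j))).1 he
    have := Finset.prod_lt_prod (s := Finset.univ)
      (f := fun j => (Nat.card ((h j).rootSet H.SplittingField)).factorial)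
      (g := fun j => (n j).factorial) (fun j _ => Nat.factorial_pos _)
      (fun j _ => hle j) ⟨j, Finset.mem_univ _, hlt⟩
    omega
  have hsurj : Function.Surjective Φ := by
    refine (hinj.bijective_of_nat_card_le ?_).2
    rw [hcardpi, hG']
    exact (Finset.prod_congr rfl fun j _ => by rw [heq j]).le
  -- number the roots
  have hex : ∀ i, Nonempty (Fin (n i) ≃ (h i).rootSet H.SplittingField) := fun i =>
    ⟨(Finite.equivFinOfCardEq (heq i)).symm⟩
  let e : ∀ i, Fin (n i) ≃ (h i).rootSet H.SplittingField := fun i => (hex i).some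
  obtain ⟨j⟩ : Nonempty (H.SplittingField →ₐ[K] Ω) :=
    ⟨SplittingField.lift H (IsAlgClosed.splits _)⟩
  refine ⟨fun i b => j (e i b), fun i b b' hb => (e i).injective (Subtype.ext (j.injective hb)),
    fun i => ?_, fun σ => ?_⟩
  · refine fac_GAL _ ((hm i).map _) (n i) (by rw [(hm i).natDegree_map, hd i]) _
      (fun b b' hb => (e i).injective (Subtype.ext (j.injective hb))) fun b => ?_
    rw [eval_map_algebraMap, aeval_algHom_apply, (mem_rootSet_of_ne (hm i).ne_zero).1 (e i b).2,
      map_zero]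
  · obtain ⟨ϕ, hϕ⟩ := hsurj fun i => ((e i).symm.trans (σ i)).trans (e i)
    obtain ⟨s, hs⟩ := lift_GAL j ϕ
    refine ⟨s, fun i b => ?_⟩
    show s (j (e i b)) = j (e i (σ i b))
    rw [hs, ← hΦ1 ϕ i (e i b), hϕ]
    simp

theorem aGAL : StGAL := by
  intro F _ _ h2 ι _ g f hf
  have hm : ∀ i, (fK (exC (f i))).Monic := fun i => ((hf.monic i).map _).map _
  have hnd : ∀ i, (fK (exC (f i))).natDegree = 2 * g i + 1 := fun i => by
    rw [← hf.deg i]
    rw [fK, exC, ((hf.monic i).map _).natDegree_map, (hf.monic i).natDegree_map]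
  obtain ⟨θ, h1, h3, h4⟩ := key_GAL (K := KK F) (Ω := Om F) (fun i => 2 * g i + 1)
    (fun i => fK (exC (f i))) hm hnd (fun i => by have := hf.one_le i; show 2 ≤ 2 * g i + 1; omega)
    (by
      have h5 : ∏ i, fK (exC (f i)) =
          fK ((∏ i, f i).map (mapRingHom (algebraMap F (AlgebraicClosure F)))) := by
        rw [fK, Polynomial.map_prod, Polynomial.map_prod]
        rfl
      rw [h5, hf.geo]
      exact Finset.prod_congr rfl fun i _ => by rw [hf.deg i])
  refine ⟨θ, h1, fun i => ?_, h4⟩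
  rw [← h3 i, fK, exC, Polynomial.map_map, Polynomial.map_map]
  congr 1

end Pool.Agent.Helper54.GT

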