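import Pool.Agent.Helper54.GT.StA

/-!
# GT, module A_IRB: irreducibility over the geometric function field
-/

set_option autoImplicit false

namespace Pool.Agent.Helper54.GT

open Polynomial Module Finset Filter Topology
open Pool.Agent.Helper54.PT (Prm prm)
open Pool.Agent.Helper3.HY (fK RR LL kp red TType)
open Pool.Agent.Helper3.GT (Gd GdF HypF facs TyI TyT Rp GeoSn StFAC)

variable {F : Type} [Field F]

theorem map_IRB (f : F[X][X]) :
    (fK (exC f)).map (algebraMap (KK F) (Om F)) = f.map (em F) := by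
  unfold exC em
  rw [Polynomial.map_map, Polynomial.map_map]
  congr 1

theorem minpoly_IRB {ι : Type} [Fintype ι] {g : ι → ℕ} {f : ι → F[X][X]}
    {θ : ∀ i, Fin (2 * g i + 1) → Om F} (h : Rts g f θ) (hm : ∀ i, (f i).Monic) (i : ι)
    (b : Fin (2 * g i + 1)) : minpoly (KK F) (θ i b) = fK (exC (f i)) := by
  classical
  have hmon : (fK (exC (f i))).Monic := ((hm i).map _).map _
  have hmap : (fK (exC (f i))).map (algebraMap (KK F) (Om F)) = ∏ c, (X - C (θ i c)) := by
    rw [map_IRB]
    exact h.fac i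
  have hroot : ∀ c, aeval (θ i c) (fK (exC (f i))) = 0 := by
    intro c
    rw [aeval_def, eval₂_eq_eval_map, hmap, eval_prod]
    refine Finset.prod_eq_zero (Finset.mem_univ c) ?_
    rw [eval_sub, eval_X, eval_C, sub_self]
  have hint : IsIntegral (KK F) (θ i b) := ⟨_, hmon, hroot b⟩
  have h1 : minpoly (KK F) (θ i b) ∣ fK (exC (f i)) := minpoly.dvd _ _ (hroot b)
  have h2 : ∀ c, aeval (θ i c) (minpoly (KK F) (θ i b)) = 0 := by
    intro c
    obtain ⟨s, hs⟩ := h.gal (fun j => if hj : j = i then hj ▸ Equiv.swap b c else 1)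
    have h3 : s (θ i b) = θ i c := by
      rw [hs]
      simp
    rw [← h3]
    have h4 := minpoly.aeval (KK F) (θ i b)
    have h5 : aeval (s (θ i b)) (minpoly (KK F) (θ i b)) =
        s (aeval (θ i b) (minpoly (KK F) (θ i b))) :=
      Polynomial.aeval_algHom_apply s (θ i b) (minpoly (KK F) (θ i b))
    rw [h5, h4, map_zero]
  have h3 : ∏ c, (X - C (θ i c)) ∣ (minpoly (KK F) (θ i b)).map (algebraMap (KK F) (Om F)) := by
    refine Finset.prod_dvd_of_coprime ?_ ?_
    · intro c _ d _ hcd
      exact pairwise_coprime_X_sub_C (h.inj i) hcd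
    · intro c _
      rw [dvd_iff_isRoot, IsRoot.def, ← eval₂_eq_eval_map]
      exact h2 c
  rw [← hmap] at h3
  have h4 : fK (exC (f i)) ∣ minpoly (KK F) (θ i b) := (map_dvd_map' _).1 h3
  exact eq_of_monic_of_associated (minpoly.monic hint) hmon (associated_of_dvd_dvd h1 h4)

theorem aIRB : StIRB := by
  intro F _ ι _ g f θ h hm i
  constructor
  · have hb := minpoly_IRB h hm i ⟨0, by omega⟩
    rw [← hb]
    refine minpoly.irreducible ?_
    by_contra hn
    rw [minpoly.eq_zero hn] at hb
    have hmon : (fK (exC (f i))).Monic := ((hm i).map _).map _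
    exact hmon.ne_zero hb.symm
  · intro b p
    rw [← minpoly_IRB h hm i b]
    exact (minpoly.dvd_iff).symm

end Pool.Agent.Helper54.GT
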