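import Pool.Agent.Helper54.GT.StA

/-!
# GT, module KD: independence of the square root of `d`
-/

set_option autoImplicit false

namespace Pool.Agent.Helper54.GT

open Polynomial Module Finset Filter Topology
open Pool.Agent.Helper54.PT (Prm prm)

/-- The action of an automorphism on the Vandermonde determinant. -/
theorem vand_KD {F : Type} [Field F] {n : ℕ} (θ : Fin n → Om F) (s : Om F ≃ₐ[KK F] Om F)
    (σ : Equiv.Perm (Fin n)) (h : ∀ b, s (θ b) = θ (σ b)) :
    s (Matrix.vandermonde θ).det =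
      ((Equiv.Perm.sign σ : ℤ) : Om F) * (Matrix.vandermonde θ).det := by
  have h1 : s (Matrix.vandermonde θ).det = (s.toRingEquiv.toRingHom.mapMatrix
      (Matrix.vandermonde θ)).det := by
    rw [← RingHom.map_det]; rfl
  have h2 : s.toRingEquiv.toRingHom.mapMatrix (Matrix.vandermonde θ) =
      (Matrix.vandermonde θ).submatrix σ id := by
    ext a b
    simp only [RingHom.mapMatrix_apply, Matrix.map_apply, Matrix.vandermonde_apply,
      Matrix.submatrix_apply, id_eq]
    show s (θ a ^ (b : ℕ)) = _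
    rw [map_pow, h]
  rw [h1, h2, Matrix.det_permute]

/-- The signs are determined by their images. -/
theorem unit_KD {K : Type} [Field K] (h2 : (2 : K) ≠ 0) {a b : ℤˣ}
    (h : ((a : ℤ) : K) = ((b : ℤ) : K)) : a = b := by
  have h3 : (1 : K) ≠ -1 := by
    intro h3
    apply h2
    linear_combination h3
  rcases Int.units_eq_one_or a with rfl | rfl <;> rcases Int.units_eq_one_or b with rfl | rfl
  · rfl
  · exfalso; apply h3; simpa using h
  · exfalso; apply h3; simpa using h.symm
  · rfl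

/-- A square has no simple zero. -/
theorem simple_KD {k : Type} [Field k] (z P v : k[X]) (t : k) (h : z ^ 2 = P * v)
    (h1 : P.eval t = 0) (h2 : P.derivative.eval t ≠ 0) (h3 : v.eval t ≠ 0) : False := by
  have h4 : z.eval t = 0 := by
    have h5 := congrArg (Polynomial.eval t) h
    rw [eval_pow, eval_mul, h1, zero_mul] at h5
    exact pow_eq_zero_iff (two_ne_zero) |>.mp h5
  have h6 := congrArg (fun q => (derivative q).eval t) h
  simp only [derivative_pow, derivative_mul, eval_add, eval_mul, h1, zero_mul, add_zero] at h6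
  rw [eval_pow, h4] at h6
  simp at h6
  rcases h6 with h6 | h6
  · exact h2 h6
  · exact h3 h6

/-- A root of `P` is not a root of a polynomial which `P` does not divide. -/
theorem root_KD {F : Type} [Field F] (P q : F[X]) (hP : Irreducible P) (t : kk F)
    (ht : (P.map (algebraMap F (kk F))).eval t = 0) (hq : ¬ P ∣ q) :
    (q.map (algebraMap F (kk F))).eval t ≠ 0 := by
  intro h
  obtain ⟨a, b, hab⟩ := (hP.coprime_iff_not_dvd).2 hq
  have h1 := congrArg (fun p => (p.map (algebraMap F (kk F))).eval t) hab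
  simp only [Polynomial.map_add, Polynomial.map_mul, Polynomial.map_one, eval_add, eval_mul,
    eval_one, ht, h, mul_zero, add_zero] at h1
  exact zero_ne_one h1

/-- A root of a separable polynomial is simple. -/
theorem sep_KD {F : Type} [Field F] [Finite F] (P : F[X]) (hP : Squarefree P) (t : kk F)
    (ht : (P.map (algebraMap F (kk F))).eval t = 0) :
    (derivative (P.map (algebraMap F (kk F)))).eval t ≠ 0 := by
  intro h
  have h0 : P.Separable := (PerfectField.separable_iff_squarefree).2 hP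
  obtain ⟨a, b, hab⟩ := h0.map (f := algebraMap F (kk F))
  have h1 := congrArg (fun p => p.eval t) hab
  simp only [eval_add, eval_mul, eval_one, ht, h, mul_zero, add_zero] at h1
  exact zero_ne_one h1

/-- `em F` through `KK F`. -/
theorem em_KD {F : Type} [Field F] (p : F[X]) : em F p = algebraMap (KK F) (Om F)
    (algebraMap (kk F)[X] (KK F) (p.map (algebraMap F (kk F)))) := by
  rw [← IsScalarTower.algebraMap_apply]
  rfl

theorem em_inj_KD {F : Type} [Field F] : Function.Injective (em F) := by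
  intro a b h
  rw [em_KD, em_KD] at h
  have h1 := (algebraMap (KK F) (Om F)).injective h
  have h2 := (RatFunc.algebraMap_injective (kk F)) h1
  exact Polynomial.map_injective _ (algebraMap F (kk F)).injective h2

/-- A square in `Om F` of a fixed element is a square of a polynomial. -/
theorem square_KD {F : Type} [Field F] (h3 : StFIX) (h2 : (2 : F) ≠ 0) (R : Om F) (p : F[X])
    (hR : R ^ 2 = em F p) (hs : ∀ s : Om F ≃ₐ[KK F] Om F, s R = R) :
    ∃ z : (kk F)[X], z ^ 2 = p.map (algebraMap F (kk F)) := by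
  have h20 : (2 : KK F) ≠ 0 := by
    intro h
    apply h2
    have h4 : algebraMap (kk F) (KK F) (algebraMap F (kk F) 2) = 0 := by
      rw [map_ofNat, map_ofNat]; exact h
    have h5 := (map_eq_zero_iff _ (algebraMap (kk F) (KK F)).injective).1 h4
    exact (map_eq_zero_iff _ (algebraMap F (kk F)).injective).1 h5
  have h4 : R ∈ (⊥ : IntermediateField (KK F) (Om F)) := by
    refine h3 (KK F) (Om F) h20 ⊥ R ?_ (fun s _ => hs s)
    rw [hR, em_KD]
    exact (⊥ : IntermediateField (KK F) (Om F)).algebraMap_mem _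
  obtain ⟨y, hy⟩ := IntermediateField.mem_bot.1 h4
  have h5 : y ^ 2 = algebraMap (kk F)[X] (KK F) (p.map (algebraMap F (kk F))) := by
    apply (algebraMap (KK F) (Om F)).injective
    rw [map_pow, hy, hR, em_KD]
  have h6 : IsIntegral (kk F)[X] y := by
    refine IsIntegral.of_pow (n := 2) (by norm_num) ?_
    rw [h5]
    exact isIntegral_algebraMap
  obtain ⟨z, hz⟩ := IsIntegrallyClosed.isIntegral_iff.1 h6
  refine ⟨z, ?_⟩
  apply RatFunc.algebraMap_injective (kk F)
  rw [map_pow, hz, h5]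

/-- The sign character of `r`. -/
theorem char_KD {F : Type} [Field F] (h2 : (2 : F) ≠ 0) {ι : Type} [Fintype ι] {g : ι → ℕ}
    {f : ι → F[X][X]} {θ : ∀ i, Fin (2 * g i + 1) → Om F} (hR : Rts g f θ) (r : Om F)
    (hr0 : r ≠ 0) (hr : ∀ s : Om F ≃ₐ[KK F] Om F, s r = r ∨ s r = -r)
    (hfix : ∀ s : Om F ≃ₐ[KK F] Om F, (∀ i b, s (θ i b) = θ i b) → s r = r) :
    ∃ φ : (∀ i, Equiv.Perm (Fin (2 * g i + 1))) → ℤˣ,
      (∀ σ τ, φ (σ * τ) = φ σ * φ τ) ∧
      ∀ (s : Om F ≃ₐ[KK F] Om F) (σ : ∀ i, Equiv.Perm (Fin (2 * g i + 1))),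
        (∀ i b, s (θ i b) = θ i (σ i b)) → s r = (((φ σ : ℤˣ) : ℤ) : Om F) * r := by
  classical
  have h20 : (2 : Om F) ≠ 0 := by
    intro h
    apply h2
    apply (em_inj_KD (F := F)).comp (Polynomial.C_injective)
    simp only [Function.comp_apply, map_ofNat, map_zero]
    exact h
  choose S hS using hR.gal
  have key : ∀ (s : Om F ≃ₐ[KK F] Om F) (σ : ∀ i, Equiv.Perm (Fin (2 * g i + 1))),
      (∀ i b, s (θ i b) = θ i (σ i b)) → s r = S σ r := by
    intro s σ hs
    have h4 : (S σ).symm (s r) = r := by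
      refine hfix (s.trans (S σ).symm) ?_
      intro i b
      show (S σ).symm (s (θ i b)) = θ i b
      rw [hs, ← hS, AlgEquiv.symm_apply_apply]
    rw [← h4, AlgEquiv.apply_symm_apply, h4]
  have hφ : ∀ σ, S σ r = (((if S σ r = r then (1 : ℤˣ) else -1 : ℤˣ) : ℤ) : Om F) * r := by
    intro σ
    by_cases h : S σ r = r
    · rw [if_pos h]; simpa using h
    · rw [if_neg h]
      simpa using (hr (S σ)).resolve_left h
  refine ⟨fun σ => if S σ r = r then 1 else -1, ?_, ?_⟩
  · intro σ τ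
    apply unit_KD h20
    apply mul_right_cancel₀ hr0
    rw [← hφ, Units.val_mul, Int.cast_mul, mul_assoc, mul_comm, mul_assoc]
    have h5 : S (σ * τ) r = S σ (S τ r) := by
      refine (key ((S τ).trans (S σ)) (σ * τ) ?_).symm
      intro i b
      show S σ (S τ (θ i b)) = _
      rw [hS, hS]
      rfl
    rw [h5, hφ τ, map_mul, map_intCast, hφ σ]
    ring
  · intro s σ hs
    rw [key s σ hs]
    exact hφ σ

/-- (KD) -/
theorem aKD (h1 : StPRM) (h2 : StCHR) (h3 : StFIX) (h4 : StDSC) : StKD := by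
  classical
  intro F _ _ h20 ι _ g f θ hg hf hR hdeg d hd hsq hd1 hP r hr
  have hr0 : r ≠ 0 := by
    intro h
    rw [h, zero_pow two_ne_zero] at hr
    exact hd.ne_zero (em_inj_KD (by rw [← hr, map_zero]))
  have hrs : ∀ s : Om F ≃ₐ[KK F] Om F, s r = r ∨ s r = -r := by
    intro s
    apply sq_eq_sq_iff_eq_or_eq_neg.1
    rw [← map_pow, hr, em_KD, AlgEquiv.commutes]
  by_contra hcon
  push Not at hcon
  have hfix : ∀ s : Om F ≃ₐ[KK F] Om F, (∀ i b, s (θ i b) = θ i b) → s r = r :=
    fun s hs => (hrs s).resolve_right (hcon s hs)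
  obtain ⟨φ, hmul, hφ⟩ := char_KD h20 hR r hr0 hrs hfix
  obtain ⟨T, hT⟩ := (h2 ι (fun i => 2 * g i + 1) φ).1 hmul
  have hinv : ∀ s : Om F ≃ₐ[KK F] Om F, s (r * ∏ i ∈ T, (Matrix.vandermonde (θ i)).det) =
      r * ∏ i ∈ T, (Matrix.vandermonde (θ i)).det := by
    intro s
    obtain ⟨σ, hσ⟩ := h1 F ι g f θ hR s
    rw [map_mul, map_prod, hφ s σ hσ, hT,
      Finset.prod_congr rfl (fun i _ => vand_KD (θ i) s (σ i) (hσ i)),
      Finset.prod_mul_distrib]
    have h5 : (((∏ i ∈ T, Equiv.Perm.sign (σ i) : ℤˣ) : ℤ) : Om F) =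
        ∏ i ∈ T, ((Equiv.Perm.sign (σ i) : ℤ) : Om F) := by
      rw [Units.coe_prod, Int.cast_prod]
    have h6 : (((∏ i ∈ T, Equiv.Perm.sign (σ i) : ℤˣ) : ℤ) : Om F) *
        (((∏ i ∈ T, Equiv.Perm.sign (σ i) : ℤˣ) : ℤ) : Om F) = 1 := by
      rw [← Int.cast_mul, ← Units.val_mul, Int.units_mul_self, Units.val_one, Int.cast_one]
    rw [← h5]
    linear_combination (r * ∏ i ∈ T, (Matrix.vandermonde (θ i)).det) * h6
  -- the square
  have hε : ∀ i, ∃ e : F[X], (e = 1 ∨ e = -1) ∧
      (Matrix.vandermonde (θ i)).det ^ 2 = em F (e * (f i).discr) := by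
    intro i
    rcases h4 F (f i) (Om F) (em F) (2 * g i + 1) (θ i) (hf i) (hdeg i) (hR.fac i) with h | h
    · exact ⟨1, Or.inl rfl, by rw [h, one_mul]⟩
    · exact ⟨-1, Or.inr rfl, by rw [h, neg_one_mul, map_neg]⟩
  choose e he1 he2 using hε
  have hR2 : (r * ∏ i ∈ T, (Matrix.vandermonde (θ i)).det) ^ 2 =
      em F (d * ∏ i ∈ T, (e i * (f i).discr)) := by
    rw [mul_pow, hr, ← Finset.prod_pow, map_mul, map_prod,
      Finset.prod_congr rfl (fun i _ => he2 i)]
  obtain ⟨z, hz⟩ := square_KD h3 h20 _ _ hR2 hinv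
  have hev : ∀ (t : kk F) (i : ι), ((e i).map (algebraMap F (kk F))).eval t ≠ 0 := by
    intro t i
    rcases he1 i with h | h
    · rw [h]; simp
    · rw [h]; simp
  have hroot : ∀ P : F[X], P.Monic → P ≠ 1 → ∃ t : kk F,
      (P.map (algebraMap F (kk F))).eval t = 0 := by
    intro P hPm hP1
    obtain ⟨t, ht⟩ := IsAlgClosed.exists_root (P.map (algebraMap F (kk F))) (by
      rw [Polynomial.degree_map]
      intro h
      exact hP1 (Polynomial.eq_one_of_monic_natDegree_zero hPm
        (Polynomial.natDegree_eq_of_degree_eq_some h)))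
    exact ⟨t, ht⟩
  rcases T.eq_empty_or_nonempty with hT0 | ⟨i, hi⟩
  · obtain ⟨t, ht⟩ := hroot d hd hd1
    refine simple_KD z (d.map (algebraMap F (kk F))) 1 t ?_ ht (sep_KD d hsq t ht) (by simp)
    rw [hz, hT0]
    simp
  · obtain ⟨P, hP1, hP2, hP3, hP4⟩ := hP i
    obtain ⟨u, hu⟩ := hP1
    obtain ⟨t, ht⟩ := hroot P.1 P.2.1 (fun h => P.2.2.not_isUnit (by rw [h]; exact isUnit_one))
    have hPu : ¬ P.1 ∣ u := by
      rintro ⟨w, hw⟩
      apply hP2
      rw [hu, hw]
      exact ⟨w, by ring⟩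
    have hform : d * ∏ j ∈ T, (e j * (f j).discr) =
        P.1 * (d * (e i * u) * ∏ j ∈ T.erase i, (e j * (f j).discr)) := by
      rw [← Finset.mul_prod_erase T _ hi, hu]
      ring
    rw [hform, Polynomial.map_mul] at hz
    refine simple_KD z _ _ t hz ht (sep_KD P.1 P.2.2.squarefree t ht) ?_
    rw [Polynomial.map_mul, Polynomial.map_mul, Polynomial.map_mul, Polynomial.map_prod,
      eval_mul, eval_mul, eval_mul, eval_prod]
    refine mul_ne_zero (mul_ne_zero (root_KD P.1 d P.2.2 t ht hP4)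
      (mul_ne_zero (hev t i) (root_KD P.1 u P.2.2 t ht hPu))) (Finset.prod_ne_zero_iff.2 ?_)
    intro j hj
    rw [Polynomial.map_mul, eval_mul]
    exact mul_ne_zero (hev t j) (root_KD P.1 _ P.2.2 t ht (hP3 j (Finset.ne_of_mem_erase hj)))

end Pool.Agent.Helper54.GT
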