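import Pool.Agent.Helper54.GT.StA

/-!
# GT, part A: first step of the independence (KIa)
-/

set_option autoImplicit false

namespace Pool.Agent.Helper54.GT

open Polynomial Module Finset Filter Topology

section

variable {F : Type} [Field F] {ι : Type} {g : ι → ℕ}

/-- Fixed by all automorphisms which fix the roots. -/
def Fx_KIa (θ : ∀ i, Fin (2 * g i + 1) → Om F) (x : Om F) : Prop :=
  ∀ s : Om F ≃ₐ[KK F] Om F, (∀ i b, s (θ i b) = θ i b) → s x = x

theorem fx_mul_KIa {θ : ∀ i, Fin (2 * g i + 1) → Om F} {x y : Om F} (hx : Fx_KIa θ x)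
    (hy : Fx_KIa θ y) : Fx_KIa θ (x * y) := by
  intro s hs
  rw [map_mul, hx s hs, hy s hs]

theorem fx_div_KIa {θ : ∀ i, Fin (2 * g i + 1) → Om F} {x y : Om F} (hx : Fx_KIa θ x)
    (hy : Fx_KIa θ y) : Fx_KIa θ (x / y) := by
  intro s hs
  rw [map_div₀, hx s hs, hy s hs]

theorem fx_pow_KIa {θ : ∀ i, Fin (2 * g i + 1) → Om F} {x : Om F} (hx : Fx_KIa θ x) (n : ℕ) :
    Fx_KIa θ (x ^ n) := by
  intro s hs
  rw [map_pow, hx s hs]

theorem fx_prod_KIa {θ : ∀ i, Fin (2 * g i + 1) → Om F} {I : Type} (S : Finset I) (x : I → Om F)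
    (hx : ∀ i ∈ S, Fx_KIa θ (x i)) : Fx_KIa θ (∏ i ∈ S, x i) := by
  intro s hs
  rw [map_prod]
  exact Finset.prod_congr rfl fun i hi => hx i hi s hs

theorem fx_conj_KIa {θ : ∀ i, Fin (2 * g i + 1) → Om F} {x : Om F} (hx : Fx_KIa θ x)
    (t : Om F ≃ₐ[KK F] Om F) (σ : ∀ i, Equiv.Perm (Fin (2 * g i + 1)))
    (ht : ∀ i b, t (θ i b) = θ i (σ i b)) : Fx_KIa θ (t x) := by
  intro s hs
  have h1 := hx ((t.trans s).trans t.symm) (by
    intro i b
    rw [AlgEquiv.trans_apply, AlgEquiv.trans_apply, ht, hs, ← ht, AlgEquiv.symm_apply_apply])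
  rw [AlgEquiv.trans_apply, AlgEquiv.trans_apply] at h1
  have h2 := congrArg t h1
  rw [AlgEquiv.apply_symm_apply] at h2
  exact h2

theorem pw_KIa (z : Om F) {k : ℕ} (hk : 1 ≤ k) : z ^ (2 * k) = z * (z ^ (k - 1)) ^ 2 * z := by
  obtain ⟨l, rfl⟩ : ∃ l, k = l + 1 := ⟨k - 1, by omega⟩
  rw [Nat.add_sub_cancel]
  ring

theorem val_KIa (z : ZMod 2) : z.val = if z ≠ 0 then 1 else 0 := by
  fin_cases z <;> rfl

theorem rv_sq_KIa {I : Type} [Fintype I] (α ρ : I → Om F) (hρ : ∀ b, ρ b ^ 2 = α b)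
    (v : I → ZMod 2) : rv ρ v ^ 2 = ∏ b ∈ univ.filter (fun b => v b ≠ 0), α b := by
  unfold rv
  rw [← Finset.prod_pow, Finset.prod_filter]
  refine Finset.prod_congr rfl fun b _ => ?_
  rw [← pow_mul, mul_comm, pow_mul, hρ, val_KIa]
  by_cases h : v b ≠ 0
  · rw [if_pos h, if_pos h, pow_one]
  · rw [if_neg h, if_neg h, pow_zero]

end

theorem aKIa (_h1 : StPRM) : StKIa := by
  classical
  intro F _ h2 ι _ g f θ hg hR i₀ α ρ s₀ hα hρ heq hs₀ hs₀f v hv0 hv hfix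
  have hfix' : Fx_KIa θ (rv ρ v) := hfix
  -- the `α b` are fixed
  have hαf : ∀ b, Fx_KIa θ (α b) := by
    intro b s hs
    exact heq s (fun i => 1) (fun i b => hs i b) b
  -- automorphisms inducing a permutation of the roots of `f i₀`
  have hgal : ∀ π : Equiv.Perm (Fin (2 * g i₀ + 1)), ∃ (s : Om F ≃ₐ[KK F] Om F)
      (σ : ∀ i, Equiv.Perm (Fin (2 * g i + 1))), (∀ i b, s (θ i b) = θ i (σ i b)) ∧
      ∀ b, s (α b) = α (π b) := by
    intro π
    obtain ⟨s, hs⟩ := hR.gal (Function.update (fun i => 1) i₀ π)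
    refine ⟨s, _, hs, fun b => ?_⟩
    have := heq s _ hs b
    rw [Function.update_self] at this
    exact this
  set S : Finset (Fin (2 * g i₀ + 1)) := univ.filter (fun b => v b ≠ 0) with hS
  have hrv := rv_sq_KIa α ρ hρ v
  rw [← hS] at hrv
  -- the two points
  obtain ⟨x, hx⟩ : ∃ x, x ∈ S := by
    by_contra hcon
    push Not at hcon
    apply hv
    funext b
    by_contra hb
    exact hcon b (by rw [hS, Finset.mem_filter]; exact ⟨Finset.mem_univ _, hb⟩)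
  obtain ⟨y, hy⟩ : ∃ y, y ∉ S := by
    by_contra hcon
    push Not at hcon
    have h3 : ∀ b, v b = 1 := by
      intro b
      have h4 := hcon b
      rw [hS, Finset.mem_filter] at h4
      have h5 := h4.2
      revert h5
      generalize v b = z
      revert z
      decide
    rw [Finset.sum_congr rfl (fun b _ => h3 b)] at hv0
    rw [Finset.sum_const, Finset.card_univ, Fintype.card_fin, nsmul_eq_mul, mul_one] at hv0
    push_cast at hv0
    have h6 : (2 : ZMod 2) = 0 := rfl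
    rw [h6, zero_mul, zero_add] at hv0
    exact one_ne_zero hv0
  have hxy : x ≠ y := fun h => hy (h ▸ hx)
  -- `m` for the pair `x, y`
  have hm : ∃ m : Om F, m ^ 2 = α x * α y ∧ Fx_KIa θ m := by
    obtain ⟨s, σ, hs1, hs2⟩ := hgal (Equiv.swap x y)
    have hne : ∏ b ∈ S.erase x, α b ≠ 0 := Finset.prod_ne_zero_iff.2 fun b _ => hα b
    refine ⟨rv ρ v * s (rv ρ v) / ∏ b ∈ S.erase x, α b, ?_, ?_⟩
    · rw [div_pow, mul_pow, ← map_pow, hrv, map_prod]
      have h3 : ∏ b ∈ S, s (α b) = α y * ∏ b ∈ S.erase x, α b := by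
        rw [← Finset.mul_prod_erase S _ hx, hs2, Equiv.swap_apply_left]
        congr 1
        refine Finset.prod_congr rfl fun b hb => ?_
        rw [hs2, Equiv.swap_apply_of_ne_of_ne (Finset.ne_of_mem_erase hb)]
        rintro rfl
        exact hy (Finset.mem_of_mem_erase hb)
      have h4 : ∏ b ∈ S, α b = α x * ∏ b ∈ S.erase x, α b := (Finset.mul_prod_erase S _ hx).symm
      rw [h3, h4]
      field_simp
    · exact fx_div_KIa (fx_mul_KIa hfix' (fx_conj_KIa hfix' s σ hs1))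
        (fx_prod_KIa _ _ fun b _ => hαf b)
  obtain ⟨m, hm1, hm2⟩ := hm
  -- `m` for the pairs `0, y'`
  have hM : ∀ y' : Fin (2 * g i₀ + 1), ∃ m' : Om F, y' ≠ 0 → m' ^ 2 = α 0 * α y' ∧
      Fx_KIa θ m' := by
    intro y'
    by_cases hy' : y' = 0
    · exact ⟨0, fun h => absurd hy' h⟩
    · have hz : Equiv.swap x 0 y ≠ 0 := by
        intro h
        have h5 : Equiv.swap x 0 y = Equiv.swap x 0 x := by rw [h, Equiv.swap_apply_left]
        exact hxy ((Equiv.swap x 0).injective h5).symm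
      obtain ⟨s, σ, hs1, hs2⟩ := hgal (Equiv.swap (Equiv.swap x 0 y) y' * Equiv.swap x 0)
      refine ⟨s m, fun _ => ⟨?_, fx_conj_KIa hm2 s σ hs1⟩⟩
      rw [← map_pow, hm1, map_mul, hs2, hs2, Equiv.Perm.mul_apply, Equiv.Perm.mul_apply,
        Equiv.swap_apply_left x 0, Equiv.swap_apply_left (Equiv.swap x 0 y) y',
        Equiv.swap_apply_of_ne_of_ne (Ne.symm hz) (Ne.symm hy')]
  choose M hM using hM
  have hs₀0 : s₀ ≠ 0 := by
    intro h
    rw [h, zero_pow two_ne_zero] at hs₀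
    exact (Finset.prod_ne_zero_iff.2 fun b _ => hα b) hs₀
  refine ⟨(∏ b ∈ univ.erase (0 : Fin (2 * g i₀ + 1)), M b) / (s₀ * α 0 ^ (g i₀ - 1)), ?_, ?_⟩
  · have h3 : (∏ b ∈ univ.erase (0 : Fin (2 * g i₀ + 1)), M b) ^ 2 =
        α 0 ^ (2 * g i₀) * ∏ b ∈ univ.erase (0 : Fin (2 * g i₀ + 1)), α b := by
      rw [← Finset.prod_pow, Finset.prod_congr rfl
        (fun b hb => (hM b (Finset.ne_of_mem_erase hb)).1), Finset.prod_mul_distrib,
        Finset.prod_const, Finset.card_erase_of_mem (Finset.mem_univ _), Finset.card_univ,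
        Fintype.card_fin, Nat.add_sub_cancel]
    have h4 : α 0 * ∏ b ∈ univ.erase (0 : Fin (2 * g i₀ + 1)), α b = s₀ ^ 2 := by
      rw [← hs₀]
      exact Finset.mul_prod_erase univ α (Finset.mem_univ _)
    have h5 : α 0 ^ (2 * g i₀) = α 0 * (α 0 ^ (g i₀ - 1)) ^ 2 * α 0 := pw_KIa _ (hg i₀)
    rw [div_pow, h3, h5, div_eq_iff (pow_ne_zero 2 (mul_ne_zero hs₀0 (pow_ne_zero _ (hα 0))))]
    calc α 0 * (α 0 ^ (g i₀ - 1)) ^ 2 * α 0 *
          ∏ b ∈ univ.erase (0 : Fin (2 * g i₀ + 1)), α b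
        = α 0 * (α 0 ^ (g i₀ - 1)) ^ 2 * (α 0 *
          ∏ b ∈ univ.erase (0 : Fin (2 * g i₀ + 1)), α b) := by ring
      _ = α 0 * (s₀ * α 0 ^ (g i₀ - 1)) ^ 2 := by rw [h4]; ring
  · exact fx_div_KIa (fx_prod_KIa _ _ fun b hb => (hM b (Finset.ne_of_mem_erase hb)).2)
      (fx_mul_KIa (fun s _ => hs₀f s) (fx_pow_KIa (hαf 0) _))

end Pool.Agent.Helper54.GT
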