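import Pool.Agent.Helper54.GT.StA
import Pool.Agent.Helper54.GT.A_KIa
import Pool.Agent.Helper3.HY.Base

/-!
# GT, part A: independence of the square roots of the conjugates (KI), assembly
-/

set_option autoImplicit false

namespace Pool.Agent.Helper54.GT

open Polynomial Module Finset Filter Topology
open Pool.Agent.Helper3.HY (fK RR LL)

section

variable {F : Type} [Field F]

theorem em_apply_KI (p : F[X]) : em F p = algebraMap (KK F) (Om F)
    (algebraMap (kk F)[X] (KK F) (p.map (algebraMap F (kk F)))) := by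
  unfold em
  rw [RingHom.comp_apply, coe_mapRingHom, ← IsScalarTower.algebraMap_apply]

theorem ev_eq_KI (a : F[X][X]) (x : Om F) : aeval x (fK (exC a)) = ev a x := by
  unfold ev fK exC
  rw [aeval_def, eval₂_map, eval₂_map]
  congr 1

theorem fix_em_KI (s : Om F ≃ₐ[KK F] Om F) (p : F[X]) : s (em F p) = em F p := by
  rw [em_apply_KI, s.commutes]

theorem fix_ev_KI (s : Om F ≃ₐ[KK F] Om F) (a : F[X][X]) (x : Om F) :
    s (ev a x) = ev a (s x) := by
  rw [← ev_eq_KI, ← ev_eq_KI, ← AlgEquiv.coe_toAlgHom, ← Polynomial.aeval_algHom_apply]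

theorem exC_inj_KI : Function.Injective (fun a : F[X][X] => fK (exC a)) := by
  intro a b h
  have h1 : Function.Injective (Polynomial.map (algebraMap (kk F)[X] (KK F))) :=
    Polynomial.map_injective _ (RatFunc.algebraMap_injective _)
  have h2 : Function.Injective (Polynomial.map (mapRingHom (algebraMap F (kk F)))) :=
    Polynomial.map_injective _ (Polynomial.map_injective _ (algebraMap F (kk F)).injective)
  exact h2 (h1 h)

/-- Divisibility by a monic polynomial descends. -/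
theorem dvd_desc_KI {f a : F[X][X]} (hf : f.Monic) (h : fK (exC f) ∣ fK (exC a)) : f ∣ a := by
  have hf1 : (exC f).Monic := hf.map _
  have hf2 : (fK (exC f)).Monic := hf1.map _
  rw [← Polynomial.modByMonic_eq_zero_iff_dvd hf]
  rw [← Polynomial.modByMonic_eq_zero_iff_dvd hf2] at h
  apply exC_inj_KI
  change fK (exC (a %ₘ f)) = fK (exC 0)
  have h1 : fK (exC (a %ₘ f)) = fK (exC a) %ₘ fK (exC f) := by
    unfold fK exC
    rw [map_modByMonic _ hf]
    exact map_modByMonic _ hf1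
  rw [h1, h]
  unfold fK exC
  rw [Polynomial.map_zero, Polynomial.map_zero]

/-- A constant which is a square in the field of rational functions is a square. -/
theorem sq_const_KI {u : F} (h : IsSquare (algebraMap F[X] (RatFunc F) (C u))) : IsSquare u := by
  obtain ⟨r, hr⟩ := h
  have hint : IsIntegral F[X] r := by
    refine ⟨X ^ 2 - C (C u), monic_X_pow_sub_C _ two_ne_zero, ?_⟩
    rw [eval₂_sub, eval₂_X_pow, eval₂_C, hr, pow_two, sub_self]
  obtain ⟨p, rfl⟩ := IsIntegrallyClosed.isIntegral_iff.1 hint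
  rw [← map_mul] at hr
  have h1 := RatFunc.algebraMap_injective F hr
  have h2 : p.natDegree = 0 := by
    by_cases hp : p = 0
    · rw [hp, natDegree_zero]
    · have h3 := congrArg natDegree h1
      rw [natDegree_C, natDegree_mul hp hp] at h3
      omega
  rw [Polynomial.eq_C_of_natDegree_eq_zero h2, ← C_mul] at h1
  exact ⟨p.coeff 0, C_injective h1⟩

theorem sq_odd_KI {K : Type} [Field K] {u z : K} {k : ℕ} (hu : u ≠ 0) (hz : z ≠ 0)
    (hz2 : IsSquare z) (h : IsSquare (u ^ (2 * k + 1) * z)) : IsSquare u := by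
  obtain ⟨x, hx⟩ := hz2
  obtain ⟨y, hy⟩ := h
  have hx0 : x ≠ 0 := by
    rintro rfl
    rw [mul_zero] at hx
    exact hz hx
  refine ⟨y / (x * u ^ k), ?_⟩
  rw [div_mul_div_comm, eq_div_iff (mul_ne_zero (mul_ne_zero hx0 (pow_ne_zero _ hu))
    (mul_ne_zero hx0 (pow_ne_zero _ hu))), ← hy, hx]
  ring

end

theorem aKI (_h1 : StPRM) (h2 : StIRB) (h3 : StUN) (h4 : StKIa) (h5 : StKIb) (h6 : StKIc)
    (h7 : StCD) : StKI := by
  classical
  intro F _ _ htwo ι _ g f θ hg hmon hR i₀ hfact a hN hsq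
  have hIRB := h2 F ι g f θ hR hmon i₀
  set A := algebraMap (RR (f i₀)) (LL (f i₀)) (AdjoinRoot.mk (f i₀) a) with hA
  have hA0 : A ≠ 0 := by
    intro h
    apply hsq
    rw [h]
    exact ⟨0, by rw [mul_zero]⟩
  have hev : ∀ b, ev a (θ i₀ b) ≠ 0 := by
    intro b hb
    apply hA0
    rw [← ev_eq_KI, hIRB.2 b] at hb
    rw [hA, AdjoinRoot.mk_eq_zero.2 (dvd_desc_KI (hmon i₀) hb), map_zero]
  refine ⟨hev, ?_⟩
  intro ρ hρ v hv0 hv
  obtain ⟨s₀, hs₀⟩ := h3 F (f i₀) a (hmon i₀) hN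
  have hprod : ∏ b, ev a (θ i₀ b) = em F s₀ ^ 2 := hs₀ (Om F) (em F) _ (θ i₀) (hR.fac i₀)
  by_contra hcon
  push Not at hcon
  -- all automorphisms fixing the roots fix `rv ρ v`
  have hfix : ∀ s : Om F ≃ₐ[KK F] Om F, (∀ i b, s (θ i b) = θ i b) → s (rv ρ v) = rv ρ v := by
    intro s hs
    have e1 := rv_sq_KIa (fun b => ev a (θ i₀ b)) ρ hρ v
    have e2 : s (rv ρ v) ^ 2 = rv ρ v ^ 2 := by
      rw [← map_pow, e1, map_prod]
      exact Finset.prod_congr rfl fun b _ => by rw [fix_ev_KI, hs]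
    rcases sq_eq_sq_iff_eq_or_eq_neg.1 e2 with h | h
    · exact h
    · exact absurd h (hcon s hs)
  obtain ⟨β, hβ, hβf⟩ := h4 F htwo ι g f θ hg hR i₀ (fun b => ev a (θ i₀ b)) ρ (em F s₀) hev hρ
    (by
      intro s σ hs b
      rw [fix_ev_KI, hs])
    hprod (fun s => fix_em_KI s s₀) v hv0 hv hfix
  have hβ0 : β ≠ 0 := by
    rintro rfl
    rw [zero_pow two_ne_zero] at hβ
    exact hev 0 hβ.symm
  obtain ⟨T, b, hTb⟩ := h5 F htwo ι g f θ hg hmon hR i₀ a β hβ0 hβ hβf
  have hT := h6 F htwo ι g f θ hg hR i₀ a β (em F s₀) hev hβ hprod (fun s => fix_em_KI s s₀) T b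
    hTb
  rw [hT, Finset.prod_empty, mul_one] at hTb
  have hdvd : fK (exC (f i₀)) ∣ b ^ 2 - fK (exC a) := by
    rw [← hIRB.2 0, map_sub, map_pow, ev_eq_KI, ← hTb, hβ, sub_self]
  obtain ⟨u, hu, husq⟩ := h7 F htwo (f i₀) a (hmon i₀) hIRB.1 b hdvd
  -- the norm
  set U := algebraMap (RR (f i₀)) (LL (f i₀)) (AdjoinRoot.mk (f i₀) (C (C u))) with hU
  have hU1 : U = algebraMap (RatFunc F) (LL (f i₀)) (algebraMap F[X] (RatFunc F) (C u)) := by
    rw [hU, Pool.Agent.Helper3.HY.algebraMap_mk, map_C, AdjoinRoot.mk_C]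
    rfl
  have hUA : algebraMap (RR (f i₀)) (LL (f i₀)) (AdjoinRoot.mk (f i₀) (C (C u) * a)) = U * A := by
    rw [map_mul, map_mul]
  rw [hUA] at husq
  have hn : finrank (RatFunc F) (LL (f i₀)) = 2 * g i₀ + 1 := by
    have hm : (fK (f i₀)).Monic := (hmon i₀).map _
    have e1 : finrank (RatFunc F) (LL (f i₀)) = (fK (f i₀)).natDegree :=
      finrank_quotient_span_eq_natDegree
    have e2 : ((f i₀).map (em F)).natDegree = 2 * g i₀ + 1 := by
      rw [hR.fac i₀, natDegree_prod_of_monic _ _ fun b _ => monic_X_sub_C _]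
      simp
    rw [e1, (hmon i₀).natDegree_map, ← e2, (hmon i₀).natDegree_map]
  have hu' : (algebraMap F[X] (RatFunc F) (C u)) ≠ 0 := by
    intro h
    rw [← map_zero (algebraMap F[X] (RatFunc F))] at h
    have := RatFunc.algebraMap_injective F h
    rw [C_eq_zero] at this
    exact hu this
  have hNA : Algebra.norm (RatFunc F) A ≠ 0 := by
    have : Module.Finite (RatFunc F) (LL (f i₀)) :=
      Module.finite_of_finrank_pos (by rw [hn]; omega)
    exact Algebra.norm_ne_zero_iff.2 hA0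
  have husq' : IsSquare ((algebraMap F[X] (RatFunc F) (C u)) ^ (2 * g i₀ + 1) *
      Algebra.norm (RatFunc F) A) := by
    rw [← hn, ← Algebra.norm_algebraMap, ← hU1, ← map_mul]
    exact husq.map _
  have hsqu : IsSquare u := sq_const_KI (sq_odd_KI hu' hNA hN husq')
  obtain ⟨c, hc⟩ := hsqu
  have hc0 : c ≠ 0 := by
    rintro rfl
    rw [mul_zero] at hc
    exact hu hc
  obtain ⟨w, hw⟩ := husq
  apply hsq
  set c' : LL (f i₀) := algebraMap (RatFunc F) (LL (f i₀)) (algebraMap F[X] (RatFunc F) (C c))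
    with hc'
  have hUc : U = c' * c' := by
    rw [hU1, hc, hc', C_mul, map_mul, map_mul]
  have hc'0 : c' ≠ 0 := by
    intro h
    rw [h, mul_zero] at hUc
    rw [hUc] at hU1
    have e := (map_eq_zero (algebraMap (RatFunc F) (LL (f i₀)))).1 hU1.symm
    exact hu' e
  refine ⟨w / c', ?_⟩
  rw [div_mul_div_comm, ← hw, hUc, mul_div_cancel_left₀ _ (mul_ne_zero hc'0 hc'0)]

end Pool.Agent.Helper54.GT
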