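import Pool.Agent.Helper54.GT.StA

set_option autoImplicit false

namespace Pool.Agent.Helper54.GT

open Polynomial Module Finset
open Pool.Agent.Helper3.HY (fK RR LL kp red TType)

private theorem em_fix_KIc {F : Type} [Field F] (s : Om F ≃ₐ[KK F] Om F) (p : F[X]) :
    s (em F p) = em F p := by
  have h : em F p = algebraMap (KK F) (Om F) (algebraMap (kk F)[X] (KK F)
      (p.map (algebraMap F (kk F)))) := by
    rw [← IsScalarTower.algebraMap_apply]
    rfl
  rw [h, AlgEquiv.commutes]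

private theorem ev_map_KIc {F : Type} [Field F] (s : Om F ≃ₐ[KK F] Om F) (a : F[X][X]) (x : Om F) :
    s (ev a x) = ev a (s x) := by
  have h : (s : Om F →+* Om F).comp (em F) = em F := RingHom.ext fun p => em_fix_KIc s p
  have h2 := Polynomial.hom_eval₂ a (em F) (s : Om F →+* Om F) x
  rw [h] at h2
  exact h2

private theorem det_map_KIc {F : Type} [Field F] (s : Om F ≃ₐ[KK F] Om F) {n : ℕ}
    (τ : Fin n → Om F) (σ : Equiv.Perm (Fin n)) (h : ∀ b, s (τ b) = τ (σ b)) :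
    s (Matrix.vandermonde τ).det = (Equiv.Perm.sign σ : ℤ) * (Matrix.vandermonde τ).det := by
  have h1 : s (Matrix.vandermonde τ).det =
      ((s : Om F →+* Om F).mapMatrix (Matrix.vandermonde τ)).det := by
    rw [← RingHom.map_det]; rfl
  have h2 : (s : Om F →+* Om F).mapMatrix (Matrix.vandermonde τ) =
      (Matrix.vandermonde τ).submatrix σ id := by
    ext i j
    simp only [RingHom.mapMatrix_apply, Matrix.map_apply, Matrix.vandermonde_apply,
      Matrix.submatrix_apply, id, map_pow]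
    congr 1
    exact h i
  rw [h1, h2, Matrix.det_permute]

theorem aKIc (h1 : StPRM) : StKIc := by
  classical
  intro F _ h2 ι _ g f θ hg hR i₀ a β s₀ hα hβ hprod hs₀ T b hb
  set δ : ι → Om F := fun i => (Matrix.vandermonde (θ i)).det with hδ
  have hδ0 : ∀ i, δ i ≠ 0 := fun i => Matrix.det_vandermonde_ne_zero_iff.2 (hR.inj i)
  set Δ : Om F := ∏ i ∈ T, δ i with hΔ
  have hΔ0 : Δ ≠ 0 := prod_ne_zero_iff.2 fun i _ => hδ0 i
  have h2' : (2 : Om F) ≠ 0 := by
    intro h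
    apply h2
    apply (algebraMap F (kk F)).injective
    apply (algebraMap (kk F) (Om F)).injective
    rw [map_ofNat, map_ofNat, map_zero, map_zero]
    exact h
  have hsΔ : ∀ (s : Om F ≃ₐ[KK F] Om F) (σ : ∀ i, Equiv.Perm (Fin (2 * g i + 1))),
      (∀ i b, s (θ i b) = θ i (σ i b)) →
      s Δ = ((∏ i ∈ T, (Equiv.Perm.sign (σ i) : ℤ) : ℤ) : Om F) * Δ := by
    intro s σ h
    rw [hΔ, map_prod]
    push_cast
    rw [← prod_mul_distrib]
    refine prod_congr rfl fun i _ => ?_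
    exact det_map_KIc s (θ i) (σ i) (h i)
  have hsq : ∀ s : Om F ≃ₐ[KK F] Om F, (s Δ) ^ 2 = Δ ^ 2 := by
    intro s
    obtain ⟨σ, hσ⟩ := h1 F ι g f θ hR s
    rw [hsΔ s σ hσ, mul_pow]
    have : ((∏ i ∈ T, (Equiv.Perm.sign (σ i) : ℤ) : ℤ)) ^ 2 = 1 := by
      rw [← prod_pow]
      refine prod_eq_one fun i _ => ?_
      rcases Int.units_eq_one_or (Equiv.Perm.sign (σ i)) with h | h <;> rw [h] <;> norm_num
    have h3 : (((∏ i ∈ T, (Equiv.Perm.sign (σ i) : ℤ) : ℤ)) : Om F) ^ 2 = 1 := by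
      exact_mod_cast congrArg (Int.cast : ℤ → Om F) this
    rw [h3, one_mul]
  -- all values of b
  have hval : ∀ x, (aeval (θ i₀ x) b) ^ 2 = ev a (θ i₀ x) * Δ ^ 2 := by
    intro x
    obtain ⟨s, hs⟩ := hR.gal (Function.update 1 i₀ (Equiv.swap 0 x))
    have h3 : s (θ i₀ 0) = θ i₀ x := by
      rw [hs, Function.update_self, Equiv.swap_apply_left]
    have h4 : s (aeval (θ i₀ 0) b) = aeval (θ i₀ x) b := by
      rw [← h3]
      exact (Polynomial.aeval_algHom_apply (s : Om F →ₐ[KK F] Om F) (θ i₀ 0) b).symm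
    rw [← h4, ← hb, map_mul, mul_pow, ← map_pow s β, hβ, ev_map_KIc, h3]
    rw [show s (∏ i ∈ T, (Matrix.vandermonde (θ i)).det) = s Δ from rfl, hsq]
  set n := 2 * g i₀ + 1 with hn
  set B : Om F := ∏ x, aeval (θ i₀ x) b with hB
  have hB2 : B ^ 2 = (s₀ * Δ ^ n) ^ 2 := by
    rw [hB, ← prod_pow]
    rw [prod_congr rfl fun x _ => hval x, prod_mul_distrib, hprod, prod_const, card_univ,
      Fintype.card_fin, ← pow_mul, mul_pow, ← pow_mul, mul_comm 2 n]
  have hBs : ∀ s : Om F ≃ₐ[KK F] Om F, s B = B := by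
    intro s
    obtain ⟨σ, hσ⟩ := h1 F ι g f θ hR s
    rw [hB, map_prod]
    have : ∀ x, s (aeval (θ i₀ x) b) = aeval (θ i₀ (σ i₀ x)) b := by
      intro x
      rw [← hσ i₀ x]
      exact (Polynomial.aeval_algHom_apply (s : Om F →ₐ[KK F] Om F) (θ i₀ x) b).symm
    rw [prod_congr rfl fun x _ => this x]
    exact Equiv.prod_comp (σ i₀) fun x => aeval (θ i₀ x) b
  have hs₀0 : s₀ ≠ 0 := by
    intro h
    rw [h, zero_pow two_ne_zero, prod_eq_zero_iff] at hprod
    obtain ⟨x, -, hx⟩ := hprod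
    exact hα x hx
  have hΔn : ∀ s : Om F ≃ₐ[KK F] Om F, s (Δ ^ n) = Δ ^ n := by
    intro s
    have h3 : s (s₀ * Δ ^ n) = s₀ * Δ ^ n := by
      rcases sq_eq_sq_iff_eq_or_eq_neg.1 hB2 with h | h
      · rw [← h, hBs]
      · have h5 : s₀ * Δ ^ n = -B := by rw [h, neg_neg]
        rw [h5, map_neg, hBs]
    rw [map_mul, hs₀] at h3
    exact mul_left_cancel₀ hs₀0 h3
  by_contra hT
  obtain ⟨i, hi⟩ := nonempty_iff_ne_empty.2 hT
  have hgi := hg i
  set e0 : Fin (2 * g i + 1) := ⟨0, by omega⟩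
  set e1 : Fin (2 * g i + 1) := ⟨1, by omega⟩
  have he : e0 ≠ e1 := by
    intro h
    have := congrArg Fin.val h
    simp [e0, e1] at this
  obtain ⟨s, hs⟩ := hR.gal (Function.update 1 i (Equiv.swap e0 e1))
  have h3 : s Δ = -Δ := by
    rw [hsΔ s _ hs]
    have : (∏ j ∈ T, (Equiv.Perm.sign ((Function.update (1 : ∀ i, Equiv.Perm (Fin (2 * g i + 1))) i
        (Equiv.swap e0 e1)) j) : ℤ)) = -1 := by
      rw [prod_eq_single i]
      · rw [Function.update_self, Equiv.Perm.sign_swap he]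
        rfl
      · intro j _ hji
        rw [Function.update_of_ne hji]
        simp
      · intro h; exact absurd hi h
    rw [this]
    push_cast
    ring
  have h4 := hΔn s
  rw [map_pow, h3, Odd.neg_pow (⟨g i₀, rfl⟩ : Odd n)] at h4
  have h5 : (2 : Om F) * Δ ^ n = 0 := by
    have : Δ ^ n + Δ ^ n = 0 := by
      nth_rewrite 1 [← h4]
      exact neg_add_cancel _
    rw [two_mul]; exact this
  exact (mul_ne_zero h2' (pow_ne_zero _ hΔ0)) h5

end Pool.Agent.Helper54.GT
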