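import Pool.Agent.Helper54.GT.StA

/-!
# GT, part A: linear independence of the `w_j r_v`
-/

set_option autoImplicit false

namespace Pool.Agent.Helper54.GT

open Polynomial Module Finset

/-- The character `s ↦ s r / r` of a group of automorphisms mapping `r` to `± r`. -/
noncomputable def chiLI {K Ω : Type} [Field K] [Field Ω] [Algebra K Ω]
    (G : Subgroup (Ω ≃ₐ[K] Ω)) (r : Ω) (hr : r ≠ 0) (h : ∀ s ∈ G, s r = r ∨ s r = -r) :
    G →* Ω where
  toFun s := s.1 r / r
  map_one' := by simp [hr]
  map_mul' := by
    intro s t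
    rcases h t.1 t.2 with ht | ht
    · have h1 : (s * t).1 r = s.1 r := by
        change s.1 (t.1 r) = s.1 r
        rw [ht]
      rw [h1, ht, div_self hr, mul_one]
    · have h1 : (s * t).1 r = -s.1 r := by
        change s.1 (t.1 r) = -s.1 r
        rw [ht, map_neg]
      rw [h1, ht, neg_div, neg_div, div_self hr]
      ring

theorem aLI : StLI := by
  intro K Ω _ _ _ J V _ _ w r hw hr G hGw hGr hdist
  rw [Fintype.linearIndependent_iff]
  intro c hc
  have hm : ∀ s ∈ G, ∀ v, s (∑ j, c (j, v) • w j) = ∑ j, c (j, v) • w j := by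
    intro s hs v
    rw [map_sum]
    refine sum_congr rfl (fun j _ => ?_)
    rw [map_smul, hGw s hs]
  have h0 : ∑ v, (∑ j, c (j, v) • w j) * r v = 0 := by
    rw [← hc, Fintype.sum_prod_type_right]
    refine sum_congr rfl (fun v _ => ?_)
    rw [sum_mul]
    refine sum_congr rfl (fun j _ => ?_)
    rw [smul_mul_assoc]
  have hinj : Function.Injective (fun v => chiLI G (r v) (hr v) (fun s hs => hGr s hs v)) := by
    intro v v' hvv
    by_contra hne
    obtain ⟨s, hs, hs'⟩ := hdist v v' hne
    apply hs'
    have h1 : s (r v) / r v = s (r v') / r v' := by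
      have := DFunLike.congr_fun hvv ⟨s, hs⟩
      exact this
    rw [map_mul]
    rcases hGr s hs v with h2 | h2
    · rw [h2, div_self (hr v)] at h1
      rw [eq_comm, div_eq_one_iff_eq (hr v')] at h1
      rw [h2, h1]
    · rw [h2, neg_div, div_self (hr v)] at h1
      have h3 : s (r v') = -r v' := by
        have := (div_eq_iff (hr v')).1 h1.symm
        rw [this]
        ring
      rw [h2, h3]
      ring
  have hli := (linearIndependent_monoidHom G Ω).comp _ hinj
  rw [Fintype.linearIndependent_iff] at hli
  have hz := hli (fun v => (∑ j, c (j, v) • w j) * r v) (by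
    funext s
    have h2 : ∑ v, (∑ j, c (j, v) • w j) * r v * (s.1 (r v) / r v) = 0 := by
      have h3 : s.1 (∑ v, (∑ j, c (j, v) • w j) * r v) = 0 := by
        rw [h0, map_zero]
      rw [map_sum] at h3
      rw [← h3]
      refine sum_congr rfl (fun v _ => ?_)
      rw [map_mul, hm s.1 s.2]
      field_simp [hr v]
    simp only [Finset.sum_apply, Pi.smul_apply, smul_eq_mul, Pi.zero_apply, Function.comp]
    exact h2)
  rintro ⟨j, v⟩
  have h4 : ∑ j, c (j, v) • w j = 0 := by
    rcases mul_eq_zero.1 (hz v) with h | h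
    · exact h
    · exact absurd h (hr v)
  exact (Fintype.linearIndependent_iff.1 hw) (fun j => c (j, v)) h4 j

end Pool.Agent.Helper54.GT
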