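import Pool.Agent.Helper54.GT.StA

/-!
# GT, module A_ORD: a basis of the order generated by the roots
-/

set_option autoImplicit false

namespace Pool.Agent.Helper54.GT

open Polynomial Module Finset Filter Topology
open Pool.Agent.Helper54.PT (Prm prm)
open Pool.Agent.Helper3.HY (fK RR LL kp red TType)
open Pool.Agent.Helper3.GT (Gd GdF HypF facs TyI TyT Rp GeoSn StFAC)

variable {F : Type} [Field F]

theorem em_fix_ORD (s : Om F ≃ₐ[KK F] Om F) (p : F[X]) : s (em F p) = em F p := by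
  show s (algebraMap (kk F)[X] (Om F) _) = algebraMap (kk F)[X] (Om F) _
  rw [IsScalarTower.algebraMap_apply (kk F)[X] (KK F) (Om F)]
  exact s.commutes _

theorem em_KK_ORD (p : F[X]) : ∃ r : KK F, em F p = algebraMap (KK F) (Om F) r := by
  refine ⟨algebraMap (kk F)[X] (KK F) (mapRingHom (algebraMap F (kk F)) p), ?_⟩
  rw [← IsScalarTower.algebraMap_apply (kk F)[X] (KK F) (Om F)]
  rfl

theorem InW.mono_ORD {J : Type} [Fintype J] {w : J → Om F} {c c' : ℕ} {x : Om F}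
    (h : InW w c x) (hc : c ≤ c') : InW w c' x := by
  obtain ⟨p, hp, hx⟩ := h
  exact ⟨p, fun j => (hp j).trans hc, hx⟩

/-- The ring generated by the roots. -/
noncomputable def BR_ORD {ι : Type} {n : ι → ℕ} (θ : ∀ i, Fin (n i) → Om F) : Subring (Om F) :=
  Subring.closure (Set.range (em F) ∪ {x | ∃ i b, x = θ i b})

theorem em_mem_ORD {ι : Type} {n : ι → ℕ} (θ : ∀ i, Fin (n i) → Om F) (p : F[X]) :
    em F p ∈ BR_ORD θ := Subring.subset_closure (Or.inl ⟨p, rfl⟩)

theorem root_mem_ORD {ι : Type} {n : ι → ℕ} (θ : ∀ i, Fin (n i) → Om F) (i : ι) (b : Fin (n i)) :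
    θ i b ∈ BR_ORD θ := Subring.subset_closure (Or.inr ⟨i, b, rfl⟩)

theorem spn_ORD (h1 : StSPN) (ι : Type) [Fintype ι] (n : ι → ℕ)
    (θ : ∀ i, Fin (n i) → Om F) (h : ι → F[X][X]) (hm : ∀ i, (h i).Monic)
    (hf : ∀ i, (h i).map (em F) = ∏ b, (X - C (θ i b))) :
    ∃ w : Fin (∏ i, (n i).factorial) → Om F, (∀ j, w j ∈ BR_ORD θ) ∧
      ∀ x ∈ BR_ORD θ, ∃ c, InW w c x := by
  obtain ⟨w, hw1, hw2⟩ := @h1 F[X] (Om F) _ _ (em F).toAlgebra ι _ n θ h hm hf
  refine ⟨w, ?_, ?_⟩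
  · intro j
    exact (@Algebra.mem_adjoin_iff F[X] (Om F) _ _ (em F).toAlgebra _ _).1 (hw1 j)
  · intro x hx
    obtain ⟨p, hp⟩ := hw2 x ((@Algebra.mem_adjoin_iff F[X] (Om F) _ _ (em F).toAlgebra _ _).2 hx)
    refine ⟨Finset.univ.sup fun j => (p j).natDegree, p, ?_, ?_⟩
    · intro j
      exact Finset.le_sup (f := fun j => (p j).natDegree) (Finset.mem_univ j)
    · rw [hp]
      rfl

theorem bound_ORD {J I : Type} [Fintype J] [Finite I] {w : J → Om F} (u : I → Om F)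
    (hu : ∀ i, ∃ c, InW w c (u i)) : ∃ c, ∀ i, InW w c (u i) := by
  classical
  have := Fintype.ofFinite I
  choose c hc using hu
  refine ⟨Finset.univ.sup c, fun i => (hc i).mono_ORD (Finset.le_sup (Finset.mem_univ i))⟩

theorem fixB_ORD {ι : Type} {n : ι → ℕ} (θ : ∀ i, Fin (n i) → Om F)
    (s s' : Om F ≃ₐ[KK F] Om F) (h : ∀ i b, s (θ i b) = s' (θ i b)) (x : Om F)
    (hx : x ∈ BR_ORD θ) : s x = s' x := by
  have h1 : Set.EqOn (s : Om F →+* Om F) (s' : Om F →+* Om F)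
      (Set.range (em F) ∪ {x | ∃ i b, x = θ i b}) := by
    rintro y (⟨p, rfl⟩ | ⟨i, b, rfl⟩)
    · show s (em F p) = s' (em F p)
      rw [em_fix_ORD, em_fix_ORD]
    · exact h i b
  exact RingHom.eqOn_set_closure h1 hx

theorem mapB_ORD {ι : Type} {n : ι → ℕ} (θ : ∀ i, Fin (n i) → Om F)
    (s : Om F ≃ₐ[KK F] Om F) (σ : ∀ i, Equiv.Perm (Fin (n i)))
    (h : ∀ i b, s (θ i b) = θ i (σ i b)) (x : Om F) (hx : x ∈ BR_ORD θ) : s x ∈ BR_ORD θ := by
  have h1 : BR_ORD θ ≤ (BR_ORD θ).comap (s : Om F →+* Om F) := by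
    rw [BR_ORD, Subring.closure_le]
    rintro y (⟨p, rfl⟩ | ⟨i, b, rfl⟩)
    · show s (em F p) ∈ BR_ORD θ
      rw [em_fix_ORD]
      exact em_mem_ORD θ p
    · show s (θ i b) ∈ BR_ORD θ
      rw [h]
      exact root_mem_ORD θ _ _
  exact h1 hx

theorem inW_span_ORD {J : Type} [Fintype J] {w : J → Om F} {c : ℕ} {x : Om F} (h : InW w c x) :
    x ∈ Submodule.span (KK F) (Set.range w) := by
  obtain ⟨p, -, rfl⟩ := h
  refine Submodule.sum_mem _ fun j _ => ?_
  obtain ⟨r, hr⟩ := em_KK_ORD (p j)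
  rw [hr, ← Algebra.smul_def]
  exact Submodule.smul_mem _ _ (Submodule.subset_span ⟨j, rfl⟩)

theorem adjoin_span_ORD {ι J : Type} {n : ι → ℕ} [Fintype J] (θ : ∀ i, Fin (n i) → Om F)
    (w : J → Om F) (hmul : ∀ j j', w j * w j' ∈ Submodule.span (KK F) (Set.range w))
    (hone : (1 : Om F) ∈ Submodule.span (KK F) (Set.range w))
    (hroot : ∀ i b, θ i b ∈ Submodule.span (KK F) (Set.range w)) :
    Subalgebra.toSubmodule (Algebra.adjoin (KK F) {x : Om F | ∃ i b, x = θ i b}) ≤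
      Submodule.span (KK F) (Set.range w) := by
  have hmm : ∀ x ∈ Submodule.span (KK F) (Set.range w), ∀ y ∈ Submodule.span (KK F) (Set.range w),
      x * y ∈ Submodule.span (KK F) (Set.range w) := by
    intro x hx y hy
    have h1 := Submodule.mul_mem_mul hx hy
    rw [Submodule.span_mul_span] at h1
    refine (Submodule.span_le.2 ?_) h1
    rintro z ⟨a, ⟨j, rfl⟩, b, ⟨j', rfl⟩, rfl⟩
    exact hmul j j'
  intro x hx
  have hx' : x ∈ Algebra.adjoin (KK F) {x : Om F | ∃ i b, x = θ i b} := hx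
  induction hx' using Algebra.adjoin_induction with
  | mem y hy =>
    obtain ⟨i, b, rfl⟩ := hy
    exact hroot i b
  | algebraMap r =>
    rw [Algebra.algebraMap_eq_smul_one]
    exact Submodule.smul_mem _ _ hone
  | add y z hy hz ihy ihz => exact Submodule.add_mem _ (ihy hy) (ihz hz)
  | mul y z hy hz ihy ihz => exact hmm _ (ihy hy) _ (ihz hz)

theorem aORD (h1 : StSPN) (h2 : StPRM) : StORD := by
  classical
  intro F _ _ ι _ g f θ hmon hR
  obtain ⟨w, hw1, hw2⟩ := spn_ORD h1 ι (fun i => 2 * g i + 1) θ f hmon hR.fac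
  choose Φ hΦ using h2 F ι g f θ hR
  -- the conjugates of the `w j`
  let F1 : (∀ i, Equiv.Perm (Fin (2 * g i + 1))) × Fin (∏ i, (2 * g i + 1).factorial) → Om F :=
    fun σj => if h : ∃ s, Φ s = σj.1 then h.choose (w σj.2) else 0
  have hF1 : ∀ s j, F1 (Φ s, j) = s (w j) := by
    intro s j
    have h : ∃ s', Φ s' = Φ s := ⟨s, rfl⟩
    have h3 : F1 (Φ s, j) = h.choose (w j) := by
      show (if h : ∃ s', Φ s' = Φ s then h.choose (w j) else 0) = _
      rw [dif_pos h]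
    rw [h3]
    apply fixB_ORD θ _ _ _ _ (hw1 j)
    intro i b
    rw [hΦ, hΦ, h.choose_spec]
  have hF1B : ∀ σj, F1 σj ∈ BR_ORD θ := by
    intro σj
    by_cases h : ∃ s, Φ s = σj.1
    · obtain ⟨s, hs⟩ := h
      have h3 := hF1 s σj.2
      rw [hs] at h3
      have h4 : F1 σj = s (w σj.2) := h3
      rw [h4]
      exact mapB_ORD θ s (Φ s) (hΦ s) _ (hw1 _)
    · have h3 : F1 σj = 0 := by
        show (if h : ∃ s, Φ s = σj.1 then h.choose (w σj.2) else 0) = _
        rw [dif_neg h]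
      rw [h3]
      exact (BR_ORD θ).zero_mem
  obtain ⟨c1, hc1⟩ := bound_ORD (w := w) F1 (fun σj => hw2 _ (hF1B σj))
  obtain ⟨c2, hc2⟩ := bound_ORD (w := w)
    (fun jj : Fin (∏ i, (2 * g i + 1).factorial) × Fin (∏ i, (2 * g i + 1).factorial) =>
      w jj.1 * w jj.2) (fun jj => hw2 _ ((BR_ORD θ).mul_mem (hw1 _) (hw1 _)))
  obtain ⟨c3, hc3⟩ := hw2 1 (BR_ORD θ).one_mem
  obtain ⟨c4, hc4⟩ := bound_ORD (w := w) (fun ib : Σ i, Fin (2 * g i + 1) => θ ib.1 ib.2)
    (fun ib => hw2 _ (root_mem_ORD θ _ _))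
  let c₀ := max (max c1 c2) (max c3 c4)
  have hcc1 : c1 ≤ c₀ := (le_max_left _ _).trans (le_max_left _ _)
  have hcc2 : c2 ≤ c₀ := (le_max_right _ _).trans (le_max_left _ _)
  have hcc3 : c3 ≤ c₀ := (le_max_left _ _).trans (le_max_right _ _)
  have hcc4 : c4 ≤ c₀ := (le_max_right _ _).trans (le_max_right _ _)
  refine ⟨Fin (∏ i, (2 * g i + 1).factorial), inferInstance, w, c₀, ?_⟩
  have hspan := adjoin_span_ORD θ w (fun j j' => inW_span_ORD (hc2 (j, j')))
    (inW_span_ORD hc3) (fun i b => inW_span_ORD (hc4 ⟨i, b⟩))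
  constructor
  · exact Fintype.card_fin _
  · rw [linearIndependent_iff_card_le_finrank_span, Fintype.card_fin]
    let E := Algebra.adjoin (KK F) {x : Om F | ∃ i b, x = θ i b}
    have hfs : Module.Finite (KK F) (Submodule.span (KK F) (Set.range w)) :=
      Module.Finite.span_of_finite _ (Set.finite_range w)
    have hfE : Module.Finite (KK F) E :=
      Module.Finite.of_injective (Submodule.inclusion hspan) (Submodule.inclusion_injective hspan)
    have h5 : Nat.card (E →ₐ[KK F] Om F) ≤ finrank (KK F) E :=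
      card_algHom_le_finrank (KK F) E (Om F)
    have h6 : finrank (KK F) E ≤ finrank (KK F) (Submodule.span (KK F) (Set.range w)) :=
      LinearMap.finrank_le_finrank_of_injective (Submodule.inclusion_injective hspan)
    have h7 : ∏ i, (2 * g i + 1).factorial ≤ Nat.card (E →ₐ[KK F] Om F) := by
      have h8 : ∏ i, (2 * g i + 1).factorial =
          Nat.card (∀ i, Equiv.Perm (Fin (2 * g i + 1))) := by
        rw [Nat.card_eq_fintype_card, Fintype.card_pi]
        refine Finset.prod_congr rfl fun i _ => ?_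
        rw [Fintype.card_perm, Fintype.card_fin]
      rw [h8]
      choose S hS using hR.gal
      apply Nat.card_le_card_of_injective
        (fun σ => ((S σ : Om F ≃ₐ[KK F] Om F) : Om F →ₐ[KK F] Om F).comp E.val)
      intro σ τ hστ
      funext i
      ext b
      have hmem : θ i b ∈ E := Algebra.subset_adjoin ⟨i, b, rfl⟩
      have h9 := DFunLike.congr_fun hστ ⟨θ i b, hmem⟩
      have h10 : S σ (θ i b) = S τ (θ i b) := h9
      rw [hS, hS] at h10
      exact congrArg Fin.val (hR.inj i h10)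
    exact h7.trans (h5.trans h6)
  · intro j j'
    exact (hc2 (j, j')).mono_ORD hcc2
  · exact hc3.mono_ORD hcc3
  · intro i b
    exact (hc4 ⟨i, b⟩).mono_ORD hcc4
  · intro s j
    rw [← hF1]
    exact (hc1 _).mono_ORD hcc1
  · intro s hs j
    have h3 := fixB_ORD θ s (AlgEquiv.refl) (fun i b => by rw [hs i b]; rfl) _ (hw1 j)
    rw [h3]
    rfl
  · intro j
    rw [Algebra.mem_adjoin_iff]
    refine (Subring.closure_mono ?_) (hw1 j)
    rintro y (⟨p, rfl⟩ | hy)
    · exact Or.inl ⟨mapRingHom (algebraMap F (kk F)) p, rfl⟩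
    · exact Or.inr hy

end Pool.Agent.Helper54.GT
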