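import Pool.Agent.Helper54.GT.StA

set_option autoImplicit false

namespace Pool.Agent.Helper54.GT

open Polynomial Finset

theorem em_fix_PRM (F : Type) [Field F] (s : Om F ≃ₐ[KK F] Om F) (a : F[X]) :
    s (em F a) = em F a := by
  unfold em
  rw [RingHom.comp_apply, IsScalarTower.algebraMap_apply (kk F)[X] (KK F) (Om F)]
  exact s.commutes _

theorem aPRM : StPRM := by
  intro F _ ι _ g f θ h s
  classical
  have key : ∀ i b, ∃ c, s (θ i b) = θ i c := by
    intro i b
    have h1 : ((f i).map (em F)).map (s : Om F →+* Om F) = (f i).map (em F) := by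
      rw [Polynomial.map_map]
      congr 1
      exact RingHom.ext fun a => em_fix_PRM F s a
    have h2 : eval (s (θ i b)) ((f i).map (em F)) = 0 := by
      rw [← h1]
      have h3 : eval (θ i b) ((f i).map (em F)) = 0 := by
        rw [h.fac i, eval_prod]
        exact Finset.prod_eq_zero (mem_univ b) (by simp)
      have h4 : eval ((s : Om F →+* Om F) (θ i b)) (((f i).map (em F)).map (s : Om F →+* Om F)) =
          (s : Om F →+* Om F) (eval (θ i b) ((f i).map (em F))) := by
        rw [eval_map_apply]
      rw [h3, map_zero] at h4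
      exact h4
    rw [h.fac i, eval_prod, Finset.prod_eq_zero_iff] at h2
    obtain ⟨c, _, hc⟩ := h2
    refine ⟨c, ?_⟩
    rw [eval_sub, eval_X, eval_C] at hc
    exact sub_eq_zero.1 hc
  choose σ hσ using key
  have hinj : ∀ i, Function.Injective (σ i) := by
    intro i b c hbc
    have : s (θ i b) = s (θ i c) := by rw [hσ, hσ, hbc]
    exact h.inj i (s.injective this)
  refine ⟨fun i => Equiv.ofBijective (σ i) (Finite.injective_iff_bijective.1 (hinj i)), ?_⟩
  intro i b
  exact hσ i b

end Pool.Agent.Helper54.GT
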