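import Pool.Agent.Helper54.GT.StA

/-!
# GT, part A: primes of `F[X]` and elements of the algebraic closure
-/

set_option autoImplicit false

namespace Pool.Agent.Helper54.GT

open Polynomial Module Finset Filter Topology
open Pool.Agent.Helper54.PT (Prm prm mem_prm)
open Pool.Agent.Helper3.HY (fK RR LL kp red TType)

section RT

variable {F : Type} [Field F]

theorem et_eq_aeval_RT (t : kk F) (p : F[X]) : et t p = aeval t p := rfl

theorem isIntegral_RT (t : kk F) : IsIntegral F t := Algebra.IsIntegral.isIntegral t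

/-- the minimal polynomial as a prime -/
noncomputable def mp_RT (t : kk F) : Prm F :=
  ⟨minpoly F t, minpoly.monic (isIntegral_RT t), minpoly.irreducible (isIntegral_RT t)⟩

theorem et_mp_RT (t : kk F) : et t (mp_RT t).1 = 0 := minpoly.aeval F t

theorem eq_mp_RT {t : kk F} {P : Prm F} (h : et t P.1 = 0) : P = mp_RT t :=
  Subtype.ext (minpoly.eq_of_irreducible_of_monic P.2.2 h P.2.1)

variable [Fintype F]

theorem pow_eq_RT (t : kk F) (k : ℕ) :
    t ^ Fintype.card F ^ k = t ↔ (mp_RT t).1.natDegree ∣ k := by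
  rw [(mp_RT t).2.2.natDegree_dvd_iff_dvd_X_pow_card_pow_sub_X]
  show _ ↔ minpoly F t ∣ _
  rw [minpoly.dvd_iff, map_sub, map_pow, aeval_X, sub_eq_zero, Nat.card_eq_fintype_card]

theorem set_eq_rootSet_RT {p : F[X]} (hp : p ≠ 0) :
    {t : kk F | et t p = 0} = p.rootSet (kk F) := by
  ext t
  rw [Set.mem_setOf_eq, mem_rootSet_of_ne hp, et_eq_aeval_RT]

theorem finite_RT {p : F[X]} (hp : p ≠ 0) : {t : kk F | et t p = 0}.Finite := by
  rw [set_eq_rootSet_RT hp]
  exact Set.toFinite _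

theorem ncard_RT {p : F[X]} (hp : p ≠ 0) (hs : p.Separable) :
    {t : kk F | et t p = 0}.ncard = p.natDegree := by
  rw [set_eq_rootSet_RT hp, ← Nat.card_coe_set_eq, Nat.card_eq_fintype_card]
  exact card_rootSet_eq_natDegree hs (IsAlgClosed.splits _)

theorem fix_eq_RT (k : ℕ) :
    {t : kk F | t ^ Fintype.card F ^ k = t} = {t : kk F | et t (X ^ Fintype.card F ^ k - X) = 0} := by
  ext t
  rw [Set.mem_setOf_eq, Set.mem_setOf_eq, et_eq_aeval_RT, map_sub, map_pow, aeval_X, sub_eq_zero]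

theorem fix_ne_RT {k : ℕ} (hk : 1 ≤ k) : (X ^ Fintype.card F ^ k - X : F[X]) ≠ 0 :=
  FiniteField.X_pow_card_pow_sub_X_ne_zero F (by omega) Fintype.one_lt_card

theorem fix_finite_RT {k : ℕ} (hk : 1 ≤ k) : {t : kk F | t ^ Fintype.card F ^ k = t}.Finite := by
  rw [fix_eq_RT]
  exact finite_RT (fix_ne_RT hk)

theorem fix_ncard_RT {k : ℕ} (hk : 1 ≤ k) :
    {t : kk F | t ^ Fintype.card F ^ k = t}.ncard = Fintype.card F ^ k := by
  obtain ⟨p, hp⟩ := CharP.exists F
  have hd : p ∣ Fintype.card F ^ k := by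
    refine dvd_pow ?_ (by omega)
    rw [← CharP.cast_eq_zero_iff F p]
    exact FiniteField.cast_card_eq_zero F
  rw [fix_eq_RT, ncard_RT (fix_ne_RT hk) (galois_poly_separable p _ hd)]
  exact FiniteField.X_pow_card_pow_sub_X_natDegree_eq F (by omega) Fintype.one_lt_card

theorem sum_pow_RT {q : ℕ} (hq : 2 ≤ q) (m : ℕ) : ∑ d ∈ Finset.Icc 1 m, q ^ d ≤ 2 * q ^ m := by
  have h : ∑ d ∈ Finset.Icc 1 m, q ^ d + q ≤ 2 * q ^ m + (q - 2) := by
    induction m with
    | zero => simp; omega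
    | succ m ih =>
      rw [Finset.sum_Icc_succ_top (by omega), pow_succ]
      have h1 : 2 * q ^ m + q ^ m * q ≤ 2 * (q ^ m * q) := by nlinarith [pow_pos (by omega : 0 < q) m]
      omega
  omega

/-- primes and elements of the algebraic closure -/
theorem aRT : StRT := by
  intro F _ _ k hk
  refine ⟨?_, fix_finite_RT hk, fix_ncard_RT hk, ?_⟩
  · intro P hP
    have hdeg := mem_prm.1 hP
    refine ⟨?_, ?_⟩
    · rw [ncard_RT P.2.2.ne_zero (PerfectField.separable_of_irreducible P.2.2), hdeg]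
    · intro t ht
      have h1 := eq_mp_RT ht
      refine ⟨?_, fun P' hP' => ?_⟩
      · rw [pow_eq_RT, ← h1, hdeg]
      · rw [h1, eq_mp_RT hP']
  · have hsub : {t : kk F | t ^ Fintype.card F ^ k = t ∧ ∀ P ∈ prm F k, et t P.1 ≠ 0} ⊆
        ⋃ d ∈ Finset.Icc 1 (k / 2), {t : kk F | t ^ Fintype.card F ^ d = t} := by
      intro t ht
      obtain ⟨h1, h2⟩ := ht
      rw [pow_eq_RT] at h1
      have h3 : (mp_RT t).1.natDegree ≠ k := fun h => h2 _ (mem_prm.2 h) (et_mp_RT t)
      have h4 : 0 < (mp_RT t).1.natDegree := (mp_RT t).2.2.natDegree_pos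
      simp only [Set.mem_iUnion, Set.mem_setOf_eq]
      refine ⟨(mp_RT t).1.natDegree, ?_, (pow_eq_RT t _).2 dvd_rfl⟩
      rw [Finset.mem_Icc]
      refine ⟨h4, ?_⟩
      obtain ⟨c, hc⟩ := h1
      have hc2 : 2 ≤ c := by
        rcases c with _ | _ | c
        · omega
        · exfalso
          apply h3
          rw [hc]
          simp
        · omega
      rw [Nat.le_div_iff_mul_le (by norm_num)]
      calc (mp_RT t).1.natDegree * 2 ≤ (mp_RT t).1.natDegree * c := Nat.mul_le_mul_left _ hc2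
        _ = k := hc.symm
    have hfin : (⋃ d ∈ Finset.Icc 1 (k / 2), {t : kk F | t ^ Fintype.card F ^ d = t}).Finite := by
      refine Set.Finite.biUnion (Finset.finite_toSet _) fun d hd => ?_
      exact fix_finite_RT (Finset.mem_Icc.1 hd).1
    have h1 : {t : kk F | t ^ Fintype.card F ^ k = t ∧ ∀ P ∈ prm F k, et t P.1 ≠ 0}.ncard ≤
        2 * Fintype.card F ^ (k / 2) := by
      refine (Set.ncard_le_ncard hsub hfin).trans ?_
      refine (Finset.set_ncard_biUnion_le _ _).trans ?_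
      rw [Finset.sum_congr rfl fun d hd => fix_ncard_RT (F := F) (Finset.mem_Icc.1 hd).1]
      exact sum_pow_RT Fintype.one_lt_card _
    have hq : (1 : ℝ) ≤ Real.sqrt (Fintype.card F) := by
      rw [Real.one_le_sqrt]
      exact_mod_cast (Fintype.card_pos : 0 < Fintype.card F)
    have h2 : ((Fintype.card F ^ (k / 2) : ℕ) : ℝ) ≤ Real.sqrt (Fintype.card F) ^ k := by
      have h3 : ((Fintype.card F ^ (k / 2) : ℕ) : ℝ) = Real.sqrt (Fintype.card F) ^ (2 * (k / 2)) := by
        rw [pow_mul, Real.sq_sqrt (by positivity)]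
        push_cast
        rfl
      rw [h3]
      exact pow_le_pow_right₀ hq (Nat.mul_div_le k 2)
    calc (({t : kk F | t ^ Fintype.card F ^ k = t ∧ ∀ P ∈ prm F k, et t P.1 ≠ 0}.ncard : ℕ) : ℝ)
        ≤ ((2 * Fintype.card F ^ (k / 2) : ℕ) : ℝ) := by exact_mod_cast h1
      _ = 2 * ((Fintype.card F ^ (k / 2) : ℕ) : ℝ) := by push_cast; ring
      _ ≤ _ := mul_le_mul_of_nonneg_left h2 (by norm_num)

end RT

end Pool.Agent.Helper54.GT
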