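import Pool.Agent.Helper54.GT.StA

/-!
# GT, part A: the ring generated by the roots (SPN)
-/

set_option autoImplicit false

namespace Pool.Agent.Helper54.GT

open Polynomial

variable {A Ω : Type} [CommRing A] [Field Ω] [Algebra A Ω]

/-- `B'` is spanned over `B` by `N` elements -/
def Sp_SPN (B B' : Subalgebra A Ω) (N : ℕ) : Prop :=
  ∃ (J : Type) (_ : Fintype J) (w : J → Ω), Fintype.card J = N ∧ (∀ j, w j ∈ B') ∧
    ∀ x ∈ B', ∃ p : J → Ω, (∀ j, p j ∈ B) ∧ x = ∑ j, p j * w j

theorem Sp_SPN.trans {B B' B'' : Subalgebra A Ω} {N M : ℕ} (h : Sp_SPN B B' N)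
    (h' : Sp_SPN B' B'' M) (hle : B' ≤ B'') : Sp_SPN B B'' (N * M) := by
  obtain ⟨J, _, w, hJ, hw, hx⟩ := h
  obtain ⟨J', _, w', hJ', hw', hx'⟩ := h'
  refine ⟨J × J', inferInstance, fun j => w j.1 * w' j.2, ?_, ?_, ?_⟩
  · rw [Fintype.card_prod, hJ, hJ']
  · intro j
    exact B''.mul_mem (hle (hw j.1)) (hw' j.2)
  · intro x hxB
    obtain ⟨p, hp, hxp⟩ := hx' x hxB
    choose q hq hpq using fun j' => hx (p j') (hp j')
    refine ⟨fun j => q j.2 j.1, fun j => hq j.2 j.1, ?_⟩
    rw [Fintype.sum_prod_type_right, hxp]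
    apply Finset.sum_congr rfl
    intro j' _
    rw [hpq j', Finset.sum_mul]
    apply Finset.sum_congr rfl
    intro j _
    show q j' j * w j * w' j' = q j' j * (w j * w' j')
    exact mul_assoc _ _ _

theorem Sp_SPN.refl (B : Subalgebra A Ω) : Sp_SPN B B 1 := by
  refine ⟨Unit, inferInstance, fun _ => 1, Fintype.card_unit, fun _ => B.one_mem, ?_⟩
  intro x hx
  exact ⟨fun _ => x, fun _ => hx, by simp⟩

/-- adjoining one root -/
theorem step_SPN (B : Subalgebra A Ω) (θ : Ω) (H : Polynomial Ω) (hm : H.Monic)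
    (hc : ∀ k, H.coeff k ∈ B) (hr : H.eval θ = 0) :
    ∃ B' : Subalgebra A Ω, B ≤ B' ∧ θ ∈ B' ∧ (∀ C : Subalgebra A Ω, B ≤ C → θ ∈ C → B' ≤ C) ∧
      Sp_SPN B B' H.natDegree := by
  have hl : H ∈ lifts (algebraMap B Ω) := by
    rw [lifts_iff_coeff_lifts]
    intro n
    exact ⟨⟨H.coeff n, hc n⟩, rfl⟩
  obtain ⟨h, hmap, hdeg, hmon⟩ := lifts_and_natDegree_eq_and_monic hl hm
  have hroot : aeval θ h = 0 := by
    rw [aeval_def, ← eval_map, hmap, hr]
  have hne : h ≠ 1 := by
    rintro rfl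
    rw [map_one] at hroot
    exact one_ne_zero hroot
  refine ⟨(Algebra.adjoin B {θ}).restrictScalars A, ?_, ?_, ?_, ?_⟩
  · intro x hx
    rw [Subalgebra.mem_restrictScalars]
    exact (Algebra.adjoin B {θ}).algebraMap_mem ⟨x, hx⟩
  · rw [Subalgebra.mem_restrictScalars]
    exact Algebra.subset_adjoin rfl
  · intro C hBC hθ x hx
    rw [Subalgebra.mem_restrictScalars, Algebra.adjoin_singleton_eq_range_aeval] at hx
    obtain ⟨q, rfl⟩ := hx
    show aeval θ q ∈ C
    rw [aeval_eq_sum_range]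
    apply C.sum_mem
    intro i _
    rw [Algebra.smul_def]
    exact C.mul_mem (hBC (q.coeff i).2) (C.pow_mem hθ i)
  · refine ⟨Fin H.natDegree, inferInstance, fun j => θ ^ (j : ℕ), Fintype.card_fin _, ?_, ?_⟩
    · intro j
      rw [Subalgebra.mem_restrictScalars]
      exact (Algebra.adjoin B {θ}).pow_mem (Algebra.subset_adjoin rfl) _
    · intro x hx
      rw [Subalgebra.mem_restrictScalars, Algebra.adjoin_singleton_eq_range_aeval] at hx
      obtain ⟨q, rfl⟩ := hx
      refine ⟨fun j => ((q %ₘ h).coeff j : B), fun j => ((q %ₘ h).coeff j).2, ?_⟩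
      have h1 : aeval θ (q %ₘ h) = aeval θ q := aeval_modByMonic_eq_self_of_root hroot
      show aeval θ q = _
      have h2 : (q %ₘ h).natDegree < H.natDegree := by
        rw [← hdeg]
        exact natDegree_modByMonic_lt q hmon hne
      rw [← h1, aeval_eq_sum_range' h2, Finset.sum_range]
      apply Finset.sum_congr rfl
      intro j _
      rw [Algebra.smul_def]
      rfl

/-- the coefficients of the quotient by `X - θ` -/
theorem coeff_SPN (B : Subalgebra A Ω) (θ : Ω) (hθ : θ ∈ B) (Q : Polynomial Ω)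
    (hc : ∀ k, (Q * (X - C θ)).coeff k ∈ B) : ∀ k, Q.coeff k ∈ B := by
  have key : ∀ m k, Q.natDegree < k + m → Q.coeff k ∈ B := by
    intro m
    induction m with
    | zero =>
      intro k hk
      rw [coeff_eq_zero_of_natDegree_lt (by omega)]
      exact B.zero_mem
    | succ m ih =>
      intro k hk
      have h1 := ih (k + 1) (by omega)
      have h2 := hc (k + 1)
      rw [coeff_mul_X_sub_C] at h2
      have h3 : Q.coeff k = (Q.coeff k - Q.coeff (k + 1) * θ) + Q.coeff (k + 1) * θ := by ring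
      rw [h3]
      exact B.add_mem h2 (B.mul_mem h1 hθ)
  intro k
  exact key (Q.natDegree + 1) k (by omega)

/-- adjoining all roots of one polynomial -/
theorem chain_SPN : ∀ (n : ℕ) (θ : Fin n → Ω) (B : Subalgebra A Ω),
    (∀ k, (∏ b, (X - C (θ b))).coeff k ∈ B) →
    ∃ B' : Subalgebra A Ω, B ≤ B' ∧ (∀ b, θ b ∈ B') ∧
      (∀ C : Subalgebra A Ω, B ≤ C → (∀ b, θ b ∈ C) → B' ≤ C) ∧ Sp_SPN B B' n.factorial := by
  intro n
  induction n with
  | zero =>
    intro θ B _
    refine ⟨B, le_refl _, fun b => b.elim0, fun C h _ => h, ?_⟩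
    rw [Nat.factorial_zero]
    exact Sp_SPN.refl B
  | succ n ih =>
    intro θ B hB
    have hprod : (∏ b, (X - C (θ b))) = (∏ b : Fin n, (X - C (θ b.succ))) * (X - C (θ 0)) := by
      rw [Fin.prod_univ_succ, mul_comm]
    have hmon : (∏ b, (X - C (θ b))).Monic := monic_prod_of_monic _ _ (fun b _ => monic_X_sub_C _)
    have hdeg : (∏ b, (X - C (θ b))).natDegree = n + 1 := by
      rw [natDegree_prod_of_monic _ _ (fun b _ => monic_X_sub_C _)]
      simp
    have hroot : (∏ b, (X - C (θ b))).eval (θ 0) = 0 := by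
      rw [hprod, eval_mul]
      simp
    obtain ⟨B1, h1, h2, h3, h4⟩ := step_SPN B (θ 0) _ hmon hB hroot
    rw [hdeg] at h4
    obtain ⟨B', k1, k2, k3, k4⟩ := ih (fun b => θ b.succ) B1
      (coeff_SPN B1 (θ 0) h2 _ (fun k => by
        rw [← hprod]
        exact h1 (hB k)))
    refine ⟨B', h1.trans k1, ?_, ?_, ?_⟩
    · intro b
      refine Fin.cases ?_ ?_ b
      · exact k1 h2
      · exact k2
    · intro C hC hθ
      exact k3 C (h3 C hC (hθ 0)) (fun b => hθ b.succ)
    · rw [Nat.factorial_succ]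
      exact h4.trans k4 k1

theorem aSPN : StSPN := by
  intro A Ω _ _ _ ι _ n θ h hm hθ
  classical
  have key : ∀ s : Finset ι, ∃ B : Subalgebra A Ω, (∀ i ∈ s, ∀ b, θ i b ∈ B) ∧
      (∀ C : Subalgebra A Ω, (∀ i ∈ s, ∀ b, θ i b ∈ C) → B ≤ C) ∧
      Sp_SPN ⊥ B (∏ i ∈ s, (n i).factorial) := by
    intro s
    induction s using Finset.induction_on with
    | empty =>
      refine ⟨⊥, fun i hi => absurd hi (Finset.notMem_empty i), fun C _ => bot_le, ?_⟩
      rw [Finset.prod_empty]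
      exact Sp_SPN.refl ⊥
    | insert i s hi ih =>
      obtain ⟨B, h1, h2, h3⟩ := ih
      obtain ⟨B', k1, k2, k3, k4⟩ := chain_SPN (n i) (θ i) B (fun k => by
        rw [← hθ i, coeff_map]
        exact B.algebraMap_mem _)
      refine ⟨B', ?_, ?_, ?_⟩
      · intro i' hi' b
        rcases Finset.mem_insert.1 hi' with rfl | hi'
        · exact k2 b
        · exact k1 (h1 i' hi' b)
      · intro C hC
        exact k3 C (h2 C (fun i' hi' => hC i' (Finset.mem_insert_of_mem hi')))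
          (hC i (Finset.mem_insert_self i s))
      · rw [Finset.prod_insert hi, mul_comm]
        exact h3.trans k4 k1
  obtain ⟨B, h1, h2, J, hJ, w, hcard, hw, hx⟩ := key Finset.univ
  have hB : Algebra.adjoin A {x : Ω | ∃ i b, x = θ i b} = B := by
    apply le_antisymm
    · apply Algebra.adjoin_le
      rintro x ⟨i, b, rfl⟩
      exact h1 i (Finset.mem_univ i) b
    · apply h2
      intro i _ b
      exact Algebra.subset_adjoin ⟨i, b, rfl⟩
  rw [hB]
  let e : J ≃ Fin (∏ i, (n i).factorial) := Fintype.equivFinOfCardEq hcard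
  refine ⟨fun j => w (e.symm j), fun j => hw _, ?_⟩
  intro x hxB
  obtain ⟨p, hp, hxp⟩ := hx x hxB
  choose q hq using fun j => Algebra.mem_bot.1 (hp j)
  refine ⟨fun j => q (e.symm j), ?_⟩
  rw [hxp, ← e.symm.sum_comp]
  apply Finset.sum_congr rfl
  intro j _
  rw [Algebra.smul_def, hq]

end Pool.Agent.Helper54.GT
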