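import Pool.Agent.Helper54.GT.StA

set_option autoImplicit false

namespace Pool.Agent.Helper54.GT

open Polynomial

private theorem crt_SQM {κ : Type} [Field κ] (a : κ[X]) : ∀ (m : ℕ) (h : κ[X]), h.natDegree ≤ m →
    h ≠ 0 → Squarefree h →
    (∀ ψ : κ[X], ψ.Monic → Irreducible ψ → ψ ∣ h → ∃ c : κ[X], ψ ∣ c * c - a) →
    ∃ b : κ[X], h ∣ b * b - a := by
  intro m
  induction m with
  | zero =>
    intro h hm h0 _ _
    have hu : IsUnit h := by
      rw [Polynomial.isUnit_iff_degree_eq_zero]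
      rw [Polynomial.degree_eq_natDegree h0, Nat.le_zero.1 hm]
      rfl
    exact ⟨0, hu.dvd⟩
  | succ m ih =>
    intro h hm h0 hsq hψ
    by_cases hu : IsUnit h
    · exact ⟨0, hu.dvd⟩
    obtain ⟨ψ, hψm, hψi, hψd⟩ := Polynomial.exists_monic_irreducible_factor h hu
    have hc := hψ ψ hψm hψi hψd
    obtain ⟨h', rfl⟩ := hψd
    have h'0 : h' ≠ 0 := right_ne_zero_of_mul h0
    have hnd : ¬ ψ ∣ h' := by
      rintro ⟨e, rfl⟩
      exact hψi.not_isUnit (hsq ψ ⟨e, by ring⟩)
    have hco : IsCoprime ψ h' := (Irreducible.coprime_iff_not_dvd hψi).2 hnd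
    have hdeg : h'.natDegree ≤ m := by
      rw [Polynomial.natDegree_mul hψm.ne_zero h'0] at hm
      have := hψi.natDegree_pos
      omega
    obtain ⟨b', hb'⟩ := ih h' hdeg h'0 (hsq.of_mul_right)
      (fun φ h1 h2 h3 => hψ φ h1 h2 (h3.mul_left ψ))
    obtain ⟨c, hc⟩ := hc
    obtain ⟨u, v, huv⟩ := hco
    refine ⟨b' * (u * ψ) + c * (v * h'), IsCoprime.mul_dvd ⟨u, v, huv⟩ ?_ ?_⟩
    · have e1 : u * ψ = 1 - v * h' := by rw [← huv]; ring
      have e2 : v * h' = 1 - u * ψ := by rw [← huv]; ring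
      have e3 : b' * (u * ψ) + c * (v * h') = c + ψ * (u * (b' - c)) := by rw [e2]; ring
      rw [e3]
      have e4 : (c + ψ * (u * (b' - c))) * (c + ψ * (u * (b' - c))) - a =
          (c * c - a) + ψ * ((u * (b' - c)) * (2 * c + ψ * (u * (b' - c)))) := by ring
      rw [e4]
      exact dvd_add hc (dvd_mul_right _ _)
    · have e1 : u * ψ = 1 - v * h' := by rw [← huv]; ring
      have e3 : b' * (u * ψ) + c * (v * h') = b' + h' * (v * (c - b')) := by rw [e1]; ring
      rw [e3]
      have e4 : (b' + h' * (v * (c - b'))) * (b' + h' * (v * (c - b'))) - a =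
          (b' * b' - a) + h' * ((v * (c - b')) * (2 * b' + h' * (v * (c - b')))) := by ring
      rw [e4]
      exact dvd_add hb' (dvd_mul_right _ _)

private theorem frob_SQM {κ k : Type} [Field κ] [Fintype κ] [Field k] (j : κ →+* k) (p : κ[X])
    (x : k) : ((p.map j).eval x) ^ Fintype.card κ = (p.map j).eval (x ^ Fintype.card κ) := by
  rw [← Polynomial.expand_eval, ← Polynomial.map_expand, FiniteField.expand_card,
    Polynomial.map_pow, Polynomial.eval_pow]

theorem aSQM : StSQM := by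
  intro κ k _ _ _ j n h τ σ hm hτ hinj hfr a
  refine ⟨fun hs => ?_, fun hne ψ hψm hψi hψh h0 => ?_⟩
  · have hsep : h.Separable := by
      rw [← Polynomial.separable_map j, hτ]
      exact Polynomial.separable_prod_X_sub_C_iff.2 hinj
    obtain ⟨b, hb⟩ := crt_SQM a h.natDegree h le_rfl hm.ne_zero hsep.squarefree (by
      intro ψ h1 h2 h3
      obtain ⟨r, hr⟩ := hs ψ h1 h2 h3
      obtain ⟨c, rfl⟩ := AdjoinRoot.mk_surjective r
      refine ⟨c, ?_⟩
      rw [← AdjoinRoot.mk_eq_zero, map_sub, map_mul, hr, sub_self])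
    refine ⟨fun x => (b.map j).eval (τ x), fun x => ?_, fun x => ?_⟩
    · have hd : h.map j ∣ (b * b - a).map j := Polynomial.map_dvd j hb
      have hr : (h.map j).eval (τ x) = 0 := by
        rw [hτ, Polynomial.eval_prod]
        exact Finset.prod_eq_zero (Finset.mem_univ x) (by simp)
      have h1 := Polynomial.eval_dvd (x := τ x) hd
      rw [hr, zero_dvd_iff, Polynomial.map_sub, Polynomial.map_mul, Polynomial.eval_sub,
        Polynomial.eval_mul, sub_eq_zero] at h1
      rw [sq, h1]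
    · show ((b.map j).eval (τ x)) ^ Fintype.card κ = (b.map j).eval (τ (σ x))
      rw [frob_SQM, hfr]
  · rw [AdjoinRoot.mk_eq_zero] at h0
    have hdvd : ψ.map j ∣ ∏ b, (X - C (τ b)) := by
      rw [← hτ]; exact Polynomial.map_dvd j hψh
    by_cases hroot : ∃ b, (ψ.map j).IsRoot (τ b)
    · obtain ⟨b, hb⟩ := hroot
      have h1 := Polynomial.eval_dvd (x := τ b) (Polynomial.map_dvd j h0)
      rw [hb.eq_zero, zero_dvd_iff] at h1
      exact hne b h1
    · have hco : IsCoprime (ψ.map j) (∏ b, (X - C (τ b))) := by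
        refine IsCoprime.prod_right fun b _ => ?_
        refine IsCoprime.symm ((Irreducible.coprime_iff_not_dvd (irreducible_X_sub_C _)).2 ?_)
        rw [Polynomial.dvd_iff_isRoot]
        exact fun hb => hroot ⟨b, hb⟩
      have hu : IsUnit (ψ.map j) := hco.isUnit_of_dvd' dvd_rfl hdvd
      have h2 := Polynomial.natDegree_eq_zero_of_isUnit hu
      rw [Polynomial.natDegree_map] at h2
      have := hψi.natDegree_pos
      omega

end Pool.Agent.Helper54.GT
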