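import Pool.Agent.Helper54.GT.StA
import Pool.Agent.Helper54.HL.M_NR
import Pool.Agent.Helper54.HL.M_NMB

/-!
# GT, part A: the resultant is a square (module A_UN)
-/

set_option autoImplicit false

namespace Pool.Agent.Helper54.GT

open Polynomial
open Pool.Agent.Helper3.HY (fK RR LL)

/-- The norm for a product of linear factors. -/
theorem norm_prod_UN {B : Type} [Field B] (n : ℕ) (τ : Fin n → B) (h p : B[X])
    (hh : h = ∏ b, (X - C (τ b))) :
    Algebra.norm B (AdjoinRoot.mk h p) = ∏ b, p.eval (τ b) := by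
  have hm : h.Monic := by
    rw [hh]; exact monic_prod_of_monic _ _ (fun b _ => monic_X_sub_C _)
  rw [Pool.Agent.Helper54.HL.hNR B h p hm]
  rw [hh, resultant_prod_left (s := Finset.univ) (f := fun b => X - C (τ b)) p p.natDegree
    (by simp) le_rfl]
  refine Finset.prod_congr rfl (fun b _ => ?_)
  rw [natDegree_X_sub_C]
  exact resultant_X_sub_C_left _ _ _ le_rfl

theorem aUN : StUN := by
  intro F _ f a hf _ hsq
  have hNB := (Pool.Agent.Helper54.HL.hNMB Pool.Agent.Helper54.HL.hNR).2.1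
  set N : F[X] := Algebra.norm F[X] (AdjoinRoot.mk f a) with hN
  have h1 : algebraMap (RR f) (LL f) (AdjoinRoot.mk f a) =
      AdjoinRoot.mk (fK f) (a.map (algebraMap F[X] (RatFunc F))) := by
    show AdjoinRoot.map (algebraMap F[X] (RatFunc F)) f (fK f) dvd_rfl (AdjoinRoot.mk f a) = _
    rw [AdjoinRoot.map, AdjoinRoot.lift_mk, ← eval₂_map]
    exact AdjoinRoot.aeval_eq _
  have h2 : algebraMap F[X] (RatFunc F) N = Algebra.norm (RatFunc F)
      (AdjoinRoot.mk (fK f) (a.map (algebraMap F[X] (RatFunc F)))) :=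
    hNB F[X] (RatFunc F) (algebraMap F[X] (RatFunc F)) f a hf
  rw [h1, ← h2] at hsq
  obtain ⟨y, hy⟩ := hsq
  have hint : IsIntegral F[X] (y ^ 2) := by
    rw [sq, ← hy]; exact isIntegral_algebraMap
  obtain ⟨s, hs⟩ := IsIntegrallyClosed.exists_algebraMap_eq_of_isIntegral_pow (R := F[X])
    (K := RatFunc F) (n := 2) (by norm_num) hint
  have hNs : N = s ^ 2 := by
    apply IsFractionRing.injective F[X] (RatFunc F)
    rw [hy, map_pow, hs, sq]
  refine ⟨s, ?_⟩
  intro B _ φ n τ hτ
  have h3 := hNB F[X] B φ f a hf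
  rw [← hN, hNs, map_pow, norm_prod_UN n τ (f.map φ) (a.map φ) hτ] at h3
  rw [h3]
  refine Finset.prod_congr rfl (fun b _ => ?_)
  rw [eval_map]

end Pool.Agent.Helper54.GT
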