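import Pool.Agent.Helper54.GT.StB

/-!
# GT, part B: the final statement A1
-/

set_option autoImplicit false

namespace Pool.Agent.Helper54.GT

open Polynomial Module Finset Filter Topology
open Pool.Agent.Helper54.PT (Prm prm)
open Pool.Agent.Helper3.HY (fK RR LL kp red TType)
open Pool.Agent.Helper3.GT (Gd GdF HypF facs TyI TyT Rp GeoSn StFAC StA1 StA1p StA2)

/-- The number of invariant sets. -/
private noncomputable def I_A1 {n : ℕ} (σ : Equiv.Perm (Fin n)) : ℕ :=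
  {T : Finset (Fin n) | T.map σ.toEmbedding = T}.ncard

private lemma sgn_val_A1 {K : Type} [Field K] (x y : ZMod 2) :
    (-1 : K) ^ (x + y).val = (-1) ^ x.val * (-1) ^ y.val := by
  rw [ZMod.val_add, ← pow_add, ← neg_one_pow_eq_pow_mod_two]

private lemma sgn_sq_A1 {K : Type} [Field K] (x : ZMod 2) :
    (-1 : K) ^ x.val * (-1) ^ x.val = 1 := by
  rw [← pow_add, ← two_mul, pow_mul]
  simp

private lemma neg_one_pow_A1 {F : Type} [Field F] [Fintype F] (k : ℕ) :
    (-1 : kk F) ^ Fintype.card F ^ k = -1 := by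
  have h := FiniteField.pow_card_pow k (-1 : F)
  have := congrArg (algebraMap F (kk F)) h
  simpa using this

private lemma map_eval_A1 {F : Type} [Field F] (P : Prm F) (t : kk F) (j : kp P →+* kk F)
    (hj : ∀ p : F[X], j (red P p) = et t p) (a : F[X][X]) :
    (a.map (red P)).map j = a.map (et t) := by
  have e : j.comp (red P) = et t := RingHom.ext hj
  rw [Polynomial.map_map, e]

private lemma two_ne_A1 {F : Type} [Field F] (h : (2 : F) ≠ 0) : (2 : kk F) ≠ 0 := by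
  intro h2
  apply h
  apply (algebraMap F (kk F)).injective
  rw [map_ofNat, map_zero]
  exact h2

/-- The Frobenius type of a tuple above a prime where `a` is a square modulo all factors. -/
private lemma typ_A1 (h3 : StEB) (h4 : StTP) (h5 : StSQM) (h6 : StDIV) (h9 : StFAC)
    {F : Type} [Field F] [Fintype F] (h2 : (2 : F) ≠ 0) {g : ℕ} (hg : 1 ≤ g) {f : F[X][X]}
    (hf : f.Monic) (hd : f.natDegree = 2 * g + 1) (a : F[X][X]) (s : F[X]) {k : ℕ} (hk : 1 ≤ k)
    {P : Prm F} (hP : P.1.natDegree = k) (hgd : Gd f P)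
    (hsq : ∀ ψ ∈ facs f P, IsSquare (AdjoinRoot.mk ψ (a.map (red P)))) {t : kk F}
    (ht : et t P.1 = 0) (τ : Unit → Fin (2 * g + 1) → kk F)
    (hτ : f.map (et t) = ∏ b, (X - C (τ () b))) (hinj : Function.Injective (τ ()))
    (r : Fin (2 * g + 1) → kk F) (hr : ∀ b, r b ^ 2 = av t a (τ () b)) (hr0 : ∀ b, r b ≠ 0)
    (hprod : ∏ b, r b = et t s) :
    ∃ (σ : Unit → Equiv.Perm (Fin (2 * g + 1))) (ε : Fin (2 * g + 1) → ZMod 2),
      (t, τ, r) ∈ X1 (g := fun _ : Unit => g) (fun _ : Unit => f) () a s σ ε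
        (Fintype.card F ^ k) ∧ (∃ h : Fin (2 * g + 1) → ZMod 2, ∀ b, ε b = h b + h (σ () b)) ∧
      I_A1 (σ ()) = 2 ^ (facs f P).card := by
  classical
  have hPk : P ∈ prm F k := Pool.Agent.Helper54.PT.mem_prm.2 hP
  obtain ⟨-, hA⟩ := h4 F h2 Unit (fun _ => g) (fun _ => f) (fun _ => hf) (fun _ => hd) k P hk hPk t ht
  obtain ⟨-, σ, hσ⟩ := hA τ (fun _ => hτ) (fun _ => hinj)
  obtain ⟨hfin, hcard, j, hj⟩ := h3 F P t ht
  have : Fintype (kp P) := Fintype.ofFinite _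
  have hQ : Fintype.card (kp P) = Fintype.card F ^ k := by
    rw [← Nat.card_eq_fintype_card, hcard, hP]
  have hm : (f.map (red P)).Monic := hf.map _
  have hmap : (f.map (red P)).map j = ∏ b, (X - C (τ () b)) := by
    rw [map_eval_A1 P t j hj, hτ]
  have hfr : ∀ b, τ () b ^ Fintype.card (kp P) = τ () (σ () b) := by
    intro b
    rw [hQ]
    exact hσ.2.2.2 () b
  obtain ⟨hfac, -, -, hc1, -, -, -⟩ := h9 F h2 g hg f hf hd P hgd
  obtain ⟨hsqm, -⟩ := h5 (kp P) (kk F) j _ (f.map (red P)) (τ ()) (σ ()) hm hmap hinj hfr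
    (a.map (red P))
  obtain ⟨u, hu, hu2⟩ := hsqm (fun ψ h1 h2 h3 => hsq ψ ((hfac ψ).2 ⟨h1, h2, h3⟩))
  have hdiv := (h6 (kp P) (kk F) j _ (f.map (red P)) (τ ()) (σ ()) hm hmap hinj hfr).1
  have hset : {ψ : (kp P)[X] | ψ.Monic ∧ Irreducible ψ ∧ ψ ∣ f.map (red P)}.ncard
      = (facs f P).card := by
    rw [← Set.ncard_coe_finset]
    congr 1
    ext ψ
    rw [Set.mem_ofPred_eq, Finset.mem_coe]
    exact (hfac ψ).symm
  have hev : ∀ x : kk F, ((a.map (red P)).map j).eval x = av t a x := by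
    intro x
    rw [map_eval_A1 P t j hj, Polynomial.eval_map]
    rfl
  have hru : ∀ b, r b = u b ∨ r b = - u b := by
    intro b
    have : r b ^ 2 = u b ^ 2 := by rw [hr, hu, hev]
    exact sq_eq_sq_iff_eq_or_eq_neg.1 this
  have hex : ∀ b, ∃ z : ZMod 2, r b = (-1) ^ z.val * u b := by
    intro b
    rcases hru b with h | h
    · exact ⟨0, by simpa using h⟩
    · exact ⟨1, by simpa [ZMod.val_one] using h⟩
  choose h hh using hex
  refine ⟨σ, fun b => h b + h (σ () b), ⟨hσ, hr0, hr, hprod, ?_⟩, ⟨h, fun b => rfl⟩, ?_⟩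
  · intro b
    show r b ^ Fintype.card F ^ k = (-1) ^ (h b + h (σ () b)).val * r (σ () b)
    rw [hh b, hh (σ () b), mul_pow, ← hQ, hu2, hQ, ← pow_mul, mul_comm _ (Fintype.card F ^ k),
      pow_mul, neg_one_pow_A1, sgn_val_A1]
    have := sgn_sq_A1 (K := kk F) (h (σ () b))
    linear_combination (-(-1 : kk F) ^ (h b).val * u (σ () b)) * this
  · rw [I_A1, hdiv, hset]


/-- The values of `a` at the roots do not vanish. -/
private lemma av_ne_A1 (h3 : StEB) (h9 : StFAC)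
    {F : Type} [Field F] [Fintype F] (h2 : (2 : F) ≠ 0) {g : ℕ} (hg : 1 ≤ g) {f : F[X][X]}
    (hf : f.Monic) (hd : f.natDegree = 2 * g + 1) (a : F[X][X])
    {P : Prm F} (hgd : Gd f P)
    (hne : ∀ ψ ∈ facs f P, AdjoinRoot.mk ψ (a.map (red P)) ≠ 0) {t : kk F}
    (ht : et t P.1 = 0) (x : kk F) (hx : (f.map (et t)).eval x = 0) : av t a x ≠ 0 := by
  obtain ⟨hfin, hcard, j, hj⟩ := h3 F P t ht
  obtain ⟨hfac, hpr, -⟩ := h9 F h2 g hg f hf hd P hgd
  intro h0
  have e1 : (∏ ψ ∈ facs f P, ψ).eval₂ j x = 0 := by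
    rw [hpr, ← Polynomial.eval_map, map_eval_A1 P t j hj, hx]
  rw [Polynomial.eval₂_finsetProd, Finset.prod_eq_zero_iff] at e1
  obtain ⟨ψ, hψ, hψ0⟩ := e1
  have hirr := ((hfac ψ).1 hψ).2.1
  have hnd : ¬ ψ ∣ a.map (red P) := by
    intro hd
    exact hne ψ hψ (AdjoinRoot.mk_eq_zero.2 hd)
  obtain ⟨p, q, hpq⟩ := (hirr.coprime_iff_not_dvd).2 hnd
  have e2 : (a.map (red P)).eval₂ j x = 0 := by
    rw [← Polynomial.eval_map, map_eval_A1 P t j hj, Polynomial.eval_map]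
    exact h0
  have e3 := congrArg (fun p => p.eval₂ j x) hpq
  simp only [Polynomial.eval₂_add, Polynomial.eval₂_mul, hψ0, e2, Polynomial.eval₂_one,
    mul_zero, add_zero] at e3
  exact zero_ne_one e3

/-- Signs. -/
private def sg_A1 {K : Type} [Field K] (b : Bool) : K := if b then 1 else -1

private lemma sg_sq_A1 {K : Type} [Field K] (b : Bool) : sg_A1 (K := K) b ^ 2 = 1 := by
  cases b <;> simp [sg_A1]

private lemma sg_ne_A1 {K : Type} [Field K] (b : Bool) : sg_A1 (K := K) b ≠ 0 := by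
  cases b <;> simp [sg_A1]

private lemma sg_inj_A1 {K : Type} [Field K] (h2 : (2 : K) ≠ 0) :
    Function.Injective (sg_A1 (K := K)) := by
  have h : (1 : K) ≠ -1 := by
    intro h
    apply h2
    linear_combination h
  intro a b hab
  cases a <;> cases b <;> simp [sg_A1] at hab ⊢
  · exact h hab.symm
  · exact h hab

/-- Square roots with prescribed product. -/
private lemma root_A1 {F : Type} [Field F] {g : ℕ} (α : Fin (2 * g + 1) → kk F) (s : kk F)
    (hα : ∏ b, α b = s ^ 2) :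
    ∃ r : Fin (2 * g + 1) → kk F, (∀ b, r b ^ 2 = α b) ∧ ∏ b, r b = s := by
  have h0 : ∀ b, ∃ z : kk F, z ^ 2 = α b := fun b => IsAlgClosed.exists_pow_nat_eq _ (by norm_num)
  choose r hr using h0
  have h1 : (∏ b, r b) ^ 2 = s ^ 2 := by
    rw [← Finset.prod_pow, ← hα]
    exact Finset.prod_congr rfl fun b _ => hr b
  rcases sq_eq_sq_iff_eq_or_eq_neg.1 h1 with h | h
  · exact ⟨r, hr, h⟩
  · refine ⟨fun b => - r b, fun b => by rw [neg_sq, hr], ?_⟩
    have : ∏ b, (- r b) = (-1) ^ (2 * g + 1) * ∏ b, r b := by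
      rw [Finset.prod_neg]
      simp
    rw [this, h, pow_add, pow_mul]
    simp

/-- Change of the square roots by signs. -/
private def chg_A1 {K : Type} [Field K] {g : ℕ} (r : Fin (2 * g + 1) → K) (e : Fin (2 * g) → Bool) :
    Fin (2 * g + 1) → K :=
  Fin.cons ((∏ b, sg_A1 (e b)) * r 0) (fun b => sg_A1 (e b) * r b.succ)

private lemma chg_sq_A1 {K : Type} [Field K] {g : ℕ} (r : Fin (2 * g + 1) → K)
    (e : Fin (2 * g) → Bool) (b : Fin (2 * g + 1)) : chg_A1 r e b ^ 2 = r b ^ 2 := by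
  refine Fin.cases ?_ (fun b => ?_) b
  · rw [chg_A1, Fin.cons_zero, mul_pow, ← Finset.prod_pow]
    simp [sg_sq_A1]
  · rw [chg_A1, Fin.cons_succ, mul_pow, sg_sq_A1, one_mul]

private lemma chg_prod_A1 {K : Type} [Field K] {g : ℕ} (r : Fin (2 * g + 1) → K)
    (e : Fin (2 * g) → Bool) : ∏ b, chg_A1 r e b = ∏ b, r b := by
  rw [Fin.prod_univ_succ, Fin.prod_univ_succ]
  simp only [chg_A1, Fin.cons_zero, Fin.cons_succ]
  rw [Finset.prod_mul_distrib]
  have h : (∏ b, sg_A1 (K := K) (e b)) * ∏ b, sg_A1 (e b) = 1 := by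
    rw [← Finset.prod_mul_distrib]
    refine Finset.prod_eq_one fun b _ => ?_
    rw [← pow_two, sg_sq_A1]
  linear_combination (r 0 * ∏ b : Fin (2 * g), r b.succ) * h

private lemma chg_inj_A1 {K : Type} [Field K] (h2 : (2 : K) ≠ 0) {g : ℕ}
    (r : Fin (2 * g + 1) → K) (hr : ∀ b, r b ≠ 0) : Function.Injective (chg_A1 r) := by
  intro e e' h
  funext b
  have := congrFun h b.succ
  simp only [chg_A1, Fin.cons_succ] at this
  exact sg_inj_A1 h2 (mul_right_cancel₀ (hr _) this)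


/-- The pairs of a permutation and a coboundary. -/
private def Cob_A1 {n : ℕ} (p : (Unit → Equiv.Perm (Fin n)) × (Fin n → ZMod 2)) : Prop :=
  ∃ h : Fin n → ZMod 2, ∀ b, p.2 b = h b + h (p.1 () b)

open Classical in
/-- The number of tuples above a prime is large. -/
private lemma low_A1 (h2' : StRT) (h3 : StEB) (h4 : StTP) (h5 : StSQM) (h6 : StDIV) (h9 : StFAC)
    {F : Type} [Field F] [Fintype F] (h2 : (2 : F) ≠ 0) {g : ℕ} (hg : 1 ≤ g) {f : F[X][X]}
    (hf : f.Monic) (hd : f.natDegree = 2 * g + 1) (a : F[X][X]) (s : F[X]) (hs : UN f a s) {k : ℕ}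
    (hk : 1 ≤ k) {P : Prm F} (hP : P.1.natDegree = k) (hgd : Gd f P)
    (hsq : ∀ ψ ∈ facs f P, AdjoinRoot.mk ψ (a.map (red P)) ≠ 0 ∧
      IsSquare (AdjoinRoot.mk ψ (a.map (red P))))
    (Ap : (Unit → Equiv.Perm (Fin (2 * g + 1))) × (Fin (2 * g + 1) → ZMod 2) →
      Finset (kk F × (Unit → Fin (2 * g + 1) → kk F) × (Fin (2 * g + 1) → kk F)))
    (hAp : ∀ p y, y ∈ X1 (g := fun _ : Unit => g) (fun _ : Unit => f) () a s p.1 p.2
        (Fintype.card F ^ k) → Cob_A1 p → y ∈ Ap p) :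
    k * (2 * g + 1).factorial * 2 ^ (2 * g) ≤
      ∑ p ∈ univ.filter (fun p : (Unit → Equiv.Perm (Fin (2 * g + 1))) ×
        (Fin (2 * g + 1) → ZMod 2) => Cob_A1 p ∧ I_A1 (p.1 ()) = 2 ^ (facs f P).card),
        ((Ap p).filter (fun y => et y.1 P.1 = 0)).card := by
  have hPk : P ∈ prm F k := Pool.Agent.Helper54.PT.mem_prm.2 hP
  have hZ := ((h2' F k hk).1 P hPk).1
  have hZf : {t : kk F | et t P.1 = 0}.Finite := by
    apply Set.finite_of_ncard_ne_zero
    rw [hZ]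
    omega
  set Zf := hZf.toFinset with hZfd
  have hZc : Zf.card = k := by
    rw [← hZ, Set.ncard_eq_toFinset_card _ hZf]
  have hS : ∀ t : kk F, ∃ S : Finset (Unit → Fin (2 * g + 1) → kk F), et t P.1 = 0 →
      S.card = (2 * g + 1).factorial ∧ ∀ τ ∈ S, (f.map (et t) = ∏ b, (X - C (τ () b))) ∧
        Function.Injective (τ ()) := by
    intro t
    by_cases ht : et t P.1 = 0
    · have hO := (h4 F h2 Unit (fun _ => g) (fun _ => f) (fun _ => hf) (fun _ => hd) k P hk hPk t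
        ht).1 (fun _ => hgd)
      have hO' : {τ : Unit → Fin (2 * g + 1) → kk F | (∀ _i : Unit, f.map (et t) =
          ∏ b, (X - C (τ _i b))) ∧ ∀ i, Function.Injective (τ i)}.ncard
            = (2 * g + 1).factorial := by
        rw [show (2 * g + 1).factorial = ∏ _i : Unit, (2 * g + 1).factorial by simp]
        exact hO
      have hOf : {τ : Unit → Fin (2 * g + 1) → kk F | (∀ _i : Unit, f.map (et t) =
          ∏ b, (X - C (τ _i b))) ∧ ∀ i, Function.Injective (τ i)}.Finite := by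
        apply Set.finite_of_ncard_ne_zero
        rw [hO']
        exact Nat.factorial_ne_zero _
      refine ⟨hOf.toFinset, fun _ => ⟨?_, ?_⟩⟩
      · rw [← hO', Set.ncard_eq_toFinset_card _ hOf]
      · intro τ hτ
        rw [Set.Finite.mem_toFinset] at hτ
        exact ⟨hτ.1 (), hτ.2 ()⟩
    · exact ⟨∅, fun h => absurd h ht⟩
  choose S hS using hS
  have hR : ∀ (t : kk F) (τ : Unit → Fin (2 * g + 1) → kk F), ∃ r : Fin (2 * g + 1) → kk F,
      et t P.1 = 0 → f.map (et t) = ∏ b, (X - C (τ () b)) →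
        (∀ b, r b ^ 2 = av t a (τ () b)) ∧ ∏ b, r b = et t s ∧ ∀ b, r b ≠ 0 := by
    intro t τ
    by_cases h : et t P.1 = 0 ∧ f.map (et t) = ∏ b, (X - C (τ () b))
    · obtain ⟨ht, hτ⟩ := h
      have hα : ∏ b, av t a (τ () b) = et t s ^ 2 := hs (kk F) (et t) _ (τ ()) hτ
      obtain ⟨r, hr1, hr2⟩ := root_A1 (fun b => av t a (τ () b)) (et t s) hα
      refine ⟨r, fun _ _ => ⟨hr1, hr2, fun b hb => ?_⟩⟩
      have hx : (f.map (et t)).eval (τ () b) = 0 := by
        rw [hτ, Polynomial.eval_prod, Finset.prod_eq_zero (Finset.mem_univ b)]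
        simp
      apply av_ne_A1 h3 h9 h2 hg hf hd a hgd (fun ψ hψ => (hsq ψ hψ).1) ht (τ () b) hx
      rw [← hr1 b, hb]
      ring
    · exact ⟨0, fun h1 h2 => absurd ⟨h1, h2⟩ h⟩
  choose R hR using hR
  set D := (Zf.sigma (fun t => S t)) ×ˢ (univ : Finset (Fin (2 * g) → Bool)) with hD
  have hDc : D.card = k * (2 * g + 1).factorial * 2 ^ (2 * g) := by
    rw [hD, Finset.card_product, Finset.card_sigma]
    congr 1
    · rw [Finset.sum_congr rfl (g := fun _ => (2 * g + 1).factorial)]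
      · rw [Finset.sum_const, hZc, smul_eq_mul]
      · intro t ht
        rw [hZfd, Set.Finite.mem_toFinset] at ht
        exact (hS t ht).1
    · simp
  rw [← hDc]
  set φ : (Σ _ : kk F, Unit → Fin (2 * g + 1) → kk F) × (Fin (2 * g) → Bool) →
      kk F × (Unit → Fin (2 * g + 1) → kk F) × (Fin (2 * g + 1) → kk F) :=
    fun x => (x.1.1, x.1.2, chg_A1 (R x.1.1 x.1.2) x.2) with hφ
  have hmem : ∀ x ∈ D, et x.1.1 P.1 = 0 ∧ (f.map (et x.1.1) = ∏ b, (X - C (x.1.2 () b))) ∧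
      Function.Injective (x.1.2 ()) := by
    intro x hx
    rw [hD, Finset.mem_product, Finset.mem_sigma, hZfd, Set.Finite.mem_toFinset] at hx
    exact ⟨hx.1.1, (hS _ hx.1.1).2 _ hx.1.2⟩
  have hinj : Set.InjOn φ D := by
    intro x hx x' hx' hxx
    obtain ⟨⟨t, τ⟩, e⟩ := x
    obtain ⟨⟨t', τ'⟩, e'⟩ := x'
    obtain ⟨m1, m2, m3⟩ := hmem _ hx
    simp only [hφ, Prod.mk.injEq] at hxx
    obtain ⟨rfl, rfl, h⟩ := hxx
    have := chg_inj_A1 (two_ne_A1 h2) (R t τ) (hR t τ m1 m2).2.2 h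
    rw [this]
  refine (Finset.card_le_card_of_injOn φ ?_ hinj).trans Finset.card_biUnion_le
  intro x hx
  obtain ⟨m1, m2, m3⟩ := hmem _ hx
  obtain ⟨r1, r2, r3⟩ := hR _ _ m1 m2
  obtain ⟨σ, ε, t1, t2, t3⟩ := typ_A1 h3 h4 h5 h6 h9 h2 hg hf hd a s hk hP hgd
    (fun ψ hψ => (hsq ψ hψ).2) m1 x.1.2 m2 m3 (chg_A1 (R x.1.1 x.1.2) x.2)
    (fun b => by rw [chg_sq_A1, r1]) (fun b hb => by
      have := chg_sq_A1 (R x.1.1 x.1.2) x.2 b
      rw [hb] at this
      exact r3 b (by simpa using this.symm)) (by rw [chg_prod_A1, r2])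
  rw [Finset.mem_coe, Finset.mem_biUnion]
  refine ⟨(σ, ε), ?_, ?_⟩
  · rw [Finset.mem_filter]
    exact ⟨Finset.mem_univ _, t2, t3⟩
  · rw [Finset.mem_filter]
    exact ⟨hAp (σ, ε) _ t1 t2, m1⟩


private lemma I_two_A1 {n : ℕ} (hn : 1 ≤ n) (σ : Equiv.Perm (Fin n)) : 2 ≤ I_A1 σ := by
  classical
  have h1 : ((({∅, univ} : Finset (Finset (Fin n))) : Set (Finset (Fin n)))).ncard = 2 := by
    rw [Set.ncard_coe_finset, Finset.card_pair]
    intro h
    have : (⟨0, hn⟩ : Fin n) ∈ (∅ : Finset (Fin n)) := by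
      rw [h]
      exact Finset.mem_univ _
    simp at this
  rw [← h1, I_A1]
  refine Set.ncard_le_ncard ?_ (Set.toFinite _)
  intro T hT
  simp only [Finset.coe_insert, Finset.coe_singleton, Set.mem_insert_iff,
    Set.mem_singleton_iff] at hT
  rcases hT with rfl | rfl
  · simp
  · simp

private lemma I_one_A1 (n : ℕ) : I_A1 (1 : Equiv.Perm (Fin n)) = 2 ^ n := by
  have : {T : Finset (Fin n) | T.map (1 : Equiv.Perm (Fin n)).toEmbedding = T} = Set.univ := by
    ext T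
    simp only [Set.mem_ofPred_eq, Set.mem_univ, iff_true]
    ext x
    simp only [Finset.mem_map_equiv]
    exact Iff.rfl
  rw [I_A1, this, Set.ncard_univ, Nat.card_eq_fintype_card]
  simp

private lemma sum_cob_A1 {g : ℕ} {p : (Unit → Equiv.Perm (Fin (2 * g + 1))) ×
    (Fin (2 * g + 1) → ZMod 2)} (hp : Cob_A1 p) : ∑ b, p.2 b = 0 := by
  obtain ⟨h, hh⟩ := hp
  rw [Finset.sum_congr rfl fun b _ => hh b, Finset.sum_add_distrib,
    Equiv.sum_comp (p.1 ()) h]
  exact CharTwo.add_self_eq_zero _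

open Classical in
/-- The sum of the weights over the pairs. -/
private lemma wsum_A1 (h7 : StSGN) (g : ℕ) :
    ∑ p ∈ univ.filter (fun p : (Unit → Equiv.Perm (Fin (2 * g + 1))) ×
        (Fin (2 * g + 1) → ZMod 2) => Cob_A1 p), Real.sqrt ((I_A1 (p.1 ()) : ℝ) / 2) =
      2 ^ (2 * g) * ∑ σ : Unit → Equiv.Perm (Fin (2 * g + 1)),
        Real.sqrt (2 / (I_A1 (σ ()) : ℝ)) := by
  rw [Finset.mul_sum, Finset.sum_filter, Fintype.sum_prod_type]
  refine Finset.sum_congr rfl fun σ _ => ?_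
  rw [← Finset.sum_filter]
  change ∑ a with Cob_A1 (σ, a), Real.sqrt ((I_A1 (σ ()) : ℝ) / 2) = _
  rw [Finset.sum_const, nsmul_eq_mul]
  have h := h7 (2 * g + 1) (σ ())
  have h' : (univ.filter (fun e : Fin (2 * g + 1) → ZMod 2 => Cob_A1 (σ, e))).card *
      I_A1 (σ ()) = 2 ^ (2 * g + 1) := by
    rw [← h, I_A1]
    congr 1
    rw [← Set.ncard_coe_finset]
    congr 1
    ext e
    simp [Cob_A1]
  have hI : (0 : ℝ) < I_A1 (σ ()) := by
    have := I_two_A1 (n := 2 * g + 1) (by omega) (σ ())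
    exact_mod_cast (by omega : 0 < I_A1 (σ ()))
  have h'' : ((univ.filter (fun e : Fin (2 * g + 1) → ZMod 2 => Cob_A1 (σ, e))).card : ℝ) =
      2 ^ (2 * g) * (2 / I_A1 (σ ())) := by
    have : ((univ.filter (fun e : Fin (2 * g + 1) → ZMod 2 => Cob_A1 (σ, e))).card : ℝ) *
      I_A1 (σ ()) = 2 ^ (2 * g + 1) := by exact_mod_cast h'
    field_simp
    rw [this, pow_succ]
  rw [h'', mul_assoc]
  congr 1
  set x : ℝ := 2 / I_A1 (σ ()) with hx
  have hx0 : 0 < x := by positivity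
  have hx1 : (I_A1 (σ ()) : ℝ) / 2 = x⁻¹ := by rw [hx, inv_div]
  rw [hx1, Real.sqrt_inv]
  have h3 : x = Real.sqrt x * Real.sqrt x := (Real.mul_self_sqrt hx0.le).symm
  have h4 : Real.sqrt x ≠ 0 := (Real.sqrt_pos.2 hx0).ne'
  field_simp
  rw [sq]
  exact h3

/-- (A1) -/
theorem bA1 (h1 : StCN1) (h2 : StRT) (h3 : StEB) (h4 : StTP) (h5 : StSQM) (h6 : StDIV)
    (h7 : StSGN) (h8 : StUN) (h9 : StFAC) : StA1 := by
  classical
  intro F _ _ hF2 g hg f hf hd hgeo _
  have hyp : Hyp0 (fun _ : Unit => g) (fun _ : Unit => f) := by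
    refine ⟨fun _ => hg, fun _ => hf, fun _ => hd, ?_⟩
    have : (∏ _i : Unit, f) = f := by simp
    rw [this]
    simpa [GeoSn] using hgeo
  have : Fact (Irreducible (fK ((fun _ : Unit => f) ()))) := ‹Fact (Irreducible (fK f))›
  obtain ⟨C₀, hC₀, hCN⟩ := h1 F hF2 Unit (fun _ => g) (fun _ => f) hyp ()
  set N : ℕ := (2 * g + 1).factorial with hN
  have hNpos : (0 : ℝ) < N := by
    rw [hN]
    exact_mod_cast Nat.factorial_pos _
  set ρ : ℝ := (∑ σ : Unit → Equiv.Perm (Fin (2 * g + 1)),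
    Real.sqrt (2 / (I_A1 (σ ()) : ℝ))) / N with hρ
  have hρ0 : 0 ≤ ρ := div_nonneg (Finset.sum_nonneg fun _ _ => Real.sqrt_nonneg _) hNpos.le
  have hρ1 : ρ < 1 := by
    rw [hρ, div_lt_one hNpos]
    have hc : (N : ℝ) = ∑ _σ : Unit → Equiv.Perm (Fin (2 * g + 1)), (1 : ℝ) := by
      rw [Finset.sum_const, Finset.card_univ, Fintype.card_fun, Fintype.card_perm,
        Fintype.card_fin, hN]
      simp
    rw [hc]
    refine Finset.sum_lt_sum (fun σ _ => ?_) ⟨1, Finset.mem_univ _, ?_⟩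
    · have h2 : (2 : ℝ) ≤ I_A1 (σ ()) := by
        exact_mod_cast I_two_A1 (n := 2 * g + 1) (by omega) (σ ())
      rw [show (1 : ℝ) = Real.sqrt 1 by simp]
      exact Real.sqrt_le_sqrt (by rw [div_le_one (by linarith)]; exact h2)
    · have h8' : (8 : ℝ) ≤ I_A1 ((1 : Unit → Equiv.Perm (Fin (2 * g + 1))) ()) := by
        have e : I_A1 ((1 : Unit → Equiv.Perm (Fin (2 * g + 1))) ()) = 2 ^ (2 * g + 1) :=
          I_one_A1 (2 * g + 1)
        rw [e]
        have : 2 ^ 3 ≤ 2 ^ (2 * g + 1) := Nat.pow_le_pow_right (by norm_num) (by omega)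
        exact_mod_cast this
      rw [show (1 : ℝ) = Real.sqrt 1 by simp]
      refine Real.sqrt_lt_sqrt (by positivity) ?_
      rw [div_lt_one (by linarith)]
      linarith
  refine ⟨ρ, ρ * C₀, hρ0, hρ1, mul_nonneg hρ0 hC₀, ?_⟩
  intro c a hRp ha0 hnorm hnsq k Q hQ
  set q : ℝ := (Fintype.card F : ℝ) with hq
  have hq0 : 0 ≤ q := Nat.cast_nonneg _
  have hsqrt : Real.sqrt (q ^ k) = Real.sqrt q ^ k := by
    have : q ^ k = (Real.sqrt q ^ k) ^ 2 := by
      rw [← pow_mul, mul_comm k 2, pow_mul, Real.sq_sqrt hq0]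
    rw [this, Real.sqrt_sq (by positivity)]
  rcases Nat.eq_zero_or_pos k with hk | hk
  · subst hk
    simp only [Nat.cast_zero, zero_mul]
    positivity
  obtain ⟨s, hs⟩ := h8 F f a hf hnorm
  have hCN' := hCN c a s hRp hs hnorm hnsq
  -- the finite sets of tuples
  set Pairs := univ.filter (fun p : (Unit → Equiv.Perm (Fin (2 * g + 1))) ×
        (Fin (2 * g + 1) → ZMod 2) => Cob_A1 p) with hPairs
  have hA : ∀ p : (Unit → Equiv.Perm (Fin (2 * g + 1))) × (Fin (2 * g + 1) → ZMod 2),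
      ∃ A : Finset (kk F × (Unit → Fin (2 * g + 1) → kk F) × (Fin (2 * g + 1) → kk F)),
        (∀ y, y ∈ X1 (g := fun _ : Unit => g) (fun _ : Unit => f) () a s p.1 p.2
          (Fintype.card F ^ k) → Cob_A1 p → y ∈ A) ∧
        (Cob_A1 p → (A.card : ℝ) ≤ q ^ k + C₀ * (c + 1) * Real.sqrt (q ^ k)) := by
    intro p
    by_cases hp : Cob_A1 p
    · obtain ⟨hfin, hbd⟩ := hCN' p.1 p.2 (sum_cob_A1 hp) k hk
      refine ⟨hfin.toFinset, fun y hy _ => hfin.mem_toFinset.2 hy, fun _ => ?_⟩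
      have e : hfin.toFinset.card = (X1 (g := fun _ : Unit => g) (fun _ : Unit => f) () a s p.1 p.2
          (Fintype.card F ^ k)).ncard := (Set.ncard_eq_toFinset_card _ hfin).symm
      rw [e]
      have := (abs_le.1 hbd).2
      linarith
    · exact ⟨∅, fun y _ h => absurd h hp, fun h => absurd h hp⟩
  choose Ap hAp1 hAp2 using hA
  -- the inequality for one prime
  have hP : ∀ P ∈ Q, Real.sqrt 2 ^ ((facs f P).card - 1) * (k * N * 2 ^ (2 * g)) ≤
      ∑ p ∈ Pairs, Real.sqrt ((I_A1 (p.1 ()) : ℝ) / 2) *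
        (((Ap p).filter (fun y => et y.1 P.1 = 0)).card : ℝ) := by
    intro P hPQ
    obtain ⟨hPk, hgd, hsq⟩ := hQ P hPQ
    have hlow := low_A1 h2 h3 h4 h5 h6 h9 hF2 hg hf hd a s hs hk hPk hgd hsq Ap
      (fun p y hy hc => hAp1 p y hy hc)
    have hlow' : ((k : ℝ) * N * 2 ^ (2 * g)) ≤
      ∑ p ∈ univ.filter (fun p : (Unit → Equiv.Perm (Fin (2 * g + 1))) ×
        (Fin (2 * g + 1) → ZMod 2) => Cob_A1 p ∧ I_A1 (p.1 ()) = 2 ^ (facs f P).card),
        (((Ap p).filter (fun y => et y.1 P.1 = 0)).card : ℝ) := by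
      exact_mod_cast hlow
    have hc1 : 1 ≤ (facs f P).card := (h9 F hF2 g hg f hf hd P hgd).2.2.2.1
    calc Real.sqrt 2 ^ ((facs f P).card - 1) * (k * N * 2 ^ (2 * g))
        ≤ Real.sqrt 2 ^ ((facs f P).card - 1) *
          ∑ p ∈ univ.filter (fun p : (Unit → Equiv.Perm (Fin (2 * g + 1))) ×
            (Fin (2 * g + 1) → ZMod 2) => Cob_A1 p ∧ I_A1 (p.1 ()) = 2 ^ (facs f P).card),
            (((Ap p).filter (fun y => et y.1 P.1 = 0)).card : ℝ) :=
          mul_le_mul_of_nonneg_left hlow' (by positivity)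
      _ = ∑ p ∈ univ.filter (fun p : (Unit → Equiv.Perm (Fin (2 * g + 1))) ×
            (Fin (2 * g + 1) → ZMod 2) => Cob_A1 p ∧ I_A1 (p.1 ()) = 2 ^ (facs f P).card),
            Real.sqrt ((I_A1 (p.1 ()) : ℝ) / 2) *
              (((Ap p).filter (fun y => et y.1 P.1 = 0)).card : ℝ) := by
          rw [Finset.mul_sum]
          refine Finset.sum_congr rfl fun p hp => ?_
          rw [Finset.mem_filter] at hp
          rw [hp.2.2]
          congr 1
          obtain ⟨m, hm⟩ := Nat.exists_eq_add_of_le hc1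
          rw [hm, Nat.add_sub_cancel_left]
          push_cast
          rw [show (2 : ℝ) ^ (1 + m) / 2 = (Real.sqrt 2 ^ m) ^ 2 by
            rw [← pow_mul, mul_comm m 2, pow_mul, Real.sq_sqrt (by norm_num)]
            rw [pow_add]
            ring, Real.sqrt_sq (by positivity)]
      _ ≤ _ := by
          refine Finset.sum_le_sum_of_subset_of_nonneg ?_ fun p _ _ => by positivity
          intro p hp
          rw [Finset.mem_filter] at hp
          rw [hPairs, Finset.mem_filter]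
          exact ⟨Finset.mem_univ _, hp.2.1⟩
  -- summation over the primes
  have hcnt : ∀ p, ∑ P ∈ Q, (((Ap p).filter (fun y => et y.1 P.1 = 0)).card : ℝ) ≤
      ((Ap p).card : ℝ) := by
    intro p
    have hdisj : ∀ P ∈ Q, ∀ P' ∈ Q, P ≠ P' →
        Disjoint ((Ap p).filter (fun y => et y.1 P.1 = 0))
          ((Ap p).filter (fun y => et y.1 P'.1 = 0)) := by
      intro P hP P' hP' hne
      rw [Finset.disjoint_left]
      intro y hy hy'
      rw [Finset.mem_filter] at hy hy'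
      exact hne ((((h2 F k hk).1 P' (Pool.Agent.Helper54.PT.mem_prm.2 (hQ P' hP').1)).2 y.1
        hy'.2).2 P hy.2)
    have : ∑ P ∈ Q, ((Ap p).filter (fun y => et y.1 P.1 = 0)).card ≤ (Ap p).card := by
      rw [← Finset.card_biUnion hdisj]
      refine Finset.card_le_card ?_
      intro y hy
      rw [Finset.mem_biUnion] at hy
      obtain ⟨P, -, hy⟩ := hy
      exact (Finset.mem_filter.1 hy).1
    exact_mod_cast this
  have hmain : (∑ P ∈ Q, Real.sqrt 2 ^ ((facs f P).card - 1)) * (k * N * 2 ^ (2 * g)) ≤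
      (2 ^ (2 * g) * ∑ σ : Unit → Equiv.Perm (Fin (2 * g + 1)),
        Real.sqrt (2 / (I_A1 (σ ()) : ℝ))) * (q ^ k + C₀ * (c + 1) * Real.sqrt (q ^ k)) := by
    rw [← wsum_A1 h7 g, Finset.sum_mul]
    calc ∑ P ∈ Q, Real.sqrt 2 ^ ((facs f P).card - 1) * (k * N * 2 ^ (2 * g))
        ≤ ∑ P ∈ Q, ∑ p ∈ Pairs, Real.sqrt ((I_A1 (p.1 ()) : ℝ) / 2) *
          (((Ap p).filter (fun y => et y.1 P.1 = 0)).card : ℝ) := Finset.sum_le_sum hP
      _ = ∑ p ∈ Pairs, Real.sqrt ((I_A1 (p.1 ()) : ℝ) / 2) *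
          ∑ P ∈ Q, (((Ap p).filter (fun y => et y.1 P.1 = 0)).card : ℝ) := by
          rw [Finset.sum_comm]
          refine Finset.sum_congr rfl fun p _ => ?_
          rw [Finset.mul_sum]
      _ ≤ ∑ p ∈ Pairs, Real.sqrt ((I_A1 (p.1 ()) : ℝ) / 2) *
          (q ^ k + C₀ * (c + 1) * Real.sqrt (q ^ k)) := by
          refine Finset.sum_le_sum fun p hp => ?_
          rw [hPairs, Finset.mem_filter] at hp
          exact mul_le_mul_of_nonneg_left ((hcnt p).trans (hAp2 p hp.2)) (Real.sqrt_nonneg _)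
      _ = _ := by rw [Finset.sum_mul]
  have h2g : (0 : ℝ) < 2 ^ (2 * g) := by positivity
  have hfin : ((k : ℝ) * ∑ P ∈ Q, Real.sqrt 2 ^ ((facs f P).card - 1)) * (N * 2 ^ (2 * g)) ≤
      (ρ * (q ^ k + C₀ * (c + 1) * Real.sqrt (q ^ k))) * (N * 2 ^ (2 * g)) := by
    have e : ρ * N = ∑ σ : Unit → Equiv.Perm (Fin (2 * g + 1)),
        Real.sqrt (2 / (I_A1 (σ ()) : ℝ)) := by
      rw [hρ]
      field_simp
    rw [← e] at hmain
    linarith
  have := le_of_mul_le_mul_right hfin (by positivity)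
  rw [hsqrt] at this
  calc _ ≤ _ := this
    _ = _ := by ring

end Pool.Agent.Helper54.GT
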