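import Pool.Agent.Helper54.GT.StB

/-!
# GT, module B_A1p: the final statement A1p
-/

set_option autoImplicit false

namespace Pool.Agent.Helper54.GT

open Polynomial Module Finset Filter Topology
open Pool.Agent.Helper54.PT (Prm prm)
open Pool.Agent.Helper3.HY (fK RR LL kp red TType)
open Pool.Agent.Helper3.GT (Gd GdF HypF facs TyI TyT Rp GeoSn StFAC StA1 StA1p StA2)

private lemma rot_A1p (n : ℕ) (T : Finset (Fin n)) (h : T.map (finRotate n).toEmbedding = T) :
    T = ∅ ∨ T = univ := by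
  classical
  rcases T.eq_empty_or_nonempty with h0 | ⟨b, hb⟩
  · exact Or.inl h0
  · right
    cases n with
    | zero => exact b.elim0
    | succ m =>
      have h1 : ∀ x ∈ T, x + 1 ∈ T := by
        intro x hx
        have : (finRotate (m + 1)) x ∈ T.map (finRotate (m + 1)).toEmbedding :=
          mem_map_of_mem _ hx
        rw [h, finRotate_apply] at this
        exact this
      have h2 : ∀ k : Fin (m + 1), b + k ∈ T := by
        intro k
        induction k using Fin.induction with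
        | zero => simpa using hb
        | succ k ih =>
          have := h1 _ ih
          rw [← Fin.coeSucc_eq_succ, ← add_assoc]
          exact this
      rw [eq_univ_iff_forall]
      intro y
      have := h2 (y - b)
      simpa using this

private noncomputable def s0_A1p (m : ℕ) : Equiv.Perm (Fin (m + 1)) :=
  Equiv.Perm.decomposeFin.symm (0, finRotate m)

private lemma s00_A1p (m : ℕ) : s0_A1p m 0 = 0 := by
  rw [s0_A1p, Equiv.Perm.decomposeFin_symm_apply_zero]

private lemma s0s_A1p (m : ℕ) (x : Fin m) : s0_A1p m x.succ = (finRotate m x).succ := by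
  rw [s0_A1p, Equiv.Perm.decomposeFin_symm_apply_succ, Equiv.swap_self]
  rfl

private lemma fix_A1p (m : ℕ) (T : Finset (Fin (m + 1))) (h : T.map (s0_A1p m).toEmbedding = T)
    (h0 : (0 : Fin (m + 1)) ∉ T) : T = ∅ ∨ T = {0}ᶜ := by
  classical
  obtain ⟨T', hT'⟩ : ∃ T' : Finset (Fin m), ∀ x, x ∈ T' ↔ x.succ ∈ T :=
    ⟨univ.filter fun x => x.succ ∈ T, by simp⟩
  have h1 : T'.map (finRotate m).toEmbedding = T' := by
    apply Finset.eq_of_subset_of_card_le
    · intro y hy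
      obtain ⟨x, hx, rfl⟩ := mem_map.1 hy
      rw [hT'] at hx ⊢
      have : s0_A1p m x.succ ∈ T.map (s0_A1p m).toEmbedding := mem_map_of_mem _ hx
      rw [h, s0s_A1p] at this
      exact this
    · rw [card_map]
  rcases rot_A1p m T' h1 with h2 | h2
  · left
    rw [eq_empty_iff_forall_notMem]
    intro x
    refine Fin.cases h0 (fun y hy => ?_) x
    have := (hT' y).2 hy
    rw [h2] at this
    exact notMem_empty _ this
  · right
    ext x
    refine Fin.cases ?_ (fun y => ?_) x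
    · simp [h0]
    · have := hT' y
      rw [h2] at this
      simp only [mem_univ, true_iff] at this
      simp [this]

private lemma cnt_A1p {F : Type} [Field F] {ι : Type} [Fintype ι] {g : ι → ℕ}
    (f : ι → F[X][X]) (hdeg : ∀ i, (f i).natDegree = 2 * g i + 1) (hm : ∀ i, (f i).Monic) (i₀ : ι)
    (a : F[X][X]) (t : kk F)
    (Y : Finset (kk F × (∀ i, Fin (2 * g i + 1) → kk F) × (Fin (2 * g i₀ + 1) → kk F)))
    (hY : ∀ y ∈ Y, y.1 = t ∧ (∀ i, (f i).map (et y.1) = ∏ b, (X - C (y.2.1 i b))) ∧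
      ∀ b, y.2.2 b ^ 2 = av y.1 a (y.2.1 i₀ b)) :
    Y.card ≤ (∏ i, (2 * g i + 1) ^ (2 * g i + 1)) *
      ((2 * g i₀ + 1) * 2) ^ (2 * g i₀ + 1) := by
  classical
  let R : ι → Finset (kk F) := fun j => ((f j).map (et t)).roots.toFinset
  have hR : ∀ j, (R j).card ≤ 2 * g j + 1 := by
    intro j
    refine (Multiset.toFinset_card_le _).trans ((card_roots' _).trans ?_)
    rw [← hdeg j]
    exact natDegree_map_le
  let Z : Finset (kk F) := (R i₀).biUnion fun x => (X ^ 2 - C (av t a x)).roots.toFinset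
  have hZ : Z.card ≤ (2 * g i₀ + 1) * 2 := by
    refine (card_biUnion_le_card_mul _ _ 2 ?_).trans (Nat.mul_le_mul_right 2 (hR i₀))
    intro x _
    refine (Multiset.toFinset_card_le _).trans ((card_roots' _).trans ?_)
    exact (natDegree_X_pow_sub_C (n := 2)).le
  let B : Finset (kk F × (∀ i, Fin (2 * g i + 1) → kk F) × (Fin (2 * g i₀ + 1) → kk F)) :=
    {t} ×ˢ ((Fintype.piFinset fun i => Fintype.piFinset fun _ => R i) ×ˢ
      Fintype.piFinset fun _ => Z)
  have hB : B.card ≤ (∏ i, (2 * g i + 1) ^ (2 * g i + 1)) *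
      ((2 * g i₀ + 1) * 2) ^ (2 * g i₀ + 1) := by
    simp only [B, card_product, card_singleton, one_mul, Fintype.card_piFinset, prod_const,
      card_univ, Fintype.card_fin]
    gcongr with j _
    exact hR j
  refine (card_le_card ?_).trans hB
  intro y hy
  obtain ⟨h1, h2, h3⟩ := hY y hy
  have hτ : ∀ i b, y.2.1 i b ∈ R i := by
    intro i b
    have hne : (f i).map (et t) ≠ 0 := ((hm i).map _).ne_zero
    simp only [R, Multiset.mem_toFinset, mem_roots hne, IsRoot.def]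
    rw [← h1, h2 i, eval_prod]
    apply prod_eq_zero (mem_univ b)
    simp
  simp only [B, mem_product, mem_singleton, Fintype.mem_piFinset]
  refine ⟨h1, hτ, fun b => ?_⟩
  simp only [Z, mem_biUnion]
  refine ⟨y.2.1 i₀ b, hτ i₀ b, ?_⟩
  rw [Multiset.mem_toFinset, mem_roots (monic_X_pow_sub_C _ (by norm_num)).ne_zero, IsRoot.def]
  have := h3 b
  rw [h1] at this
  simp [this]

private lemma z2_A1p (v : ZMod 2) : v = 0 ∨ v = 1 := by
  revert v; decide

private lemma fr_A1p {F : Type} [Field F] [Fintype F] (e : ℕ) :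
    ∃ ψ : kk F →ₐ[F] kk F, ∀ x, ψ x = x ^ Fintype.card F ^ e := by
  induction e with
  | zero => exact ⟨AlgHom.id F _, fun x => by simp⟩
  | succ e ih =>
    obtain ⟨ψ, hψ⟩ := ih
    refine ⟨(FiniteField.frobeniusAlgHom F (kk F)).comp ψ, fun x => ?_⟩
    simp [hψ, pow_succ, pow_mul]

/-- the primes obtained from the tuples have the right properties -/
private lemma prm_A1p (h3 : StEB) (h4 : StTP) (h5 : StSQM) (h6 : StDIV) (h8 : StFAC)
    {F : Type} [Field F] [Fintype F] (h20 : (2 : F) ≠ 0) {ι : Type} [Fintype ι] {g : ι → ℕ}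
    (f : ι → F[X][X]) (hg : ∀ i, 1 ≤ g i) (hm : ∀ i, (f i).Monic)
    (hdeg : ∀ i, (f i).natDegree = 2 * g i + 1) (i : ι) (a : F[X][X]) (s : F[X])
    (σ : ∀ i, Equiv.Perm (Fin (2 * g i + 1))) (ε : Fin (2 * g i + 1) → ZMod 2)
    (hσi : σ i = s0_A1p (2 * g i)) (hσ : ∀ j, j ≠ i → σ j = finRotate (2 * g j + 1))
    (hε0 : ε 0 = 1) (k : ℕ) (hk : 1 ≤ k) (P : Prm F) (hP : P ∈ prm F k) (y)
    (hy : y ∈ X1 f i a s σ ε (Fintype.card F ^ k)) (hyP : et y.1 P.1 = 0) :
    P.1.natDegree = k ∧ GdF f P ∧ TyT (g i) (f i) P ∧ (∀ j, j ≠ i → TyI (f j) P) ∧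
        (∀ ψ ∈ facs (f i) P, AdjoinRoot.mk ψ (a.map (red P)) ≠ 0) ∧
        ∃ ψ ∈ facs (f i) P, ¬ IsSquare (AdjoinRoot.mk ψ (a.map (red P))) := by
  classical
  obtain ⟨⟨ht, hf, hi, hτ⟩, hr0, hr2, hrp, hrQ⟩ := hy
  simp only at ht hf hi hτ
  have hPk : P.1.natDegree = k := Pool.Agent.Helper54.PT.mem_prm.1 hP
  have hGd : GdF f P := ((h4 F h20 ι g f hm hdeg k P hk hP y.1 hyP).2 y.2.1 hf hi).1
  obtain ⟨hfin, hcard, j, hj⟩ := h3 F P y.1 hyP
  let _ : Fintype (kp P) := Fintype.ofFinite _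
  have hQ : Fintype.card (kp P) = Fintype.card F ^ k := by
    rw [← Nat.card_eq_fintype_card, hcard, hPk]
  have hjc : j.comp (red P) = et y.1 := RingHom.ext hj
  have hmap : ∀ i, ((f i).map (red P)).map j = ∏ b, (X - C (y.2.1 i b)) := by
    intro i
    rw [Polynomial.map_map, hjc, hf i]
  have hτ' : ∀ i b, y.2.1 i b ^ Fintype.card (kp P) = y.2.1 i (σ i b) := by
    intro i b
    rw [hQ]
    exact hτ i b
  have hfac := (h8 F h20 (g i) (hg i) (f i) (hm i) (hdeg i) P (hGd i)).1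
  have hev : ∀ b, ((a.map (red P)).map j).eval (y.2.1 i b) = av y.1 a (y.2.1 i b) := by
    intro b
    rw [Polynomial.map_map, hjc, eval_map]
    rfl
  refine ⟨hPk, hGd, ?_, ?_, ?_, ?_⟩
  · refine (h6 (kp P) (kk F) j (2 * g i + 1) ((f i).map (red P)) (y.2.1 i) (σ i) ((hm i).map _)
      (hmap i) (hi i) (hτ' i)).2.2 (g i) 0 rfl (hg i) ?_ ?_
    · rw [hσi]
      exact s00_A1p _
    · intro T hT h0
      rw [hσi] at hT
      exact fix_A1p _ T hT h0
  · intro l hl
    refine ((h6 (kp P) (kk F) j (2 * g l + 1) ((f l).map (red P)) (y.2.1 l) (σ l) ((hm l).map _)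
      (hmap l) (hi l) (hτ' l)).2.1 (by omega)).1 ?_
    intro T hT
    rw [hσ l hl] at hT
    exact rot_A1p _ T hT
  · intro ψ hψ
    obtain ⟨hψ1, hψ2, hψ3⟩ := (hfac ψ).1 hψ
    refine (h5 (kp P) (kk F) j (2 * g i + 1) ((f i).map (red P)) (y.2.1 i) (σ i) ((hm i).map _)
      (hmap i) (hi i) (hτ' i) (a.map (red P))).2 ?_ ψ hψ1 hψ2 hψ3
    intro b
    rw [hev b, ← hr2 b]
    exact pow_ne_zero 2 (hr0 b)
  · by_contra hcon
    push Not at hcon
    obtain ⟨u, hu2, huQ⟩ := (h5 (kp P) (kk F) j (2 * g i + 1) ((f i).map (red P)) (y.2.1 i) (σ i)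
      ((hm i).map _) (hmap i) (hi i) (hτ' i) (a.map (red P))).1
      (fun ψ hψ1 hψ2 hψ3 => hcon ψ ((hfac ψ).2 ⟨hψ1, hψ2, hψ3⟩))
    obtain ⟨ψ, hψ⟩ := fr_A1p (F := F) k
    have h00 : σ i 0 = 0 := by
      rw [hσi]
      exact s00_A1p _
    have e1 : ψ (y.2.2 0) = -y.2.2 0 := by
      rw [hψ, hrQ 0, h00, hε0]
      simp [show (1 : ZMod 2).val = 1 by decide]
    have e2 : ψ (u 0) = u 0 := by
      have := huQ 0
      rw [hQ, h00] at this
      rw [hψ]
      exact this
    have e3 : y.2.2 0 ^ 2 = u 0 ^ 2 := by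
      rw [hr2 0, hu2 0, hev 0]
    have e4 : ψ (y.2.2 0) = y.2.2 0 := by
      rcases sq_eq_sq_iff_eq_or_eq_neg.1 e3 with h | h
      · rw [h, e2]
      · rw [h, map_neg, e2]
    rw [e4] at e1
    have e5 : (2 : kk F) * y.2.2 0 = 0 := by
      rw [two_mul]
      nth_rewrite 2 [e1]
      exact add_neg_cancel _
    have h2k : (2 : kk F) ≠ 0 := by
      have := (map_ne_zero (algebraMap F (kk F))).2 h20
      rwa [map_ofNat] at this
    exact (mul_ne_zero h2k (hr0 0)) e5

theorem bA1p (h1 : StCN1) (h2 : StRT) (h3 : StEB) (h4 : StTP) (h5 : StSQM) (h6 : StDIV)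
    (h7 : StUN) (h8 : StFAC) : StA1p := by
  classical
  intro F _ _ h20 ι _ g f hf i _
  obtain ⟨C₀, hC0, hC⟩ := h1 F h20 ι g f ⟨hf.one_le, hf.monic, hf.deg, hf.geo⟩ i
  obtain ⟨N, hN, hNd⟩ : ∃ N : ℕ, 0 < N ∧ N = (∏ i, (2 * g i + 1) ^ (2 * g i + 1)) *
      ((2 * g i + 1) * 2) ^ (2 * g i + 1) := ⟨_, by positivity, rfl⟩
  have hNR : (0 : ℝ) < N := by exact_mod_cast hN
  refine ⟨1 / N, C₀ + 2 + 1, by positivity, by positivity, ?_⟩
  intro c a hRp ha hn1 hn2 k
  obtain ⟨s, hs⟩ := h7 F (f i) a (hf.monic i) hn1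
  rcases Nat.eq_zero_or_pos k with hk | hk
  · refine ⟨∅, by simp, ?_⟩
    subst hk
    simp only [pow_zero, mul_one, card_empty, Nat.cast_zero, mul_zero]
    have : (1 : ℝ) / N ≤ 1 := by
      rw [div_le_one hNR]
      exact_mod_cast hN
    have h5 : (0 : ℝ) ≤ c := by positivity
    nlinarith [mul_nonneg hC0 h5]
  let σ : ∀ i, Equiv.Perm (Fin (2 * g i + 1)) :=
    Function.update (fun j => finRotate (2 * g j + 1)) i (s0_A1p (2 * g i))
  have hσi : σ i = s0_A1p (2 * g i) := by simp [σ]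
  have hσ : ∀ j, j ≠ i → σ j = finRotate (2 * g j + 1) := by
    intro j hj
    simp [σ, hj]
  let ε : Fin (2 * g i + 1) → ZMod 2 := Pi.single 0 1 + Pi.single 1 1
  have h01 : (0 : Fin (2 * g i + 1)) ≠ 1 := by
    have := hf.one_le i
    intro h
    have h5 := Fin.zero_eq_one_iff.1 h
    omega
  have hε0 : ε 0 = 1 := by
    simp [ε, h01]
  have hε : ∑ b, ε b = 0 := by
    simp only [ε, Pi.add_apply, sum_add_distrib, Finset.sum_pi_single', mem_univ, if_true]
    decide
  obtain ⟨hfin, hcard⟩ := hC c a s hRp hs hn1 hn2 σ ε hε k hk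
  let Q : Finset (Prm F) := (prm F k).filter fun P =>
    ∃ y ∈ X1 f i a s σ ε (Fintype.card F ^ k), et y.1 P.1 = 0
  obtain ⟨hR1, hR2, hR3, hR4⟩ := h2 F k hk
  refine ⟨Q, ?_, ?_⟩
  · intro P hP
    obtain ⟨hP1, y, hy, hyP⟩ := mem_filter.1 hP
    exact prm_A1p h3 h4 h5 h6 h8 h20 f hf.one_le hf.monic hf.deg i a s σ ε hσi hσ hε0 k hk P hP1 y
      hy hyP
  · obtain ⟨Y, hY⟩ : ∃ Y : Finset (kk F × (∀ i, Fin (2 * g i + 1) → kk F) ×
        (Fin (2 * g i + 1) → kk F)), Y = hfin.toFinset := ⟨_, rfl⟩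
    have hYm : ∀ y, y ∈ Y ↔ y ∈ X1 f i a s σ ε (Fintype.card F ^ k) := by
      intro y
      rw [hY, Set.Finite.mem_toFinset]
    have c1 : (X1 f i a s σ ε (Fintype.card F ^ k)).ncard = Y.card := by
      rw [hY, Set.ncard_eq_toFinset_card _ hfin]
    have c2 : Y.card ≤ N * (Y.image Prod.fst).card := by
      apply card_le_mul_card_image
      intro t _
      rw [hNd]
      apply cnt_A1p f hf.deg hf.monic i a t
      intro y hy
      obtain ⟨hy1, hy2⟩ := mem_filter.1 hy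
      have hy3 := (hYm y).1 hy1
      exact ⟨hy2, hy3.1.2.1, hy3.2.2.1⟩
    have c3 : ((Y.image Prod.fst).card : ℝ) ≤ 2 * Real.sqrt (Fintype.card F) ^ k + k * Q.card := by
      have hsub : ((Y.image Prod.fst : Finset (kk F)) : Set (kk F)) ⊆
          {t : kk F | t ^ Fintype.card F ^ k = t ∧ ∀ P ∈ prm F k, et t P.1 ≠ 0} ∪
            ⋃ P ∈ Q, {t : kk F | et t P.1 = 0} := by
        intro t ht
        obtain ⟨y, hy, rfl⟩ := mem_image.1 (mem_coe.1 ht)
        rw [hYm] at hy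
        by_cases hex : ∃ P ∈ prm F k, et y.1 P.1 = 0
        · right
          obtain ⟨P, hP, hP2⟩ := hex
          simp only [Set.mem_iUnion]
          exact ⟨P, mem_filter.2 ⟨hP, y, hy, hP2⟩, hP2⟩
        · left
          push Not at hex
          exact ⟨hy.1.1, hex⟩
      have hfinR : ∀ P ∈ Q, {t : kk F | et t P.1 = 0}.Finite := by
        intro P hP
        apply Set.finite_of_ncard_pos
        rw [(hR1 P (mem_filter.1 hP).1).1]
        exact hk
      have hfinB : {t : kk F | t ^ Fintype.card F ^ k = t ∧ ∀ P ∈ prm F k, et t P.1 ≠ 0}.Finite :=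
        hR2.subset fun t ht => ht.1
      have e1 := Set.ncard_le_ncard hsub (hfinB.union (Set.Finite.biUnion Q.finite_toSet hfinR))
      rw [Set.ncard_coe_finset] at e1
      have e2 := e1.trans (Set.ncard_union_le _ _)
      have e3 : (⋃ P ∈ Q, {t : kk F | et t P.1 = 0}).ncard ≤ k * Q.card := by
        refine (Finset.set_ncard_biUnion_le Q _).trans ?_
        rw [sum_congr rfl (fun P hP => (hR1 P (mem_filter.1 hP).1).1), sum_const, smul_eq_mul,
          mul_comm]
      have e4 : ((Y.image Prod.fst).card : ℝ) ≤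
          ({t : kk F | t ^ Fintype.card F ^ k = t ∧ ∀ P ∈ prm F k, et t P.1 ≠ 0}.ncard : ℝ) +
            (k * Q.card : ℕ) := by
        exact_mod_cast e2.trans (Nat.add_le_add_left e3 _)
      push_cast at e4
      linarith
    rw [c1] at hcard
    have c4 := (abs_le.1 hcard).1
    have c5 : Real.sqrt ((Fintype.card F : ℝ) ^ k) = Real.sqrt (Fintype.card F) ^ k := by
      rw [Real.sqrt_eq_iff_mul_self_eq (by positivity) (by positivity), ← mul_pow,
        Real.mul_self_sqrt (by positivity)]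
    rw [c5] at c4
    have c6 : (Y.card : ℝ) ≤ N * ((Y.image Prod.fst).card : ℝ) := by exact_mod_cast c2
    have c7 : (Y.card : ℝ) ≤ N * (2 * Real.sqrt (Fintype.card F) ^ k + k * Q.card) :=
      c6.trans (mul_le_mul_of_nonneg_left c3 hNR.le)
    obtain ⟨S, hS⟩ : ∃ S : ℝ, S = Real.sqrt (Fintype.card F) ^ k := ⟨_, rfl⟩
    rw [← hS] at c4 c7 ⊢
    have hS0 : 0 ≤ S := by rw [hS]; positivity
    have c8 : (1 / N : ℝ) * (Fintype.card F : ℝ) ^ k ≤
        (1 / N : ℝ) * (C₀ * (c + 1) * S + N * (2 * S + k * Q.card)) := by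
      apply mul_le_mul_of_nonneg_left _ (by positivity)
      linarith
    have c9 : (1 / N : ℝ) * (C₀ * (c + 1) * S + N * (2 * S + k * Q.card)) =
        (1 / N : ℝ) * (C₀ * (c + 1) * S) + (2 * S + k * Q.card) := by
      field_simp
    have c10 : (1 / N : ℝ) * (C₀ * (c + 1) * S) ≤ C₀ * (c + 1) * S := by
      have h5 : (1 / N : ℝ) ≤ 1 := by
        rw [div_le_one hNR]
        exact_mod_cast hN
      have h6 : 0 ≤ C₀ * (c + 1) * S := by positivity
      nlinarith
    rw [c9] at c8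
    have hc0 : (0 : ℝ) ≤ c := by positivity
    nlinarith [mul_nonneg hc0 hS0]

end Pool.Agent.Helper54.GT
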