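import Pool.Agent.Helper54.GT.StB

/-!
# GT, module B_A2: the statement A2 for a nonempty family
-/

set_option autoImplicit false

namespace Pool.Agent.Helper54.GT

open Polynomial Module Finset Filter Topology
open Pool.Agent.Helper54.PT (Prm prm mem_prm)
open Pool.Agent.Helper3.HY (fK RR LL kp red TType)
open Pool.Agent.Helper3.GT (Gd GdF HypF facs TyI TyT Rp GeoSn StFAC StA1 StA1p StA2)

/-! ### Counting -/

theorem cnt_A2 {α β : Type} [DecidableEq α] (A : Finset α) (B : α → Set β)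
    (hfin : ∀ a ∈ A, (B a).Finite)
    (hdis : ∀ a ∈ A, ∀ a' ∈ A, ∀ b, b ∈ B a → b ∈ B a' → a = a') :
    {b | ∃ a ∈ A, b ∈ B a}.Finite ∧
      {b | ∃ a ∈ A, b ∈ B a}.ncard = ∑ a ∈ A, (B a).ncard := by
  induction A using Finset.induction_on with
  | empty => simp
  | insert a s has ih =>
    obtain ⟨h1, h2⟩ := ih (fun x hx => hfin x (mem_insert_of_mem hx))
      (fun x hx y hy => hdis x (mem_insert_of_mem hx) y (mem_insert_of_mem hy))
    have he : {b | ∃ x ∈ insert a s, b ∈ B x} = B a ∪ {b | ∃ x ∈ s, b ∈ B x} := by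
      ext b; simp
    have hd : Disjoint (B a) {b | ∃ x ∈ s, b ∈ B x} := by
      rw [Set.disjoint_left]
      rintro b hb ⟨x, hx, hbx⟩
      have := hdis a (mem_insert_self _ _) x (mem_insert_of_mem hx) b hb hbx
      exact has (this ▸ hx)
    have hfa := hfin a (mem_insert_self _ _)
    rw [he]
    exact ⟨hfa.union h1, by rw [Set.ncard_union_eq hd hfa h1, h2, sum_insert has]⟩

theorem fib_A2 {α β : Type} (A : Set α) (hA : A.Finite) (B : α → Set β)
    (hfin : ∀ a ∈ A, (B a).Finite) :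
    {y : α × β | y.1 ∈ A ∧ y.2 ∈ B y.1}.Finite ∧
    {y : α × β | y.1 ∈ A ∧ y.2 ∈ B y.1}.ncard = ∑ a ∈ hA.toFinset, (B a).ncard := by
  classical
  have h1 := cnt_A2 hA.toFinset (fun a => ({a} : Set α) ×ˢ B a)
    (fun a ha => (Set.finite_singleton a).prod (hfin a (hA.mem_toFinset.1 ha)))
    (by
      rintro a - a' - b ⟨hb, -⟩ ⟨hb', -⟩
      rw [Set.mem_singleton_iff] at hb hb'
      rw [← hb, ← hb'])
  have h2 : {b : α × β | ∃ a ∈ hA.toFinset, b ∈ ({a} : Set α) ×ˢ B a} =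
      {y : α × β | y.1 ∈ A ∧ y.2 ∈ B y.1} := by
    ext ⟨x, y⟩
    constructor
    · rintro ⟨a, ha, hb1, hb2⟩
      have hb1' : x = a := hb1
      subst hb1'
      exact ⟨hA.mem_toFinset.1 ha, hb2⟩
    · rintro ⟨ha, hb⟩
      exact ⟨x, hA.mem_toFinset.2 ha, rfl, hb⟩
  rw [h2] at h1
  refine ⟨h1.1, h1.2.trans (Finset.sum_congr rfl fun a _ => ?_)⟩
  rw [Set.ncard_prod, Set.ncard_singleton, one_mul]

theorem fib_le_A2 {α β : Type} (A : Set α) (hA : A.Finite) (B : α → Set β)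
    (hfin : ∀ a ∈ A, (B a).Finite) (M : ℕ) (hM : ∀ a ∈ A, (B a).ncard ≤ M) :
    {y : α × β | y.1 ∈ A ∧ y.2 ∈ B y.1}.ncard ≤ A.ncard * M := by
  rw [(fib_A2 A hA B hfin).2, Set.ncard_eq_toFinset_card A hA, ← smul_eq_mul]
  exact Finset.sum_le_card_nsmul _ _ _ fun a ha => hM a (hA.mem_toFinset.1 ha)

theorem fib_eq_A2 {α β : Type} (A : Set α) (hA : A.Finite) (B : α → Set β)
    (hfin : ∀ a ∈ A, (B a).Finite) (M : ℕ) (hM : ∀ a ∈ A, (B a).ncard = M) :
    {y : α × β | y.1 ∈ A ∧ y.2 ∈ B y.1}.ncard = A.ncard * M := by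
  rw [(fib_A2 A hA B hfin).2, Set.ncard_eq_toFinset_card A hA, ← smul_eq_mul,
    Finset.sum_congr rfl (fun a ha => hM a (hA.mem_toFinset.1 ha)), Finset.sum_const]

section A2

variable {F : Type} [Field F]

/-- The orderings of the roots above `t`. -/
def Ord_A2 {ι : Type} {g : ι → ℕ} (f : ι → F[X][X]) (t : kk F) :
    Set (∀ i, Fin (2 * g i + 1) → kk F) :=
  {τ | (∀ i, (f i).map (et t) = ∏ b, (X - C (τ i b))) ∧ ∀ i, Function.Injective (τ i)}

theorem root_A2 (t : kk F) : ∃ P : Prm F, et t P.1 = 0 := by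
  have hi : IsIntegral F t := Algebra.IsIntegral.isIntegral t
  exact ⟨⟨minpoly F t, minpoly.monic hi, minpoly.irreducible hi⟩, minpoly.aeval F t⟩

theorem et_ne_A2 (P : Prm F) (t : kk F) (ht : et t P.1 = 0) (d : F[X]) :
    et t d = 0 ↔ P.1 ∣ d := by
  constructor
  · intro h
    by_contra hd
    obtain ⟨a, b, hab⟩ := (P.2.2.coprime_iff_not_dvd).2 hd
    have h1 := congrArg (et t) hab
    rw [map_add, map_mul, map_mul, ht, h, mul_zero, mul_zero, add_zero, map_one] at h1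
    exact zero_ne_one h1
  · rintro ⟨c, rfl⟩
    rw [map_mul, ht, zero_mul]

variable [Fintype F]

omit [Fintype F] in
theorem deg_pos_A2 (P : Prm F) : 1 ≤ P.1.natDegree := P.2.2.natDegree_pos

theorem ord_A2 (h5 : StTP) (h2 : (2 : F) ≠ 0) {ι : Type} [Fintype ι] {g : ι → ℕ}
    {f : ι → F[X][X]} (hm : ∀ i, (f i).Monic) (hd : ∀ i, (f i).natDegree = 2 * g i + 1)
    (t : kk F) : (Ord_A2 (g := g) f t).Finite ∧
      (Ord_A2 (g := g) f t).ncard ≤ ∏ i, (2 * g i + 1).factorial := by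
  obtain ⟨P, hP⟩ := root_A2 t
  obtain ⟨h6, h7⟩ := h5 F h2 ι g f hm hd P.1.natDegree P (deg_pos_A2 P) (mem_prm.2 rfl) t hP
  rcases (Ord_A2 (g := g) f t).eq_empty_or_nonempty with h | ⟨τ, hτ⟩
  · rw [h]
    exact ⟨Set.finite_empty, by rw [Set.ncard_empty]; exact Nat.zero_le _⟩
  · have h8 := h6 (h7 τ hτ.1 hτ.2).1
    refine ⟨Set.finite_of_ncard_pos ?_, h8.le⟩
    show 0 < (Ord_A2 (g := g) f t).ncard
    unfold Ord_A2
    rw [h8]
    exact Finset.prod_pos fun i _ => Nat.factorial_pos _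

/-- The roots of a set of primes. -/
theorem rts_A2 (h3 : StRT) (k : ℕ) (hk : 1 ≤ k) (G : Finset (Prm F)) (hG : G ⊆ prm F k) :
    {t : kk F | ∃ P ∈ G, et t P.1 = 0}.Finite ∧
      {t : kk F | ∃ P ∈ G, et t P.1 = 0}.ncard = G.card * k := by
  obtain ⟨h1, -⟩ := h3 F k hk
  have h2 := cnt_A2 G (fun P => {t : kk F | et t P.1 = 0})
    (fun P hP => Set.finite_of_ncard_pos (by rw [(h1 P (hG hP)).1]; exact hk))
    (fun P hP P' hP' t ht ht' => (((h1 P' (hG hP')).2 t ht').2 P ht))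
  refine ⟨h2.1, h2.2.trans ?_⟩
  rw [Finset.sum_congr rfl (fun P hP => (h1 P (hG hP)).1), Finset.sum_const, smul_eq_mul]

/-- The bad points. -/
theorem bad_A2 (h3 : StRT) (k : ℕ) (hk : 1 ≤ k) :
    {t : kk F | t ^ Fintype.card F ^ k = t ∧ ∀ P ∈ prm F k, et t P.1 ≠ 0}.Finite := by
  obtain ⟨-, h1, -⟩ := h3 F k hk
  exact h1.subset fun t ht => ht.1

/-- Irreducibility modulo `P` and the Frobenius. -/
theorem tyI_A2 (h4 : StEB) (h6 : StDIV) {ι : Type} {g : ι → ℕ}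
    {f : ι → F[X][X]} (hm : ∀ i, (f i).Monic) (k : ℕ) (P : Prm F) (hP : P ∈ prm F k) (t : kk F)
    (ht : et t P.1 = 0) (σ : ∀ i, Equiv.Perm (Fin (2 * g i + 1)))
    (τ : ∀ i, Fin (2 * g i + 1) → kk F) (h : (t, τ) ∈ X0 f σ (Fintype.card F ^ k)) (i : ι) :
    (∀ T : Finset (Fin (2 * g i + 1)), T.map (σ i).toEmbedding = T → T = ∅ ∨ T = univ) ↔
      TyI (f i) P := by
  obtain ⟨hf, hc, j, hj⟩ := h4 F P t ht
  have := Fintype.ofFinite (kp P)
  obtain ⟨-, hx1, hx2, hx3⟩ := h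
  have hcard : Fintype.card (kp P) = Fintype.card F ^ k := by
    rw [← Nat.card_eq_fintype_card, hc, mem_prm.1 hP]
  have hmap : ((f i).map (red P)).map j = ∏ b, (X - C (τ i b)) := by
    rw [Polynomial.map_map, show j.comp (red P) = et t from RingHom.ext hj]
    exact hx1 i
  exact (h6 (kp P) (kk F) j (2 * g i + 1) ((f i).map (red P)) (τ i) (σ i) ((hm i).map _) hmap
    (hx2 i) (fun b => by rw [hcard]; exact hx3 i b)).2.1 (by omega)

/-- Squares modulo `P` and the Frobenius. -/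
theorem sq_A2 (h3 : StRT) (h4 : StEB) (k : ℕ) (hk : 1 ≤ k) (P : Prm F) (hP : P ∈ prm F k)
    (t : kk F) (ht : et t P.1 = 0) (d : F[X]) (r : kk F) (hr : r ^ 2 = et t d) :
    IsSquare (red P d) ↔ r ^ Fintype.card F ^ k = r := by
  obtain ⟨hf, hc, j, hj⟩ := h4 F P t ht
  obtain ⟨-, hfin, hcard, -⟩ := h3 F k hk
  have := Fintype.ofFinite (kp P)
  have hc' : Fintype.card (kp P) = Fintype.card F ^ k := by
    rw [← Nat.card_eq_fintype_card, hc, mem_prm.1 hP]
  have hpow : ∀ y : kp P, j y ^ Fintype.card F ^ k = j y := by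
    intro y
    rw [← map_pow, ← hc', FiniteField.pow_card]
  constructor
  · rintro ⟨y, hy⟩
    have h1 : r ^ 2 = (j y) ^ 2 := by
      rw [hr, ← hj, hy, map_mul, sq]
    rcases sq_eq_sq_iff_eq_or_eq_neg.1 h1 with h | h
    · rw [h]; exact hpow y
    · rw [h, ← map_neg]; exact hpow (-y)
  · intro h
    have h1 : Set.range j = {t : kk F | t ^ Fintype.card F ^ k = t} := by
      apply Set.eq_of_subset_of_ncard_le
      · rintro _ ⟨y, rfl⟩
        exact hpow y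
      · rw [hcard, ← Set.image_univ, Set.ncard_image_of_injective _ j.injective,
          Set.ncard_univ, hc, mem_prm.1 hP]
      · exact hfin
    have h2 : r ∈ Set.range j := by rw [h1]; exact h
    obtain ⟨y, rfl⟩ := h2
    refine ⟨y, j.injective ?_⟩
    rw [hj, ← hr, map_mul, sq]

end A2

theorem rot_A2 (n : ℕ) (T : Finset (Fin (n + 2)))
    (hT : T.map (finRotate (n + 2)).toEmbedding = T) : T = ∅ ∨ T = univ := by
  rcases T.eq_empty_or_nonempty with h | ⟨x, hx⟩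
  · exact Or.inl h
  · right
    have h1 : ∀ y ∈ T, finRotate (n + 2) y ∈ T := by
      intro y hy
      rw [← hT]
      exact Finset.mem_map.2 ⟨y, hy, rfl⟩
    have h2 : ∀ m : ℕ, ((finRotate (n + 2)) ^ m) x ∈ T := by
      intro m
      induction m with
      | zero => simpa using hx
      | succ m ih =>
        rw [pow_succ', Equiv.Perm.mul_apply]
        exact h1 _ ih
    have hmv : ∀ y : Fin (n + 2), finRotate (n + 2) y ≠ y := by
      intro y
      have : y ∈ (finRotate (n + 2)).support := by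
        rw [support_finRotate]; exact mem_univ _
      exact Equiv.Perm.mem_support.1 this
    rw [Finset.eq_univ_iff_forall]
    intro y
    obtain ⟨m, hm⟩ := isCycle_finRotate.exists_pow_eq (hmv x) (hmv y)
    rw [← hm]
    exact h2 m

theorem rot'_A2 (n : ℕ) (hn : 2 ≤ n) (T : Finset (Fin n))
    (hT : T.map (finRotate n).toEmbedding = T) : T = ∅ ∨ T = univ := by
  obtain ⟨m, rfl⟩ := Nat.exists_eq_add_of_le' hn
  exact rot_A2 m T hT

theorem sqrt_pow_A2 (q : ℝ) (hq : 0 ≤ q) (k : ℕ) : Real.sqrt (q ^ k) = Real.sqrt q ^ k := by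
  rw [← Real.sqrt_sq (show 0 ≤ Real.sqrt q ^ k by positivity), ← pow_mul, mul_comm, pow_mul,
    Real.sq_sqrt hq]

theorem part1_A2 (h1 : StCN0) (h3 : StRT) (h4 : StEB) (h5 : StTP) (h6 : StDIV) (F : Type)
    [Field F] [Fintype F] (h20 : (2 : F) ≠ 0) (ι : Type) [Fintype ι] (g : ι → ℕ)
    (f : ι → F[X][X]) (hf : Hyp0 g f) (G : ℕ → Finset (Prm F))
    (hG : ∀ k P, P ∈ G k ↔ P ∈ prm F k ∧ GdF f P ∧ ∀ i, TyI (f i) P) :
    ∃ C : ℝ, 0 ≤ C ∧ ∀ k, 1 ≤ k → (Fintype.card F : ℝ) ^ k - C * Real.sqrt (Fintype.card F) ^ k ≤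
      (∏ i, (2 * g i + 1).factorial : ℕ) * (k * ((G k).card : ℝ)) := by
  obtain ⟨C₀, hC₀, hX⟩ := h1 F h20 ι g f hf
  set N : ℕ := ∏ i, (2 * g i + 1).factorial with hN
  refine ⟨C₀ + 2 * N, by positivity, fun k hk => ?_⟩
  set Q : ℕ := Fintype.card F ^ k with hQ
  obtain ⟨hXf, hXc⟩ := hX (fun i => finRotate (2 * g i + 1)) k hk
  set RG : Set (kk F) := {t | ∃ P ∈ G k, et t P.1 = 0} with hRG
  set Bad : Set (kk F) := {t | t ^ Fintype.card F ^ k = t ∧ ∀ P ∈ prm F k, et t P.1 ≠ 0} with hBad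
  have hGs : G k ⊆ prm F k := fun P hP => ((hG k P).1 hP).1
  obtain ⟨hR1, hR2⟩ := rts_A2 h3 k hk (G k) hGs
  have hBf : Bad.Finite := bad_A2 h3 k hk
  have hBc : (Bad.ncard : ℝ) ≤ 2 * Real.sqrt (Fintype.card F) ^ k := (h3 F k hk).2.2.2
  have hO := fun t => ord_A2 h5 h20 (g := g) hf.monic hf.deg t
  have hsub : X0 f (fun i => finRotate (2 * g i + 1)) Q ⊆
      {y | y.1 ∈ RG ∧ y.2 ∈ Ord_A2 f y.1} ∪ {y | y.1 ∈ Bad ∧ y.2 ∈ Ord_A2 f y.1} := by
    rintro ⟨t, τ⟩ hy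
    obtain ⟨hy1, hy2, hy3, hy4⟩ := id hy
    by_cases hP : ∃ P ∈ prm F k, et t P.1 = 0
    · obtain ⟨P, hP, ht⟩ := hP
      left
      refine ⟨⟨P, (hG k P).2 ⟨hP, ?_, ?_⟩, ht⟩, hy2, hy3⟩
      · exact ((h5 F h20 ι g f hf.monic hf.deg k P hk hP t ht).2 τ hy2 hy3).1
      · intro i
        refine (tyI_A2 h4 h6 hf.monic k P hP t ht _ τ hy i).1 ?_
        exact rot'_A2 _ (by have := hf.one_le i; omega)
    · right
      push Not at hP
      exact ⟨⟨hy1, hP⟩, hy2, hy3⟩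
  have hfR := (fib_A2 RG hR1 (fun t => Ord_A2 (g := g) f t) (fun t _ => (hO t).1)).1
  have hfB := (fib_A2 Bad hBf (fun t => Ord_A2 (g := g) f t) (fun t _ => (hO t).1)).1
  have hcR := fib_le_A2 RG hR1 (fun t => Ord_A2 (g := g) f t) (fun t _ => (hO t).1) N
    (fun t _ => (hO t).2)
  have hcB := fib_le_A2 Bad hBf (fun t => Ord_A2 (g := g) f t) (fun t _ => (hO t).1) N
    (fun t _ => (hO t).2)
  have hle : (X0 f (fun i => finRotate (2 * g i + 1)) Q).ncard ≤
      (G k).card * k * N + Bad.ncard * N := by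
    refine (Set.ncard_le_ncard hsub (hfR.union hfB)).trans
      ((Set.ncard_union_le _ _).trans (add_le_add ?_ hcB))
    rw [← hR2]
    exact hcR
  have hle' : ((X0 f (fun i => finRotate (2 * g i + 1)) Q).ncard : ℝ) ≤
      (G k).card * k * N + Bad.ncard * N := by exact_mod_cast hle
  rw [sqrt_pow_A2 _ (Nat.cast_nonneg _)] at hXc
  have h7 := (abs_le.1 hXc).1
  have h8 : (Bad.ncard : ℝ) * N ≤ 2 * Real.sqrt (Fintype.card F) ^ k * N :=
    mul_le_mul_of_nonneg_right hBc (Nat.cast_nonneg _)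
  nlinarith [h7, h8, hle']

theorem sqr_A2 {F : Type} [Field F] (x : kk F) : {r : kk F | r ^ 2 = x}.Finite ∧
    {r : kk F | r ^ 2 = x}.ncard ≤ 2 ∧ ((2 : F) ≠ 0 → x ≠ 0 → {r : kk F | r ^ 2 = x}.ncard = 2) := by
  obtain ⟨r, hr⟩ := IsAlgClosed.exists_pow_nat_eq x (n := 2) (by norm_num)
  have h1 : {r : kk F | r ^ 2 = x} = {r, -r} := by
    ext y
    rw [Set.mem_insert_iff, Set.mem_singleton_iff, ← sq_eq_sq_iff_eq_or_eq_neg, hr]
    rfl
  rw [h1]
  refine ⟨Set.toFinite _, ?_, ?_⟩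
  · exact (Set.ncard_insert_le _ _).trans (by rw [Set.ncard_singleton])
  · intro h2 hx
    apply Set.ncard_pair
    intro h3
    have h4 : (2 : kk F) * r = 0 := by linear_combination h3
    rcases mul_eq_zero.1 h4 with h5 | h5
    · apply h2
      apply (algebraMap F (kk F)).injective
      rw [map_ofNat, map_zero, h5]
    · rw [h5] at hr
      exact hx (by rw [← hr]; ring)

theorem z2_A2 : ∀ ε : ZMod 2, ε = 0 ∨ ε = 1 := by decide

/-- The number of tuples with a given class of `d`. -/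
theorem cls_A2 (h3 : StRT) (h4 : StEB) (h5 : StTP) (h6 : StDIV) (F : Type)
    [Field F] [Fintype F] (h20 : (2 : F) ≠ 0) (ι : Type) [Fintype ι] (g : ι → ℕ)
    (f : ι → F[X][X]) (hf : Hyp0 g f) (d : F[X]) (k : ℕ) (hk : 1 ≤ k) (ε : ZMod 2)
    (G : Finset (Prm F))
    (hG : ∀ P, P ∈ G ↔ P ∈ prm F k ∧ ((GdF f P ∧ ∀ i, TyI (f i) P) ∧ ¬ P.1 ∣ d) ∧
      (IsSquare (red P d) ↔ ε = 0))
    (I : Finset (∀ i, Equiv.Perm (Fin (2 * g i + 1))))
    (hI : ∀ σ, σ ∈ I ↔ ∀ i, ∀ T : Finset (Fin (2 * g i + 1)), T.map (σ i).toEmbedding = T →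
      T = ∅ ∨ T = univ) :
    {y | ∃ σ ∈ I, y ∈ {y | (∃ P ∈ prm F k, et y.1 P.1 = 0) ∧
      y ∈ X2 f d σ ε (Fintype.card F ^ k)}}.ncard =
        G.card * k * ((∏ i, (2 * g i + 1).factorial) * 2) := by
  have hGs : G ⊆ prm F k := fun P hP => ((hG P).1 hP).1
  obtain ⟨hR1, hR2⟩ := rts_A2 h3 k hk G hGs
  have hset : {y | ∃ σ ∈ I, y ∈ {y | (∃ P ∈ prm F k, et y.1 P.1 = 0) ∧
      y ∈ X2 f d σ ε (Fintype.card F ^ k)}} =
      {y : kk F × (∀ i, Fin (2 * g i + 1) → kk F) × kk F |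
        y.1 ∈ {t : kk F | ∃ P ∈ G, et t P.1 = 0} ∧
        y.2 ∈ Ord_A2 f y.1 ×ˢ {r : kk F | r ^ 2 = et y.1 d}} := by
    ext ⟨t, τ, r⟩
    constructor
    · rintro ⟨σ, hσ, ⟨P, hP, ht⟩, hX0, hr0, hr2, hrQ⟩
      have ht : et t P.1 = 0 := ht
      have hr2 : r ^ 2 = et t d := hr2
      have hr0 : r ≠ 0 := hr0
      have hX0 : (t, τ) ∈ X0 f σ (Fintype.card F ^ k) := hX0
      have hrQ : r ^ Fintype.card F ^ k = (-1) ^ ε.val * r := hrQ
      refine ⟨⟨P, (hG P).2 ⟨hP, ⟨⟨?_, ?_⟩, ?_⟩, ?_⟩, ht⟩, ⟨hX0.2.1, hX0.2.2.1⟩, hr2⟩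
      · exact ((h5 F h20 ι g f hf.monic hf.deg k P hk hP t ht).2 τ hX0.2.1 hX0.2.2.1).1
      · intro i
        exact (tyI_A2 h4 h6 hf.monic k P hP t ht σ τ hX0 i).1 ((hI σ).1 hσ i)
      · rw [← et_ne_A2 P t ht, ← hr2]
        exact pow_ne_zero 2 hr0
      · rw [sq_A2 h3 h4 k hk P hP t ht d r hr2, hrQ]
        have hz : ε = 0 ∨ ε = 1 := z2_A2 ε
        rcases hz with hz | hz
        · subst hz
          simp
        · subst hz
          constructor
          · intro h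
            exfalso
            have h8 : (-1 : kk F) ^ (1 : ZMod 2).val * r = -r := by
              rw [show (1 : ZMod 2).val = 1 from rfl, pow_one, neg_one_mul]
            rw [h8] at h
            have h9 : (2 : kk F) * r = 0 := by linear_combination -h
            rcases mul_eq_zero.1 h9 with h5 | h5
            · apply h20
              apply (algebraMap F (kk F)).injective
              rw [map_ofNat, map_zero, h5]
            · exact hr0 h5
          · intro h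
            exact absurd h (by decide)
    · rintro ⟨⟨P, hPG, ht⟩, ⟨ho1, ho2⟩, hr2⟩
      have ht : et t P.1 = 0 := ht
      have hr2 : r ^ 2 = et t d := hr2
      obtain ⟨hP, ⟨⟨-, hty⟩, hd⟩, hsq⟩ := (hG P).1 hPG
      obtain ⟨-, σ, hX0⟩ := (h5 F h20 ι g f hf.monic hf.deg k P hk hP t ht).2 τ ho1 ho2
      have hdt : et t d ≠ 0 := by rw [Ne, et_ne_A2 P t ht]; exact hd
      have hr0 : r ≠ 0 := by
        intro h
        rw [h] at hr2
        apply hdt
        rw [← hr2]; ring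
      refine ⟨σ, (hI σ).2 fun i => (tyI_A2 h4 h6 hf.monic k P hP t ht σ τ hX0 i).2 (hty i),
        ⟨P, hP, ht⟩, hX0, hr0, hr2, ?_⟩
      show r ^ Fintype.card F ^ k = (-1) ^ ε.val * r
      have hz : ε = 0 ∨ ε = 1 := z2_A2 ε
      rcases hz with hz | hz
      · subst hz
        have h8 := (sq_A2 h3 h4 k hk P hP t ht d r hr2).1 (hsq.2 rfl)
        rw [h8]
        simp
      · subst hz
        have h8 : ¬ r ^ Fintype.card F ^ k = r := by
          rw [← sq_A2 h3 h4 k hk P hP t ht d r hr2, hsq]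
          decide
        have h9 : (r ^ Fintype.card F ^ k) ^ 2 = r ^ 2 := by
          rw [← pow_mul, mul_comm, pow_mul, hr2, ← map_pow]
          have h10 : (et t d) ^ Fintype.card F ^ k = et t d := by
            obtain ⟨hfi, hc, j, hj⟩ := h4 F P t ht
            have := Fintype.ofFinite (kp P)
            have hc' : Fintype.card (kp P) = Fintype.card F ^ k := by
              rw [← Nat.card_eq_fintype_card, hc, mem_prm.1 hP]
            rw [← hj, ← map_pow, ← hc', FiniteField.pow_card]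
          rw [map_pow, h10]
        rw [show (1 : ZMod 2).val = 1 from rfl, pow_one, neg_one_mul]
        exact (sq_eq_sq_iff_eq_or_eq_neg.1 h9).resolve_left h8
  rw [hset, ← hR2]
  apply fib_eq_A2 _ hR1 (fun t => Ord_A2 (g := g) f t ×ˢ {r : kk F | r ^ 2 = et t d})
  · intro t _
    exact (ord_A2 h5 h20 hf.monic hf.deg t).1.prod (sqr_A2 _).1
  · rintro t ⟨P, hPG, ht⟩
    obtain ⟨hP, ⟨⟨hgd, -⟩, hd⟩, -⟩ := (hG P).1 hPG
    rw [Set.ncard_prod, (sqr_A2 _).2.2 h20 (by rw [Ne, et_ne_A2 P t ht]; exact hd)]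
    congr 1
    exact (h5 F h20 ι g f hf.monic hf.deg k P hk hP t ht).1 hgd

/-- The permutation is determined by the tuple. -/
theorem perm_A2 {F : Type} [Field F] {ι : Type} {g : ι → ℕ} {f : ι → F[X][X]}
    {σ σ' : ∀ i, Equiv.Perm (Fin (2 * g i + 1))} {Q : ℕ}
    {y : kk F × (∀ i, Fin (2 * g i + 1) → kk F)} (h : y ∈ X0 f σ Q) (h' : y ∈ X0 f σ' Q) :
    σ = σ' := by
  funext i
  ext1 b
  exact h.2.2.1 i ((h.2.2.2 i b).symm.trans (h'.2.2.2 i b))

/-- The number of tuples, by the Frobenius. -/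
theorem frob_A2 (h3 : StRT) (h5 : StTP) (F : Type)
    [Field F] [Fintype F] (h20 : (2 : F) ≠ 0) (ι : Type) [Fintype ι] (g : ι → ℕ)
    (f : ι → F[X][X]) (hf : Hyp0 g f) (d : F[X]) (k : ℕ) (hk : 1 ≤ k) (ε : ZMod 2) (B : ℝ)
    (hB : ∀ σ : (∀ i, Equiv.Perm (Fin (2 * g i + 1))), (X2 f d σ ε (Fintype.card F ^ k)).Finite ∧
      |((X2 f d σ ε (Fintype.card F ^ k)).ncard : ℝ) - (Fintype.card F : ℝ) ^ k| ≤ B)
    (I : Finset (∀ i, Equiv.Perm (Fin (2 * g i + 1)))) :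
    |(({y | ∃ σ ∈ I, y ∈ {y | (∃ P ∈ prm F k, et y.1 P.1 = 0) ∧
      y ∈ X2 f d σ ε (Fintype.card F ^ k)}}.ncard : ℕ) : ℝ) - I.card * (Fintype.card F : ℝ) ^ k| ≤
        I.card * (B + 4 * (∏ i, (2 * g i + 1).factorial : ℕ) * Real.sqrt (Fintype.card F) ^ k) := by
  classical
  set N : ℕ := ∏ i, (2 * g i + 1).factorial with hN
  have h1 := cnt_A2 I (fun σ => {y | (∃ P ∈ prm F k, et y.1 P.1 = 0) ∧
      y ∈ X2 f d σ ε (Fintype.card F ^ k)}) (fun σ _ => (hB σ).1.subset fun y hy => hy.2)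
    (by
      rintro σ - σ' - y ⟨-, hy⟩ ⟨-, hy'⟩
      exact perm_A2 hy.1 hy'.1)
  rw [h1.2, Nat.cast_sum]
  have h2 : (I.card : ℝ) * (Fintype.card F : ℝ) ^ k = ∑ _σ ∈ I, (Fintype.card F : ℝ) ^ k := by
    rw [Finset.sum_const, nsmul_eq_mul]
  rw [h2, ← Finset.sum_sub_distrib]
  refine (Finset.abs_sum_le_sum_abs _ _).trans ?_
  rw [← nsmul_eq_mul]
  refine Finset.sum_le_card_nsmul _ _ _ fun σ _ => ?_
  obtain ⟨hXf, hXc⟩ := hB σ
  set Bad : Set (kk F) := {t | t ^ Fintype.card F ^ k = t ∧ ∀ P ∈ prm F k, et t P.1 ≠ 0} with hBad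
  have hBf : Bad.Finite := bad_A2 h3 k hk
  have hBc : (Bad.ncard : ℝ) ≤ 2 * Real.sqrt (Fintype.card F) ^ k := (h3 F k hk).2.2.2
  have hO := fun t => ord_A2 h5 h20 (g := g) hf.monic hf.deg t
  have hfb : ∀ t ∈ Bad, (Ord_A2 (g := g) f t ×ˢ {r : kk F | r ^ 2 = et t d}).Finite :=
    fun t _ => (hO t).1.prod (sqr_A2 _).1
  have hfB := (fib_A2 Bad hBf (fun t => Ord_A2 (g := g) f t ×ˢ {r : kk F | r ^ 2 = et t d})
    hfb).1
  have hcB := fib_le_A2 Bad hBf (fun t => Ord_A2 (g := g) f t ×ˢ {r : kk F | r ^ 2 = et t d})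
    hfb (N * 2) (fun t _ => by
      rw [Set.ncard_prod]
      exact Nat.mul_le_mul (hO t).2 (sqr_A2 _).2.1)
  have hsub : X2 f d σ ε (Fintype.card F ^ k) ⊆ {y | (∃ P ∈ prm F k, et y.1 P.1 = 0) ∧
      y ∈ X2 f d σ ε (Fintype.card F ^ k)} ∪ {y | y.1 ∈ Bad ∧
        y.2 ∈ Ord_A2 (g := g) f y.1 ×ˢ {r : kk F | r ^ 2 = et y.1 d}} := by
    rintro y hy
    by_cases hP : ∃ P ∈ prm F k, et y.1 P.1 = 0
    · exact Or.inl ⟨hP, hy⟩
    · right
      push Not at hP
      exact ⟨⟨hy.1.1, hP⟩, ⟨hy.1.2.1, hy.1.2.2.1⟩, hy.2.2.1⟩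
  have hYf : {y | (∃ P ∈ prm F k, et y.1 P.1 = 0) ∧
      y ∈ X2 f d σ ε (Fintype.card F ^ k)}.Finite := hXf.subset fun y hy => hy.2
  have hle1 : {y | (∃ P ∈ prm F k, et y.1 P.1 = 0) ∧
      y ∈ X2 f d σ ε (Fintype.card F ^ k)}.ncard ≤ (X2 f d σ ε (Fintype.card F ^ k)).ncard :=
    Set.ncard_le_ncard (fun y hy => hy.2) hXf
  have hle2 : (X2 f d σ ε (Fintype.card F ^ k)).ncard ≤ {y | (∃ P ∈ prm F k, et y.1 P.1 = 0) ∧
      y ∈ X2 f d σ ε (Fintype.card F ^ k)}.ncard + Bad.ncard * (N * 2) :=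
    (Set.ncard_le_ncard hsub (hYf.union hfB)).trans
      ((Set.ncard_union_le _ _).trans (Nat.add_le_add_left hcB _))
  generalize {y | (∃ P ∈ prm F k, et y.1 P.1 = 0) ∧
      y ∈ X2 f d σ ε (Fintype.card F ^ k)}.ncard = y at *
  generalize (X2 f d σ ε (Fintype.card F ^ k)).ncard = x at *
  have hle1' : (y : ℝ) ≤ x := by exact_mod_cast hle1
  have hle2' : (x : ℝ) ≤ y + Bad.ncard * (N * 2) := by exact_mod_cast hle2
  have h8 : (Bad.ncard : ℝ) * (N * 2) ≤ 2 * Real.sqrt (Fintype.card F) ^ k * (N * 2) :=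
    mul_le_mul_of_nonneg_right hBc (by positivity)
  obtain ⟨h9, h10⟩ := abs_le.1 hXc
  rw [abs_le]
  constructor
  · linarith
  · have : (0 : ℝ) ≤ 4 * N * Real.sqrt (Fintype.card F) ^ k := by positivity
    linarith

open Classical in
/-- (A2), for a nonempty family. -/
def StA2n : Prop :=
  ∀ (F : Type) [Field F] [Fintype F], (2 : F) ≠ 0 → ∀ (ι : Type) [Fintype ι] [Nonempty ι]
    (g : ι → ℕ) (f : ι → F[X][X]), HypF g f →
    ∃ c₂ C : ℝ, 0 < c₂ ∧ 0 ≤ C ∧
      (∀ k : ℕ, c₂ * (Fintype.card F : ℝ) ^ k - C * Real.sqrt (Fintype.card F) ^ k ≤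
        k * (((prm F k).filter fun P => GdF f P ∧ ∀ i, TyI (f i) P).card : ℝ)) ∧
      ∀ d : F[X], d.Monic → Squarefree d → d ≠ 1 →
        (∀ i, ∃ P : Prm F, P.1 ∣ (f i).discr ∧ ¬ P.1 ^ 2 ∣ (f i).discr ∧
          (∀ j, j ≠ i → ¬ P.1 ∣ (f j).discr) ∧ ¬ P.1 ∣ d) → ∀ k : ℕ,
        |∑ P ∈ (prm F k).filter fun P => (GdF f P ∧ ∀ i, TyI (f i) P) ∧ ¬ P.1 ∣ d,
          (if IsSquare (red P d) then (1 : ℝ) else -1)| ≤
            C * (d.natDegree + 1) * Real.sqrt (Fintype.card F) ^ k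

/-- (A2) -/
theorem bA2 (h1 : StCN0) (h2 : StCN2) (h3 : StRT) (h4 : StEB) (h5 : StTP) (h6 : StDIV) :
    StA2n := by
  classical
  intro F _ _ h20 ι _ _ g f hF
  have hf : Hyp0 g f := ⟨hF.one_le, hF.monic, hF.deg, hF.geo⟩
  obtain ⟨C₁, hC₁, hp1⟩ := part1_A2 h1 h3 h4 h5 h6 F h20 ι g f hf
    (fun k => (prm F k).filter fun P => GdF f P ∧ ∀ i, TyI (f i) P)
    (fun k P => by rw [Finset.mem_filter])
  obtain ⟨C₂, hC₂, hp2⟩ := h2 F h20 ι g f hf
  set N : ℕ := ∏ i, (2 * g i + 1).factorial with hN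
  have hN0 : 0 < N := Finset.prod_pos fun i _ => Nat.factorial_pos _
  have hN1 : (0 : ℝ) < N := by exact_mod_cast hN0
  refine ⟨1 / N, 1 / N + C₁ / N + (C₂ + 4 * N), by positivity, by positivity, ?_, ?_⟩
  · intro k
    rcases Nat.eq_zero_or_pos k with hk | hk
    · subst hk
      simp only [pow_zero, mul_one, Nat.cast_zero, zero_mul]
      have : 0 ≤ C₁ / N := by positivity
      linarith
    · have h7 := hp1 k hk
      set S := Real.sqrt (Fintype.card F) ^ k with hS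
      have hS0 : 0 ≤ S := by positivity
      have h8 : 1 / (N : ℝ) * (Fintype.card F : ℝ) ^ k - C₁ / N * S ≤
          k * (((prm F k).filter fun P => GdF f P ∧ ∀ i, TyI (f i) P).card : ℝ) := by
        have h9 : 1 / (N : ℝ) * (Fintype.card F : ℝ) ^ k - C₁ / N * S =
            ((Fintype.card F : ℝ) ^ k - C₁ * S) / N := by ring
        rw [h9, div_le_iff₀ hN1]
        linarith
      have h9 : 0 ≤ (1 / (N : ℝ) + (C₂ + 4 * N)) * S := by positivity
      linarith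
  · intro d hd hsq hd1 hP k
    rcases Nat.eq_zero_or_pos k with hk | hk
    · subst hk
      have h7 : (prm F 0).filter (fun P => (GdF f P ∧ ∀ i, TyI (f i) P) ∧ ¬ P.1 ∣ d) = ∅ := by
        apply Finset.eq_empty_of_forall_notMem
        intro P hPm
        have h8 := mem_prm.1 (Finset.mem_filter.1 hPm).1
        have h9 := deg_pos_A2 P
        omega
      rw [h7, Finset.sum_empty, abs_zero]
      positivity
    · set G := (prm F k).filter (fun P => (GdF f P ∧ ∀ i, TyI (f i) P) ∧ ¬ P.1 ∣ d) with hG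
      set I : Finset (∀ i, Equiv.Perm (Fin (2 * g i + 1))) := univ.filter (fun σ => ∀ i,
        ∀ T : Finset (Fin (2 * g i + 1)), T.map (σ i).toEmbedding = T → T = ∅ ∨ T = univ) with hI
      have hIm : ∀ σ, σ ∈ I ↔ ∀ i, ∀ T : Finset (Fin (2 * g i + 1)),
          T.map (σ i).toEmbedding = T → T = ∅ ∨ T = univ := by
        intro σ
        rw [hI, Finset.mem_filter]
        exact ⟨fun h => h.2, fun h => ⟨Finset.mem_univ _, h⟩⟩
      have hIc : I.card ≤ N := by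
        refine (Finset.card_le_univ _).trans (le_of_eq ?_)
        rw [Fintype.card_pi, hN]
        refine Finset.prod_congr rfl fun i _ => ?_
        rw [Fintype.card_perm, Fintype.card_fin]
      set B : ℝ := C₂ * (d.natDegree + 1) * Real.sqrt (Fintype.card F) ^ k with hB
      have hfr := fun ε : ZMod 2 => frob_A2 h3 h5 F h20 ι g f hf d k hk ε B
        (fun σ => by
          have h8 := hp2 d hd hsq hd1 hP σ ε k hk
          rw [sqrt_pow_A2 _ (Nat.cast_nonneg _)] at h8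
          exact h8) I
      have hG0 := cls_A2 h3 h4 h5 h6 F h20 ι g f hf d k hk 0
        (G.filter fun P => IsSquare (red P d)) (fun P => by
          rw [Finset.mem_filter, hG, Finset.mem_filter]
          tauto) I hIm
      have hG1 := cls_A2 h3 h4 h5 h6 F h20 ι g f hf d k hk 1
        (G.filter fun P => ¬ IsSquare (red P d)) (fun P => by
          rw [Finset.mem_filter, hG, Finset.mem_filter]
          have : (1 : ZMod 2) ≠ 0 := by decide
          tauto) I hIm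
      have hf0 := hfr 0
      have hf1 := hfr 1
      rw [hG0] at hf0
      rw [hG1] at hf1
      rw [← Finset.sum_filter_add_sum_filter_not G (fun P => IsSquare (red P d)),
        Finset.sum_congr rfl (g := fun _ => (1 : ℝ))
          (fun P hPm => if_pos (Finset.mem_filter.1 hPm).2),
        Finset.sum_congr (s₁ := G.filter fun P => ¬ IsSquare (red P d)) rfl
          (g := fun _ => (-1 : ℝ)) (fun P hPm => if_neg (Finset.mem_filter.1 hPm).2),
        Finset.sum_const, Finset.sum_const, nsmul_eq_mul, nsmul_eq_mul, mul_one, mul_neg_one]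
      rw [Nat.cast_mul, Nat.cast_mul, Nat.cast_mul] at hf0 hf1
      generalize ((G.filter fun P => IsSquare (red P d)).card : ℝ) = x at *
      generalize ((G.filter fun P => ¬ IsSquare (red P d)).card : ℝ) = y at *
      rw [← hN] at hf0 hf1
      set S := Real.sqrt (Fintype.card F) ^ k with hS
      have hS0 : 0 ≤ S := by positivity
      have hIc' : (I.card : ℝ) ≤ N := by exact_mod_cast hIc
      have hk1 : (1 : ℝ) ≤ k := by exact_mod_cast hk
      have hB0 : 0 ≤ B := by positivity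
      have hm : (I.card : ℝ) * (B + 4 * N * S) ≤ N * (B + 4 * N * S) :=
        mul_le_mul_of_nonneg_right hIc' (by positivity)
      have h10 : |(x + -y) * (k * (N * 2))| ≤ 2 * (N * (B + 4 * N * S)) := by
        obtain ⟨a1, a2⟩ := abs_le.1 hf0
        obtain ⟨b1, b2⟩ := abs_le.1 hf1
        rw [Nat.cast_ofNat] at a1 a2 b1 b2
        rw [abs_le]
        constructor <;> nlinarith
      rw [abs_mul, abs_of_nonneg (show (0 : ℝ) ≤ k * (N * 2) by positivity)] at h10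
      have h11 : |x + -y| * (2 * N) ≤ (B + 4 * N * S) * (2 * N) := by
        have h12 : |x + -y| * (2 * N) ≤ |x + -y| * (k * (N * 2)) := by
          apply mul_le_mul_of_nonneg_left _ (abs_nonneg _)
          nlinarith
        nlinarith
      have h13 : |x + -y| ≤ B + 4 * N * S := le_of_mul_le_mul_right h11 (by positivity)
      refine h13.trans ?_
      have h14 : 4 * N * S ≤ 4 * N * (d.natDegree + 1) * S := by
        apply mul_le_mul_of_nonneg_right _ hS0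
        have h15 : (0 : ℝ) ≤ d.natDegree := Nat.cast_nonneg _
        nlinarith
      have h16 : 0 ≤ (1 / (N : ℝ) + C₁ / N) * (d.natDegree + 1) * S := by positivity
      rw [hB]
      linarith

end Pool.Agent.Helper54.GT
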