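import Pool.Agent.Helper54.GT.StB

/-!
# GT, part B: automorphisms induce permutations and characters (AUI)
-/

set_option autoImplicit false

namespace Pool.Agent.Helper54.GT

open Polynomial Module Finset Filter Topology
open Pool.Agent.Helper54.PT (Prm prm)
open Pool.Agent.Helper3.HY (fK RR LL kp red TType)
open Pool.Agent.Helper3.GT (Gd GdF HypF facs TyI TyT Rp GeoSn StFAC StA1 StA1p StA2)

lemma zm2_AUI (a : ZMod 2) : a = 0 ∨ a = 1 := by
  fin_cases a
  · left; rfl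
  · right; rfl

/-- pointwise product formula -/
lemma pow_AUI {R : Type} [CommRing R] (r : R) (a b : ZMod 2) :
    r ^ a.val * r ^ b.val = (r ^ 2) ^ (a.val * b.val) * r ^ (a + b).val := by
  rcases zm2_AUI a with rfl | rfl <;> rcases zm2_AUI b with rfl | rfl
  · simp
  · simp
  · simp
  · have h1 : (1 : ZMod 2).val = 1 := rfl
    have h2 : ((1 : ZMod 2) + 1).val = 0 := rfl
    rw [h1, h2]
    ring

/-- product of products of square roots -/
lemma rv_mul_AUI {F : Type} [Field F] {I : Type} [Fintype I] (ρ : I → Om F) (v u : I → ZMod 2) :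
    rv ρ v * rv ρ u = (∏ x, (ρ x ^ 2) ^ ((v x).val * (u x).val)) * rv ρ (v + u) := by
  unfold rv
  rw [← Finset.prod_mul_distrib, ← Finset.prod_mul_distrib]
  apply Finset.prod_congr rfl
  intro x _
  exact pow_AUI (ρ x) (v x) (u x)

lemma rv_ne_AUI {F : Type} [Field F] {I : Type} [Fintype I] (ρ : I → Om F) (hρ : ∀ x, ρ x ≠ 0)
    (v : I → ZMod 2) : rv ρ v ≠ 0 := by
  unfold rv
  exact Finset.prod_ne_zero_iff.2 (fun x _ => pow_ne_zero _ (hρ x))

/-- automorphisms fix the image of `F[X]` -/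
lemma em_AUI {F : Type} [Field F] (s : Om F ≃ₐ[KK F] Om F) (p : F[X]) : s (em F p) = em F p := by
  show s (algebraMap (kk F)[X] (Om F) (mapRingHom (algebraMap F (kk F)) p)) = _
  rw [IsScalarTower.algebraMap_apply (kk F)[X] (KK F) (Om F), s.commutes,
    ← IsScalarTower.algebraMap_apply (kk F)[X] (KK F) (Om F)]
  rfl

/-- automorphisms and values of `a` -/
lemma ev_AUI {F : Type} [Field F] (s : Om F ≃ₐ[KK F] Om F) (a : F[X][X]) (x : Om F) :
    s (ev a x) = ev a (s x) := by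
  unfold ev
  have h := Polynomial.hom_eval₂ a (em F) (s : Om F →+* Om F) x
  have h2 : (s : Om F →+* Om F).comp (em F) = em F := by
    ext p
    · exact em_AUI s (C p)
    · exact em_AUI s X
  rw [h2] at h
  exact h

lemma alg_inj_AUI (F : Type) [Field F] : Function.Injective (algebraMap (kk F)[X] (Om F)) := by
  rw [IsScalarTower.algebraMap_eq (kk F)[X] (KK F) (Om F), RingHom.coe_comp]
  exact (algebraMap (KK F) (Om F)).injective.comp (IsFractionRing.injective (kk F)[X] (KK F))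

lemma em_inj_AUI (F : Type) [Field F] : Function.Injective (em F) := by
  unfold em
  rw [RingHom.coe_comp]
  exact (alg_inj_AUI F).comp (Polynomial.map_injective _ (algebraMap F (kk F)).injective)

lemma rho_ne_AUI {F : Type} [Field F] {ι : Type} [Fintype ι] {g : ι → ℕ}
    {θ : ∀ i, Fin (2 * g i + 1) → Om F} {i₀ : ι} {a : F[X][X]} {I : Type} [Fintype I]
    {z : I → Fin (2 * g i₀ + 1)}
    {pm : (∀ i, Equiv.Perm (Fin (2 * g i + 1))) → Equiv.Perm I} {ρ : I → Om F}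
    {W : Submodule (ZMod 2) (I → ZMod 2)} {c : ℕ} (K : KDat θ i₀ a z pm ρ W c) (x : I) :
    ρ x ≠ 0 := by
  intro h
  apply K.ne x
  rw [← K.sq x, h]
  ring

/-- the squares of the `ρ x` are permuted -/
lemma alpha_AUI {F : Type} [Field F] {ι : Type} [Fintype ι] {g : ι → ℕ}
    {θ : ∀ i, Fin (2 * g i + 1) → Om F} {i₀ : ι} {a : F[X][X]} {I : Type} [Fintype I]
    {z : I → Fin (2 * g i₀ + 1)}
    {pm : (∀ i, Equiv.Perm (Fin (2 * g i + 1))) → Equiv.Perm I} {ρ : I → Om F}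
    {W : Submodule (ZMod 2) (I → ZMod 2)} {c : ℕ} (K : KDat θ i₀ a z pm ρ W c)
    (s : Om F ≃ₐ[KK F] Om F) (σ : ∀ i, Equiv.Perm (Fin (2 * g i + 1)))
    (hσ : ∀ i b, s (θ i b) = θ i (σ i b)) (x : I) : s (ρ x ^ 2) = ρ (pm σ x) ^ 2 := by
  rw [K.sq x, K.sq (pm σ x), ev_AUI, hσ]
  rcases K.eqv with h | ⟨d, hd⟩
  · rw [h]
  · rw [hd]
    unfold ev
    rw [eval₂_C, eval₂_C]

/-- products of square roots are permuted up to sign -/
lemma rv_sign_AUI {F : Type} [Field F] {ι : Type} [Fintype ι] {g : ι → ℕ}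
    {θ : ∀ i, Fin (2 * g i + 1) → Om F} {i₀ : ι} {a : F[X][X]} {I : Type} [Fintype I]
    {z : I → Fin (2 * g i₀ + 1)}
    {pm : (∀ i, Equiv.Perm (Fin (2 * g i + 1))) → Equiv.Perm I} {ρ : I → Om F}
    {W : Submodule (ZMod 2) (I → ZMod 2)} {c : ℕ} (K : KDat θ i₀ a z pm ρ W c)
    (s : Om F ≃ₐ[KK F] Om F) (σ : ∀ i, Equiv.Perm (Fin (2 * g i + 1)))
    (hσ : ∀ i b, s (θ i b) = θ i (σ i b)) (v : I → ZMod 2) :
    s (rv ρ (fun x => v (pm σ x))) = rv ρ v ∨ s (rv ρ (fun x => v (pm σ x))) = -rv ρ v := by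
  rw [← sq_eq_sq_iff_eq_or_eq_neg, ← map_pow]
  unfold rv
  rw [← Finset.prod_pow, ← Finset.prod_pow, map_prod,
    ← Equiv.prod_comp (pm σ) (fun x => (ρ x ^ (v x).val) ^ 2)]
  apply Finset.prod_congr rfl
  intro x _
  rw [← pow_mul, mul_comm, pow_mul, map_pow, alpha_AUI K s σ hσ x, ← pow_mul, ← pow_mul, mul_comm]

theorem bAUI (h1 : StPRM) : StAUI := by
  intro F _ h2 ι _ g f θ hR i₀ a I _ z pm ρ W c K s
  classical
  obtain ⟨σ, hσ⟩ := h1 F ι g f θ hR s
  have h2' : (2 : Om F) ≠ 0 := by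
    intro h
    apply h2
    have h3 : em F (C 2) = 0 := by
      rw [show (C (2 : F) : F[X]) = 2 from map_ofNat C 2, map_ofNat]
      exact h
    rw [map_eq_zero_iff _ (em_inj_AUI F), C_eq_zero] at h3
    exact h3
  have hρ : ∀ x, ρ x ≠ 0 := rho_ne_AUI K
  set χ : (I → ZMod 2) → ZMod 2 := fun v =>
    if s (rv ρ (fun x => v (pm σ x))) = rv ρ v then 0 else 1 with hχ
  have hs : ∀ v, s (rv ρ (fun x => v (pm σ x))) = (-1) ^ (χ v).val * rv ρ v := by
    intro v
    by_cases h : s (rv ρ (fun x => v (pm σ x))) = rv ρ v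
    · have : χ v = 0 := if_pos h
      rw [this, h]
      simp
    · have : χ v = 1 := if_neg h
      rcases rv_sign_AUI K s σ hσ v with h' | h'
      · exact absurd h' h
      · rw [this, h']
        have h1 : (1 : ZMod 2).val = 1 := rfl
        rw [h1]
        ring
  refine ⟨σ, χ, ?_, hσ, fun v _ => hs v⟩
  intro v _ u _
  have e1 := rv_mul_AUI ρ (fun x => v (pm σ x)) (fun x => u (pm σ x))
  have e2 := congrArg s e1
  have e3 : ((fun x => v (pm σ x)) + fun x => u (pm σ x)) = fun x => (v + u) (pm σ x) := rfl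
  rw [map_mul, map_mul, e3, hs, hs, hs, map_prod] at e2
  have e4 : ∏ x, s ((ρ x ^ 2) ^ ((v (pm σ x)).val * (u (pm σ x)).val))
      = ∏ x, (ρ x ^ 2) ^ ((v x).val * (u x).val) := by
    rw [← Equiv.prod_comp (pm σ) (fun x => (ρ x ^ 2) ^ ((v x).val * (u x).val))]
    apply Finset.prod_congr rfl
    intro x _
    rw [map_pow, alpha_AUI K s σ hσ x]
  rw [e4] at e2
  have e5 := rv_mul_AUI ρ v u
  have hne : rv ρ v * rv ρ u ≠ 0 := mul_ne_zero (rv_ne_AUI ρ hρ v) (rv_ne_AUI ρ hρ u)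
  have e6 : (((-1 : Om F) ^ (χ v).val * (-1) ^ (χ u).val) - (-1) ^ (χ (v + u)).val)
      * (rv ρ v * rv ρ u) = 0 := by
    have : (-1 : Om F) ^ (χ v).val * rv ρ v * ((-1) ^ (χ u).val * rv ρ u)
        = (-1) ^ (χ (v + u)).val * (rv ρ v * rv ρ u) := by
      rw [e2, e5]
      ring
    linear_combination this
  have e7 : (-1 : Om F) ^ (χ v).val * (-1) ^ (χ u).val = (-1) ^ (χ (v + u)).val := by
    rcases mul_eq_zero.1 e6 with h | h
    · exact sub_eq_zero.1 h
    · exact absurd h hne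
  have hm : (-1 : Om F) ≠ 1 := by
    intro h
    apply h2'
    have : (2 : Om F) = 1 - (-1) := by ring
    rw [this, h]
    ring
  have v0 : (0 : ZMod 2).val = 0 := rfl
  have v1 : (1 : ZMod 2).val = 1 := rfl
  rcases zm2_AUI (χ v) with hv | hv <;> rcases zm2_AUI (χ u) with hu | hu <;>
    rcases zm2_AUI (χ (v + u)) with hw | hw <;> rw [hv, hu, hw] at e7 ⊢ <;>
    simp only [v0, v1, pow_zero, pow_one, mul_one, mul_neg, neg_neg] at e7
  · rfl
  · exact absurd e7.symm hm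
  · exact absurd e7 hm
  · rfl
  · exact absurd e7 hm
  · rfl
  · rfl
  · exact absurd e7.symm hm

end Pool.Agent.Helper54.GT
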