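import Pool.Agent.Helper54.GT.StB

set_option autoImplicit false

namespace Pool.Agent.Helper54.GT

open Polynomial Module Finset Filter Topology
open Pool.Agent.Helper54.PT (Prm prm)
open Pool.Agent.Helper3.HY (fK RR LL kp red TType)
open Pool.Agent.Helper3.GT (Gd GdF HypF facs TyI TyT Rp GeoSn StFAC StA1 StA1p StA2)

private theorem kdat_CN0 {F : Type} [Field F] {ι : Type} [Fintype ι] {g : ι → ℕ}
    (θ : ∀ i, Fin (2 * g i + 1) → Om F) (i₀ : ι) :
    KDat θ i₀ (C 1 : F[X][X]) (I := Fin 0) (fun x => x.elim0) (fun _ => 1) (fun x => x.elim0)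
      ⊤ 0 where
  deg := by rw [natDegree_C]; exact Nat.zero_le _
  coef := by
    intro e
    rw [coeff_C]
    split_ifs
    · rw [natDegree_one]
    · rw [natDegree_zero]
  ne := fun x => x.elim0
  sq := fun x => x.elim0
  pmul := fun _ _ => (mul_one _).symm
  eqv := Or.inr ⟨1, rfl⟩
  stab := fun _ _ _ => Submodule.mem_top
  ind := fun v _ hv => absurd (Subsingleton.elim v 0) hv

theorem bCN0 (h1 : StCNT) (h2 : StGAL) (h3 : StRT) : StCN0 := by
  intro F _ _ hF ι _ g f hf
  rcases isEmpty_or_nonempty ι with hι | ⟨⟨i₀⟩⟩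
  · refine ⟨0, le_rfl, fun σ e he => ?_⟩
    obtain ⟨-, hfin, hcard, -⟩ := h3 F e he
    have himg : X0 f σ (Fintype.card F ^ e) =
        (fun t : kk F => ((t, fun i => hι.elim i) : kk F × (∀ i, Fin (2 * g i + 1) → kk F))) ''
          {t : kk F | t ^ Fintype.card F ^ e = t} := by
      ext y
      constructor
      · intro hy
        exact ⟨y.1, hy.1, Prod.ext rfl (funext fun i => hι.elim i)⟩
      · rintro ⟨t, ht, rfl⟩
        exact ⟨ht, fun i => hι.elim i, fun i => hι.elim i, fun i => hι.elim i⟩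
    have hinj : Function.Injective (fun t : kk F =>
        ((t, fun i => hι.elim i) : kk F × (∀ i, Fin (2 * g i + 1) → kk F))) := fun a b hab =>
      congrArg Prod.fst hab
    refine ⟨by rw [himg]; exact hfin.image _, ?_⟩
    rw [himg, Set.ncard_image_of_injective _ hinj, hcard]
    push_cast
    rw [sub_self, abs_zero, zero_mul]
  · obtain ⟨θ, hθ⟩ := h2 F hF ι g f hf
    obtain ⟨C₀, hC₀, H⟩ := h1 F hF ι g f θ hf.monic hθ i₀ 0
    refine ⟨C₀, hC₀, fun σ e he => ?_⟩
    obtain ⟨hfin, hcard⟩ := H (C 1) (Fin 0) (fun x => x.elim0) (fun _ => 1) (fun x => x.elim0)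
      ⊤ 0 (kdat_CN0 θ i₀) (by simp) σ (fun _ => 0) (fun _ _ _ _ => (add_zero 0).symm) e he
    have himg : TupF f i₀ (C 1) (I := Fin 0) (fun x => x.elim0) ⊤ (fun _ => 1) σ (fun _ => 0)
        (Fintype.card F ^ e) =
        (fun y : kk F × (∀ i, Fin (2 * g i + 1) → kk F) =>
          ((y.1, y.2, fun _ => 1) : kk F × (∀ i, Fin (2 * g i + 1) → kk F) ×
            ((Fin 0 → ZMod 2) → kk F))) '' X0 f σ (Fintype.card F ^ e) := by
      ext y
      constructor
      · rintro ⟨⟨ha, hb, -, -, hc, -⟩, hd, he', -⟩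
        refine ⟨(y.1, y.2.1), ⟨hd, ha, hb, he'⟩, ?_⟩
        refine Prod.ext rfl (Prod.ext rfl (funext fun v => ?_))
        rw [Subsingleton.elim v 0]
        exact hc.symm
      · rintro ⟨y, ⟨ha, hb, hc, hd⟩, rfl⟩
        refine ⟨⟨hb, hc, fun x => x.elim0, fun v hv => absurd Submodule.mem_top hv, rfl,
          fun v _ v' _ => ?_⟩, ha, hd, fun v _ => ?_⟩
        · simp
        · simp
    have hinj : Function.Injective (fun y : kk F × (∀ i, Fin (2 * g i + 1) → kk F) =>
          ((y.1, y.2, fun _ => 1) : kk F × (∀ i, Fin (2 * g i + 1) → kk F) ×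
            ((Fin 0 → ZMod 2) → kk F))) := by
      intro a b hab
      have h1 := congrArg (fun z : kk F × (∀ i, Fin (2 * g i + 1) → kk F) ×
            ((Fin 0 → ZMod 2) → kk F) => z.1) hab
      have h2 := congrArg (fun z : kk F × (∀ i, Fin (2 * g i + 1) → kk F) ×
            ((Fin 0 → ZMod 2) → kk F) => z.2.1) hab
      exact Prod.ext h1 h2
    rw [himg] at hfin hcard
    rw [Set.ncard_image_of_injective _ hinj] at hcard
    refine ⟨(Set.finite_image_iff hinj.injOn).1 hfin, ?_⟩
    simpa using hcard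

end Pool.Agent.Helper54.GT
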