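import Pool.Agent.Helper54.GT.StB

/-!
# GT, module B_CN1: counting with the square roots of the `a(τ_b)`
-/

set_option autoImplicit false

namespace Pool.Agent.Helper54.GT

open Polynomial Module Finset Filter Topology
open Pool.Agent.Helper54.PT (Prm prm)
open Pool.Agent.Helper3.HY (fK RR LL kp red TType)
open Pool.Agent.Helper3.GT (Gd GdF HypF facs TyI TyT Rp GeoSn StFAC StA1 StA1p StA2)

private lemma z2_CN1 (v : ZMod 2) : v = 0 ∨ v = 1 := by
  revert v; decide

private lemma v1_CN1 : (1 : ZMod 2).val = 1 := by decide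

private lemma aa_CN1 : (1 + 1 : ZMod 2) = 0 := by decide

private lemma pw_CN1 {k : Type} [Field k] (r : k) (v v' : ZMod 2) :
    r ^ v.val * r ^ v'.val = (r ^ 2) ^ (v.val * v'.val) * r ^ (v + v').val := by
  rcases z2_CN1 v with rfl | rfl <;> rcases z2_CN1 v' with rfl | rfl <;>
    simp [v1_CN1, aa_CN1]
  ring

private lemma sa_CN1 {k : Type} [Field k] (x y : ZMod 2) :
    ((-1 : k)) ^ (x + y).val = (-1) ^ x.val * (-1) ^ y.val := by
  rcases z2_CN1 x with rfl | rfl <;> rcases z2_CN1 y with rfl | rfl <;>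
    simp [v1_CN1, aa_CN1]

private lemma sm_CN1 {k : Type} [Field k] (x y : ZMod 2) :
    (((-1 : k)) ^ x.val) ^ y.val = (-1) ^ (x * y).val := by
  rcases z2_CN1 x with rfl | rfl <;> rcases z2_CN1 y with rfl | rfl <;>
    simp [v1_CN1]

private lemma ss_CN1 {k : Type} [Field k] {J : Type} (S : Finset J) (x : J → ZMod 2) :
    ∏ b ∈ S, ((-1 : k)) ^ (x b).val = (-1) ^ (∑ b ∈ S, x b).val := by
  classical
  induction S using Finset.induction_on with
  | empty => simp
  | insert j S hj ih => rw [prod_insert hj, sum_insert hj, sa_CN1, ih]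

private lemma s2_CN1 {k : Type} [Field k] (x : ZMod 2) : (((-1 : k)) ^ x.val) ^ 2 = 1 := by
  rcases z2_CN1 x with rfl | rfl <;> simp [v1_CN1]

private lemma fr_CN1 {F : Type} [Field F] [Fintype F] (e : ℕ) :
    ∃ ψ : kk F →ₐ[F] kk F, ∀ x, ψ x = x ^ Fintype.card F ^ e := by
  induction e with
  | zero => exact ⟨AlgHom.id F _, fun x => by simp⟩
  | succ e ih =>
    obtain ⟨ψ, hψ⟩ := ih
    refine ⟨(FiniteField.frobeniusAlgHom F (kk F)).comp ψ, fun x => ?_⟩
    simp [hψ, pow_succ, pow_mul]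

private lemma et_CN1 {F : Type} [Field F] (ψ : kk F →ₐ[F] kk F) (t : kk F) (p : F[X]) :
    ψ (et t p) = et (ψ t) p := by
  have : ((ψ : kk F →+* kk F).comp (et t)) = et (ψ t) := by
    apply Polynomial.ringHom_ext
    · intro a; simp [et]
    · simp [et]
  exact congrArg (fun h : F[X] →+* kk F => h p) this

private lemma av_CN1 {F : Type} [Field F] (ψ : kk F →ₐ[F] kk F) (t : kk F) (a : F[X][X]) (x : kk F) :
    ψ (av t a x) = av (ψ t) a (ψ x) := by
  unfold av
  have h := Polynomial.hom_eval₂ a (et t) (ψ : kk F →+* kk F) x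
  have h2 : ((ψ : kk F →+* kk F).comp (et t)) = et (ψ t) := RingHom.ext fun p => et_CN1 ψ t p
  rw [h2] at h
  exact h

private lemma key_CN1 {k : Type} [Field k] (n : ℕ) (u : Fin (2 * n + 1) → k)
    (h2 : ∀ b, u b ^ 2 = 1) (huu : ∀ b b', u b * u b' = 1) (hp : ∏ b, u b = 1) (b : Fin (2 * n + 1)) :
    u b = 1 := by
  have hc : ∀ b', u b' = u b := by
    intro b'
    have h1 := huu b' b
    have h3 := h2 b
    have hb : u b ≠ 0 := by
      intro h
      rw [h] at h3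
      norm_num at h3
    apply mul_right_cancel₀ hb
    rw [h1]
    rw [← h3]
    ring
  rw [prod_congr rfl (fun b' _ => hc b')] at hp
  simp only [prod_const, card_univ, Fintype.card_fin] at hp
  rw [pow_succ, pow_mul, h2 b, one_pow, one_mul] at hp
  exact hp

open Classical in
private noncomputable def Ph_CN1 {F : Type} [Field F] {ι : Type} {g : ι → ℕ} {i₀ : ι}
    (W : Submodule (ZMod 2) (Fin (2 * g i₀ + 1) → ZMod 2))
    (y : kk F × (∀ i, Fin (2 * g i + 1) → kk F) × (Fin (2 * g i₀ + 1) → kk F)) :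
    kk F × (∀ i, Fin (2 * g i + 1) → kk F) × ((Fin (2 * g i₀ + 1) → ZMod 2) → kk F) :=
  (y.1, y.2.1, fun v => if v ∈ W then ∏ b, y.2.2 b ^ (v b).val else 0)

/-- well defined -/
private lemma maps_CN1 {F : Type} [Field F] [Fintype F] {ι : Type} [Fintype ι] {g : ι → ℕ}
    (f : ι → F[X][X]) (i₀ : ι) (a : F[X][X]) (s : F[X])
    (σ : ∀ i, Equiv.Perm (Fin (2 * g i + 1))) (ε : Fin (2 * g i₀ + 1) → ZMod 2)
    (W : Submodule (ZMod 2) (Fin (2 * g i₀ + 1) → ZMod 2))
    (hW : ∀ v, v ∈ W ↔ ∑ b, v b = 0) (Q : ℕ) :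
    Set.MapsTo (Ph_CN1 W) (X1 f i₀ a s σ ε Q)
      (TupF f i₀ a (fun b => b) W (fun σ => σ i₀) σ (fun v => ∑ b, ε b * v (σ i₀ b)) Q) := by
  classical
  rintro ⟨t, τ, r⟩ ⟨⟨ht, hf, hi, hτ⟩, hr0, hr2, hrp, hrQ⟩
  simp only at ht hf hi hτ hr0 hr2 hrp hrQ
  refine ⟨⟨hf, hi, ?_, ?_, ?_, ?_⟩, ht, hτ, ?_⟩
  · intro x
    simp only [Ph_CN1]
    rw [← hr2 x]
    exact pow_ne_zero 2 (hr0 x)
  · intro v hv
    simp only [Ph_CN1]
    rw [if_neg hv]
  · simp only [Ph_CN1]
    rw [if_pos W.zero_mem]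
    simp
  · intro v hv v' hv'
    simp only [Ph_CN1]
    rw [if_pos hv, if_pos hv', if_pos (W.add_mem hv hv'), ← prod_mul_distrib, ← prod_mul_distrib]
    apply prod_congr rfl
    intro b _
    rw [← hr2 b, Pi.add_apply]
    exact pw_CN1 _ _ _
  · intro v hv
    simp only [Ph_CN1]
    have hv' : (fun x => v (σ i₀ x)) ∈ W := by
      rw [hW] at hv ⊢
      rw [← hv]
      exact Equiv.sum_comp (σ i₀) v
    rw [if_pos hv, if_pos hv', ← prod_pow]
    have h1 : ∀ b, (r b ^ (v (σ i₀ b)).val) ^ Q =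
        (-1) ^ (ε b * v (σ i₀ b)).val * r (σ i₀ b) ^ (v (σ i₀ b)).val := by
      intro b
      rw [← pow_mul, mul_comm, pow_mul, hrQ b, mul_pow, sm_CN1]
    rw [prod_congr rfl (fun b _ => h1 b), prod_mul_distrib, ss_CN1,
      Equiv.prod_comp (σ i₀) (fun b => r b ^ (v b).val)]

/-- square roots with product `1` are determined -/
private lemma inj_CN1 {F : Type} [Field F] [Fintype F] {ι : Type} [Fintype ι] {g : ι → ℕ}
    (f : ι → F[X][X]) (i₀ : ι) (a : F[X][X]) (s : F[X])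
    (σ : ∀ i, Equiv.Perm (Fin (2 * g i + 1))) (ε : Fin (2 * g i₀ + 1) → ZMod 2)
    (W : Submodule (ZMod 2) (Fin (2 * g i₀ + 1) → ZMod 2))
    (hW : ∀ v, v ∈ W ↔ ∑ b, v b = 0) (Q : ℕ) :
    Set.InjOn (Ph_CN1 W) (X1 f i₀ a s σ ε Q) := by
  classical
  rintro ⟨t, τ, r⟩ ⟨_, hr0, hr2, hrp, _⟩ ⟨t', τ', r'⟩ ⟨_, hr0', hr2', hrp', _⟩ h
  simp only at hr0 hr2 hrp hr0' hr2' hrp'
  simp only [Ph_CN1, Prod.mk.injEq] at h
  obtain ⟨rfl, rfl, h⟩ := h
  have hk : ∀ b, r b / r' b = 1 := by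
    apply key_CN1
    · intro b
      rw [div_pow, hr2, hr2', div_self]
      rw [← hr2']
      exact pow_ne_zero 2 (hr0' b)
    · intro b b'
      by_cases hb : b = b'
      · subst hb
        rw [← pow_two, div_pow, hr2, hr2', div_self]
        rw [← hr2']
        exact pow_ne_zero 2 (hr0' b)
      · have h1 := congrFun h (Pi.single b 1 + Pi.single b' 1)
        have h3 : (Pi.single b 1 + Pi.single b' 1 : Fin (2 * g i₀ + 1) → ZMod 2) ∈ W := by
          rw [hW]
          simp only [Pi.add_apply, sum_add_distrib, Finset.sum_pi_single', mem_univ, if_true,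
            aa_CN1]
        simp only [if_pos h3] at h1
        have h4 : ∀ w : Fin (2 * g i₀ + 1) → kk F,
            ∏ x, w x ^ ((Pi.single b 1 + Pi.single b' 1 : Fin (2 * g i₀ + 1) → ZMod 2) x).val =
              w b * w b' := by
          intro w
          rw [← mul_prod_erase univ _ (mem_univ b), ← mul_prod_erase (univ.erase b) _
            (mem_erase.2 ⟨Ne.symm hb, mem_univ b'⟩)]
          rw [prod_eq_one]
          · simp [hb, Ne.symm hb, v1_CN1]
          · intro x hx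
            simp only [mem_erase, mem_univ, and_true] at hx
            simp [hx.1, hx.2]
        rw [h4, h4] at h1
        rw [div_mul_div_comm, h1, div_self]
        exact mul_ne_zero (hr0' b) (hr0' b')
    · rw [prod_div_distrib, hrp, hrp', div_self]
      rw [← hrp']
      exact prod_ne_zero_iff.2 fun b _ => hr0' b
  have : r = r' := by
    funext b
    exact (div_eq_one_iff_eq (hr0' b)).1 (hk b)
  rw [this]

private lemma pair_CN1 {k : Type} [Field k] {n : ℕ} (w : Fin n → k) {b b' : Fin n} (hb : b ≠ b') :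
    ∏ x, w x ^ ((Pi.single b 1 + Pi.single b' 1 : Fin n → ZMod 2) x).val = w b * w b' := by
  classical
  rw [← mul_prod_erase univ _ (mem_univ b), ← mul_prod_erase (univ.erase b) _
    (mem_erase.2 ⟨Ne.symm hb, mem_univ b'⟩)]
  rw [prod_eq_one]
  · simp [hb, Ne.symm hb, v1_CN1]
  · intro x hx
    simp only [mem_erase, mem_univ, and_true] at hx
    simp [hx.1, hx.2]

private lemma psum_CN1 {n : ℕ} (b b' : Fin n) :
    ∑ x, (Pi.single b 1 + Pi.single b' 1 : Fin n → ZMod 2) x = 0 := by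
  simp only [Pi.add_apply, sum_add_distrib, Finset.sum_pi_single', mem_univ, if_true,
    aa_CN1]

/-- a multiplicative function on `W` which is trivial on generators is trivial -/
private lemma triv_CN1 {k : Type} [Field k] {n : ℕ} (κ : (Fin (n + 1) → ZMod 2) → k)
    (h0 : κ 0 = 1)
    (hm : ∀ v v', ∑ b, v b = 0 → ∑ b, v' b = 0 → κ (v + v') = κ v * κ v')
    (hg : ∀ b, κ (Pi.single 0 1 + Pi.single b 1) = 1) (v : Fin (n + 1) → ZMod 2)
    (hv : ∑ b, v b = 0) : κ v = 1 := by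
  classical
  have key : ∀ S : Finset (Fin (n + 1)),
      κ (∑ b ∈ S, v b • (Pi.single 0 1 + Pi.single b 1 : Fin (n + 1) → ZMod 2)) = 1 ∧
        ∑ x, (∑ b ∈ S, v b • (Pi.single 0 1 + Pi.single b 1 : Fin (n + 1) → ZMod 2)) x = 0 := by
    intro S
    induction S using Finset.induction_on with
    | empty => simp [h0]
    | insert j S hj ih =>
      rw [sum_insert hj]
      have h1 : κ (v j • (Pi.single 0 1 + Pi.single j 1 : Fin (n + 1) → ZMod 2)) = 1 ∧
          ∑ x, (v j • (Pi.single 0 1 + Pi.single j 1 : Fin (n + 1) → ZMod 2)) x = 0 := by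
        rcases z2_CN1 (v j) with h | h
        · rw [h, zero_smul]
          exact ⟨h0, by simp⟩
        · rw [h, one_smul]
          exact ⟨hg j, psum_CN1 _ _⟩
      constructor
      · rw [hm _ _ h1.2 ih.2, h1.1, ih.1, one_mul]
      · have : ∀ x, (v j • (Pi.single 0 1 + Pi.single j 1 : Fin (n + 1) → ZMod 2) +
            ∑ b ∈ S, v b • (Pi.single 0 1 + Pi.single b 1 : Fin (n + 1) → ZMod 2)) x =
            (v j • (Pi.single 0 1 + Pi.single j 1 : Fin (n + 1) → ZMod 2)) x +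
            (∑ b ∈ S, v b • (Pi.single 0 1 + Pi.single b 1 : Fin (n + 1) → ZMod 2)) x :=
          fun x => rfl
        rw [sum_congr rfl (fun x _ => this x), sum_add_distrib, h1.2, ih.2, add_zero]
  have hv' : v = ∑ b, v b • (Pi.single 0 1 + Pi.single b 1 : Fin (n + 1) → ZMod 2) := by
    have h1 : ∑ b, v b • (Pi.single 0 1 + Pi.single b 1 : Fin (n + 1) → ZMod 2) =
        (∑ b, v b) • (Pi.single 0 1 : Fin (n + 1) → ZMod 2) + ∑ b, Pi.single b (v b) := by
      rw [sum_smul, ← sum_add_distrib]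
      apply sum_congr rfl
      intro b _
      rw [smul_add]
      congr 1
      rw [← Pi.single_smul, smul_eq_mul, mul_one]
    rw [h1, hv, zero_smul, zero_add]
    exact (Finset.univ_sum_single v).symm
  rw [hv']
  exact (key univ).1

private lemma surj1_CN1 {F : Type} [Field F] {n : ℕ} (α : Fin (2 * n + 1) → kk F)
    (c : (Fin (2 * n + 1) → ZMod 2) → kk F) (hα : ∀ b, α b ≠ 0) (c0 : c 0 = 1)
    (hc : ∀ v v', ∑ b, v b = 0 → ∑ b, v' b = 0 →
      c v * c v' = (∏ x, α x ^ ((v x).val * (v' x).val)) * c (v + v'))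
    (p : kk F) (hp : ∏ b, α b = p ^ 2) :
    ∃ r : Fin (2 * n + 1) → kk F, (∀ b, r b ≠ 0) ∧ (∀ b, r b ^ 2 = α b) ∧ ∏ b, r b = p ∧
      ∀ v, ∑ b, v b = 0 → c v = ∏ b, r b ^ (v b).val := by
  classical
  obtain ⟨r0, hr0⟩ := IsAlgClosed.exists_pow_nat_eq (α 0) (n := 2) (by norm_num)
  have hr0' : r0 ≠ 0 := by
    intro h
    rw [h] at hr0
    exact hα 0 (by rw [← hr0]; simp)
  have hc2 : ∀ v, ∑ b, v b = 0 → c v ^ 2 = ∏ x, α x ^ ((v x).val) := by
    intro v hv
    have h1 := hc v v hv hv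
    have h3 : v + v = 0 := by
      funext x
      rcases z2_CN1 (v x) with h | h <;> simp [h, aa_CN1]
    rw [h3, c0, mul_one] at h1
    rw [pow_two, h1]
    apply prod_congr rfl
    intro x _
    rcases z2_CN1 (v x) with h | h <;> simp [h, v1_CN1]
  obtain ⟨r, hr⟩ : ∃ r : Fin (2 * n + 1) → kk F, r = fun b =>
    c (Pi.single 0 1 + Pi.single b 1) * r0 / (if b = 0 then 1 else α 0) := ⟨_, rfl⟩
  have hr00 : r 0 = r0 := by
    rw [hr]
    simp only [if_true, div_one]
    have : (Pi.single 0 1 + Pi.single 0 1 : Fin (2 * n + 1) → ZMod 2) = 0 := by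
      rw [← Pi.single_add, aa_CN1, Pi.single_zero]
    rw [this, c0, one_mul]
  have hr2 : ∀ b, r b ^ 2 = α b := by
    intro b
    by_cases hb : b = 0
    · rw [hb, hr00, hr0]
    · rw [hr]
      simp only [if_neg hb]
      rw [div_pow, mul_pow, hc2 _ (psum_CN1 _ _), pair_CN1 _ (Ne.symm hb), hr0]
      have := hα 0
      field_simp
  have hrn : ∀ b, r b ≠ 0 := by
    intro b h
    apply hα b
    rw [← hr2 b, h]
    simp
  have hcr : ∀ v, ∑ b, v b = 0 → c v = ∏ b, r b ^ (v b).val := by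
    have hcn : ∀ v : Fin (2 * n + 1) → ZMod 2, ∏ b, r b ^ (v b).val ≠ 0 := by
      intro v
      exact prod_ne_zero_iff.2 fun b _ => pow_ne_zero _ (hrn b)
    intro v hv
    have := triv_CN1 (n := 2 * n) (fun v => c v / ∏ b, r b ^ (v b).val) (by simp [c0]) (by
      intro v v' hv hv'
      have h1 := hc v v' hv hv'
      have h3 : (∏ b, r b ^ (v b).val) * (∏ b, r b ^ (v' b).val) =
          (∏ x, α x ^ ((v x).val * (v' x).val)) * ∏ b, r b ^ ((v + v') b).val := by
        rw [← prod_mul_distrib, ← prod_mul_distrib]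
        apply prod_congr rfl
        intro b _
        rw [← hr2 b, Pi.add_apply]
        exact pw_CN1 _ _ _
      rw [div_mul_div_comm, h1, h3, mul_div_mul_left]
      exact prod_ne_zero_iff.2 fun b _ => pow_ne_zero _ (hα b)) (by
      intro b
      by_cases hb : b = 0
      · subst hb
        have : (Pi.single 0 1 + Pi.single 0 1 : Fin (2 * n + 1) → ZMod 2) = 0 := by
          rw [← Pi.single_add, aa_CN1, Pi.single_zero]
        have h6 : (∏ x, r x ^ ((Pi.single 0 1 + Pi.single 0 1 : Fin (2 * n + 1) → ZMod 2) x).val) =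
            1 := by rw [this]; simp
        rw [h6, this, c0, div_one]
      · rw [pair_CN1 _ (Ne.symm hb), hr00, hr]
        simp only [if_neg hb]
        rw [← hr0]
        have h5 : c (Pi.single 0 1 + Pi.single b 1) ≠ 0 := by
          intro h
          have h6 := hc2 _ (psum_CN1 0 b)
          rw [h, pair_CN1 _ (Ne.symm hb)] at h6
          exact mul_ne_zero (hα 0) (hα b) (by rw [← h6]; simp)
        field_simp) v hv
    exact (div_eq_one_iff_eq (hcn v)).1 this
  have hsg : (∏ b, r b) ^ 2 = p ^ 2 := by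
    rw [← prod_pow, prod_congr rfl (fun b _ => hr2 b), hp]
  have hex : ∃ d : ZMod 2, (-1) ^ d.val * ∏ b, r b = p := by
    rcases sq_eq_sq_iff_eq_or_eq_neg.1 hsg with h | h
    · exact ⟨0, by simp [h]⟩
    · exact ⟨1, by simp [h, v1_CN1]⟩
  obtain ⟨d, hd⟩ := hex
  refine ⟨fun b => (-1) ^ d.val * r b, ?_, ?_, ?_, ?_⟩
  · intro b
    exact mul_ne_zero (pow_ne_zero _ (by simp)) (hrn b)
  · intro b
    rw [mul_pow, s2_CN1, one_mul, hr2]
  · rw [prod_mul_distrib, prod_const, card_univ, Fintype.card_fin, pow_succ, pow_mul, s2_CN1,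
      one_pow, one_mul, hd]
  · intro v hv
    rw [hcr v hv]
    simp only [mul_pow, sm_CN1]
    rw [prod_mul_distrib, ss_CN1, ← mul_sum, hv]
    simp

/-- surjectivity -/
private lemma surj_CN1 {F : Type} [Field F] [Fintype F] {ι : Type} [Fintype ι] {g : ι → ℕ}
    (f : ι → F[X][X]) (i₀ : ι) (a : F[X][X]) (s : F[X]) (hUN : UN (f i₀) a s)
    (σ : ∀ i, Equiv.Perm (Fin (2 * g i + 1))) (ε : Fin (2 * g i₀ + 1) → ZMod 2) (hε : ∑ b, ε b = 0)
    (W : Submodule (ZMod 2) (Fin (2 * g i₀ + 1) → ZMod 2))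
    (hW : ∀ v, v ∈ W ↔ ∑ b, v b = 0) (e : ℕ) :
    Set.SurjOn (Ph_CN1 W) (X1 f i₀ a s σ ε (Fintype.card F ^ e))
      (TupF f i₀ a (fun b => b) W (fun σ => σ i₀) σ (fun v => ∑ b, ε b * v (σ i₀ b))
        (Fintype.card F ^ e)) := by
  classical
  rintro ⟨t, τ, c⟩ ⟨⟨hf, hi, hα, hcW, hc0, hcc⟩, ht, hτ, hQ⟩
  simp only at hf hi hα hcW hc0 hcc ht hτ hQ
  obtain ⟨r, hr0, hr2, hrp, hrc⟩ := surj1_CN1 (fun b => av t a (τ i₀ b)) c hα hc0
    (fun v v' hv hv' => hcc v ((hW v).2 hv) v' ((hW v').2 hv')) (et t s)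
    (hUN (kk F) (et t) _ (τ i₀) (hf i₀))
  obtain ⟨ψ, hψ⟩ := fr_CN1 (F := F) e
  have ht' : ψ t = t := by rw [hψ, ht]
  have hp0 : et t s ≠ 0 := by
    rw [← hrp]
    exact prod_ne_zero_iff.2 fun b _ => hr0 b
  have hkey : ∀ b, r b ^ Fintype.card F ^ e / ((-1) ^ (ε b).val * r (σ i₀ b)) = 1 := by
    have hden : ∀ b, ((-1 : kk F)) ^ (ε b).val * r (σ i₀ b) ≠ 0 := fun b =>
      mul_ne_zero (pow_ne_zero _ (by simp)) (hr0 _)
    have hsq : ∀ b, (r b ^ Fintype.card F ^ e / ((-1) ^ (ε b).val * r (σ i₀ b))) ^ 2 = 1 := by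
      intro b
      rw [div_pow, mul_pow, s2_CN1, one_mul, hr2, ← pow_mul, mul_comm, pow_mul, hr2, ← hψ,
        av_CN1, ht', hψ, hτ i₀ b, div_self (hα _)]
    apply key_CN1
    · exact hsq
    · intro b b'
      by_cases hb : b = b'
      · subst hb
        rw [← pow_two]
        exact hsq b
      · have h1 := hQ (Pi.single (σ i₀ b) 1 + Pi.single (σ i₀ b') 1) ((hW _).2 (psum_CN1 _ _))
        have h3 : (fun x => (Pi.single (σ i₀ b) 1 + Pi.single (σ i₀ b') 1 :
            Fin (2 * g i₀ + 1) → ZMod 2) (σ i₀ x)) = Pi.single b 1 + Pi.single b' 1 := by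
          funext x
          simp only [Pi.add_apply, Pi.single_apply, (σ i₀).injective.eq_iff]
        have h4 : ∑ x, ε x * (Pi.single (σ i₀ b) 1 + Pi.single (σ i₀ b') 1 :
            Fin (2 * g i₀ + 1) → ZMod 2) (σ i₀ x) = ε b + ε b' := by
          have : ∀ x, (Pi.single (σ i₀ b) 1 + Pi.single (σ i₀ b') 1 :
            Fin (2 * g i₀ + 1) → ZMod 2) (σ i₀ x) =
              (Pi.single b 1 + Pi.single b' 1 : Fin (2 * g i₀ + 1) → ZMod 2) x :=
            fun x => congrFun h3 x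
          simp only [this, Pi.add_apply, mul_add, sum_add_distrib]
          simp [Pi.single_apply]
        rw [h3, h4, hrc _ (psum_CN1 _ _), hrc _ (psum_CN1 _ _), pair_CN1 _ hb,
          pair_CN1 _ (fun h => hb ((σ i₀).injective h)), sa_CN1, mul_pow] at h1
        rw [div_mul_div_comm, h1, div_eq_one_iff_eq (mul_ne_zero (hden b) (hden b'))]
        ring
    · rw [prod_div_distrib, prod_pow, hrp, prod_mul_distrib, ss_CN1, hε, Equiv.prod_comp (σ i₀) r,
        hrp, ← hψ, et_CN1, ht']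
      simp [hp0]
  refine ⟨⟨t, τ, r⟩, ⟨⟨ht, hf, hi, hτ⟩, hr0, hr2, hrp, ?_⟩, ?_⟩
  · intro b
    exact (div_eq_one_iff_eq (mul_ne_zero (pow_ne_zero _ (by simp)) (hr0 _))).1 (hkey b)
  · simp only [Ph_CN1, Prod.mk.injEq, true_and]
    funext v
    by_cases hv : v ∈ W
    · rw [if_pos hv]
      exact (hrc v ((hW v).1 hv)).symm
    · rw [if_neg hv]
      exact (hcW v hv).symm

/-- (CN1) -/
theorem bCN1 (h1 : StCNT) (h2 : StGAL) (h3 : StKI) : StCN1 := by
  classical
  intro F _ _ h20 ι _ g f hf i₀ _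
  obtain ⟨θ, hθ⟩ := h2 F h20 ι g f hf
  obtain ⟨C₀, hC0, hC⟩ := h1 F h20 ι g f θ hf.monic hθ i₀ (2 * g i₀ + 1)
  refine ⟨C₀, hC0, ?_⟩
  intro c a s hRp hUN hn1 hn2 σ ε hε e he
  obtain ⟨hne, hind⟩ := h3 F h20 ι g f θ hf.one_le hf.monic hθ i₀ a hn1 hn2
  have hρ : ∀ b, ∃ ρ : Om F, ρ ^ 2 = ev a (θ i₀ b) := fun b =>
    IsAlgClosed.exists_pow_nat_eq (ev a (θ i₀ b)) (n := 2) (by norm_num)
  choose ρ hρ using hρ
  obtain ⟨W, hW⟩ : ∃ W : Submodule (ZMod 2) (Fin (2 * g i₀ + 1) → ZMod 2),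
      ∀ v, v ∈ W ↔ ∑ b, v b = 0 := by
    refine ⟨LinearMap.ker (∑ b, LinearMap.proj (R := ZMod 2) (φ := fun _ => ZMod 2) b), ?_⟩
    intro v
    rw [LinearMap.mem_ker]
    simp
  have hD : KDat θ i₀ a (fun b => b) (fun σ => σ i₀) ρ W c := by
    refine ⟨?_, hRp.2, hne, hρ, fun σ τ => rfl, Or.inl fun σ x => rfl, ?_, ?_⟩
    · have := hRp.1
      rw [hf.deg i₀] at this
      omega
    · intro σ v hv
      rw [hW] at hv ⊢
      rw [← hv]
      exact Equiv.sum_comp (σ i₀) v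
    · intro v hv hv0
      exact hind ρ hρ v ((hW v).1 hv) hv0
  obtain ⟨hfin, hcard⟩ := hC a (Fin (2 * g i₀ + 1)) (fun b => b) (fun σ => σ i₀) ρ W c hD (by simp)
    σ (fun v => ∑ b, ε b * v (σ i₀ b)) (by
      intro v _ v' _
      simp only [Pi.add_apply, mul_add, sum_add_distrib]) e he
  have hbij : Set.BijOn (Ph_CN1 W) (X1 f i₀ a s σ ε (Fintype.card F ^ e))
      (TupF f i₀ a (fun b => b) W (fun σ => σ i₀) σ (fun v => ∑ b, ε b * v (σ i₀ b))
        (Fintype.card F ^ e)) :=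
    ⟨maps_CN1 f i₀ a s σ ε W hW _, inj_CN1 f i₀ a s σ ε W hW _,
      surj_CN1 f i₀ a s hUN σ ε hε W hW e⟩
  have himg := hbij.image_eq
  constructor
  · apply Set.Finite.of_finite_image _ hbij.injOn
    rw [himg]
    exact hfin
  · rw [← hbij.injOn.ncard_image, himg]
    exact hcard

end Pool.Agent.Helper54.GT
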