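import Pool.Agent.Helper54.GT.StB

set_option autoImplicit false

namespace Pool.Agent.Helper54.GT

open Polynomial Module Finset Filter Topology
open Pool.Agent.Helper54.PT (Prm prm)
open Pool.Agent.Helper3.HY (fK RR LL kp red TType)
open Pool.Agent.Helper3.GT (Gd GdF HypF facs TyI TyT Rp GeoSn StFAC StA1 StA1p StA2)

private theorem em_injective_CN2 (F : Type) [Field F] : Function.Injective (em F) := by
  have h1 : Function.Injective (mapRingHom (algebraMap F (kk F))) :=
    map_injective _ (algebraMap F (kk F)).injective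
  have h2 : Function.Injective (algebraMap (kk F)[X] (Om F)) := by
    rw [IsScalarTower.algebraMap_eq (kk F)[X] (KK F) (Om F)]
    exact (algebraMap (KK F) (Om F)).injective.comp (RatFunc.algebraMap_injective _)
  exact h2.comp h1

private theorem zmod_cases_CN2 (x : ZMod 2) : x = 0 ∨ x = 1 := by
  revert x
  decide

private theorem vec_cases_CN2 (v : Fin 1 → ZMod 2) : v = 0 ∨ v = fun _ => 1 := by
  rcases zmod_cases_CN2 (v 0) with h | h
  · left
    funext x
    rw [Subsingleton.elim x 0, h, Pi.zero_apply]
  · right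
    funext x
    rw [Subsingleton.elim x 0, h]

private theorem kdat_CN2 {F : Type} [Field F] {ι : Type} [Fintype ι] {g : ι → ℕ}
    (θ : ∀ i, Fin (2 * g i + 1) → Om F) (i₀ : ι) (d : F[X]) (hd : d ≠ 0) (r : Om F)
    (hr : r ^ 2 = em F d)
    (hs : ∃ s : Om F ≃ₐ[KK F] Om F, (∀ i b, s (θ i b) = θ i b) ∧ s r = -r) :
    KDat θ i₀ (C d : F[X][X]) (I := Fin 1) (fun _ => 0) (fun _ => 1) (fun _ => r)
      ⊤ d.natDegree where
  deg := by rw [natDegree_C]; exact Nat.zero_le _
  coef := by
    intro e
    rw [coeff_C]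
    split_ifs
    · exact le_rfl
    · rw [natDegree_zero]; exact Nat.zero_le _
  ne := fun x => by
    rw [ev, eval₂_C]
    exact (map_ne_zero_iff _ (em_injective_CN2 F)).2 hd
  sq := fun x => by
    rw [ev, eval₂_C]
    exact hr
  pmul := fun _ _ => (mul_one _).symm
  eqv := Or.inr ⟨d, rfl⟩
  stab := fun _ _ _ => Submodule.mem_top
  ind := fun v _ hv => by
    obtain ⟨s, hs1, hs2⟩ := hs
    refine ⟨s, hs1, ?_⟩
    rcases vec_cases_CN2 v with h | h
    · exact absurd h hv
    · subst h
      have h3 : rv (fun _ : Fin 1 => r) (fun _ => 1) = r := by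
        rw [rv]
        simp [ZMod.val_one]
      rw [h3, hs2]

theorem bCN2 (h1 : StCNT) (h2 : StGAL) (h3 : StKD) : StCN2 := by
  intro F _ _ hF ι _ hne g f hf
  obtain ⟨i₀⟩ := hne
  obtain ⟨θ, hθ⟩ := h2 F hF ι g f hf
  obtain ⟨C₀, hC₀, H⟩ := h1 F hF ι g f θ hf.monic hθ i₀ 1
  refine ⟨C₀, hC₀, fun d hd hsq hd1 hP σ ε e he => ?_⟩
  obtain ⟨r, hr⟩ := IsAlgClosed.exists_pow_nat_eq (em F d) (n := 2) (by norm_num)
  have hs := h3 F hF ι g f θ hf.one_le hf.monic hθ hf.deg d hd hsq hd1 hP r hr
  obtain ⟨hfin, hcard⟩ := H (C d) (Fin 1) (fun _ => 0) (fun _ => 1) (fun _ => r)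
    ⊤ d.natDegree (kdat_CN2 θ i₀ d hd.ne_zero r hr hs) (by simp) σ (fun v => ε * v 0)
    (fun v _ v' _ => mul_add _ _ _) e he
  obtain ⟨Fm, hFm⟩ : ∃ Fm : kk F × (∀ i, Fin (2 * g i + 1) → kk F) × kk F →
      kk F × (∀ i, Fin (2 * g i + 1) → kk F) × ((Fin 1 → ZMod 2) → kk F),
      Fm = fun y => (y.1, y.2.1, fun v => if v 0 = 0 then 1 else y.2.2) := ⟨_, rfl⟩
  have hinj : Function.Injective Fm := by
    intro a b hab
    rw [hFm] at hab
    have h1 := congrArg (fun z : kk F × (∀ i, Fin (2 * g i + 1) → kk F) ×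
          ((Fin 1 → ZMod 2) → kk F) => z.1) hab
    have h2 := congrArg (fun z : kk F × (∀ i, Fin (2 * g i + 1) → kk F) ×
          ((Fin 1 → ZMod 2) → kk F) => z.2.1) hab
    have h3 := congrArg (fun z : kk F × (∀ i, Fin (2 * g i + 1) → kk F) ×
          ((Fin 1 → ZMod 2) → kk F) => z.2.2 (fun _ => 1)) hab
    simp only [one_ne_zero, if_false] at h3
    exact Prod.ext h1 (Prod.ext h2 h3)
  have himg : TupF f i₀ (C d) (I := Fin 1) (fun _ => 0) ⊤ (fun _ => 1) σ (fun v => ε * v 0)
      (Fintype.card F ^ e) = Fm '' X2 f d σ ε (Fintype.card F ^ e) := by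
    ext y
    constructor
    · rintro ⟨⟨ha, hb, hav, -, hc, hrel⟩, hd, he', hfr⟩
      refine ⟨(y.1, y.2.1, y.2.2 (fun _ => 1)), ⟨⟨hd, ha, hb, he'⟩, ?_, ?_, ?_⟩, ?_⟩
      · have h4 := hrel (fun _ => 1) Submodule.mem_top (fun _ => 1) Submodule.mem_top
        have h5 : ((fun _ => 1 : Fin 1 → ZMod 2) + fun _ => 1) = 0 := by
          funext x
          exact (by decide : (1 : ZMod 2) + 1 = 0)
        rw [h5, hc, mul_one] at h4
        intro h6
        have h6' : y.2.2 (fun _ => 1) = 0 := h6
        rw [h6', zero_mul] at h4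
        have h7 := hav 0
        apply h7
        have h8 := h4.symm
        simp only [Finset.univ_unique, Fin.default_eq_zero, Fin.isValue, Finset.prod_const,
          Finset.card_singleton, pow_one] at h8
        rw [ZMod.val_one, mul_one, pow_one] at h8
        exact h8
      · have h4 := hrel (fun _ => 1) Submodule.mem_top (fun _ => 1) Submodule.mem_top
        have h5 : ((fun _ => 1 : Fin 1 → ZMod 2) + fun _ => 1) = 0 := by
          funext x
          exact (by decide : (1 : ZMod 2) + 1 = 0)
        rw [h5, hc, mul_one] at h4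
        simp only [Finset.univ_unique, Fin.default_eq_zero, Fin.isValue, Finset.prod_const,
          Finset.card_singleton, pow_one] at h4
        rw [ZMod.val_one, mul_one, pow_one, av, eval₂_C] at h4
        rw [pow_two]
        exact h4
      · have h4 := hfr (fun _ => 1) Submodule.mem_top
        simp only [mul_one] at h4
        exact h4
      · rw [hFm]
        refine Prod.ext rfl (Prod.ext rfl (funext fun v => ?_))
        rcases vec_cases_CN2 v with h | h
        · subst h
          simp only [Pi.zero_apply, if_true]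
          exact hc.symm
        · subst h
          simp only [one_ne_zero, if_false]
    · rintro ⟨y, ⟨⟨ha, hb, hc, hd'⟩, hn, hsq', hfr⟩, rfl⟩
      rw [hFm]
      have hdt : et y.1 d ≠ 0 := by
        rw [← hsq']
        exact pow_ne_zero _ hn
      refine ⟨⟨hb, hc, fun x => ?_, fun v hv => absurd Submodule.mem_top hv, ?_,
        fun v _ v' _ => ?_⟩, ha, hd', fun v _ => ?_⟩
      · rw [av, eval₂_C]
        exact hdt
      · simp
      · have h5 : ((fun _ => 1 : Fin 1 → ZMod 2) + fun _ => 1) = 0 := by
          funext x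
          exact (by decide : (1 : ZMod 2) + 1 = 0)
        rcases vec_cases_CN2 v with h | h
        · subst h
          simp
        · subst h
          rcases vec_cases_CN2 v' with h' | h'
          · subst h'
            simp
          · subst h'
            rw [h5]
            simp only [one_ne_zero, if_false, Pi.zero_apply, if_true, mul_one,
              Finset.univ_unique, Finset.prod_const, Finset.card_singleton, pow_one]
            rw [ZMod.val_one, mul_one, pow_one, av, eval₂_C, ← hsq', pow_two]
      · rcases vec_cases_CN2 v with h | h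
        · subst h
          simp
        · subst h
          simp only [one_ne_zero, if_false, mul_one]
          exact hfr
  rw [himg] at hfin hcard
  rw [Set.ncard_image_of_injective _ hinj] at hcard
  exact ⟨(Set.finite_image_iff hinj.injOn).1 hfin, hcard⟩

end Pool.Agent.Helper54.GT
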