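import Pool.Agent.Helper54.GT.B_RAUT

/-!
# GT, part B: counting tuples with given Frobenius (CNT)
-/

set_option autoImplicit false

namespace Pool.Agent.Helper54.GT

open Polynomial Module Finset Filter Topology
open Pool.Agent.Helper54.PT (Prm prm)
open Pool.Agent.Helper3.HY (fK RR LL kp red TType)
open Pool.Agent.Helper3.GT (Gd GdF HypF facs TyI TyT Rp GeoSn StFAC StA1 StA1p StA2)

/-- signs determine the exponent -/
private lemma sgn_CNT {k : Type} [Field k] (h2 : (2 : k) ≠ 0) {a b : ZMod 2} {r : k} (hr : r ≠ 0)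
    (h : (-1 : k) ^ a.val * r = (-1) ^ b.val * r) : a = b := by
  have h' := mul_right_cancel₀ hr h
  have hm : (-1 : k) ≠ 1 := by
    intro h
    apply h2
    have : (2 : k) = 1 - (-1) := by ring
    rw [this, h]
    ring
  have v0 : (0 : ZMod 2).val = 0 := rfl
  have v1 : (1 : ZMod 2).val = 1 := rfl
  rcases zm2_AUI a with rfl | rfl <;> rcases zm2_AUI b with rfl | rfl
  · rfl
  · rw [v0, v1, pow_zero, pow_one] at h'
    exact absurd h'.symm hm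
  · rw [v0, v1, pow_zero, pow_one] at h'
    exact absurd h' hm
  · rfl

/-- The choice of square roots does not vanish on `W`. -/
private lemma ne_CNT {F : Type} [Field F] {ι : Type} {g : ι → ℕ} {f : ι → F[X][X]} {i₀ : ι}
    {a : F[X][X]} {I : Type} [Fintype I] {z : I → Fin (2 * g i₀ + 1)}
    {W : Submodule (ZMod 2) (I → ZMod 2)}
    {y : kk F × (∀ i, Fin (2 * g i + 1) → kk F) × ((I → ZMod 2) → kk F)}
    (hy : y ∈ Tup f i₀ a z W) (v : I → ZMod 2) (hv : v ∈ W) : y.2.2 v ≠ 0 := by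
  obtain ⟨-, -, h3, -, h5, h6⟩ := hy
  intro h0
  have h7 := h6 v hv v hv
  have h8 : v + v = 0 := by
    funext x
    show v x + v x = 0
    rcases zm2_AUI (v x) with h | h <;> rw [h] <;> rfl
  rw [h8, h5, h0, mul_zero, mul_one] at h7
  have h9 := Finset.prod_eq_zero_iff.1 h7.symm
  obtain ⟨x, -, hx⟩ := h9
  exact h3 x (eq_zero_of_pow_eq_zero hx)

/-- The Frobenius of a tuple is unique. -/
private lemma uniq_CNT {F : Type} [Field F] (h2 : (2 : F) ≠ 0) {ι : Type} {g : ι → ℕ}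
    {f : ι → F[X][X]} {i₀ : ι}
    {a : F[X][X]} {I : Type} [Fintype I] {z : I → Fin (2 * g i₀ + 1)}
    {W : Submodule (ZMod 2) (I → ZMod 2)}
    {pm : (∀ i, Equiv.Perm (Fin (2 * g i + 1))) → Equiv.Perm I}
    {y : kk F × (∀ i, Fin (2 * g i + 1) → kk F) × ((I → ZMod 2) → kk F)}
    {σ σ' : ∀ i, Equiv.Perm (Fin (2 * g i + 1))} {χ χ' : (I → ZMod 2) → ZMod 2} {Q : ℕ}
    (hy : y ∈ TupF f i₀ a z W pm σ χ Q) (hy' : y ∈ TupF f i₀ a z W pm σ' χ' Q) :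
    σ = σ' ∧ ∀ v ∈ W, χ v = χ' v := by
  obtain ⟨h1, -, h3, h4⟩ := hy
  obtain ⟨-, -, h3', h4'⟩ := hy'
  have e : σ = σ' := by
    funext i
    apply Equiv.ext
    intro b
    apply h1.2.1 i
    rw [← h3, ← h3']
  refine ⟨e, ?_⟩
  intro v hv
  have h5 := h4 v hv
  have h6 := h4' v hv
  rw [← e, h5] at h6
  have h22 : (2 : kk F) ≠ 0 := by
    have := (map_ne_zero (algebraMap F (kk F))).2 h2
    rwa [map_ofNat] at this
  exact sgn_CNT h22 (ne_CNT h1 v hv) h6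

/-- Automorphisms of the order inducing the same pair are equal. -/
private lemma ext_CNT {F : Type} [Field F] {ι : Type} [Fintype ι] {g : ι → ℕ}
    {θ : ∀ i, Fin (2 * g i + 1) → Om F} {i₀ : ι} {a : F[X][X]} {I : Type} [Fintype I]
    {z : I → Fin (2 * g i₀ + 1)}
    {pm : (∀ i, Equiv.Perm (Fin (2 * g i + 1))) → Equiv.Perm I} {ρ : I → Om F}
    {W : Submodule (ZMod 2) (I → ZMod 2)} {c : ℕ} (K : KDat θ i₀ a z pm ρ W c)
    {γ γ' : Rg θ ρ W ≃ₐ[(kk F)[X]] Rg θ ρ W} {s s' : Om F ≃ₐ[KK F] Om F}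
    {σ σ' : ∀ i, Equiv.Perm (Fin (2 * g i + 1))} {χ χ' : (I → ZMod 2) → ZMod 2}
    (hs : ∀ x : Rg θ ρ W, s (x : Om F) = (γ x : Om F))
    (hs' : ∀ x : Rg θ ρ W, s' (x : Om F) = (γ' x : Om F))
    (hI : Ind θ pm ρ W s σ χ) (hI' : Ind θ pm ρ W s' σ' χ') (e1 : σ = σ')
    (e2 : ∀ v ∈ W, χ v = χ' v) : γ = γ' := by
  subst e1
  apply ext_RAUT
  · intro i b
    apply Subtype.ext
    rw [← hs, ← hs']
    show s (θ i b) = s' (θ i b)
    rw [hI.1, hI'.1]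
  · intro u hu
    obtain ⟨v, hv, hvu⟩ := surj_RAUT K σ u hu
    apply Subtype.ext
    rw [← hs, ← hs']
    show s (rv ρ u) = s' (rv ρ u)
    have e3 := hI.2 v hv
    have e4 := hI'.2 v hv
    rw [hvu] at e3 e4
    rw [e3, e4, e2 v hv]

theorem bCNT (h1 : StYR) (h2 : StYT) (h3 : StRAUT) (h4 : StORD) (h5 : StCh) (h6 : StTs)
    (h7 : StZr) : StCNT := by
  intro F _ _ hF ι _ g f θ hmon hR i₀ N₀
  classical
  obtain ⟨J, _, w, c₀, hw⟩ := h4 F ι g f θ hmon hR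
  obtain ⟨C₁, hC₁⟩ := h1 F hF ι g f θ hmon hR J w c₀ hw i₀ N₀
  choose C₂ hC₂pos hC₂ using h5 F
  obtain ⟨NN, hNN⟩ : ∃ NN : ℕ, NN = Fintype.card J * 2 ^ N₀ := ⟨_, rfl⟩
  obtain ⟨M, hM⟩ : ∃ M : ℝ, M = ∑ n ∈ Finset.range (NN + 1), C₂ n := ⟨_, rfl⟩
  have hMle : ∀ n ≤ NN, C₂ n ≤ M := by
    intro n hn
    rw [hM]
    exact Finset.single_le_sum (f := C₂) (fun i _ => (hC₂pos i).le)
      (Finset.mem_range.2 (Nat.lt_succ_of_le hn))
  have hM0 : 0 ≤ M := by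
    rw [hM]
    exact Finset.sum_nonneg (fun i _ => (hC₂pos i).le)
  refine ⟨M * (C₁ + 1) + (NN * (NN * (2 * NN + 3)) + 2 * NN) * C₁, by positivity, ?_⟩
  intro a I _ z pm ρ W c K hI σ χ hχ e he
  let _ : Fintype W := Fintype.ofFinite W
  obtain ⟨hfin, -, h33, h34⟩ := h3 F hF ι g f θ hR i₀ a I z pm ρ W c K
  let _ : Fintype (Rg θ ρ W ≃ₐ[(kk F)[X]] Rg θ ρ W) := Fintype.ofFinite _
  obtain ⟨ω, Φ, T, hD, hΦ0, hΦS, hTi, hT1, hTt, hTF⟩ := hC₁ a I z pm ρ W c K hI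
  -- the number `N`
  obtain ⟨N, hN⟩ : ∃ N : ℕ, N = Fintype.card (J × W) := ⟨_, rfl⟩
  have hNW : N = (∏ i, (2 * g i + 1).factorial) * Fintype.card W := by
    rw [hN, Fintype.card_prod, hw.card]
  have hWc : Fintype.card W ≤ 2 ^ N₀ := by
    have e1 : Fintype.card W ≤ Fintype.card (I → ZMod 2) :=
      Fintype.card_le_of_injective (fun v : W => (v : I → ZMod 2)) Subtype.val_injective
    have e2 : Fintype.card (I → ZMod 2) = 2 ^ Fintype.card I := by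
      rw [Fintype.card_fun, ZMod.card]
    rw [e2] at e1
    exact e1.trans (Nat.pow_le_pow_right (by norm_num) hI)
  have hNle : N ≤ NN := by
    rw [hN, hNN, Fintype.card_prod]
    exact Nat.mul_le_mul_left _ hWc
  obtain ⟨c', hc'⟩ : ∃ c' : ℕ, c' = C₁ * (c + 1) := ⟨_, rfl⟩
  rw [← hc'] at hD hΦS
  -- the point sets
  have hP := hC₂ N (kk F) (Rg θ ρ W) (J × W) (Rg θ ρ W ≃ₐ[(kk F)[X]] Rg θ ρ W) ω
    (MonoidHom.id _) c' hD hN.symm
  obtain ⟨Bad, hBadc, hBad⟩ := h6 F (kk F) (Rg θ ρ W) (J × W)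
    (Rg θ ρ W ≃ₐ[(kk F)[X]] Rg θ ρ W) ω (MonoidHom.id _) c' hD
  obtain ⟨hZf, hZc⟩ := h7 F (kk F) (Rg θ ρ W) (J × W)
    (Rg θ ρ W ≃ₐ[(kk F)[X]] Rg θ ρ W) ω (MonoidHom.id _) c' hD c' Φ hΦ0 hΦS
  obtain ⟨γ, s, hs, hInd⟩ := h34 σ χ hχ
  obtain ⟨hPf, hPc⟩ := hP γ e he
  -- the bad set
  obtain ⟨B, hB⟩ : ∃ B : Finset (kk F), B = Bad ∪
      hZf.toFinset.image (fun y : Rg θ ρ W →ₐ[kk F] kk F => y (algebraMap (kk F)[X] (Rg θ ρ W) X)) :=
    ⟨_, rfl⟩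
  have hBc : B.card ≤ N * (2 * N * c' + c') + N * (c' + c') := by
    rw [hB]
    refine (Finset.card_union_le _ _).trans (Nat.add_le_add ?_ ?_)
    · rw [hN]; exact hBadc
    · refine Finset.card_image_le.trans ?_
      rw [← Set.ncard_eq_toFinset_card _ hZf, hN]
      exact hZc
  -- above `t`
  have hYT := h2 F hF ι g f i₀ a I z W
  -- the image
  have hA : T '' (Pts F ω (MonoidHom.id (Rg θ ρ W ≃ₐ[(kk F)[X]] Rg θ ρ W)) γ e \ {y | y Φ = 0}) ⊆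
      TupF f i₀ a z W pm σ χ (Fintype.card F ^ e) := by
    rintro _ ⟨y, ⟨hy1, hy2⟩, rfl⟩
    exact hTF γ s σ χ hs hInd e y hy1 hy2
  have hC : TupF f i₀ a z W pm σ χ (Fintype.card F ^ e) ⊆
      T '' (Pts F ω (MonoidHom.id (Rg θ ρ W ≃ₐ[(kk F)[X]] Rg θ ρ W)) γ e) ∪
        ⋃ t ∈ B, {y | y ∈ Tup f i₀ a z W ∧ y.1 = t} := by
    intro y hy
    by_cases hyB : y.1 ∈ B
    · right
      exact Set.mem_biUnion hyB ⟨hy.1, rfl⟩
    left
    have hyBad : y.1 ∉ Bad := fun h => hyB (by rw [hB]; exact Finset.mem_union_left _ h)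
    obtain ⟨b1, -, b3⟩ := hBad y.1 hyBad
    have hne : ∀ x : Rg θ ρ W →ₐ[kk F] kk F,
        x (algebraMap (kk F)[X] (Rg θ ρ W) X) = y.1 → x Φ ≠ 0 := by
      intro x hx h0
      apply hyB
      rw [hB]
      refine Finset.mem_union_right _ (Finset.mem_image.2 ⟨x, ?_, hx⟩)
      rw [Set.Finite.mem_toFinset]
      exact h0
    -- the points above
    have himg : T '' {x : Rg θ ρ W →ₐ[kk F] kk F |
        x (algebraMap (kk F)[X] (Rg θ ρ W) X) = y.1} = {u | u ∈ Tup f i₀ a z W ∧ u.1 = y.1} := by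
      apply Set.eq_of_subset_of_ncard_le _ _ (hYT y.1).1
      · rintro _ ⟨x, hx, rfl⟩
        exact ⟨hTt x (hne x hx), (hT1 x).trans hx⟩
      · rw [Set.ncard_image_of_injective _ hTi, b1, ← hN, hNW]
        exact (hYT y.1).2
    have hy2 : y ∈ {u | u ∈ Tup f i₀ a z W ∧ u.1 = y.1} := ⟨hy.1, rfl⟩
    rw [← himg] at hy2
    obtain ⟨x, hx, hxy⟩ := hy2
    obtain ⟨γ', hγ', -⟩ := b3 e hy.2.1 x hx
    obtain ⟨s', σ', χ', -, hs', hInd'⟩ := h33 γ'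
    have hxF := hTF γ' s' σ' χ' hs' hInd' e x hγ' (hne x hx)
    rw [hxy] at hxF
    obtain ⟨e1, e2⟩ := uniq_CNT hF hy hxF
    have e3 : γ = γ' := ext_CNT K hs hs' hInd hInd' e1 e2
    rw [← e3] at hγ'
    exact ⟨x, hγ', hxy⟩
  have hUf : (⋃ t ∈ B, {y | y ∈ Tup f i₀ a z W ∧ y.1 = t}).Finite :=
    Set.Finite.biUnion B.finite_toSet (fun t _ => (hYT t).1)
  have hUc : (⋃ t ∈ B, {y | y ∈ Tup f i₀ a z W ∧ y.1 = t}).ncard ≤ B.card * N := by
    have e1 : (⋃ t ∈ B, {y | y ∈ Tup f i₀ a z W ∧ y.1 = t}) =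
        ((B.biUnion (fun t => (hYT t).1.toFinset) : Finset _) : Set _) := by
      ext y
      simp
    rw [e1, Set.ncard_coe_finset]
    apply Finset.card_biUnion_le_card_mul
    intro t _
    rw [← Set.ncard_eq_toFinset_card _ (hYT t).1, hNW]
    exact (hYT t).2
  have hfinT : (TupF f i₀ a z W pm σ χ (Fintype.card F ^ e)).Finite :=
    ((hPf.image T).union hUf).subset hC
  refine ⟨hfinT, ?_⟩
  have hup : (TupF f i₀ a z W pm σ χ (Fintype.card F ^ e)).ncard ≤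
      (Pts F ω (MonoidHom.id (Rg θ ρ W ≃ₐ[(kk F)[X]] Rg θ ρ W)) γ e).ncard + B.card * N := by
    refine (Set.ncard_le_ncard hC ((hPf.image T).union hUf)).trans ?_
    refine (Set.ncard_union_le _ _).trans ?_
    rw [Set.ncard_image_of_injective _ hTi]
    exact Nat.add_le_add_left hUc _
  have hlow : (Pts F ω (MonoidHom.id (Rg θ ρ W ≃ₐ[(kk F)[X]] Rg θ ρ W)) γ e).ncard ≤
      (TupF f i₀ a z W pm σ χ (Fintype.card F ^ e)).ncard + N * (c' + c') := by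
    have e1 := Set.ncard_le_ncard hA hfinT
    rw [Set.ncard_image_of_injective _ hTi] at e1
    have e2 : (Pts F ω (MonoidHom.id (Rg θ ρ W ≃ₐ[(kk F)[X]] Rg θ ρ W)) γ e).ncard ≤
        (Pts F ω (MonoidHom.id (Rg θ ρ W ≃ₐ[(kk F)[X]] Rg θ ρ W)) γ e \ {y | y Φ = 0}).ncard +
          {y : Rg θ ρ W →ₐ[kk F] kk F | y Φ = 0}.ncard := Set.ncard_le_ncard_sdiff_add_ncard _ _ hZf
    rw [← hN] at hZc
    omega
  -- real estimates
  have hq : (1 : ℝ) ≤ (Fintype.card F : ℝ) ^ e := by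
    have : (1 : ℝ) ≤ (Fintype.card F : ℝ) := by exact_mod_cast Fintype.card_pos
    exact one_le_pow₀ this
  obtain ⟨S, hS⟩ : ∃ S : ℝ, S = Real.sqrt ((Fintype.card F : ℝ) ^ e) := ⟨_, rfl⟩
  have hS1 : 1 ≤ S := by
    rw [hS]
    exact Real.one_le_sqrt.2 hq
  rw [← hS] at hPc ⊢
  have hupR : ((TupF f i₀ a z W pm σ χ (Fintype.card F ^ e)).ncard : ℝ) ≤
      ((Pts F ω (MonoidHom.id (Rg θ ρ W ≃ₐ[(kk F)[X]] Rg θ ρ W)) γ e).ncard : ℝ) +
        (B.card : ℝ) * N := by exact_mod_cast hup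
  have hlowR : ((Pts F ω (MonoidHom.id (Rg θ ρ W ≃ₐ[(kk F)[X]] Rg θ ρ W)) γ e).ncard : ℝ) ≤
      ((TupF f i₀ a z W pm σ χ (Fintype.card F ^ e)).ncard : ℝ) + N * (c' + c') := by
    exact_mod_cast hlow
  have hBR : (B.card : ℝ) ≤ N * (2 * N * c' + c') + N * (c' + c') := by exact_mod_cast hBc
  have hNR : (N : ℝ) ≤ NN := by exact_mod_cast hNle
  have hN0 : (0 : ℝ) ≤ N := Nat.cast_nonneg _
  have hc'R : (c' : ℝ) = C₁ * (c + 1) := by rw [hc']; push_cast; ring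
  have hc'0 : (0 : ℝ) ≤ c' := Nat.cast_nonneg _
  have hC1 : (0 : ℝ) ≤ C₁ := Nat.cast_nonneg _
  have hcc : (0 : ℝ) ≤ c := Nat.cast_nonneg _
  have hBN : (B.card : ℝ) * N ≤ (NN * (NN * (2 * NN + 3))) * C₁ * (c + 1) * S := by
    have e1 : (B.card : ℝ) * N ≤ (N * (2 * N * c' + c') + N * (c' + c')) * N :=
      mul_le_mul_of_nonneg_right hBR hN0
    have e2 : ((N : ℝ) * (2 * N * c' + c') + N * (c' + c')) * N = (N * (N * (2 * N + 3))) * c' := by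
      ring
    have e3 : ((N : ℝ) * (N * (2 * N + 3))) * c' ≤ (NN * (NN * (2 * NN + 3))) * c' := by
      apply mul_le_mul_of_nonneg_right _ hc'0
      gcongr
    have e4 : ((NN : ℝ) * (NN * (2 * NN + 3))) * c' ≤
        (NN * (NN * (2 * NN + 3))) * C₁ * (c + 1) * S := by
      rw [hc'R, ← mul_assoc]
      exact le_mul_of_one_le_right (by positivity) hS1
    linarith
  have hNc : (N : ℝ) * (c' + c') ≤ 2 * NN * C₁ * (c + 1) * S := by
    have e1 : (N : ℝ) * (c' + c') ≤ NN * (c' + c') :=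
      mul_le_mul_of_nonneg_right hNR (by linarith)
    have e2 : (NN : ℝ) * (c' + c') = 2 * NN * C₁ * (c + 1) := by rw [hc'R]; ring
    have e3 : 2 * (NN : ℝ) * C₁ * (c + 1) ≤ 2 * NN * C₁ * (c + 1) * S :=
      le_mul_of_one_le_right (by positivity) hS1
    linarith
  have hCM : C₂ N * ((c' : ℝ) + 1) * S ≤ M * (C₁ + 1) * (c + 1) * S := by
    have e1 : C₂ N * ((c' : ℝ) + 1) ≤ M * ((C₁ + 1) * (c + 1)) := by
      apply mul_le_mul (hMle N hNle) _ (by positivity) hM0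
      rw [hc'R]
      nlinarith
    have e2 : M * (C₁ + 1) * (c + 1) = M * ((C₁ + 1) * (c + 1)) := by ring
    rw [e2]
    exact mul_le_mul_of_nonneg_right e1 (by linarith)
  have h0 : 0 ≤ (NN * (NN * (2 * NN + 3))) * C₁ * (c + 1) * S := by positivity
  have h00 : 0 ≤ 2 * (NN : ℝ) * C₁ * (c + 1) * S := by positivity
  rw [abs_le] at hPc ⊢
  constructor
  · nlinarith [hPc.1]
  · nlinarith [hPc.2]

end Pool.Agent.Helper54.GT
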