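import Pool.Agent.Helper54.GT.StB

/-!
# GT, part B: the order satisfies the hypotheses of part CHEB
-/

set_option autoImplicit false

namespace Pool.Agent.Helper54.GT

open Polynomial Module Finset Filter Topology
open Pool.Agent.Helper54.PT (Prm prm)
open Pool.Agent.Helper3.HY (fK RR LL kp red TType)

theorem polyLE_mono_DAT {F k : Type} [Field F] [Field k] [Algebra F k] {c c' : ℕ} (h : c ≤ c')
    {p : k[X]} (hp : p ∈ PolyLE F k c) : p ∈ PolyLE F k c' := by
  obtain ⟨p0, h0, h1⟩ := hp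
  exact ⟨p0, h0.trans h, h1⟩

/-- the order satisfies `Dat` -/
theorem bDAT (h1 : StRBS) (h2 : StRMUL) (h3 : StRAUT) (h4 : StEXT) (h5 : StAUI) : StDAT := by
  classical
  intro F _ hF ι _ g f θ hθ J _ w c₀ hw i₀ N₀
  obtain ⟨C₁, hC₁⟩ := h2 F ι g θ J w c₀ hw i₀ N₀
  refine ⟨C₁ + c₀, ?_⟩
  intro a I _ z pm ρ W _ _ c hK hI
  obtain ⟨ω, hω, hrepr⟩ := h1 F hF ι g θ J w c₀ hw i₀ a I z pm ρ W c hK
  obtain ⟨hmul, hone, hroot, hev, hrv⟩ := hC₁ a I z pm ρ W c hK hI
  have hle1 : C₁ * (c + 1) ≤ (C₁ + c₀) * (c + 1) := Nat.mul_le_mul_right _ (Nat.le_add_right _ _)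
  have hle2 : c₀ ≤ (C₁ + c₀) * (c + 1) :=
    (Nat.le_add_left c₀ C₁).trans (Nat.le_mul_of_pos_right _ (Nat.succ_pos c))
  refine ⟨ω, hω, ?_, ?_⟩
  · refine ⟨?_, ?_, ?_, ?_, ?_⟩
    · intro i j l
      refine polyLE_mono_DAT hle1 (hrepr _ _ ?_ l)
      have := hmul i.1 j.1 i.2 j.2
      rw [← hω, ← hω] at this
      exact this
    · intro l
      refine polyLE_mono_DAT hle1 (hrepr _ _ ?_ l)
      exact hone
    · intro γ i l
      refine polyLE_mono_DAT hle2 (hrepr c₀ _ ?_ l)
      obtain ⟨s, hs⟩ := (h4 F hF ι g f θ hθ i₀ a I z pm ρ W c hK).1 γ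
      obtain ⟨σ, χ, -, hind⟩ := h5 F hF ι g f θ hθ i₀ a I z pm ρ W c hK s
      have hpm1 : pm 1 = 1 := by
        have := hK.pmul 1 1
        rw [mul_one] at this
        exact left_eq_mul.1 this
      have hpminv : pm σ⁻¹ * pm σ = 1 := by rw [← hK.pmul, inv_mul_cancel, hpm1]
      have hv' := hK.stab σ⁻¹ (i.2 : I → ZMod 2) i.2.2
      have h6 := hind.2 _ hv'
      have h7 : (fun x => (fun x => (i.2 : I → ZMod 2) (pm σ⁻¹ x)) (pm σ x)) =
          (i.2 : I → ZMod 2) := by
        funext x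
        show (i.2 : I → ZMod 2) ((pm σ⁻¹ * pm σ) x) = _
        rw [hpminv]
        rfl
      rw [h7] at h6
      obtain ⟨p, hp, hpw⟩ := hw.gal s i.1
      set v' : W := ⟨fun x => (i.2 : I → ZMod 2) (pm σ⁻¹ x), hv'⟩ with hv'def
      set ε : F[X] := (-1) ^ (χ (v' : I → ZMod 2)).val with hε
      have hεdeg : ε.natDegree = 0 := by
        rw [hε]
        rcases neg_one_pow_eq_or F[X] (χ (v' : I → ZMod 2)).val with h | h
        · rw [h, natDegree_one]
        · rw [h, natDegree_neg, natDegree_one]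
      have hεem : em F ε = (-1) ^ (χ (v' : I → ZMod 2)).val := by
        rw [hε, map_pow, map_neg, map_one]
      refine ⟨fun jv => if jv.2 = v' then ε * p jv.1 else 0, ?_, ?_⟩
      · intro jv
        show (if jv.2 = v' then ε * p jv.1 else 0).natDegree ≤ c₀
        split_ifs
        · refine natDegree_mul_le.trans ?_
          rw [hεdeg, zero_add]
          exact hp _
        · rw [natDegree_zero]
          exact Nat.zero_le _
      · have h8 : ((MonoidHom.id (Rg θ ρ W ≃ₐ[(kk F)[X]] Rg θ ρ W) γ (ω i) : Rg θ ρ W) : Om F) =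
            s (ω i : Om F) := (hs _).symm
        rw [h8, hω, map_mul, h6, hpw, Fintype.sum_prod_type, Finset.sum_mul]
        refine Finset.sum_congr rfl fun j _ => ?_
        rw [Finset.sum_eq_single v']
        · dsimp only
          rw [if_pos rfl, map_mul, hεem]
          ring
        · intro u _ hu
          dsimp only
          rw [if_neg hu, map_zero, zero_mul]
        · intro h
          exact absurd (Finset.mem_univ _) h
    · exact fun x y h => h
    · obtain ⟨-, hcard, -⟩ := h3 F hF ι g f θ hθ i₀ a I z pm ρ W c hK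
      rw [← Nat.card_eq_fintype_card, hcard, Fintype.card_prod, hw.card]
  · intro c' x hx i
    obtain ⟨p0, h0, h9⟩ := hrepr c' x hx i
    rw [h9]
    exact natDegree_map_le.trans h0

end Pool.Agent.Helper54.GT
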