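import Pool.Agent.Helper54.GT.StB

/-!
# GT, part B: automorphisms of the order extend (EXT)
-/

set_option autoImplicit false

namespace Pool.Agent.Helper54.GT

open Polynomial Module Finset Filter Topology
open Pool.Agent.Helper54.PT (Prm prm)
open Pool.Agent.Helper3.HY (fK RR LL kp red TType)
open Pool.Agent.Helper3.GT (Gd GdF HypF facs TyI TyT Rp GeoSn StFAC StA1 StA1p StA2)

lemma alg_inj_EXT (F : Type) [Field F] : Function.Injective (algebraMap (kk F)[X] (Om F)) := by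
  rw [IsScalarTower.algebraMap_eq (kk F)[X] (KK F) (Om F), RingHom.coe_comp]
  exact (algebraMap (KK F) (Om F)).injective.comp (IsFractionRing.injective (kk F)[X] (KK F))

lemma algebraic_EXT (F : Type) [Field F] : Algebra.IsAlgebraic (kk F)[X] (Om F) :=
  (IsFractionRing.comap_isAlgebraic_iff (A := (kk F)[X]) (K := KK F) (C := Om F)).2
    inferInstance

section ext

variable {F : Type} [Field F] (R : Subalgebra (kk F)[X] (Om F))

lemma closure_EXT : IsAlgClosure R (Om F) where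
  isAlgClosed := inferInstance
  isAlgebraic := by
    have h1 := algebraic_EXT F
    have h2 : Function.Injective (algebraMap (kk F)[X] R) := by
      intro x y h
      apply alg_inj_EXT F
      exact congrArg (fun z : R => (z : Om F)) h
    exact Algebra.IsAlgebraic.extendScalars h2

lemma extend_EXT (γ : R ≃ₐ[(kk F)[X]] R) : ∃ s : Om F ≃ₐ[KK F] Om F,
    ∀ x : R, s (x : Om F) = (γ x : Om F) := by
  have := closure_EXT R
  obtain ⟨e, he⟩ := IsAlgClosure.equivOfEquivAux (R := R) (S := R) (Om F) (Om F)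
    (γ.toRingEquiv)
  have he' : ∀ x : R, e (x : Om F) = (γ x : Om F) := fun x => congrArg (fun φ => φ x) he
  have h1 : (e : Om F →+* Om F).comp (algebraMap (KK F) (Om F)) = algebraMap (KK F) (Om F) := by
    refine IsLocalization.ringHom_ext (nonZeroDivisors (kk F)[X]) ?_
    refine RingHom.ext fun p => ?_
    have h2 := he' (algebraMap (kk F)[X] R p)
    rw [γ.commutes] at h2
    show e (algebraMap (KK F) (Om F) (algebraMap (kk F)[X] (KK F) p)) =
      algebraMap (KK F) (Om F) (algebraMap (kk F)[X] (KK F) p)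
    rw [← IsScalarTower.algebraMap_apply (kk F)[X] (KK F) (Om F)]
    exact h2
  refine ⟨AlgEquiv.ofRingEquiv (f := e) fun r => congrArg (fun φ => φ r) h1, he'⟩

end ext

lemma pm_one_EXT {F : Type} [Field F] {ι : Type} [Fintype ι] {g : ι → ℕ}
    {θ : ∀ i, Fin (2 * g i + 1) → Om F} {i₀ : ι} {a : F[X][X]} {I : Type} [Fintype I]
    {z : I → Fin (2 * g i₀ + 1)}
    {pm : (∀ i, Equiv.Perm (Fin (2 * g i + 1))) → Equiv.Perm I} {ρ : I → Om F}
    {W : Submodule (ZMod 2) (I → ZMod 2)} {c : ℕ} (K : KDat θ i₀ a z pm ρ W c) : pm 1 = 1 := by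
  have h := K.pmul 1 1
  rw [mul_one] at h
  exact left_eq_mul.1 h

lemma pm_inv_EXT {F : Type} [Field F] {ι : Type} [Fintype ι] {g : ι → ℕ}
    {θ : ∀ i, Fin (2 * g i + 1) → Om F} {i₀ : ι} {a : F[X][X]} {I : Type} [Fintype I]
    {z : I → Fin (2 * g i₀ + 1)}
    {pm : (∀ i, Equiv.Perm (Fin (2 * g i + 1))) → Equiv.Perm I} {ρ : I → Om F}
    {W : Submodule (ZMod 2) (I → ZMod 2)} {c : ℕ} (K : KDat θ i₀ a z pm ρ W c)
    (σ : ∀ i, Equiv.Perm (Fin (2 * g i + 1))) (x : I) : pm σ⁻¹ (pm σ x) = x := by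
  have h := K.pmul σ⁻¹ σ
  rw [inv_mul_cancel, pm_one_EXT K] at h
  rw [← Equiv.Perm.mul_apply, ← h]
  rfl

lemma maps_EXT {F : Type} [Field F] {ι : Type} [Fintype ι] {g : ι → ℕ}
    {θ : ∀ i, Fin (2 * g i + 1) → Om F} {i₀ : ι} {a : F[X][X]} {I : Type} [Fintype I]
    {z : I → Fin (2 * g i₀ + 1)}
    {pm : (∀ i, Equiv.Perm (Fin (2 * g i + 1))) → Equiv.Perm I} {ρ : I → Om F}
    {W : Submodule (ZMod 2) (I → ZMod 2)} {c : ℕ} (K : KDat θ i₀ a z pm ρ W c)
    (s : Om F ≃ₐ[KK F] Om F) (σ : ∀ i, Equiv.Perm (Fin (2 * g i + 1)))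
    (χ : (I → ZMod 2) → ZMod 2) (hs : Ind θ pm ρ W s σ χ) :
    (Rg θ ρ W).map ((s.restrictScalars (kk F)[X] : Om F ≃ₐ[(kk F)[X]] Om F) :
      Om F →ₐ[(kk F)[X]] Om F) ≤ Rg θ ρ W := by
  unfold Rg
  rw [AlgHom.map_adjoin]
  refine Algebra.adjoin_le ?_
  rintro _ ⟨x, (⟨i, b, rfl⟩ | ⟨v, hv, rfl⟩), rfl⟩
  · show s (θ i b) ∈ Algebra.adjoin _ _
    rw [hs.1]
    exact Algebra.subset_adjoin (Or.inl ⟨i, σ i b, rfl⟩)
  · show s (rv ρ v) ∈ Algebra.adjoin _ _
    have hv' : (fun x => v (pm σ⁻¹ x)) ∈ W := K.stab σ⁻¹ v hv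
    have h1 := hs.2 _ hv'
    have h2 : (fun x => (fun x => v (pm σ⁻¹ x)) (pm σ x)) = v := by
      funext x
      show v (pm σ⁻¹ (pm σ x)) = v x
      rw [pm_inv_EXT K]
    rw [h2] at h1
    rw [h1]
    exact mul_mem (pow_mem (neg_mem (one_mem _)) _)
      (Algebra.subset_adjoin (Or.inr ⟨_, hv', rfl⟩))

theorem bEXT (_h1 : StPRM) (h2 : StAUI) : StEXT := by
  intro F _ h20 ι _ g f θ hR i₀ a I _ z pm ρ W c K
  refine ⟨fun γ => extend_EXT _ γ, fun s => ?_⟩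
  obtain ⟨σ, χ, -, hs⟩ := h2 F h20 ι g f θ hR i₀ a I z pm ρ W c K s
  obtain ⟨σ', χ', -, hs'⟩ := h2 F h20 ι g f θ hR i₀ a I z pm ρ W c K s.symm
  have h3 := maps_EXT K s σ χ hs
  have h4 := maps_EXT K s.symm σ' χ' hs'
  have h5 : (Rg θ ρ W).map ((s.restrictScalars (kk F)[X] : Om F ≃ₐ[(kk F)[X]] Om F) :
      Om F →ₐ[(kk F)[X]] Om F) = Rg θ ρ W := by
    refine le_antisymm h3 ?_
    intro x hx
    have h6 : s.symm x ∈ Rg θ ρ W := h4 ⟨x, hx, rfl⟩
    exact ⟨s.symm x, h6, s.apply_symm_apply x⟩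
  refine ⟨((s.restrictScalars (kk F)[X] : Om F ≃ₐ[(kk F)[X]] Om F).subalgebraMap
    (Rg θ ρ W)).trans (Subalgebra.equivOfEq _ _ h5), fun x => rfl⟩

end Pool.Agent.Helper54.GT
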