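import Pool.Agent.Helper54.GT.B_AUI

/-!
# GT, part B: the automorphism group of the order (RAUT)
-/

set_option autoImplicit false

namespace Pool.Agent.Helper54.GT

open Polynomial Module Finset Filter Topology
open Pool.Agent.Helper54.PT (Prm prm)
open Pool.Agent.Helper3.HY (fK RR LL kp red TType)
open Pool.Agent.Helper3.GT (Gd GdF HypF facs TyI TyT Rp GeoSn StFAC StA1 StA1p StA2)

lemma two_RAUT {F : Type} [Field F] (h2 : (2 : F) ≠ 0) : (2 : Om F) ≠ 0 := by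
  intro h
  apply h2
  have h3 : em F (C 2) = 0 := by
    rw [show (C (2 : F) : F[X]) = 2 from map_ofNat C 2, map_ofNat]
    exact h
  rw [map_eq_zero_iff _ (em_inj_AUI F), C_eq_zero] at h3
  exact h3

/-- signs determine the exponent -/
lemma sgn_RAUT {F : Type} [Field F] (h2 : (2 : F) ≠ 0) {a b : ZMod 2} {r : Om F} (hr : r ≠ 0)
    (h : (-1 : Om F) ^ a.val * r = (-1) ^ b.val * r) : a = b := by
  have h' := mul_right_cancel₀ hr h
  have hm : (-1 : Om F) ≠ 1 := by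
    intro h
    apply two_RAUT h2
    have : (2 : Om F) = 1 - (-1) := by ring
    rw [this, h]
    ring
  have v0 : (0 : ZMod 2).val = 0 := rfl
  have v1 : (1 : ZMod 2).val = 1 := rfl
  rcases zm2_AUI a with rfl | rfl <;> rcases zm2_AUI b with rfl | rfl
  · rfl
  · rw [v0, v1, pow_zero, pow_one] at h'
    exact absurd h'.symm hm
  · rw [v0, v1, pow_zero, pow_one] at h'
    exact absurd h' hm
  · rfl

/-- every vector of `W` is `v ∘ pm σ` -/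
lemma surj_RAUT {F : Type} [Field F] {ι : Type} [Fintype ι] {g : ι → ℕ}
    {θ : ∀ i, Fin (2 * g i + 1) → Om F} {i₀ : ι} {a : F[X][X]} {I : Type} [Fintype I]
    {z : I → Fin (2 * g i₀ + 1)}
    {pm : (∀ i, Equiv.Perm (Fin (2 * g i + 1))) → Equiv.Perm I} {ρ : I → Om F}
    {W : Submodule (ZMod 2) (I → ZMod 2)} {c : ℕ} (K : KDat θ i₀ a z pm ρ W c)
    (σ : ∀ i, Equiv.Perm (Fin (2 * g i + 1))) (u : I → ZMod 2) (hu : u ∈ W) :
    ∃ v ∈ W, (fun x => v (pm σ x)) = u := by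
  have h1 : pm 1 = 1 := by
    have := K.pmul 1 1
    rw [mul_one] at this
    exact left_eq_mul.1 this
  have h2 : pm σ⁻¹ * pm σ = 1 := by
    rw [← K.pmul, inv_mul_cancel, h1]
  refine ⟨fun x => u (pm σ⁻¹ x), K.stab σ⁻¹ u hu, ?_⟩
  funext x
  show u ((pm σ⁻¹ * pm σ) x) = u x
  rw [h2]
  rfl

lemma theta_mem_RAUT {F : Type} [Field F] {ι : Type} {g : ι → ℕ}
    (θ : ∀ i, Fin (2 * g i + 1) → Om F) {I : Type} [Fintype I] (ρ : I → Om F)
    (W : Submodule (ZMod 2) (I → ZMod 2)) (i : ι) (b : Fin (2 * g i + 1)) :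
    θ i b ∈ Rg θ ρ W := Algebra.subset_adjoin (Or.inl ⟨i, b, rfl⟩)

lemma rv_mem_RAUT {F : Type} [Field F] {ι : Type} {g : ι → ℕ}
    (θ : ∀ i, Fin (2 * g i + 1) → Om F) {I : Type} [Fintype I] (ρ : I → Om F)
    (W : Submodule (ZMod 2) (I → ZMod 2)) (v : I → ZMod 2) (hv : v ∈ W) :
    rv ρ v ∈ Rg θ ρ W := Algebra.subset_adjoin (Or.inr ⟨v, hv, rfl⟩)

/-- an automorphism of the order is determined by the values at the generators -/
lemma ext_RAUT {F : Type} [Field F] {ι : Type} {g : ι → ℕ}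
    (θ : ∀ i, Fin (2 * g i + 1) → Om F) {I : Type} [Fintype I] (ρ : I → Om F)
    (W : Submodule (ZMod 2) (I → ZMod 2)) (γ γ' : Rg θ ρ W ≃ₐ[(kk F)[X]] Rg θ ρ W)
    (h1 : ∀ i b, γ ⟨θ i b, theta_mem_RAUT θ ρ W i b⟩ = γ' ⟨θ i b, theta_mem_RAUT θ ρ W i b⟩)
    (h2 : ∀ v (hv : v ∈ W), γ ⟨rv ρ v, rv_mem_RAUT θ ρ W v hv⟩ =
      γ' ⟨rv ρ v, rv_mem_RAUT θ ρ W v hv⟩) : γ = γ' := by
  have key : ∀ (x : Om F) (hx : x ∈ Rg θ ρ W), γ ⟨x, hx⟩ = γ' ⟨x, hx⟩ := by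
    intro x hx
    refine Algebra.adjoin_induction (p := fun x hx => γ ⟨x, hx⟩ = γ' ⟨x, hx⟩) ?_ ?_ ?_ ?_ hx
    · rintro x (⟨i, b, rfl⟩ | ⟨v, hv, rfl⟩)
      · exact h1 i b
      · exact h2 v hv
    · intro r
      have e1 := γ.commutes r
      have e2 := γ'.commutes r
      exact e1.trans e2.symm
    · intro x y hx hy ex ey
      have e1 := map_add γ ⟨x, hx⟩ ⟨y, hy⟩
      have e2 := map_add γ' ⟨x, hx⟩ ⟨y, hy⟩
      rw [ex, ey] at e1
      exact e1.trans e2.symm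
    · intro x y hx hy ex ey
      have e1 := map_mul γ ⟨x, hx⟩ ⟨y, hy⟩
      have e2 := map_mul γ' ⟨x, hx⟩ ⟨y, hy⟩
      rw [ex, ey] at e1
      exact e1.trans e2.symm
  apply AlgEquiv.ext
  intro x
  exact key x.1 x.2

theorem bRAUT (h1 : StEXT) (h2 : StAUI) (h3 : StAUS) : StRAUT := by
  intro F _ hF ι _ g f θ hR i₀ a I _ z pm ρ W _ c K
  classical
  have hρ : ∀ x, ρ x ≠ 0 := rho_ne_AUI K
  have P3 : ∀ γ : Rg θ ρ W ≃ₐ[(kk F)[X]] Rg θ ρ W, ∃ (s : Om F ≃ₐ[KK F] Om F)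
      (σ : ∀ i, Equiv.Perm (Fin (2 * g i + 1))) (χ : (I → ZMod 2) → ZMod 2), Chr W χ ∧
        (∀ x : Rg θ ρ W, s (x : Om F) = (γ x : Om F)) ∧ Ind θ pm ρ W s σ χ := by
    intro γ
    obtain ⟨s, hs⟩ := (h1 F hF ι g f θ hR i₀ a I z pm ρ W c K).1 γ
    obtain ⟨σ, χ, hχ, hI⟩ := h2 F hF ι g f θ hR i₀ a I z pm ρ W c K s
    exact ⟨s, σ, χ, hχ, hs, hI⟩
  have P4 : ∀ (σ : ∀ i, Equiv.Perm (Fin (2 * g i + 1))) (χ : (I → ZMod 2) → ZMod 2), Chr W χ →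
      ∃ (γ : Rg θ ρ W ≃ₐ[(kk F)[X]] Rg θ ρ W) (s : Om F ≃ₐ[KK F] Om F),
        (∀ x : Rg θ ρ W, s (x : Om F) = (γ x : Om F)) ∧ Ind θ pm ρ W s σ χ := by
    intro σ χ hχ
    obtain ⟨s, hI⟩ := h3 F hF ι g f θ hR i₀ a I z pm ρ W c K σ χ hχ
    obtain ⟨γ, hγ⟩ := (h1 F hF ι g f θ hR i₀ a I z pm ρ W c K).2 s
    exact ⟨γ, s, hγ, hI⟩
  choose s σ χ hχ hs hI using P3
  -- the map to the pairs
  let L : (Rg θ ρ W ≃ₐ[(kk F)[X]] Rg θ ρ W) → (W →+ ZMod 2) := fun γ =>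
    AddMonoidHom.mk' (fun v => χ γ v) (fun v v' => hχ γ v v.2 v' v'.2)
  let Φ : (Rg θ ρ W ≃ₐ[(kk F)[X]] Rg θ ρ W) →
      (∀ i, Equiv.Perm (Fin (2 * g i + 1))) × (W →+ ZMod 2) := fun γ => (σ γ, L γ)
  have hL : ∀ γ (v : W), L γ v = χ γ v := fun γ v => rfl
  have hinj : Function.Injective Φ := by
    intro γ γ' h
    have e1 : σ γ = σ γ' := congrArg Prod.fst h
    have e2 : L γ = L γ' := congrArg Prod.snd h
    apply ext_RAUT
    · intro i b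
      apply Subtype.ext
      rw [← hs γ, ← hs γ']
      show s γ (θ i b) = s γ' (θ i b)
      rw [(hI γ).1, (hI γ').1, e1]
    · intro u hu
      obtain ⟨v, hv, hvu⟩ := surj_RAUT K (σ γ) u hu
      apply Subtype.ext
      rw [← hs γ, ← hs γ']
      show s γ (rv ρ u) = s γ' (rv ρ u)
      have e3 := (hI γ).2 v hv
      have e4 := (hI γ').2 v hv
      rw [← e1, hvu] at e4
      rw [hvu] at e3
      rw [e3, e4]
      have e5 : χ γ v = χ γ' v := by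
        have := DFunLike.congr_fun e2 (⟨v, hv⟩ : W)
        rw [hL, hL] at this
        exact this
      rw [e5]
  have hsurj : Function.Surjective Φ := by
    rintro ⟨σ₀, φ⟩
    have hχ₀ : Chr W (fun v => if h : v ∈ W then φ ⟨v, h⟩ else 0) := by
      intro v hv v' hv'
      show (if h : v + v' ∈ W then φ ⟨v + v', h⟩ else 0)
        = (if h : v ∈ W then φ ⟨v, h⟩ else 0) + (if h : v' ∈ W then φ ⟨v', h⟩ else 0)
      rw [dif_pos hv, dif_pos hv', dif_pos (W.add_mem hv hv'), ← map_add]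
      rfl
    obtain ⟨γ, t, ht, hIt⟩ := P4 σ₀ _ hχ₀
    refine ⟨γ, ?_⟩
    have e1 : σ γ = σ₀ := by
      funext i
      apply Equiv.ext
      intro b
      apply hR.inj i
      rw [← (hI γ).1, ← hIt.1, hs γ ⟨θ i b, theta_mem_RAUT θ ρ W i b⟩,
        ht ⟨θ i b, theta_mem_RAUT θ ρ W i b⟩]
    have e2 : L γ = φ := by
      apply AddMonoidHom.ext
      rintro ⟨v, hv⟩
      rw [hL]
      have e3 := (hI γ).2 v hv
      have e4 := hIt.2 v hv
      have hm : (fun x => v (pm σ₀ x)) ∈ W := K.stab σ₀ v hv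
      rw [e1, hs γ ⟨_, rv_mem_RAUT θ ρ W _ hm⟩] at e3
      rw [ht ⟨_, rv_mem_RAUT θ ρ W _ hm⟩] at e4
      have e5 := sgn_RAUT hF (rv_ne_AUI ρ hρ v) (e3.symm.trans e4)
      have e6 : (if h : v ∈ W then φ ⟨v, h⟩ else 0) = φ ⟨v, hv⟩ := dif_pos hv
      exact e5.trans e6
    show (σ γ, L γ) = (σ₀, φ)
    rw [e1, e2]
  have hfin : Finite (W →+ ZMod 2) := DFunLike.finite _
  have hfinR : Finite (Rg θ ρ W ≃ₐ[(kk F)[X]] Rg θ ρ W) := Finite.of_injective Φ hinj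
  have hcW : Nat.card (W →+ ZMod 2) = Fintype.card W := by
    have e1 : Nat.card (W →+ ZMod 2) = Nat.card (Module.Dual (ZMod 2) W) :=
      Nat.card_congr (AddMonoidHom.toZModLinearMapEquiv 2).toEquiv
    rw [e1, Module.natCard_eq_pow_finrank (K := ZMod 2), Subspace.dual_finrank_eq,
      ← Module.natCard_eq_pow_finrank (K := ZMod 2), Nat.card_eq_fintype_card]
  refine ⟨hfinR, ?_, ?_, P4⟩
  · rw [Nat.card_congr (Equiv.ofBijective Φ ⟨hinj, hsurj⟩), Nat.card_prod, hcW,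
      Nat.card_eq_fintype_card, Fintype.card_pi]
    congr 1
    apply Finset.prod_congr rfl
    intro i _
    rw [Fintype.card_perm, Fintype.card_fin]
  · intro γ
    exact ⟨s γ, σ γ, χ γ, hχ γ, hs γ, hI γ⟩

end Pool.Agent.Helper54.GT
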