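import Pool.Agent.Helper54.GT.StB

/-!
# GT, part B: the basis of the order (RBS)
-/

set_option autoImplicit false

namespace Pool.Agent.Helper54.GT

open Polynomial Module Finset Filter Topology
open Pool.Agent.Helper54.PT (Prm prm)
open Pool.Agent.Helper3.HY (fK RR LL kp red TType)
open Pool.Agent.Helper3.GT (Gd GdF HypF facs TyI TyT Rp GeoSn StFAC StA1 StA1p StA2)

lemma em_smul_RBS {F : Type} [Field F] (p : F[X]) (x : Om F) :
    em F p * x = (p.map (algebraMap F (kk F))) • x := by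
  rw [Algebra.smul_def]
  rfl

lemma InV_mem_RBS {F : Type} [Field F] {J I : Type} [Fintype J] [Fintype I] {w : J → Om F}
    {ρ : I → Om F} {W : Submodule (ZMod 2) (I → ZMod 2)} [Fintype W] {c : ℕ} {x : Om F}
    (h : InV w ρ W c x) : x ∈ Submodule.span (kk F)[X]
      (Set.range (fun jv : J × W => w jv.1 * rv ρ (jv.2 : I → ZMod 2))) := by
  obtain ⟨p, -, rfl⟩ := h
  refine Submodule.sum_mem _ fun jv _ => ?_
  rw [em_smul_RBS]
  exact Submodule.smul_mem _ _ (Submodule.subset_span ⟨jv, rfl⟩)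

lemma Rg_eq_RBS (h2 : StRMUL) {F : Type} [Field F] {ι : Type} [Fintype ι] {g : ι → ℕ}
    {θ : ∀ i, Fin (2 * g i + 1) → Om F} {J : Type} [Fintype J] {w : J → Om F} {c₀ : ℕ}
    (hw : RBas θ w c₀) {i₀ : ι} {a : F[X][X]} {I : Type} [Fintype I]
    {z : I → Fin (2 * g i₀ + 1)} {pm : (∀ i, Equiv.Perm (Fin (2 * g i + 1))) → Equiv.Perm I}
    {ρ : I → Om F} {W : Submodule (ZMod 2) (I → ZMod 2)} [Fintype W] {c : ℕ}
    (K : KDat θ i₀ a z pm ρ W c) :
    Submodule.span (kk F)[X]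
      (Set.range (fun jv : J × W => w jv.1 * rv ρ (jv.2 : I → ZMod 2))) =
      Subalgebra.toSubmodule (Rg θ ρ W) := by
  obtain ⟨C₀, hC⟩ := h2 F ι g θ J w c₀ hw i₀ (Fintype.card I)
  obtain ⟨hm, ho, ht, -, hr⟩ := hC a I z pm ρ W c K le_rfl
  apply le_antisymm
  · rw [Submodule.span_le]
    rintro _ ⟨⟨j, v⟩, rfl⟩
    show w j * rv ρ (v : I → ZMod 2) ∈ Rg θ ρ W
    refine mul_mem ?_ (Algebra.subset_adjoin (Or.inr ⟨v, v.2, rfl⟩))
    exact Algebra.adjoin_mono (fun x hx => Or.inl hx) (hw.alg j)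
  · have hmul : ∀ x y, x ∈ Submodule.span (kk F)[X]
        (Set.range (fun jv : J × W => w jv.1 * rv ρ (jv.2 : I → ZMod 2))) →
        y ∈ Submodule.span (kk F)[X]
        (Set.range (fun jv : J × W => w jv.1 * rv ρ (jv.2 : I → ZMod 2))) →
        x * y ∈ Submodule.span (kk F)[X]
        (Set.range (fun jv : J × W => w jv.1 * rv ρ (jv.2 : I → ZMod 2))) := by
      intro x y hx hy
      have h3 := Submodule.mul_mem_mul hx hy
      rw [Submodule.span_mul_span] at h3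
      refine Submodule.span_le.2 ?_ h3
      rintro _ ⟨_, ⟨⟨j, v⟩, rfl⟩, _, ⟨⟨j', v'⟩, rfl⟩, rfl⟩
      exact InV_mem_RBS (hm j j' v v')
    have h4 : Rg θ ρ W ≤ Submodule.toSubalgebra (Submodule.span (kk F)[X]
        (Set.range (fun jv : J × W => w jv.1 * rv ρ (jv.2 : I → ZMod 2))))
        (InV_mem_RBS ho) hmul := by
      refine Algebra.adjoin_le ?_
      rintro x (⟨i, b, rfl⟩ | ⟨v, hv, rfl⟩)
      · exact InV_mem_RBS (ht i b)
      · exact InV_mem_RBS (hr v hv)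
    intro x hx
    exact h4 hx

theorem bRBS (h1 : StRIND) (h2 : StRMUL) : StRBS := by
  intro F _ h20 ι _ g θ J _ w c₀ hw i₀ a I _ z pm ρ W _ c K
  have hli := h1 F h20 ι g θ J w c₀ hw i₀ a I z pm ρ W c K
  have hli2 : LinearIndependent (kk F)[X]
      (fun jv : J × W => w jv.1 * rv ρ (jv.2 : I → ZMod 2)) := by
    refine hli.restrict_scalars ?_
    intro x y hxy
    simp only [Algebra.smul_def, mul_one] at hxy
    exact RatFunc.algebraMap_injective (kk F) hxy
  have hspan := Rg_eq_RBS h2 hw K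
  let ω : Basis (J × W) (kk F)[X] (Rg θ ρ W) :=
    (Basis.span hli2).map ((LinearEquiv.ofEq _ _ hspan).trans
      (Subalgebra.toSubmoduleEquiv (Rg θ ρ W)))
  have hω : ∀ jv, (ω jv : Om F) = w jv.1 * rv ρ (jv.2 : I → ZMod 2) := by
    intro jv
    show (((Basis.span hli2) jv : Submodule.span (kk F)[X] _) : Om F) = _
    rw [Basis.span_apply]
  refine ⟨ω, hω, ?_⟩
  rintro c' x ⟨p, hp, hx⟩ l
  refine ⟨p l, hp l, ?_⟩
  have h3 : x = ∑ jv, (p jv).map (algebraMap F (kk F)) • ω jv := by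
    apply Subtype.ext
    rw [hx]
    push_cast
    refine Finset.sum_congr rfl fun jv _ => ?_
    rw [em_smul_RBS, hω]
  rw [h3]
  exact congrFun (ω.repr_sum_self _) l

end Pool.Agent.Helper54.GT
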