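import Pool.Agent.Helper54.GT.StB

/-!
# GT, part B: independence of the basis
-/

set_option autoImplicit false

namespace Pool.Agent.Helper54.GT

open Polynomial Module Finset Filter Topology
open Pool.Agent.Helper54.PT (Prm prm)
open Pool.Agent.Helper3.HY (fK RR LL kp red TType)

section

variable {F : Type} [Field F]

theorem em_fix_RIND (s : Om F ≃ₐ[KK F] Om F) (p : F[X]) : s (em F p) = em F p := by
  have h : em F p = algebraMap (KK F) (Om F) (algebraMap (kk F)[X] (KK F)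
      (mapRingHom (algebraMap F (kk F)) p)) := by
    rw [← IsScalarTower.algebraMap_apply]
    rfl
  rw [h, AlgEquiv.commutes]

theorem ev_map_RIND (s : Om F ≃ₐ[KK F] Om F) (a : F[X][X]) (x : Om F) :
    s (ev a x) = ev a (s x) := by
  unfold ev
  rw [eval₂_eq_sum_range, eval₂_eq_sum_range, map_sum]
  exact Finset.sum_congr rfl fun i _ => by rw [map_mul, map_pow, em_fix_RIND]

theorem two_ne_RIND (h2 : (2 : F) ≠ 0) : (2 : Om F) ≠ 0 := by
  have h : ((em F).comp C) (2 : F) = 2 := map_ofNat _ 2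
  rw [← h]
  exact (_root_.map_ne_zero _).2 h2

/-- the automorphisms which fix the roots -/
def GsRIND {ι : Type} {g : ι → ℕ} (θ : ∀ i, Fin (2 * g i + 1) → Om F) :
    Subgroup (Om F ≃ₐ[KK F] Om F) where
  carrier := {s | ∀ i b, s (θ i b) = θ i b}
  one_mem' := fun _ _ => rfl
  mul_mem' := by
    intro s t hs ht i b
    rw [AlgEquiv.mul_apply, ht, hs]
  inv_mem' := by
    intro s hs i b
    apply s.injective
    rw [hs]
    exact s.apply_symm_apply _

theorem rv_sq_RIND {I : Type} [Fintype I] (ρ E : I → Om F) (h : ∀ x, ρ x ^ 2 = E x)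
    (v : I → ZMod 2) : rv ρ v ^ 2 = ∏ x, E x ^ (v x).val := by
  unfold rv
  rw [← Finset.prod_pow]
  refine Finset.prod_congr rfl fun x _ => ?_
  rw [← h x, ← pow_mul, ← pow_mul, mul_comm]

theorem rv_mul_RIND {I : Type} [Fintype I] (ρ E : I → Om F) (h : ∀ x, ρ x ^ 2 = E x)
    (v v' : I → ZMod 2) :
    rv ρ v * rv ρ v' = (∏ x, E x ^ ((v x).val * (v' x).val)) * rv ρ (v + v') := by
  unfold rv
  rw [← Finset.prod_mul_distrib, ← Finset.prod_mul_distrib]
  refine Finset.prod_congr rfl fun x _ => ?_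
  rw [Pi.add_apply, ← h x]
  have key : ∀ a b : ZMod 2, ρ x ^ a.val * ρ x ^ b.val =
      (ρ x ^ 2) ^ (a.val * b.val) * ρ x ^ (a + b).val := by
    intro a b
    rw [← pow_add, ← pow_mul, ← pow_add]
    congr 1
    revert a b
    decide
  exact key _ _

theorem rv_ne_RIND {I : Type} [Fintype I] (ρ : I → Om F) (h : ∀ x, ρ x ≠ 0) (v : I → ZMod 2) :
    rv ρ v ≠ 0 := by
  unfold rv
  exact Finset.prod_ne_zero_iff.2 fun x _ => pow_ne_zero _ (h x)

end

/-- independence of the basis -/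
theorem bRIND (h1 : StLI) : StRIND := by
  intro F _ h2 ι _ g θ J _ w c₀ hB i₀ a I _ z pm ρ W _ c hK
  have hρ : ∀ x, ρ x ≠ 0 := by
    intro x h0
    apply hK.ne x
    rw [← hK.sq x, h0, zero_pow two_ne_zero]
  have hfixE : ∀ s ∈ GsRIND θ, ∀ x, s (ev a (θ i₀ (z x))) = ev a (θ i₀ (z x)) := by
    intro s hs x
    rw [ev_map_RIND, hs]
  have hfixP : ∀ s ∈ GsRIND θ, ∀ e : I → ℕ, s (∏ x, ev a (θ i₀ (z x)) ^ e x) =
      ∏ x, ev a (θ i₀ (z x)) ^ e x := by
    intro s hs e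
    rw [map_prod]
    exact Finset.prod_congr rfl fun x _ => by rw [map_pow, hfixE s hs]
  refine h1 (KK F) (Om F) J W w (fun v => rv ρ (v : I → ZMod 2)) hB.ind
    (fun v => rv_ne_RIND ρ hρ _) (GsRIND θ) (fun s hs j => hB.fix s hs j) ?_ ?_
  · intro s hs v
    have h3 : (s (rv ρ (v : I → ZMod 2))) ^ 2 = rv ρ (v : I → ZMod 2) ^ 2 := by
      rw [← map_pow, rv_sq_RIND ρ _ hK.sq, hfixP s hs fun x => ((v : I → ZMod 2) x).val]
    exact sq_eq_sq_iff_eq_or_eq_neg.1 h3
  · intro v v' hv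
    have h3 : (v : I → ZMod 2) + (v' : I → ZMod 2) ≠ 0 := by
      intro h4
      apply hv
      apply Subtype.ext
      have h5 : (v : I → ZMod 2) = -(v' : I → ZMod 2) := eq_neg_of_add_eq_zero_left h4
      rw [h5]
      funext x
      exact ZMod.neg_eq_self_mod_two _
    obtain ⟨s, hs, hs2⟩ := hK.ind _ (W.add_mem v.2 v'.2) h3
    refine ⟨s, hs, ?_⟩
    rw [rv_mul_RIND ρ _ hK.sq, map_mul, hs2,
      hfixP s hs fun x => ((v : I → ZMod 2) x).val * ((v' : I → ZMod 2) x).val]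
    intro h4
    have h5 : (∏ x, ev a (θ i₀ (z x)) ^ (((v : I → ZMod 2) x).val * ((v' : I → ZMod 2) x).val)) *
        rv ρ ((v : I → ZMod 2) + v') ≠ 0 :=
      mul_ne_zero (Finset.prod_ne_zero_iff.2 fun x _ => pow_ne_zero _ (hK.ne x))
        (rv_ne_RIND ρ hρ _)
    rw [mul_neg, neg_eq_iff_add_eq_zero, ← two_mul] at h4
    exact mul_ne_zero (two_ne_RIND h2) h5 h4

end Pool.Agent.Helper54.GT
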