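import Pool.Agent.Helper54.GT.StB

/-!
# GT, part B, module RMUL: products of basis elements
-/

set_option autoImplicit false

namespace Pool.Agent.Helper54.GT

open Polynomial Module Finset

section RMUL

variable {F : Type} [Field F] {J : Type} [Fintype J] {w : J → Om F}

theorem InW.mono_RMUL {c c' : ℕ} {x : Om F} (h : InW w c x) (hc : c ≤ c') : InW w c' x := by
  obtain ⟨p, hp, hx⟩ := h
  exact ⟨p, fun j => (hp j).trans hc, hx⟩

theorem InW.zero_RMUL (c : ℕ) : InW w c (0 : Om F) :=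
  ⟨fun _ => 0, fun _ => by simp, by simp⟩

theorem InW.add_RMUL {c : ℕ} {x y : Om F} (hx : InW w c x) (hy : InW w c y) :
    InW w c (x + y) := by
  obtain ⟨p, hp, hx⟩ := hx
  obtain ⟨q, hq, hy⟩ := hy
  refine ⟨fun j => p j + q j, fun j => ?_, ?_⟩
  · exact (natDegree_add_le _ _).trans (max_le (hp j) (hq j))
  · rw [hx, hy, ← Finset.sum_add_distrib]
    apply Finset.sum_congr rfl
    intro j _
    rw [map_add]
    ring

theorem InW.sum_RMUL {A : Type} {c : ℕ} (s : Finset A) (f : A → Om F)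
    (h : ∀ i ∈ s, InW w c (f i)) : InW w c (∑ i ∈ s, f i) := by
  classical
  induction s using Finset.induction_on with
  | empty => simpa using InW.zero_RMUL c
  | insert a s ha ih =>
    rw [Finset.sum_insert ha]
    exact (h a (Finset.mem_insert_self a s)).add_RMUL
      (ih fun i hi => h i (Finset.mem_insert_of_mem hi))

theorem InW.smul_RMUL {c d : ℕ} {x : Om F} (hx : InW w c x) {p : F[X]}
    (hp : p.natDegree ≤ d) : InW w (c + d) (em F p * x) := by
  obtain ⟨q, hq, hx⟩ := hx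
  refine ⟨fun j => p * q j, fun j => ?_, ?_⟩
  · show (p * q j).natDegree ≤ c + d
    have := natDegree_mul_le (p := p) (q := q j)
    have := hq j
    omega
  · rw [hx, Finset.mul_sum]
    apply Finset.sum_congr rfl
    intro j _
    rw [map_mul]
    ring

theorem InW.mul_RMUL {c₀ : ℕ} (hmul : ∀ j j', InW w c₀ (w j * w j')) {c c' : ℕ} {x y : Om F}
    (hx : InW w c x) (hy : InW w c' y) : InW w (c + c' + c₀) (x * y) := by
  obtain ⟨p, hp, hx⟩ := hx
  obtain ⟨q, hq, hy⟩ := hy
  have h1 : x * y = ∑ j, ∑ j', em F (p j * q j') * (w j * w j') := by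
    rw [hx, hy, Finset.sum_mul_sum]
    apply Finset.sum_congr rfl
    intro j _
    apply Finset.sum_congr rfl
    intro j' _
    rw [map_mul]
    ring
  rw [h1]
  apply InW.sum_RMUL
  intro j _
  apply InW.sum_RMUL
  intro j' _
  have h2 : (p j * q j').natDegree ≤ c + c' := by
    have := natDegree_mul_le (p := p j) (q := q j')
    have := hp j
    have := hq j'
    omega
  exact ((hmul j j').smul_RMUL h2).mono_RMUL (by omega)

theorem InW.prod_RMUL {A : Type} {c₀ : ℕ} (hmul : ∀ j j', InW w c₀ (w j * w j'))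
    (hone : InW w c₀ (1 : Om F)) {c : ℕ} (s : Finset A) (f : A → Om F)
    (h : ∀ i ∈ s, InW w c (f i)) : InW w (c₀ + s.card * (c + c₀)) (∏ i ∈ s, f i) := by
  classical
  induction s using Finset.induction_on with
  | empty => simpa using hone
  | insert a s ha ih =>
    rw [Finset.prod_insert ha, Finset.card_insert_of_notMem ha]
    refine (InW.mul_RMUL hmul (h a (Finset.mem_insert_self a s))
      (ih fun i hi => h i (Finset.mem_insert_of_mem hi))).mono_RMUL ?_
    have : (s.card + 1) * (c + c₀) = s.card * (c + c₀) + (c + c₀) := by ring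
    omega

theorem InW.pow_RMUL {c₀ : ℕ} (hmul : ∀ j j', InW w c₀ (w j * w j'))
    (hone : InW w c₀ (1 : Om F)) {c : ℕ} {x : Om F} (hx : InW w c x) (k : ℕ) :
    InW w (c₀ + k * (c + c₀)) (x ^ k) := by
  have h := InW.prod_RMUL hmul hone (Finset.range k) (fun _ => x) (fun _ _ => hx)
  simpa using h

variable {I : Type} [Fintype I]

theorem rv_zero_RMUL (ρ : I → Om F) : rv ρ (0 : I → ZMod 2) = 1 := by
  unfold rv
  simp

theorem rv_mul_RMUL (ρ α : I → Om F) (h : ∀ x, ρ x ^ 2 = α x) (v v' : I → ZMod 2) :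
    rv ρ v * rv ρ v' = (∏ x, α x ^ ((v x).val * (v' x).val)) * rv ρ (v + v') := by
  unfold rv
  rw [← Finset.prod_mul_distrib, ← Finset.prod_mul_distrib]
  apply Finset.prod_congr rfl
  intro x _
  rw [Pi.add_apply, ← h x]
  have key : ∀ r : Om F, ∀ u u' : ZMod 2,
      r ^ u.val * r ^ u'.val = (r ^ 2) ^ (u.val * u'.val) * r ^ (u + u').val := by
    intro r u u'
    have h2 : ∀ t : ZMod 2, t = 0 ∨ t = 1 := by decide
    rcases h2 u with hu | hu <;> rcases h2 u' with hu' | hu' <;> subst hu <;> subst hu'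
    · simp
    · simp [ZMod.val_one]
    · simp [ZMod.val_one]
    · have h3 : (1 + 1 : ZMod 2) = 0 := by decide
      rw [h3]
      simp [ZMod.val_one]
      ring
  exact key _ _ _

theorem InW.toInV_RMUL {ρ : I → Om F} {W : Submodule (ZMod 2) (I → ZMod 2)} [Fintype W]
    {c : ℕ} {x : Om F} (hx : InW w c x) {v : I → ZMod 2} (hv : v ∈ W) :
    InV w ρ W c (x * rv ρ v) := by
  classical
  obtain ⟨p, hp, hx⟩ := hx
  refine ⟨fun jv => if jv.2 = ⟨v, hv⟩ then p jv.1 else 0, ?_, ?_⟩
  · intro jv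
    by_cases h : jv.2 = ⟨v, hv⟩
    · simpa [h] using hp jv.1
    · simp [h]
  · rw [hx, Finset.sum_mul, Fintype.sum_prod_type]
    apply Finset.sum_congr rfl
    intro j _
    rw [Finset.sum_eq_single (⟨v, hv⟩ : W)]
    · simp
      ring
    · intro b _ hb
      simp [hb]
    · intro h
      exact absurd (Finset.mem_univ _) h

end RMUL

theorem bRMUL : StRMUL := by
  intro F _ ι _ g θ J _ w c₀ hB i₀ N₀
  set K₁ : ℕ := c₀ + (2 * g i₀ + 1) * (c₀ + c₀) with hK₁
  refine ⟨3 * c₀ + N₀ * (1 + K₁ + c₀) + 1 + K₁, ?_⟩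
  intro a I _ z pm ρ W _ c hK hI
  have hmul := hB.mul
  have hone := hB.one
  set B : ℕ := (3 * c₀ + N₀ * (1 + K₁ + c₀) + 1 + K₁) * (c + 1) with hBdef
  -- numerical bounds
  have hcK : c₀ ≤ K₁ := by rw [hK₁]; omega
  have hb1 : c + K₁ ≤ B := by
    rw [hBdef]
    nlinarith [Nat.zero_le (3 * c₀ + N₀ * (1 + K₁ + c₀)), Nat.zero_le (K₁ * c),
      Nat.zero_le ((3 * c₀ + N₀ * (1 + K₁ + c₀)) * (c + 1))]
  have hb0 : c₀ ≤ B := by omega
  have hb2 : c₀ + (c₀ + N₀ * (c + K₁ + c₀)) + c₀ ≤ B := by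
    rw [hBdef]
    nlinarith [Nat.zero_le (c₀ * c), Nat.zero_le (N₀ * ((K₁ + c₀) * c)), Nat.zero_le (N₀ * c),
      Nat.zero_le ((1 + K₁) * (c + 1))]
  -- the values
  have hev : ∀ b, InW w (c + K₁) (ev a (θ i₀ b)) := by
    intro b
    unfold ev
    rw [eval₂_eq_sum_range]
    apply InW.sum_RMUL
    intro e he
    rw [Finset.mem_range] at he
    have hdeg := hK.deg
    have h1 := InW.pow_RMUL hmul hone (hB.root i₀ b) e
    have h2 : InW w K₁ (θ i₀ b ^ e) := by
      apply h1.mono_RMUL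
      rw [hK₁]
      have h3 : e ≤ 2 * g i₀ + 1 := by omega
      have h4 : e * (c₀ + c₀) ≤ (2 * g i₀ + 1) * (c₀ + c₀) := Nat.mul_le_mul_right _ h3
      omega
    exact (h2.smul_RMUL (hK.coef e)).mono_RMUL (by omega)
  have hprod : ∀ v v' : I → ZMod 2, InW w (c₀ + N₀ * (c + K₁ + c₀))
      (∏ x, ev a (θ i₀ (z x)) ^ ((v x).val * (v' x).val)) := by
    intro v v'
    have h1 : ∀ x ∈ (Finset.univ : Finset I), InW w (c + K₁)
        (ev a (θ i₀ (z x)) ^ ((v x).val * (v' x).val)) := by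
      intro x _
      have h2 : ∀ t : ZMod 2, t = 0 ∨ t = 1 := by decide
      rcases h2 (v x) with h | h
      · rw [h]
        simp only [ZMod.val_zero, zero_mul, pow_zero]
        exact hone.mono_RMUL (by omega)
      · rcases h2 (v' x) with h' | h'
        · rw [h']
          simp only [ZMod.val_zero, mul_zero, pow_zero]
          exact hone.mono_RMUL (by omega)
        · rw [h, h']
          have h3 : (1 : ZMod 2).val * (1 : ZMod 2).val = 1 := by decide
          rw [h3, pow_one]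
          exact hev _
    have h4 := InW.prod_RMUL hmul hone Finset.univ _ h1
    apply h4.mono_RMUL
    rw [Finset.card_univ]
    have := Nat.mul_le_mul_right (c + K₁ + c₀) hI
    omega
  have hrv0 := rv_zero_RMUL ρ
  refine ⟨?_, ?_, ?_, ?_, ?_⟩
  · intro j j' v v'
    have e : (w j * rv ρ (v : I → ZMod 2)) * (w j' * rv ρ (v' : I → ZMod 2)) =
        ((w j * w j') * ∏ x, ev a (θ i₀ (z x)) ^
          (((v : I → ZMod 2) x).val * ((v' : I → ZMod 2) x).val)) *
          rv ρ ((v : I → ZMod 2) + (v' : I → ZMod 2)) := by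
      have h := rv_mul_RMUL ρ (fun x => ev a (θ i₀ (z x))) hK.sq v v'
      calc (w j * rv ρ (v : I → ZMod 2)) * (w j' * rv ρ (v' : I → ZMod 2))
          = (w j * w j') * (rv ρ (v : I → ZMod 2) * rv ρ (v' : I → ZMod 2)) := by ring
        _ = _ := by rw [h]; ring
    rw [e]
    have h5 := InW.mul_RMUL hmul (hmul j j') (hprod v v')
    exact (h5.mono_RMUL hb2).toInV_RMUL (W.add_mem v.2 v'.2)
  · have h := (hone.mono_RMUL hb0).toInV_RMUL (ρ := ρ) W.zero_mem
    rwa [hrv0, mul_one] at h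
  · intro i b
    have h := ((hB.root i b).mono_RMUL hb0).toInV_RMUL (ρ := ρ) W.zero_mem
    rwa [hrv0, mul_one] at h
  · intro b
    have h := ((hev b).mono_RMUL hb1).toInV_RMUL (ρ := ρ) W.zero_mem
    rwa [hrv0, mul_one] at h
  · intro v hv
    have h := (hone.mono_RMUL hb0).toInV_RMUL (ρ := ρ) hv
    rwa [one_mul] at h

end Pool.Agent.Helper54.GT
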