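import Pool.Agent.Helper54.GT.StB
import Pool.Agent.Helper54.GT.A_RT

set_option autoImplicit false

namespace Pool.Agent.Helper54.GT

open Polynomial Module Finset Filter Topology
open Pool.Agent.Helper54.PT (Prm prm)
open Pool.Agent.Helper3.HY (fK RR LL kp red TType)
open Pool.Agent.Helper3.GT (Gd GdF HypF facs TyI TyT Rp GeoSn StFAC StA1 StA1p StA2)

/-- Numbering the roots. -/
private theorem order_TP {K : Type} [Field K] [IsAlgClosed K] (h : K[X]) (hm : h.Monic) (n : ℕ)
    (hn : h.natDegree = n) : ∃ τ : Fin n → K, h = ∏ b, (X - C (τ b)) := by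
  obtain ⟨l, hl⟩ : ∃ l : List K, (l : Multiset K) = h.roots := Quot.exists_rep _
  have hsp : h.Splits := IsAlgClosed.splits h
  have hlen : l.length = n := by
    rw [← hn, hsp.natDegree_eq_card_roots, ← hl, Multiset.coe_card]
  have hprod : h = (l.map fun x => X - C x).prod := by
    have h1 := hsp.eq_prod_roots
    rw [hm.leadingCoeff, C_1, one_mul, ← hl, Multiset.map_coe, Multiset.prod_coe] at h1
    exact h1
  have key : ∀ m, m = l.length → ∃ τ : Fin m → K, h = ∏ b, (X - C (τ b)) := by
    rintro _ rfl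
    refine ⟨l.get, ?_⟩
    rw [← List.prod_ofFn, hprod]
    congr 1
    conv_lhs => rw [← List.ofFn_get l, List.map_ofFn]
    rfl
  exact key n hlen.symm

/-- Two numberings of the same distinct roots differ by a permutation. -/
private theorem perm_TP {K : Type} [Field K] {n : ℕ} (τ τ' : Fin n → K)
    (h : ∏ b, (X - C (τ b)) = ∏ b, (X - C (τ' b))) (hτ' : Function.Injective τ') :
    ∃ σ : Equiv.Perm (Fin n), ∀ b, τ' b = τ (σ b) := by
  have h1 : ∀ b, ∃ b', τ' b = τ b' := by
    intro b
    have h2 : (∏ b, (X - C (τ b))).eval (τ' b) = 0 := by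
      rw [h, eval_prod]
      exact Finset.prod_eq_zero (mem_univ b) (by rw [eval_sub, eval_X, eval_C, sub_self])
    rw [eval_prod, Finset.prod_eq_zero_iff] at h2
    obtain ⟨b', -, hb'⟩ := h2
    rw [eval_sub, eval_X, eval_C, sub_eq_zero] at hb'
    exact ⟨b', hb'⟩
  choose s hs using h1
  have hinj : Function.Injective s := by
    intro a b hab
    apply hτ'
    rw [hs a, hs b, hab]
  exact ⟨Equiv.ofBijective s (Finite.injective_iff_bijective.1 hinj), fun b => hs b⟩

theorem bTP (h1 : StDSC) : StTP := by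
  intro F _ _ hF ι _ g f hm hd k P hk hP t ht
  have hdvd : ∀ x : F[X], et t x = 0 ↔ P.1 ∣ x := by
    intro x
    constructor
    · intro hx
      rw [eq_mp_RT ht]
      exact minpoly.dvd F t hx
    · rintro ⟨y, rfl⟩
      rw [map_mul, ht, zero_mul]
  have hinj : ∀ (i : ι) (τ : Fin (2 * g i + 1) → kk F), (f i).map (et t) = ∏ b, (X - C (τ b)) →
      (Function.Injective τ ↔ Gd (f i) P) := by
    intro i τ hτ
    rw [← Matrix.det_vandermonde_ne_zero_iff, Gd, ← hdvd, not_iff_not]
    have h2 := h1 F (f i) (kk F) (et t) (2 * g i + 1) τ (hm i) (hd i) hτ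
    constructor
    · intro h3
      rw [h3] at h2
      rcases h2 with h2 | h2
      · rw [← h2]; ring
      · rw [← neg_eq_zero, ← h2]; ring
    · intro h3
      rw [h3, neg_zero, or_self] at h2
      exact pow_eq_zero_iff two_ne_zero |>.1 h2
  have hmt : ∀ i, ((f i).map (et t)).Monic := fun i => (hm i).map _
  have hdt : ∀ i, ((f i).map (et t)).natDegree = 2 * g i + 1 := fun i => by
    rw [(hm i).natDegree_map, hd i]
  constructor
  · intro hG
    choose τ₀ hτ₀ using fun i => order_TP ((f i).map (et t)) (hmt i) (2 * g i + 1) (hdt i)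
    have hτinj : ∀ i, Function.Injective (τ₀ i) := fun i => (hinj i (τ₀ i) (hτ₀ i)).2 (hG i)
    have himg : {τ : ∀ i, Fin (2 * g i + 1) → kk F |
        (∀ i, (f i).map (et t) = ∏ b, (X - C (τ i b))) ∧ ∀ i, Function.Injective (τ i)} =
        (fun σ : ∀ i, Equiv.Perm (Fin (2 * g i + 1)) =>
          (fun i b => τ₀ i (σ i b) : ∀ i, Fin (2 * g i + 1) → kk F)) '' Set.univ := by
      ext τ
      constructor
      · rintro ⟨ha, hb⟩
        choose σ hσ using fun i => perm_TP (τ₀ i) (τ i) ((hτ₀ i).symm.trans (ha i)) (hb i)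
        exact ⟨σ, Set.mem_univ _, funext fun i => funext fun b => (hσ i b).symm⟩
      · rintro ⟨σ, -, rfl⟩
        refine ⟨fun i => ?_, fun i => (hτinj i).comp (σ i).injective⟩
        rw [hτ₀ i]
        exact (Equiv.prod_comp (σ i) (fun b => X - C (τ₀ i b))).symm
    have hinj2 : Function.Injective (fun σ : ∀ i, Equiv.Perm (Fin (2 * g i + 1)) =>
          (fun i b => τ₀ i (σ i b) : ∀ i, Fin (2 * g i + 1) → kk F)) := by
      intro σ σ' h
      funext i
      ext b
      have h3 := congrFun (congrFun h i) b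
      exact congrArg Fin.val (hτinj i h3)
    rw [himg, Set.ncard_image_of_injective _ hinj2, Set.ncard_univ, Nat.card_pi]
    refine Finset.prod_congr rfl fun i _ => ?_
    rw [Nat.card_perm, Nat.card_eq_fintype_card, Fintype.card_fin]
  · intro τ hτ hi
    refine ⟨fun i => (hinj i (τ i) (hτ i)).1 (hi i), ?_⟩
    have htQ : t ^ Fintype.card F ^ k = t := ((aRT F k hk).1 P hP).2 t ht |>.1
    obtain ⟨φ, hφ⟩ : ∃ φ : kk F →ₐ[F] kk F, ∀ z, φ z = z ^ Fintype.card F ^ k :=
      ⟨FiniteField.frobeniusAlgHom F (kk F) ^ k, fun z => by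
        rw [AlgHom.coe_pow, FiniteField.coe_frobeniusAlgHom, pow_iterate]⟩
    have hfix : ∀ x : F[X], φ (et t x) = et t x := by
      intro x
      rw [et_eq_aeval_RT, ← aeval_algHom_apply, hφ t, htQ]
    have hperm : ∀ i, ∃ σ : Equiv.Perm (Fin (2 * g i + 1)), ∀ b,
        τ i b ^ Fintype.card F ^ k = τ i (σ b) := by
      intro i
      have h3 : ((f i).map (et t)).map (φ : kk F →+* kk F) = (f i).map (et t) := by
        rw [Polynomial.map_map]
        congr 1
        exact RingHom.ext hfix
      have h4 : ∏ b, (X - C (τ i b)) = ∏ b, (X - C (φ (τ i b))) := by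
        have h5 := h3
        rw [hτ i, Polynomial.map_prod] at h5
        rw [← h5]
        refine Finset.prod_congr rfl fun b _ => ?_
        rw [Polynomial.map_sub, map_X, map_C]
        rfl
      obtain ⟨σ, hσ⟩ := perm_TP (τ i) (fun b => φ (τ i b)) h4
        (φ.toRingHom.injective.comp (hi i))
      exact ⟨σ, fun b => by rw [← hφ]; exact hσ b⟩
    choose σ hσ using hperm
    exact ⟨σ, htQ, hτ, hi, hσ⟩

end Pool.Agent.Helper54.GT
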