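import Pool.Agent.Helper54.GT.StB

/-!
# GT, part B: from points of the order to tuples (YR)
-/

set_option autoImplicit false

namespace Pool.Agent.Helper54.GT

open Polynomial Module Finset Filter Topology
open Pool.Agent.Helper54.PT (Prm prm)
open Pool.Agent.Helper3.HY (fK RR LL kp red TType)
open Pool.Agent.Helper3.GT (Gd GdF HypF facs TyI TyT Rp GeoSn StFAC StA1 StA1p StA2)

/-! ### sizes -/

lemma PolyLE_mono_YR {F k : Type} [Field F] [Field k] [Algebra F k] {c c' : ℕ} (h : c ≤ c')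
    {p : k[X]} (hp : p ∈ PolyLE F k c) : p ∈ PolyLE F k c' := by
  obtain ⟨q, hq, rfl⟩ := hp
  exact ⟨q, hq.trans h, rfl⟩

lemma PolyLE_deg_YR {F k : Type} [Field F] [Field k] [Algebra F k] {c : ℕ}
    {p : k[X]} (hp : p ∈ PolyLE F k c) : p.natDegree ≤ c := by
  obtain ⟨q, hq, rfl⟩ := hp
  exact (natDegree_map_le).trans hq

lemma Dat_mono_YR {F k R ι Γ : Type} [Field F] [Field k] [Algebra F k] [CommRing R]
    [Algebra k[X] R] [Fintype ι] [Fintype Γ] [Group Γ]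
    {ω : Basis ι k[X] R} {act : Γ →* (R ≃ₐ[k[X]] R)} {c c' : ℕ} (h : c ≤ c')
    (hd : Dat F ω act c) : Dat F ω act c' where
  mul i j l := PolyLE_mono_YR h (hd.mul i j l)
  one l := PolyLE_mono_YR h (hd.one l)
  gal γ i l := PolyLE_mono_YR h (hd.gal γ i l)
  inj := hd.inj
  card := hd.card

lemma Sz_prod_YR (h3 : StSz) {F k R ι Γ : Type} [Field F] [Field k] [Algebra F k] [CommRing R]
    [Algebra k R] [Algebra k[X] R] [IsScalarTower k k[X] R] [Fintype ι] [Fintype Γ] [Group Γ]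
    {ω : Basis ι k[X] R} {act : Γ →* (R ≃ₐ[k[X]] R)} {D : ℕ} (hd : Dat F ω act D)
    {κ : Type} (S : Finset κ) (x : κ → R) (m : ℕ) (hx : ∀ i ∈ S, x i ∈ Sz ω m) :
    ∏ i ∈ S, x i ∈ Sz ω (S.card * (m + D) + D) := by
  classical
  obtain ⟨-, -, -, hmul, -, -, -, -, -⟩ := h3 F k R ι Γ ω act D hd
  induction S using Finset.induction_on with
  | empty =>
    rw [Finset.prod_empty, Finset.card_empty, zero_mul, zero_add]
    intro l
    exact PolyLE_deg_YR (hd.one l)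
  | insert i S hi ih =>
    rw [Finset.prod_insert hi, Finset.card_insert_of_notMem hi]
    have h4 := hmul _ _ _ _ (hx i (Finset.mem_insert_self i S))
      (ih fun j hj => hx j (Finset.mem_insert_of_mem hj))
    have h5 : m + (S.card * (m + D) + D) + D = (S.card + 1) * (m + D) + D := by ring
    rw [h5] at h4
    exact h4

/-! ### elements of the order -/

section elements

variable {F : Type} [Field F] {ι : Type} {g : ι → ℕ} (θ : ∀ i, Fin (2 * g i + 1) → Om F)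
  {I : Type} [Fintype I] (ρ : I → Om F) (W : Submodule (ZMod 2) (I → ZMod 2))

/-- The roots in the order. -/
noncomputable def thR_YR (i : ι) (b : Fin (2 * g i + 1)) : Rg θ ρ W :=
  ⟨θ i b, Algebra.subset_adjoin (Or.inl ⟨i, b, rfl⟩)⟩

/-- The products of square roots in the order. -/
noncomputable def rvR_YR (v : I → ZMod 2) (hv : v ∈ W) : Rg θ ρ W :=
  ⟨rv ρ v, Algebra.subset_adjoin (Or.inr ⟨v, hv, rfl⟩)⟩

/-- `F[X]` in the order. -/
noncomputable def emR_YR : F[X] →+* Rg θ ρ W :=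
  (algebraMap (kk F)[X] (Rg θ ρ W)).comp (mapRingHom (algebraMap F (kk F)))

/-- Values of `a` at the roots in the order. -/
noncomputable def evR_YR (a : F[X][X]) (i₀ : ι) (b : Fin (2 * g i₀ + 1)) : Rg θ ρ W :=
  a.eval₂ (emR_YR θ ρ W) (thR_YR θ ρ W i₀ b)

lemma coe_emR_YR (p : F[X]) : ((emR_YR θ ρ W p : Rg θ ρ W) : Om F) = em F p := rfl

lemma coe_evR_YR (a : F[X][X]) (i₀ : ι) (b : Fin (2 * g i₀ + 1)) :
    ((evR_YR θ ρ W a i₀ b : Rg θ ρ W) : Om F) = ev a (θ i₀ b) := by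
  have h := Polynomial.hom_eval₂ a (emR_YR θ ρ W) ((Rg θ ρ W).val : Rg θ ρ W →+* Om F)
    (thR_YR θ ρ W i₀ b)
  exact h

/-- The tuple of a point. -/
noncomputable def TT_YR (y : Rg θ ρ W →ₐ[kk F] kk F) :
    kk F × (∀ i, Fin (2 * g i + 1) → kk F) × ((I → ZMod 2) → kk F) := by
  classical
  exact (y (algebraMap (kk F)[X] (Rg θ ρ W) X), fun i b => y (thR_YR θ ρ W i b),
    fun v => if hv : v ∈ W then y (rvR_YR θ ρ W v hv) else 0)

variable {θ ρ W}

lemma TT_c_YR (y : Rg θ ρ W →ₐ[kk F] kk F) (v : I → ZMod 2) (hv : v ∈ W) :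
    (TT_YR θ ρ W y).2.2 v = y (rvR_YR θ ρ W v hv) := by
  classical
  exact dif_pos hv

lemma TT_c0_YR (y : Rg θ ρ W →ₐ[kk F] kk F) (v : I → ZMod 2) (hv : v ∉ W) :
    (TT_YR θ ρ W y).2.2 v = 0 := by
  classical
  exact dif_neg hv

lemma y_emR_YR (y : Rg θ ρ W →ₐ[kk F] kk F) :
    (y : Rg θ ρ W →+* kk F).comp (emR_YR θ ρ W) =
      et (y (algebraMap (kk F)[X] (Rg θ ρ W) X)) := by
  refine Polynomial.ringHom_ext (fun a => ?_) ?_
  · show y (algebraMap (kk F)[X] (Rg θ ρ W) (mapRingHom (algebraMap F (kk F)) (C a))) = _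
    have h1 : mapRingHom (algebraMap F (kk F)) (C a) =
        algebraMap (kk F) (kk F)[X] (algebraMap F (kk F) a) := by
      rw [coe_mapRingHom, map_C]; rfl
    rw [h1, ← IsScalarTower.algebraMap_apply (kk F) (kk F)[X] (Rg θ ρ W), y.commutes]
    show _ = eval₂ (algebraMap F (kk F)) _ (C a)
    rw [eval₂_C]
    rfl
  · show y (algebraMap (kk F)[X] (Rg θ ρ W) (mapRingHom (algebraMap F (kk F)) X)) = _
    rw [coe_mapRingHom, map_X]
    show _ = eval₂ (algebraMap F (kk F)) _ X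
    rw [eval₂_X]

lemma y_evR_YR (y : Rg θ ρ W →ₐ[kk F] kk F) (a : F[X][X]) (i₀ : ι) (b : Fin (2 * g i₀ + 1)) :
    y (evR_YR θ ρ W a i₀ b) = av (y (algebraMap (kk F)[X] (Rg θ ρ W) X)) a
      (y (thR_YR θ ρ W i₀ b)) := by
  have h := Polynomial.hom_eval₂ a (emR_YR θ ρ W) (y : Rg θ ρ W →+* kk F) (thR_YR θ ρ W i₀ b)
  rw [y_emR_YR] at h
  exact h

lemma y_alg_YR (y y' : Rg θ ρ W →ₐ[kk F] kk F)
    (h : y (algebraMap (kk F)[X] (Rg θ ρ W) X) = y' (algebraMap (kk F)[X] (Rg θ ρ W) X))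
    (p : (kk F)[X]) : y (algebraMap (kk F)[X] (Rg θ ρ W) p) =
      y' (algebraMap (kk F)[X] (Rg θ ρ W) p) := by
  have h1 : (y : Rg θ ρ W →+* kk F).comp (algebraMap (kk F)[X] (Rg θ ρ W)) =
      (y' : Rg θ ρ W →+* kk F).comp (algebraMap (kk F)[X] (Rg θ ρ W)) := by
    refine Polynomial.ringHom_ext (fun a => ?_) h
    show y (algebraMap (kk F)[X] (Rg θ ρ W) (algebraMap (kk F) (kk F)[X] a)) =
      y' (algebraMap (kk F)[X] (Rg θ ρ W) (algebraMap (kk F) (kk F)[X] a))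
    rw [← IsScalarTower.algebraMap_apply (kk F) (kk F)[X] (Rg θ ρ W), y.commutes, y'.commutes]
  exact congrArg (fun φ => φ p) h1

lemma TT_inj_YR : Function.Injective (TT_YR θ ρ W) := by
  intro y y' h
  have h1 : y (algebraMap (kk F)[X] (Rg θ ρ W) X) = y' (algebraMap (kk F)[X] (Rg θ ρ W) X) :=
    congrArg Prod.fst h
  have h2 : ∀ i b, y (thR_YR θ ρ W i b) = y' (thR_YR θ ρ W i b) := fun i b =>
    congrArg (fun t => t.2.1 i b) h
  have h3 : ∀ v hv, y (rvR_YR θ ρ W v hv) = y' (rvR_YR θ ρ W v hv) := fun v hv => by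
    rw [← TT_c_YR y v hv, ← TT_c_YR y' v hv, h]
  have h4 : ∀ (x : Om F) (hx : x ∈ Rg θ ρ W), y ⟨x, hx⟩ = y' ⟨x, hx⟩ := by
    intro x hx
    induction hx using Algebra.adjoin_induction with
    | mem x hx =>
      rcases hx with ⟨i, b, rfl⟩ | ⟨v, hv, rfl⟩
      · exact h2 i b
      · exact h3 v hv
    | algebraMap r => exact y_alg_YR y y' h1 r
    | add a b ha hb e1 e2 =>
      have e3 : (⟨a + b, add_mem ha hb⟩ : Rg θ ρ W) = ⟨a, ha⟩ + ⟨b, hb⟩ := rfl
      rw [e3, map_add, map_add, e1, e2]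
    | mul a b ha hb e1 e2 =>
      have e3 : (⟨a * b, mul_mem ha hb⟩ : Rg θ ρ W) = ⟨a, ha⟩ * ⟨b, hb⟩ := rfl
      rw [e3, map_mul, map_mul, e1, e2]
  exact AlgHom.ext fun x => h4 x.1 x.2

end elements

/-! ### Frobenius -/

lemma frob_YR (F : Type) [Field F] [Fintype F] (e : ℕ) :
    ∃ φ : kk F →ₐ[F] kk F, ∀ x, φ x = x ^ Fintype.card F ^ e := by
  induction e with
  | zero => exact ⟨AlgHom.id F (kk F), fun x => by simp⟩
  | succ e ih =>
    obtain ⟨φ, hφ⟩ := ih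
    refine ⟨(FiniteField.frobeniusAlgHom F (kk F)).comp φ, fun x => ?_⟩
    rw [AlgHom.comp_apply, hφ, FiniteField.coe_frobeniusAlgHom]
    show (x ^ Fintype.card F ^ e) ^ Fintype.card F = _
    rw [← pow_mul, pow_succ]

lemma zm2_YR (a : ZMod 2) : a = 0 ∨ a = 1 := by
  fin_cases a
  · left; rfl
  · right; rfl

lemma pow_YR {R : Type} [CommRing R] (r : R) (a b : ZMod 2) :
    r ^ a.val * r ^ b.val = (r ^ 2) ^ (a.val * b.val) * r ^ (a + b).val := by
  rcases zm2_YR a with rfl | rfl <;> rcases zm2_YR b with rfl | rfl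
  · simp
  · simp
  · simp
  · have h1 : (1 : ZMod 2).val = 1 := rfl
    have h2 : ((1 : ZMod 2) + 1).val = 0 := rfl
    rw [h1, h2]
    ring

lemma rv_mul_YR {F : Type} [Field F] {I : Type} [Fintype I] (ρ : I → Om F) (v u : I → ZMod 2) :
    rv ρ v * rv ρ u = (∏ x, (ρ x ^ 2) ^ ((v x).val * (u x).val)) * rv ρ (v + u) := by
  unfold rv
  rw [← Finset.prod_mul_distrib, ← Finset.prod_mul_distrib]
  apply Finset.prod_congr rfl
  intro x _
  exact pow_YR (ρ x) (v x) (u x)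

/-! ### The theorem -/

section main

variable {F : Type} [Field F] {ι : Type} [Fintype ι] {g : ι → ℕ}
  {θ : ∀ i, Fin (2 * g i + 1) → Om F} {i₀ : ι} {a : F[X][X]} {I : Type} [Fintype I]
  {z : I → Fin (2 * g i₀ + 1)} {pm : (∀ i, Equiv.Perm (Fin (2 * g i + 1))) → Equiv.Perm I}
  {ρ : I → Om F} {W : Submodule (ZMod 2) (I → ZMod 2)}

/-- The element `Φ`. -/
noncomputable def Phi_YR (θ : ∀ i, Fin (2 * g i + 1) → Om F) (i₀ : ι) (a : F[X][X])
    (z : I → Fin (2 * g i₀ + 1)) (ρ : I → Om F) (W : Submodule (ZMod 2) (I → ZMod 2)) :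
    Rg θ ρ W :=
  (∏ i, ∏ p ∈ (univ : Finset (Fin (2 * g i + 1))).offDiag,
    (thR_YR θ ρ W i p.1 - thR_YR θ ρ W i p.2)) * ∏ x, evR_YR θ ρ W a i₀ (z x)

lemma Phi_ne_YR {c : ℕ} (hθ : ∀ i, Function.Injective (θ i)) (K : KDat θ i₀ a z pm ρ W c) :
    Phi_YR θ i₀ a z ρ W ≠ 0 := by
  unfold Phi_YR
  refine mul_ne_zero ?_ ?_
  · refine Finset.prod_ne_zero_iff.2 fun i _ => Finset.prod_ne_zero_iff.2 fun p hp => ?_
    rw [Finset.mem_offDiag] at hp
    intro h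
    apply hp.2.2
    apply hθ i
    have h1 := congrArg (fun t : Rg θ ρ W => (t : Om F)) h
    exact sub_eq_zero.1 h1
  · refine Finset.prod_ne_zero_iff.2 fun x _ => ?_
    intro h
    apply K.ne x
    rw [← coe_evR_YR θ ρ W, h]
    rfl

lemma tup_YR {f : ι → F[X][X]} {c : ℕ} (hR : Rts g f θ) (K : KDat θ i₀ a z pm ρ W c)
    (y : Rg θ ρ W →ₐ[kk F] kk F) (hy : y (Phi_YR θ i₀ a z ρ W) ≠ 0) :
    TT_YR θ ρ W y ∈ Tup f i₀ a z W := by
  unfold Phi_YR at hy
  rw [map_mul, map_prod, map_prod] at hy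
  have hy1 := left_ne_zero_of_mul hy
  have hy2 := right_ne_zero_of_mul hy
  rw [Finset.prod_ne_zero_iff] at hy1 hy2
  refine ⟨fun i => ?_, fun i => ?_, fun x => ?_, fun v hv => TT_c0_YR y v hv, ?_, ?_⟩
  · have h1 : (f i).map (emR_YR θ ρ W) = ∏ b, (X - C (thR_YR θ ρ W i b)) := by
      apply Polynomial.map_injective ((Rg θ ρ W).val : Rg θ ρ W →+* Om F) Subtype.val_injective
      rw [Polynomial.map_map, Polynomial.map_prod]
      have h2 : ((Rg θ ρ W).val : Rg θ ρ W →+* Om F).comp (emR_YR θ ρ W) = em F := rfl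
      rw [h2, hR.fac i]
      refine Finset.prod_congr rfl fun b _ => ?_
      rw [Polynomial.map_sub, map_X, map_C]
      rfl
    have h3 := congrArg (Polynomial.map (y : Rg θ ρ W →+* kk F)) h1
    rw [Polynomial.map_map, y_emR_YR, Polynomial.map_prod] at h3
    refine h3.trans (Finset.prod_congr rfl fun b _ => ?_)
    rw [Polynomial.map_sub, map_X, map_C]
    rfl
  · intro b b' hb
    by_contra hne
    have h1 := hy1 i (Finset.mem_univ i)
    rw [map_prod, Finset.prod_ne_zero_iff] at h1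
    apply h1 (b, b') (by rw [Finset.mem_offDiag]; exact ⟨mem_univ _, mem_univ _, hne⟩)
    rw [map_sub]
    exact sub_eq_zero.2 hb
  · have h1 := hy2 x (Finset.mem_univ x)
    rw [y_evR_YR] at h1
    exact h1
  · rw [TT_c_YR y 0 W.zero_mem]
    have h1 : rvR_YR θ ρ W 0 W.zero_mem = 1 := by
      apply Subtype.ext
      show rv ρ 0 = 1
      simp [rv]
    rw [h1, map_one]
  · intro v hv v' hv'
    rw [TT_c_YR y v hv, TT_c_YR y v' hv', TT_c_YR y (v + v') (W.add_mem hv hv'), ← map_mul]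
    have h1 : rvR_YR θ ρ W v hv * rvR_YR θ ρ W v' hv' =
        (∏ x, evR_YR θ ρ W a i₀ (z x) ^ ((v x).val * (v' x).val)) *
          rvR_YR θ ρ W (v + v') (W.add_mem hv hv') := by
      apply Subtype.ext
      push_cast
      show rv ρ v * rv ρ v' = _ * rv ρ (v + v')
      rw [rv_mul_YR]
      congr 1
      refine Finset.prod_congr rfl fun x _ => ?_
      rw [K.sq x, coe_evR_YR]
    rw [h1, map_mul, map_prod]
    congr 1
    refine Finset.prod_congr rfl fun x _ => ?_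
    rw [map_pow, y_evR_YR]
    rfl

end main

section frob

variable {F : Type} [Field F] [Fintype F] {ι : Type} {g : ι → ℕ}
  {θ : ∀ i, Fin (2 * g i + 1) → Om F} {I : Type} [Fintype I]
  {ρ : I → Om F} {W : Submodule (ZMod 2) (I → ZMod 2)}

lemma frobR_YR {J : Type} [Fintype J] {w : J → Om F} [Fintype W]
    (ω : Basis (J × W) (kk F)[X] (Rg θ ρ W))
    (hω : ∀ jv, (ω jv : Om F) = w jv.1 * rv ρ (jv.2 : I → ZMod 2))
    (γ : Rg θ ρ W ≃ₐ[(kk F)[X]] Rg θ ρ W) (e : ℕ) (y : Rg θ ρ W →ₐ[kk F] kk F)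
    (hy : y ∈ Pts F ω (MonoidHom.id (Rg θ ρ W ≃ₐ[(kk F)[X]] Rg θ ρ W)) γ e)
    (x : Rg θ ρ W) (c : ℕ) (hx : InV w ρ W c (x : Om F)) :
    y x ^ Fintype.card F ^ e = y (γ x) := by
  obtain ⟨φ, hφ⟩ := frob_YR F e
  obtain ⟨p, -, hp⟩ := hx
  have h1 : x = ∑ jv, emR_YR θ ρ W (p jv) * ω jv := by
    apply Subtype.ext
    rw [hp]
    push_cast
    refine Finset.sum_congr rfl fun jv _ => ?_
    rw [hω, coe_emR_YR]
  have h2 : (φ : kk F →+* kk F).comp (et (y (algebraMap (kk F)[X] (Rg θ ρ W) X))) =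
      et (y (algebraMap (kk F)[X] (Rg θ ρ W) X)) := by
    refine Polynomial.ringHom_ext (fun b => ?_) ?_
    · show φ (eval₂ (algebraMap F (kk F)) _ (C b)) = eval₂ (algebraMap F (kk F)) _ (C b)
      rw [eval₂_C, φ.commutes]
    · show φ (eval₂ (algebraMap F (kk F)) _ X) = eval₂ (algebraMap F (kk F)) _ X
      rw [eval₂_X, hφ]
      exact hy.1
  rw [← hφ, h1, map_sum, map_sum, map_sum, map_sum]
  refine Finset.sum_congr rfl fun jv _ => ?_
  rw [map_mul, map_mul, map_mul, map_mul]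
  congr 1
  · have h3 := congrArg (fun ψ => ψ (p jv)) h2
    have h4 : y (emR_YR θ ρ W (p jv)) = et (y (algebraMap (kk F)[X] (Rg θ ρ W) X)) (p jv) :=
      congrArg (fun ψ => ψ (p jv)) (y_emR_YR y)
    have h5 : γ (emR_YR θ ρ W (p jv)) = emR_YR θ ρ W (p jv) := γ.commutes _
    rw [h5, h4]
    exact h3
  · rw [hφ]
    exact hy.2 jv

end frob

theorem bYR (h1 : StDAT) (h2 : StRMUL) (h3 : StSz) : StYR := by
  intro F _ _ h20 ι _ g f θ hf hR J _ w c₀ hw i₀ N₀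
  obtain ⟨C₁, hC₁⟩ := h1 F h20 ι g f θ hR J w c₀ hw i₀ N₀
  obtain ⟨C₂, hC₂⟩ := h2 F ι g θ J w c₀ hw i₀ N₀
  set B : ℕ := ∑ i, (2 * g i + 1) * (2 * g i + 1) with hB
  refine ⟨Fintype.card ι * (B * (C₂ + C₁) + 2 * C₁) + C₁ + (N₀ * (C₂ + C₁) + C₁) + C₁, ?_⟩
  intro a I _ z pm ρ W _ _ c K hI
  obtain ⟨ω, hω, hD, hsz⟩ := hC₁ a I z pm ρ W c K hI
  obtain ⟨-, -, ht, he, hr⟩ := hC₂ a I z pm ρ W c K hI
  set D := C₁ * (c + 1) with hDdef
  set m := C₂ * (c + 1) with hm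
  obtain ⟨-, hmono, -, hmul, -, -, -, -, -⟩ := h3 F (kk F) (Rg θ ρ W) (J × W) _ ω _ D hD
  refine ⟨ω, Phi_YR θ i₀ a z ρ W, TT_YR θ ρ W, ?_, Phi_ne_YR hR.inj K, ?_, TT_inj_YR,
    fun y => rfl, fun y hy => tup_YR hR K y hy, ?_⟩
  · refine Dat_mono_YR ?_ hD
    exact Nat.mul_le_mul_right _ (Nat.le_add_left _ _)
  · have p1 : ∀ i, ∏ p ∈ (univ : Finset (Fin (2 * g i + 1))).offDiag,
        (thR_YR θ ρ W i p.1 - thR_YR θ ρ W i p.2) ∈ Sz ω (B * (m + D) + D) := by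
      intro i
      have q1 := Sz_prod_YR h3 hD ((univ : Finset (Fin (2 * g i + 1))).offDiag)
        (fun p => thR_YR θ ρ W i p.1 - thR_YR θ ρ W i p.2) m
        (fun p _ => Submodule.sub_mem _ (hsz m _ (ht i p.1)) (hsz m _ (ht i p.2)))
      refine hmono _ _ ?_ q1
      refine Nat.add_le_add_right (Nat.mul_le_mul_right _ ?_) _
      rw [Finset.offDiag_card, Finset.card_univ, Fintype.card_fin]
      refine (Nat.sub_le _ _).trans ?_
      exact Finset.single_le_sum (f := fun i => (2 * g i + 1) * (2 * g i + 1))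
        (fun _ _ => Nat.zero_le _) (Finset.mem_univ i)
    have p2 := Sz_prod_YR h3 hD (univ : Finset ι) (fun i =>
      ∏ p ∈ (univ : Finset (Fin (2 * g i + 1))).offDiag,
        (thR_YR θ ρ W i p.1 - thR_YR θ ρ W i p.2)) (B * (m + D) + D) (fun i _ => p1 i)
    have p3 := Sz_prod_YR h3 hD (univ : Finset I) (fun x => evR_YR θ ρ W a i₀ (z x)) m
      (fun x _ => hsz m _ (by rw [coe_evR_YR]; exact he (z x)))
    have p4 := hmul _ _ _ _ p2 p3
    refine hmono _ _ ?_ p4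
    rw [Finset.card_univ, Finset.card_univ]
    have q1 : Fintype.card I * (m + D) ≤ N₀ * (m + D) := Nat.mul_le_mul_right _ hI
    have q2 : (Fintype.card ι * (B * (C₂ + C₁) + 2 * C₁) + C₁ + (N₀ * (C₂ + C₁) + C₁) + C₁) *
        (c + 1) = Fintype.card ι * (B * (m + D) + D + D) + D + (N₀ * (m + D) + D) + D := by
      rw [hDdef, hm]; ring
    rw [q2]
    omega
  · intro γ s σ χ hs hInd e y hy hyΦ
    have hst : ∀ v, v ∈ W → (fun x => v (pm σ x)) ∈ W := fun v hv => K.stab σ v hv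
    refine ⟨tup_YR hR K y hyΦ, hy.1, fun i b => ?_, fun v hv => ?_⟩
    · have q1 := frobR_YR ω hω γ e y hy (thR_YR θ ρ W i b) _ (ht i b)
      have q2 : γ (thR_YR θ ρ W i b) = thR_YR θ ρ W i (σ i b) := by
        apply Subtype.ext
        rw [← hs]
        exact hInd.1 i b
      rw [q2] at q1
      exact q1
    · rw [TT_c_YR y _ (hst v hv), TT_c_YR y v hv]
      have q1 := frobR_YR ω hω γ e y hy (rvR_YR θ ρ W _ (hst v hv)) _ (hr _ (hst v hv))
      have q2 : γ (rvR_YR θ ρ W _ (hst v hv)) = (-1) ^ (χ v).val * rvR_YR θ ρ W v hv := by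
        apply Subtype.ext
        rw [← hs]
        exact hInd.2 v hv
      rw [q2, map_mul, map_pow, map_neg, map_one] at q1
      exact q1

end Pool.Agent.Helper54.GT
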