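import Pool.Agent.Helper54.GT.StA

set_option autoImplicit false
noncomputable section
namespace Pool.Agent.Helper54.GT
open Polynomial Finset

theorem aSGN : StSGN := by
  intro n σ
  classical
  let φ : (Fin n → ZMod 2) →+ (Fin n → ZMod 2) :=
    { toFun := fun h b => h b + h (σ b)
      map_zero' := by funext b; simp
      map_add' := by intro x y; funext b; simp only [Pi.add_apply]; ring }
  have h1 : {e : Fin n → ZMod 2 | ∃ h : Fin n → ZMod 2, ∀ b, e b = h b + h (σ b)}.ncard
      = Nat.card φ.range := by
    have : {e : Fin n → ZMod 2 | ∃ h : Fin n → ZMod 2, ∀ b, e b = h b + h (σ b)}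
        = (φ.range : Set (Fin n → ZMod 2)) := by
      ext e
      constructor
      · rintro ⟨h, hh⟩
        exact ⟨h, by funext b; exact (hh b).symm⟩
      · rintro ⟨h, hh⟩
        exact ⟨h, fun b => by rw [← hh]; rfl⟩
    rw [this, ← Nat.card_coe_set_eq]
    rfl
  have h2 : {T : Finset (Fin n) | T.map σ.toEmbedding = T}.ncard = Nat.card φ.ker := by
    rw [← Nat.card_coe_set_eq]
    have hchar : ∀ x : ZMod 2, x + x = 0 := by decide
    have hz : ∀ x : ZMod 2, x = 0 ∨ x = 1 := by decide
    refine Nat.card_congr
      { toFun := fun T => ⟨fun b => if b ∈ T.1 then 1 else 0, ?_⟩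
        invFun := fun h => ⟨univ.filter (fun b => h.1 b ≠ 0), ?_⟩
        left_inv := ?_
        right_inv := ?_ }
    · rw [AddMonoidHom.mem_ker]
      funext b
      have hT := T.2
      simp only [Set.mem_setOf_eq] at hT
      have hb : σ b ∈ T.1 ↔ b ∈ T.1 := by
        conv_lhs => rw [← hT]
        simp
      change (if b ∈ T.1 then (1 : ZMod 2) else 0) + (if σ b ∈ T.1 then 1 else 0) = 0
      by_cases h : b ∈ T.1
      · rw [if_pos h, if_pos (hb.2 h)]; exact hchar 1
      · rw [if_neg h, if_neg (fun h' => h (hb.1 h'))]; exact hchar 0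
    · have hh := h.2
      rw [AddMonoidHom.mem_ker] at hh
      have he : ∀ b, h.1 (σ b) = h.1 b := by
        intro b
        have := congrFun hh b
        change h.1 b + h.1 (σ b) = 0 at this
        have h3 := hchar (h.1 b)
        exact (add_left_cancel (h3.trans this.symm)).symm
      simp only [Set.mem_setOf_eq]
      ext b
      simp only [mem_map, mem_filter, mem_univ, true_and, Equiv.coe_toEmbedding]
      constructor
      · rintro ⟨c, hc, rfl⟩
        rw [he]; exact hc
      · intro hb
        refine ⟨σ.symm b, ?_, by simp⟩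
        have := he (σ.symm b)
        rw [Equiv.apply_symm_apply] at this
        rw [← this]; exact hb
    · intro T
      apply Subtype.ext
      ext b
      simp
    · intro h
      apply Subtype.ext
      funext b
      rcases hz (h.1 b) with hb | hb
      · simp [hb]
      · simp [hb]
  rw [h1, h2]
  have h3 := AddSubgroup.card_mul_index φ.ker
  rw [AddSubgroup.index_ker] at h3
  rw [mul_comm, h3]
  simp

end Pool.Agent.Helper54.GT
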