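import Pool.Agent.Helper54.GT.StB

/-!
# GT, module AUS: every pair is induced
-/

set_option autoImplicit false

namespace Pool.Agent.Helper54.GT

open Polynomial Module Finset Filter Topology
open Pool.Agent.Helper54.PT (Prm prm)
open Pool.Agent.Helper3.HY (fK RR LL kp red TType)
open Pool.Agent.Helper3.GT (Gd GdF HypF facs TyI TyT Rp GeoSn StFAC StA1 StA1p StA2)

section aus

variable {F : Type} [Field F]

private lemma sgn_add_AUS (x y : ZMod 2) :
    ((-1 : Om F)) ^ (x + y).val = (-1) ^ x.val * (-1) ^ y.val := by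
  rw [ZMod.val_add, ← pow_add, ← neg_one_pow_eq_pow_mod_two]

private lemma rv_ne_AUS {I : Type} [Fintype I] {ρ : I → Om F} (h : ∀ x, ρ x ≠ 0)
    (v : I → ZMod 2) : rv ρ v ≠ 0 :=
  prod_ne_zero_iff.2 fun x _ => pow_ne_zero _ (h x)

/-- A character as a linear functional. -/
private def toLin_AUS {I : Type} {W : Submodule (ZMod 2) (I → ZMod 2)}
    {χ : (I → ZMod 2) → ZMod 2} (h : Chr W χ) : Module.Dual (ZMod 2) W :=
  AddMonoidHom.toZModLinearMap 2
    (AddMonoidHom.mk' (fun v : W => χ (v : I → ZMod 2)) fun v w => h v v.2 w w.2)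

private lemma toLin_apply_AUS {I : Type} {W : Submodule (ZMod 2) (I → ZMod 2)}
    {χ : (I → ZMod 2) → ZMod 2} (h : Chr W χ) (v : W) : toLin_AUS h v = χ v := rfl

end aus

theorem bAUS (h2 : StAUI) : StAUS := by
  intro F _ hF ι _ g f θ hR i₀ a I _ z pm ρ W c hK σ χ hχ
  have hρ : ∀ x, ρ x ≠ 0 := fun x h => hK.ne x (by rw [← hK.sq x, h]; ring)
  have hpm1 : pm 1 = 1 := by
    have h := hK.pmul 1 1
    rw [mul_one] at h
    exact mul_eq_left.1 h.symm
  have h2F : (2 : Om F) ≠ 0 := by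
    have h3 := (map_ne_zero_iff _ (algebraMap F (kk F)).injective).2 hF
    rw [map_ofNat] at h3
    have h4 := (map_ne_zero_iff _ (algebraMap (kk F) (KK F)).injective).2 h3
    rw [map_ofNat] at h4
    have h5 := (map_ne_zero_iff _ (algebraMap (KK F) (Om F)).injective).2 h4
    rwa [map_ofNat] at h5
  -- the characters of the automorphisms fixing the roots
  let H : Submodule (ZMod 2) (Module.Dual (ZMod 2) W) :=
    { carrier := {ψ | ∃ s : Om F ≃ₐ[KK F] Om F, (∀ i b, s (θ i b) = θ i b) ∧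
        ∀ v : W, s (rv ρ (v : I → ZMod 2)) = (-1) ^ (ψ v).val * rv ρ (v : I → ZMod 2)}
      add_mem' := by
        rintro ψ ψ' ⟨s, hs1, hs2⟩ ⟨s', hs1', hs2'⟩
        refine ⟨s'.trans s, fun i b => ?_, fun v => ?_⟩
        · rw [AlgEquiv.trans_apply, hs1', hs1]
        · rw [AlgEquiv.trans_apply, hs2', map_mul, map_pow, map_neg, map_one, hs2,
            LinearMap.add_apply, sgn_add_AUS]
          ring
      zero_mem' := ⟨AlgEquiv.refl, fun _ _ => rfl, fun v => by simp⟩
      smul_mem' := by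
        rintro r ψ ⟨s, hs1, hs2⟩
        have hr : r = 0 ∨ r = 1 := by
          revert r; decide
        rcases hr with rfl | rfl
        · exact ⟨AlgEquiv.refl, fun _ _ => rfl, fun v => by simp⟩
        · exact ⟨s, hs1, fun v => by rw [one_smul]; exact hs2 v⟩ }
  have hH : H = ⊤ := by
    have h1 : H.dualCoannihilator = ⊥ := by
      rw [eq_bot_iff]
      intro v hv
      rw [Submodule.mem_bot]
      by_contra hv0
      have hv1 : (v : I → ZMod 2) ≠ 0 := fun h => hv0 (Subtype.ext h)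
      obtain ⟨s, hs1, hs2⟩ := hK.ind v v.2 hv1
      obtain ⟨σ', χ', hχ', hI1, hI2⟩ := h2 F hF ι g f θ hR i₀ a I z pm ρ W c hK s
      have hσ' : σ' = 1 := by
        funext i
        ext b
        have h3 := hI1 i b
        rw [hs1] at h3
        rw [← hR.inj i h3]
        rfl
      subst hσ'
      rw [hpm1] at hI2
      have hmem : toLin_AUS hχ' ∈ H := ⟨s, hs1, fun w => hI2 w w.2⟩
      have h4 := (Submodule.mem_dualCoannihilator v).1 hv _ hmem
      rw [toLin_apply_AUS] at h4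
      have h5 : s (rv ρ (v : I → ZMod 2)) = (-1) ^ (χ' v).val * rv ρ (v : I → ZMod 2) :=
        hI2 v v.2
      rw [h4, hs2, ZMod.val_zero, pow_zero, one_mul] at h5
      have h6 : (2 : Om F) * rv ρ (v : I → ZMod 2) = 0 := by linear_combination -h5
      exact mul_ne_zero h2F (rv_ne_AUS hρ _) h6
    rw [← Subspace.dualCoannihilator_dualAnnihilator_eq (W := H), h1,
      Submodule.dualAnnihilator_bot]
  obtain ⟨s₀, hs₀⟩ := hR.gal σ
  obtain ⟨σ', χ₀, hχ₀, hI1, hI2⟩ := h2 F hF ι g f θ hR i₀ a I z pm ρ W c hK s₀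
  have hσ' : σ' = σ := by
    funext i
    ext b
    have h3 := hI1 i b
    rw [hs₀] at h3
    rw [← hR.inj i h3]
  subst hσ'
  have hmem : toLin_AUS hχ - toLin_AUS hχ₀ ∈ H := hH ▸ Submodule.mem_top
  obtain ⟨s₁, hs1, hs2⟩ := hmem
  refine ⟨s₀.trans s₁, fun i b => ?_, fun v hv => ?_⟩
  · rw [AlgEquiv.trans_apply, hs₀, hs1]
  · rw [AlgEquiv.trans_apply, hI2 v hv, map_mul, map_pow, map_neg, map_one]
    have h3 := hs2 ⟨v, hv⟩
    rw [LinearMap.sub_apply, toLin_apply_AUS, toLin_apply_AUS] at h3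
    change s₁ (rv ρ v) = (-1) ^ (χ v - χ₀ v).val * rv ρ v at h3
    rw [h3, ← mul_assoc, ← sgn_add_AUS, add_sub_cancel]

end Pool.Agent.Helper54.GT
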