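import Pool.Agent.Helper54.GT.StB

/-!
# GT, part B: the number of tuples above `t` (StYT)
-/

set_option autoImplicit false

namespace Pool.Agent.Helper54.GT

open Polynomial Module Finset Filter Topology

/-- The homomorphisms from a finite group (monoid) to a field. -/
private theorem homs_YT (k G : Type) [Field k] [Monoid G] [Fintype G] :
    Finite (G →* k) ∧ Nat.card (G →* k) ≤ Fintype.card G := by
  have h := linearIndependent_monoidHom G k
  have hf : Finite (G →* k) := h.finite_of_isNoetherian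
  refine ⟨hf, ?_⟩
  have := Fintype.ofFinite (G →* k)
  have h2 := h.fintype_card_le_finrank
  rw [finrank_fintype_fun_eq_card] at h2
  rwa [Nat.card_eq_fintype_card]

/-- The orderings of the roots. -/
private theorem orders_YT {k : Type} [Field k] {ι : Type} [Fintype ι] (n : ι → ℕ)
    (h : ι → k[X]) :
    Finite {τ : ∀ i, Fin (n i) → k // (∀ i, h i = ∏ b, (X - C (τ i b))) ∧
      ∀ i, Function.Injective (τ i)} ∧
    Nat.card {τ : ∀ i, Fin (n i) → k // (∀ i, h i = ∏ b, (X - C (τ i b))) ∧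
      ∀ i, Function.Injective (τ i)} ≤ ∏ i, (n i).factorial := by
  classical
  by_cases hne : Nonempty {τ : ∀ i, Fin (n i) → k // (∀ i, h i = ∏ b, (X - C (τ i b))) ∧
      ∀ i, Function.Injective (τ i)}
  swap
  · have := not_nonempty_iff.1 hne
    refine ⟨inferInstance, ?_⟩
    rw [Nat.card_of_isEmpty]
    exact Nat.zero_le _
  obtain ⟨⟨τ₀, h₀, inj₀⟩⟩ := hne
  -- the permutation of `τ`
  have key : ∀ τ : {τ : ∀ i, Fin (n i) → k // (∀ i, h i = ∏ b, (X - C (τ i b))) ∧
      ∀ i, Function.Injective (τ i)}, ∃ σ : ∀ i, Equiv.Perm (Fin (n i)),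
      ∀ i b, τ.1 i b = τ₀ i (σ i b) := by
    rintro ⟨τ, h1, inj1⟩
    have h2 : ∀ i b, ∃ b', τ₀ i b' = τ i b := by
      intro i b
      have h3 : (h i).eval (τ i b) = 0 := by
        rw [h1 i, eval_prod]
        exact Finset.prod_eq_zero (Finset.mem_univ b) (by simp)
      rw [h₀ i, eval_prod, Finset.prod_eq_zero_iff] at h3
      obtain ⟨b', -, h4⟩ := h3
      rw [eval_sub, eval_X, eval_C, sub_eq_zero] at h4
      exact ⟨b', h4.symm⟩
    choose s hs using h2
    have hinj : ∀ i, Function.Injective (s i) := by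
      intro i b b' hb
      apply inj1 i
      rw [← hs, ← hs, hb]
    exact ⟨fun i => Equiv.ofBijective (s i) (Finite.injective_iff_bijective.1 (hinj i)),
      fun i b => (hs i b).symm⟩
  choose σ hσ using key
  have hinj : Function.Injective σ := by
    intro τ τ' e
    apply Subtype.ext
    funext i b
    rw [hσ, hσ, e]
  refine ⟨Finite.of_injective σ hinj, ?_⟩
  refine (Nat.card_le_card_of_injective σ hinj).trans (le_of_eq ?_)
  rw [Nat.card_pi]
  refine Finset.prod_congr rfl fun i _ => ?_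
  rw [Nat.card_perm, Nat.card_fin]

theorem bYT : StYT := by
  intro F _ h2 ι _ g f i₀ a I _ z W _ t
  classical
  obtain ⟨hT1, hT2⟩ := orders_YT (fun i => 2 * g i + 1) (fun i => (f i).map (et t))
  obtain ⟨hH1, hH2⟩ := homs_YT (kk F) (Multiplicative W)
  rw [Fintype.card_multiplicative] at hH2
  set T := {τ : ∀ i, Fin (2 * g i + 1) → kk F // (∀ i, (f i).map (et t) = ∏ b, (X - C (τ i b))) ∧
      ∀ i, Function.Injective (τ i)} with hT
  -- a choice of the square roots
  obtain ⟨c₁, hc₁⟩ : ∃ c₁ : (∀ i, Fin (2 * g i + 1) → kk F) → ((I → ZMod 2) → kk F),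
      ∀ τ c, (t, τ, c) ∈ Tup f i₀ a z W → (t, τ, c₁ τ) ∈ Tup f i₀ a z W := by
    refine ⟨fun τ => if h : ∃ c, (t, τ, c) ∈ Tup f i₀ a z W then h.choose else 0, ?_⟩
    intro τ c hc
    have h : ∃ c, (t, τ, c) ∈ Tup f i₀ a z W := ⟨c, hc⟩
    simp only [dif_pos h]
    exact h.choose_spec
  -- nonvanishing
  have hne : ∀ τ c, (t, τ, c) ∈ Tup f i₀ a z W → ∀ v ∈ W, c v ≠ 0 := by
    rintro τ c ⟨-, -, hav, -, h0, hmul⟩ v hv h
    have h1 := hmul v hv v hv
    have h3 : v + v = 0 := by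
      funext x
      exact CharTwo.add_self_eq_zero (v x)
    simp only at h1 h0 hav
    rw [h3, h0, h, zero_mul, mul_one] at h1
    exact (Finset.prod_ne_zero_iff.2 fun x _ => pow_ne_zero _ (hav x)) h1.symm
  set S : Set (kk F × (∀ i, Fin (2 * g i + 1) → kk F) × ((I → ZMod 2) → kk F)) :=
    {y | y ∈ Tup f i₀ a z W ∧ y.1 = t} with hS
  have hSt : ∀ y ∈ S, (t, y.2.1, y.2.2) ∈ Tup f i₀ a z W := by
    rintro ⟨t', τ, c⟩ ⟨h, rfl⟩
    exact h
  have hmul' : ∀ τ c, (t, τ, c) ∈ Tup f i₀ a z W → ∀ v ∈ W, ∀ v' ∈ W,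
      c v * c v' * (c₁ τ v)⁻¹ * (c₁ τ v')⁻¹ = c (v + v') * (c₁ τ (v + v'))⁻¹ := by
    intro τ c hc v hv v' hv'
    have hc' := hc₁ τ c hc
    have n1 := hne τ _ hc' v hv
    have n2 := hne τ _ hc' v' hv'
    have n3 := hne τ _ hc' (v + v') (W.add_mem hv hv')
    have e1 := hc.2.2.2.2.2 v hv v' hv'
    have e2 := hc'.2.2.2.2.2 v hv v' hv'
    simp only at e1 e2
    have hP : (∏ x, av t a (τ i₀ (z x)) ^ ((v x).val * (v' x).val)) ≠ 0 :=
      Finset.prod_ne_zero_iff.2 fun x _ => pow_ne_zero _ (hc.2.2.1 x)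
    rw [e1, mul_assoc, ← mul_inv, e2, mul_inv, mul_comm (∏ x, av t a (τ i₀ (z x)) ^ _) (c (v + v')),
      mul_assoc, ← mul_assoc (∏ x, av t a (τ i₀ (z x)) ^ _), mul_inv_cancel₀ hP, one_mul]
  let χ : S → (Multiplicative W →* kk F) := fun y =>
    { toFun := fun v => y.1.2.2 (Multiplicative.toAdd v : W) *
        (c₁ y.1.2.1 (Multiplicative.toAdd v : W))⁻¹
      map_one' := by
        have h1 := hSt y.1 y.2
        have e1 := h1.2.2.2.2.1
        have e2 := (hc₁ _ _ h1).2.2.2.2.1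
        simp only at e1 e2
        simp only [toAdd_one, ZeroMemClass.coe_zero, e1, e2, inv_one, mul_one]
      map_mul' := fun v v' => by
        have h1 := hmul' _ _ (hSt y.1 y.2) (Multiplicative.toAdd v : W) (Subtype.mem _)
          (Multiplicative.toAdd v' : W) (Subtype.mem _)
        simp only [toAdd_mul, Submodule.coe_add]
        rw [← h1]
        ring }
  let Ψ : S → T × (Multiplicative W →* kk F) := fun y =>
    (⟨y.1.2.1, (hSt y.1 y.2).1, (hSt y.1 y.2).2.1⟩, χ y)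
  have hΨ : Function.Injective Ψ := by
    intro y y' e
    have e1 : y.1.2.1 = y'.1.2.1 := congrArg (fun p => (p.1).1) e
    have e2 : χ y = χ y' := congrArg Prod.snd e
    apply Subtype.ext
    refine Prod.ext (y.2.2.trans y'.2.2.symm) (Prod.ext e1 ?_)
    funext v
    by_cases hv : v ∈ W
    · have e3 := DFunLike.congr_fun e2 (Multiplicative.ofAdd (⟨v, hv⟩ : W))
      have e4 : y.1.2.2 v * (c₁ y.1.2.1 v)⁻¹ = y'.1.2.2 v * (c₁ y'.1.2.1 v)⁻¹ := e3
      rw [← e1] at e4
      exact mul_right_cancel₀ (inv_ne_zero (hne _ _ (hc₁ _ _ (hSt y.1 y.2)) v hv)) e4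
    · rw [(hSt y.1 y.2).2.2.2.1 v hv, (hSt y'.1 y'.2).2.2.2.1 v hv]
  have hfin : Finite S := Finite.of_injective Ψ hΨ
  refine ⟨Set.toFinite S, ?_⟩
  have h3 := Nat.card_le_card_of_injective Ψ hΨ
  rw [Nat.card_prod] at h3
  exact h3.trans (Nat.mul_le_mul hT2 hH2)

end Pool.Agent.Helper54.GT
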