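import Pool.Agent.Helper54.GT.AllC
import Pool.Agent.Helper54.GT.A_CD
import Pool.Agent.Helper54.GT.A_CHR
import Pool.Agent.Helper54.GT.A_DIV
import Pool.Agent.Helper54.GT.A_DSC
import Pool.Agent.Helper54.GT.A_EB
import Pool.Agent.Helper54.GT.A_FIX
import Pool.Agent.Helper54.GT.A_GAL
import Pool.Agent.Helper54.GT.A_IRB
import Pool.Agent.Helper54.GT.A_KD
import Pool.Agent.Helper54.GT.A_KI
import Pool.Agent.Helper54.GT.A_KIa
import Pool.Agent.Helper54.GT.A_KIb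
import Pool.Agent.Helper54.GT.A_KIc
import Pool.Agent.Helper54.GT.A_LI
import Pool.Agent.Helper54.GT.A_ORD
import Pool.Agent.Helper54.GT.A_PRM
import Pool.Agent.Helper54.GT.A_RT
import Pool.Agent.Helper54.GT.A_SGN
import Pool.Agent.Helper54.GT.A_SPN
import Pool.Agent.Helper54.GT.A_SQM
import Pool.Agent.Helper54.GT.A_UN
import Pool.Agent.Helper54.GT.B_A1
import Pool.Agent.Helper54.GT.B_A1p
import Pool.Agent.Helper54.GT.B_A2
import Pool.Agent.Helper54.GT.B_AUI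
import Pool.Agent.Helper54.GT.B_AUS
import Pool.Agent.Helper54.GT.B_CN0
import Pool.Agent.Helper54.GT.B_CN1
import Pool.Agent.Helper54.GT.B_CN2
import Pool.Agent.Helper54.GT.B_CNT
import Pool.Agent.Helper54.GT.B_DAT
import Pool.Agent.Helper54.GT.B_EXT
import Pool.Agent.Helper54.GT.B_RAUT
import Pool.Agent.Helper54.GT.B_RBS
import Pool.Agent.Helper54.GT.B_RIND
import Pool.Agent.Helper54.GT.B_RMUL
import Pool.Agent.Helper54.GT.B_TP
import Pool.Agent.Helper54.GT.B_YR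
import Pool.Agent.Helper54.GT.B_YT

set_option autoImplicit false
noncomputable section
namespace Pool.Agent.Helper54.GT

theorem dORD : StORD := aORD aSPN aPRM
theorem dAUI : StAUI := bAUI aPRM
theorem dAUS : StAUS := bAUS dAUI
theorem dRIND : StRIND := bRIND aLI
theorem dRBS : StRBS := bRBS dRIND bRMUL
theorem dEXT : StEXT := bEXT aPRM dAUI
theorem dRAUT : StRAUT := bRAUT dEXT dAUI dAUS
theorem dDAT : StDAT := bDAT dRBS bRMUL dRAUT dEXT dAUI
theorem dYR : StYR := bYR dDAT bRMUL cSz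
theorem dCNT : StCNT := bCNT dYR bYT dRAUT dORD cCh cTs cZr
theorem dKD : StKD := aKD aPRM aCHR aFIX aDSC
theorem dKIa : StKIa := aKIa aPRM
theorem dKIb : StKIb := aKIb aPRM aCHR aFIX aDSC
theorem dKIc : StKIc := aKIc aPRM
theorem dKI : StKI := aKI aPRM aIRB aUN dKIa dKIb dKIc aCD
theorem dCN0 : StCN0 := bCN0 dCNT aGAL aRT
theorem dCN1 : StCN1 := bCN1 dCNT aGAL dKI
theorem dCN2 : StCN2 := bCN2 dCNT aGAL dKD
theorem dTP : StTP := bTP aDSC
theorem dA2 : StA2n := bA2 dCN0 dCN2 aRT aEB dTP aDIV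
theorem dA1p (h : Pool.Agent.Helper3.GT.StFAC) : Pool.Agent.Helper3.GT.StA1p := bA1p dCN1 aRT aEB dTP aSQM aDIV aUN h
theorem dA1 (h : Pool.Agent.Helper3.GT.StFAC) (hs : StSGN) : Pool.Agent.Helper3.GT.StA1 := bA1 dCN1 aRT aEB dTP aSQM aDIV hs aUN h

end Pool.Agent.Helper54.GT
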