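import Pool.Agent.Helper54.GT.AllAB
import Pool.Agent.Helper3.GT.M_FAC

set_option autoImplicit false
noncomputable section
namespace Pool.Agent.Helper54.GT
open Pool.Agent.Helper3.GT

theorem eA1 : Pool.Agent.Helper3.GT.StA1 := dA1 hFAC aSGN
theorem eA1p : Pool.Agent.Helper3.GT.StA1p := dA1p hFAC
theorem eA2 : Pool.Agent.Helper3.GT.StA2 := dA2

end Pool.Agent.Helper54.GT
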