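import Pool.Agent.Helper54.GT.StA

/-!
# GT, parts A1, A1p, A2: the Kummer order and the counting of points
-/

set_option autoImplicit false

namespace Pool.Agent.Helper54.GT

open Polynomial Module Finset Filter Topology
open Pool.Agent.Helper54.PT (Prm prm)
open Pool.Agent.Helper3.HY (fK RR LL kp red TType)
open Pool.Agent.Helper3.GT (Gd GdF HypF facs TyI TyT Rp GeoSn StFAC StA1 StA1p StA2)

/-! ### Kummer data -/

section defs

variable {F : Type} [Field F]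

/-- Kummer data: `ρ x` is a square root of `a(θ_(z x))`, `x ∈ I`; `pm` describes the action of the permutations of
the roots on `I`; `W` is a group of subsets of `I` (vectors over `ZMod 2`), stable under the action and
such that the products of the `ρ x` over the nonempty subsets of `W` are not fixed by the stabilizer of the roots. -/
structure KDat {ι : Type} [Fintype ι] {g : ι → ℕ} (θ : ∀ i, Fin (2 * g i + 1) → Om F) (i₀ : ι)
    (a : F[X][X]) {I : Type} [Fintype I] (z : I → Fin (2 * g i₀ + 1))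
    (pm : (∀ i, Equiv.Perm (Fin (2 * g i + 1))) → Equiv.Perm I) (ρ : I → Om F)
    (W : Submodule (ZMod 2) (I → ZMod 2)) (c : ℕ) : Prop where
  deg : a.natDegree ≤ 2 * g i₀ + 1
  coef : ∀ e, (a.coeff e).natDegree ≤ c
  ne : ∀ x, ev a (θ i₀ (z x)) ≠ 0
  sq : ∀ x, ρ x ^ 2 = ev a (θ i₀ (z x))
  pmul : ∀ σ τ, pm (σ * τ) = pm σ * pm τ
  eqv : (∀ σ x, z (pm σ x) = σ i₀ (z x)) ∨ ∃ d, a = C d
  stab : ∀ σ, ∀ v ∈ W, (fun x => v (pm σ x)) ∈ W
  ind : ∀ v ∈ W, v ≠ 0 → ∃ s : Om F ≃ₐ[KK F] Om F, (∀ i b, s (θ i b) = θ i b) ∧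
    s (rv ρ v) = -rv ρ v

/-- A function on `W` which is additive. -/
def Chr {I : Type} (W : Submodule (ZMod 2) (I → ZMod 2)) (χ : (I → ZMod 2) → ZMod 2) : Prop :=
  ∀ v ∈ W, ∀ v' ∈ W, χ (v + v') = χ v + χ v'

/-- The order. -/
noncomputable def Rg {ι : Type} {g : ι → ℕ} (θ : ∀ i, Fin (2 * g i + 1) → Om F) {I : Type}
    [Fintype I] (ρ : I → Om F) (W : Submodule (ZMod 2) (I → ZMod 2)) :
    Subalgebra (kk F)[X] (Om F) :=
  Algebra.adjoin (kk F)[X] ({x | ∃ i b, x = θ i b} ∪ {x | ∃ v ∈ W, x = rv ρ v})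

/-- A combination of the `w j * rv ρ v`, `v ∈ W`, with coefficients in `F[X]` of degree at most `c`. -/
def InV {J I : Type} [Fintype J] [Fintype I] (w : J → Om F) (ρ : I → Om F)
    (W : Submodule (ZMod 2) (I → ZMod 2)) [Fintype W] (c : ℕ) (x : Om F) : Prop :=
  ∃ p : J × W → F[X], (∀ j, (p j).natDegree ≤ c) ∧
    x = ∑ jv, em F (p jv) * (w jv.1 * rv ρ (jv.2 : I → ZMod 2))

/-- `s` induces the permutations `σ` of the roots and the character `χ`. -/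
def Ind {ι : Type} {g : ι → ℕ} (θ : ∀ i, Fin (2 * g i + 1) → Om F) {I : Type} [Fintype I]
    (pm : (∀ i, Equiv.Perm (Fin (2 * g i + 1))) → Equiv.Perm I) (ρ : I → Om F)
    (W : Submodule (ZMod 2) (I → ZMod 2)) (s : Om F → Om F)
    (σ : ∀ i, Equiv.Perm (Fin (2 * g i + 1))) (χ : (I → ZMod 2) → ZMod 2) : Prop :=
  (∀ i b, s (θ i b) = θ i (σ i b)) ∧
    ∀ v ∈ W, s (rv ρ (fun x => v (pm σ x))) = (-1) ^ (χ v).val * rv ρ v

/-- The tuples `(t, τ, c)`: `t` a point of the line, `τ` an ordering of the roots above `t`, `c` a choice of square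
roots of the products of the `a(τ_(z x))` over the subsets in `W`, compatible with products. -/
def Tup {ι : Type} {g : ι → ℕ} (f : ι → F[X][X]) (i₀ : ι) (a : F[X][X]) {I : Type} [Fintype I]
    (z : I → Fin (2 * g i₀ + 1)) (W : Submodule (ZMod 2) (I → ZMod 2)) :
    Set (kk F × (∀ i, Fin (2 * g i + 1) → kk F) × ((I → ZMod 2) → kk F)) :=
  {y | (∀ i, (f i).map (et y.1) = ∏ b, (X - C (y.2.1 i b))) ∧
    (∀ i, Function.Injective (y.2.1 i)) ∧ (∀ x, av y.1 a (y.2.1 i₀ (z x)) ≠ 0) ∧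
    (∀ v, v ∉ W → y.2.2 v = 0) ∧ y.2.2 0 = 1 ∧
    ∀ v ∈ W, ∀ v' ∈ W, y.2.2 v * y.2.2 v' =
      (∏ x, av y.1 a (y.2.1 i₀ (z x)) ^ ((v x).val * (v' x).val)) * y.2.2 (v + v')}

/-- The tuples with Frobenius `(σ, χ)`. -/
def TupF {ι : Type} {g : ι → ℕ} (f : ι → F[X][X]) (i₀ : ι) (a : F[X][X]) {I : Type} [Fintype I]
    (z : I → Fin (2 * g i₀ + 1)) (W : Submodule (ZMod 2) (I → ZMod 2))
    (pm : (∀ i, Equiv.Perm (Fin (2 * g i + 1))) → Equiv.Perm I)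
    (σ : ∀ i, Equiv.Perm (Fin (2 * g i + 1))) (χ : (I → ZMod 2) → ZMod 2) (Q : ℕ) :
    Set (kk F × (∀ i, Fin (2 * g i + 1) → kk F) × ((I → ZMod 2) → kk F)) :=
  {y | y ∈ Tup f i₀ a z W ∧ y.1 ^ Q = y.1 ∧ (∀ i b, y.2.1 i b ^ Q = y.2.1 i (σ i b)) ∧
    ∀ v ∈ W, y.2.2 (fun x => v (pm σ x)) ^ Q = (-1) ^ (χ v).val * y.2.2 v}

end defs

/-! ### The order -/

/-- (AUI) Every automorphism induces permutations and a character.  PROOF.  `σ` from (PRM).  Write `r_v = rv ρ v`, `α_x = ev a (θ i₀ (z x)) = ρ_x^2`.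
By `eqv` and `s (θ i₀ b) = θ i₀ (σ i₀ b)`: `s α_x = α_(pm σ x)` in both cases, so `s (ρ_x) = ± ρ_(pm σ x)` and for `v' = v ∘ pm σ`:
`s(r_v') = ± ∏_x ρ_(pm σ x)^(v (pm σ x)) = ± r_v`.  Let `(-1)^χ(v)` be the sign for `v ∈ W` (`χ v = 0` elsewhere).  Additivity:
`r_v r_u = (∏_x α_x^(v_x u_x)) r_(v+u)` for all vectors `v, u` (values in `ZMod 2`), and the nonzero factor `∏ α_x^(...)` for `v', u'`
is mapped to the one for `v, u`. -/
def StAUI : Prop :=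
  ∀ (F : Type) [Field F], (2 : F) ≠ 0 → ∀ (ι : Type) [Fintype ι] (g : ι → ℕ)
    (f : ι → F[X][X]) (θ : ∀ i, Fin (2 * g i + 1) → Om F), Rts g f θ → ∀ (i₀ : ι) (a : F[X][X])
    (I : Type) [Fintype I] (z : I → Fin (2 * g i₀ + 1))
    (pm : (∀ i, Equiv.Perm (Fin (2 * g i + 1))) → Equiv.Perm I) (ρ : I → Om F)
    (W : Submodule (ZMod 2) (I → ZMod 2)) (c : ℕ), KDat θ i₀ a z pm ρ W c →
    ∀ s : Om F ≃ₐ[KK F] Om F, ∃ (σ : ∀ i, Equiv.Perm (Fin (2 * g i + 1)))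
      (χ : (I → ZMod 2) → ZMod 2), Chr W χ ∧ Ind θ pm ρ W s σ χ

/-- (AUS) Every pair is induced.  PROOF.  Let `σ`, `χ` be given.  `Rts.gal` gives `s₀` inducing `σ`, (AUI) its character `χ₀` (the permutation is unique because
the `θ i` are injective).  The set `H` of the restrictions to `W` of the characters of the `s` which fix all the roots is a subspace of the dual of `W`
(`Module.Dual (ZMod 2) W`; composition of automorphisms fixing the roots adds the characters, `pm 1 = 1` by `pmul`), and by `ind` no nonzero `v ∈ W` is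
annihilated by `H`.  `W` is finite dimensional, so `H` is the whole dual (`Subspace.dualCoannihilator`...).  Choose `s₁` fixing the roots with character
`χ - χ₀`, and `s = s₁ ∘ s₀`: for `v' = v ∘ pm σ`: `s(r_v') = s₁((-1)^χ₀(v) r_v) = (-1)^(χ₀(v) + χ₁(v)) r_v`. -/
def StAUS : Prop :=
  ∀ (F : Type) [Field F], (2 : F) ≠ 0 → ∀ (ι : Type) [Fintype ι] (g : ι → ℕ)
    (f : ι → F[X][X]) (θ : ∀ i, Fin (2 * g i + 1) → Om F), Rts g f θ → ∀ (i₀ : ι) (a : F[X][X])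
    (I : Type) [Fintype I] (z : I → Fin (2 * g i₀ + 1))
    (pm : (∀ i, Equiv.Perm (Fin (2 * g i + 1))) → Equiv.Perm I) (ρ : I → Om F)
    (W : Submodule (ZMod 2) (I → ZMod 2)) (c : ℕ), KDat θ i₀ a z pm ρ W c →
    ∀ (σ : ∀ i, Equiv.Perm (Fin (2 * g i + 1))) (χ : (I → ZMod 2) → ZMod 2), Chr W χ →
      ∃ s : Om F ≃ₐ[KK F] Om F, Ind θ pm ρ W s σ χ

/-- (RIND) The basis is independent.  PROOF.  (LI) with `K = KK F`, `Ω = Om F`, `V = W`, `r v = rv ρ v ≠ 0` (`ρ x ≠ 0`), `G` the subgroup of the automorphisms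
fixing all the roots (`RBas.fix`); each `s ∈ G` maps `rv ρ v` to `± rv ρ v` because the square is a product of `ev a (θ i₀ (z x))`; for `v ≠ v'` take the
`s` of `ind` for `v + v' ≠ 0` and `r_v r_v' = (∏_x ev a (θ i₀ (z x))^(v_x v'_x)) r_(v+v')`. -/
def StRIND : Prop :=
  ∀ (F : Type) [Field F], (2 : F) ≠ 0 → ∀ (ι : Type) [Fintype ι] (g : ι → ℕ)
    (θ : ∀ i, Fin (2 * g i + 1) → Om F) (J : Type) [Fintype J] (w : J → Om F) (c₀ : ℕ),
    RBas θ w c₀ → ∀ (i₀ : ι) (a : F[X][X])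
    (I : Type) [Fintype I] (z : I → Fin (2 * g i₀ + 1))
    (pm : (∀ i, Equiv.Perm (Fin (2 * g i + 1))) → Equiv.Perm I) (ρ : I → Om F)
    (W : Submodule (ZMod 2) (I → ZMod 2)) [Fintype W] (c : ℕ), KDat θ i₀ a z pm ρ W c →
    LinearIndependent (KK F) (fun jv : J × W => w jv.1 * rv ρ (jv.2 : I → ZMod 2))

/-- (RMUL) Products of basis elements.  PROOF.  The set of the `x` with `InW w c x` for some `c` is a ring, `InW w c x`, `InW w c' x'` imply
`InW w (c + c' + c₀) (x x')`; so `InW w ((2 g + 2) C₁ + c) (ev a (θ i₀ b))`-type bounds hold: `ev a (θ i₀ b) = ∑_{e ≤ 2 g_(i₀) + 1} em (a_e) θ^e`.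
`(w_j r_v)(w_j' r_v') = w_j w_j' (∏_x (ev a (θ i₀ (z x)))^(v_x v'_x)) r_(v+v')`: at most `N₀` factors, each of size at most `C₂ (c + 1)`. -/
def StRMUL : Prop :=
  ∀ (F : Type) [Field F] (ι : Type) [Fintype ι] (g : ι → ℕ)
    (θ : ∀ i, Fin (2 * g i + 1) → Om F) (J : Type) [Fintype J] (w : J → Om F) (c₀ : ℕ),
    RBas θ w c₀ → ∀ (i₀ : ι) (N₀ : ℕ), ∃ C₀ : ℕ, ∀ (a : F[X][X])
    (I : Type) [Fintype I] (z : I → Fin (2 * g i₀ + 1))
    (pm : (∀ i, Equiv.Perm (Fin (2 * g i + 1))) → Equiv.Perm I) (ρ : I → Om F)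
    (W : Submodule (ZMod 2) (I → ZMod 2)) [Fintype W] (c : ℕ), KDat θ i₀ a z pm ρ W c →
    Fintype.card I ≤ N₀ →
    (∀ (j j' : J) (v v' : W), InV w ρ W (C₀ * (c + 1))
      ((w j * rv ρ (v : I → ZMod 2)) * (w j' * rv ρ (v' : I → ZMod 2)))) ∧
    InV w ρ W (C₀ * (c + 1)) 1 ∧ (∀ i b, InV w ρ W (C₀ * (c + 1)) (θ i b)) ∧
    (∀ b, InV w ρ W (C₀ * (c + 1)) (ev a (θ i₀ b))) ∧
    ∀ v ∈ W, InV w ρ W (C₀ * (c + 1)) (rv ρ v)

/-- (RBS) The basis of the order.  PROOF.  The `(kk F)[X]`-span `M` of the `w_j r_v` (`j ∈ J`, `v ∈ W`) is closed under products and contains `1`, the `θ i b` and the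
`rv ρ v` by (RMUL) (`InV` elements lie in `M`), so `Rg θ ρ W ⊆ M`; conversely `w_j ∈ Rg` by `RBas.alg`.  Independence over `(kk F)[X]` follows from (RIND)
(`LinearIndependent.restrict_scalars`).  The last assertion: uniqueness of coordinates; `em F p` is the image of `p.map (algebraMap F (kk F))`. -/
def StRBS : Prop :=
  ∀ (F : Type) [Field F], (2 : F) ≠ 0 → ∀ (ι : Type) [Fintype ι] (g : ι → ℕ)
    (θ : ∀ i, Fin (2 * g i + 1) → Om F) (J : Type) [Fintype J] (w : J → Om F) (c₀ : ℕ),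
    RBas θ w c₀ → ∀ (i₀ : ι) (a : F[X][X])
    (I : Type) [Fintype I] (z : I → Fin (2 * g i₀ + 1))
    (pm : (∀ i, Equiv.Perm (Fin (2 * g i + 1))) → Equiv.Perm I) (ρ : I → Om F)
    (W : Submodule (ZMod 2) (I → ZMod 2)) [Fintype W] (c : ℕ), KDat θ i₀ a z pm ρ W c →
    ∃ ω : Basis (J × W) (kk F)[X] (Rg θ ρ W),
      (∀ jv, (ω jv : Om F) = w jv.1 * rv ρ (jv.2 : I → ZMod 2)) ∧
      ∀ (c' : ℕ) (x : Rg θ ρ W), InV w ρ W c' (x : Om F) →
        ∀ l, ω.repr x l ∈ PolyLE F (kk F) c'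

/-- (EXT) Automorphisms of the order extend.  PROOF.  Let `R = Rg θ ρ W ⊆ Om F`.  The `KK F`-span `M` of `R` in `Om F` is a field (a finite dimensional domain over
`KK F`, all elements are algebraic), every element of it is `x / p`, `x ∈ R`, `0 ≠ p ∈ (kk F)[X]`; so `γ` extends to a `KK F`-automorphism of `M` (or: the injective ring
homomorphism `R → Om F`, `x ↦ γ x`, extends to the fraction field) and then to `Om F` (`AlgEquiv.liftNormal`, or `IsAlgClosed.lift` and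
bijectivity of endomorphisms of an algebraic extension).  Conversely an automorphism `s` of `Om F` maps `R` onto `R`: by (AUI) it permutes the `θ i b`, and maps the
`rv ρ v`, `v ∈ W`, to `± rv ρ v'`, `v' ∈ W` (`v' = v ∘ (pm σ)⁻¹`, `pm σ⁻¹ = (pm σ)⁻¹`). -/
def StEXT : Prop :=
  ∀ (F : Type) [Field F], (2 : F) ≠ 0 → ∀ (ι : Type) [Fintype ι] (g : ι → ℕ)
    (f : ι → F[X][X]) (θ : ∀ i, Fin (2 * g i + 1) → Om F), Rts g f θ → ∀ (i₀ : ι) (a : F[X][X])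
    (I : Type) [Fintype I] (z : I → Fin (2 * g i₀ + 1))
    (pm : (∀ i, Equiv.Perm (Fin (2 * g i + 1))) → Equiv.Perm I) (ρ : I → Om F)
    (W : Submodule (ZMod 2) (I → ZMod 2)) (c : ℕ), KDat θ i₀ a z pm ρ W c →
    (∀ γ : Rg θ ρ W ≃ₐ[(kk F)[X]] Rg θ ρ W, ∃ s : Om F ≃ₐ[KK F] Om F,
      ∀ x : Rg θ ρ W, s (x : Om F) = (γ x : Om F)) ∧
    ∀ s : Om F ≃ₐ[KK F] Om F, ∃ γ : Rg θ ρ W ≃ₐ[(kk F)[X]] Rg θ ρ W,
      ∀ x : Rg θ ρ W, s (x : Om F) = (γ x : Om F)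

/-- (RAUT) The automorphisms of the order.  PROOF.  By (EXT), (AUI), (AUS): an automorphism `γ` is the restriction of some `s`, which induces a pair `(σ, χ)`, `χ` a character
of `W`; `σ` and `χ|W` are determined by `γ` and determine it (the `θ i b` and the `rv ρ v` generate the algebra `Rg`); every pair occurs.  The number of `σ` is
`∏ (2 g_i + 1)!`, the number of characters is that of the elements of the dual of the finite dimensional space `W`, that is `card W`. -/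
def StRAUT : Prop :=
  ∀ (F : Type) [Field F], (2 : F) ≠ 0 → ∀ (ι : Type) [Fintype ι] (g : ι → ℕ)
    (f : ι → F[X][X]) (θ : ∀ i, Fin (2 * g i + 1) → Om F), Rts g f θ → ∀ (i₀ : ι) (a : F[X][X])
    (I : Type) [Fintype I] (z : I → Fin (2 * g i₀ + 1))
    (pm : (∀ i, Equiv.Perm (Fin (2 * g i + 1))) → Equiv.Perm I) (ρ : I → Om F)
    (W : Submodule (ZMod 2) (I → ZMod 2)) [Fintype W] (c : ℕ), KDat θ i₀ a z pm ρ W c →
    Finite (Rg θ ρ W ≃ₐ[(kk F)[X]] Rg θ ρ W) ∧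
    Nat.card (Rg θ ρ W ≃ₐ[(kk F)[X]] Rg θ ρ W) = (∏ i, (2 * g i + 1).factorial) * Fintype.card W ∧
    (∀ γ : Rg θ ρ W ≃ₐ[(kk F)[X]] Rg θ ρ W, ∃ (s : Om F ≃ₐ[KK F] Om F)
      (σ : ∀ i, Equiv.Perm (Fin (2 * g i + 1))) (χ : (I → ZMod 2) → ZMod 2), Chr W χ ∧
        (∀ x : Rg θ ρ W, s (x : Om F) = (γ x : Om F)) ∧ Ind θ pm ρ W s σ χ) ∧
    ∀ (σ : ∀ i, Equiv.Perm (Fin (2 * g i + 1))) (χ : (I → ZMod 2) → ZMod 2), Chr W χ →
      ∃ (γ : Rg θ ρ W ≃ₐ[(kk F)[X]] Rg θ ρ W) (s : Om F ≃ₐ[KK F] Om F),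
        (∀ x : Rg θ ρ W, s (x : Om F) = (γ x : Om F)) ∧ Ind θ pm ρ W s σ χ

/-- (DAT) The order satisfies the hypotheses of part CHEB, with the group of all its automorphisms.  PROOF.  Basis: (RBS).  `mul`, `one`: (RMUL).  `gal`: `γ` is the restriction of
an `s` ((EXT)), `s(w_j)` is `InW w c₀` (`RBas.gal`), `s(rv ρ v) = ± rv ρ v'`, `v' ∈ W` ((AUI)), so `s(w_j r_v)` is `InV w ρ W c₀`.  `card`: (RAUT) and `RBas.card`.  `act` is the
identity homomorphism, injective. -/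
def StDAT : Prop :=
  ∀ (F : Type) [Field F], (2 : F) ≠ 0 → ∀ (ι : Type) [Fintype ι] (g : ι → ℕ)
    (f : ι → F[X][X]) (θ : ∀ i, Fin (2 * g i + 1) → Om F), Rts g f θ → ∀
    (J : Type) [Fintype J] (w : J → Om F) (c₀ : ℕ),
    RBas θ w c₀ → ∀ (i₀ : ι) (N₀ : ℕ), ∃ C₀ : ℕ, ∀ (a : F[X][X])
    (I : Type) [Fintype I] (z : I → Fin (2 * g i₀ + 1))
    (pm : (∀ i, Equiv.Perm (Fin (2 * g i + 1))) → Equiv.Perm I) (ρ : I → Om F)
    (W : Submodule (ZMod 2) (I → ZMod 2)) [Fintype W]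
    [Fintype (Rg θ ρ W ≃ₐ[(kk F)[X]] Rg θ ρ W)] (c : ℕ), KDat θ i₀ a z pm ρ W c →
    Fintype.card I ≤ N₀ →
    ∃ ω : Basis (J × W) (kk F)[X] (Rg θ ρ W),
      (∀ jv, (ω jv : Om F) = w jv.1 * rv ρ (jv.2 : I → ZMod 2)) ∧
      Dat F ω (MonoidHom.id (Rg θ ρ W ≃ₐ[(kk F)[X]] Rg θ ρ W)) (C₀ * (c + 1)) ∧
      (∀ (c' : ℕ) (x : Rg θ ρ W), InV w ρ W c' (x : Om F) → x ∈ Sz ω c')

/-! ### Counting -/

/-- (YT) The number of tuples above `t`.  PROOF.  The `τ i` are orderings of the roots of `(f i).map (et t)`, which has `2 g_i + 1` distinct roots (if there is any tuple): at most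
`∏ (2 g_i + 1)!` of them.  Given `τ` and one solution `c₁`, another solution `c` satisfies `c v = ± c₁ v ≠ 0` for `v ∈ W` (`c v ^ 2 = ∏ ... ≠ 0`, the case `v' = v` of the
relation, with `c 0 = 1`), and the signs form a homomorphism from `W`: at most `card W` solutions (the dual of the finite dimensional space `W` has `card W` elements). -/
def StYT : Prop :=
  ∀ (F : Type) [Field F], (2 : F) ≠ 0 → ∀ (ι : Type) [Fintype ι] (g : ι → ℕ)
    (f : ι → F[X][X]) (i₀ : ι) (a : F[X][X])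
    (I : Type) [Fintype I] (z : I → Fin (2 * g i₀ + 1))
    (W : Submodule (ZMod 2) (I → ZMod 2)) [Fintype W] (t : kk F),
    {y | y ∈ Tup f i₀ a z W ∧ y.1 = t}.Finite ∧
    {y | y ∈ Tup f i₀ a z W ∧ y.1 = t}.ncard ≤ (∏ i, (2 * g i + 1).factorial) * Fintype.card W

/-- (YR) From points of the order to tuples.  PROOF.  `τ i b = y(θ i b)`, `c v = y(rv ρ v)` for `v ∈ W`.  The relations hold in `Rg θ ρ W ⊆ Om F`: `(f i).map (em F) = ∏ (X - θ i b)` (apply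
`y` to the coefficients, `y` restricted to `F[X]` is `et t`), `r_v r_v' = (∏_x (ev a (θ i₀ (z x)))^(v_x v'_x)) r_(v+v')`.  Injectivity of `τ i` and `av ≠ 0` from `y(Φ) ≠ 0` for
`Φ = ∏_i ∏_{b ≠ b'} (θ i b - θ i b') ∏_x ev a (θ i₀ (z x))`, `Φ ≠ 0`.  `y` is determined by its tuple because the `θ i b` and `rv ρ v` generate the `(kk F)[X]`-algebra.  Frobenius: if `y ∈ Pts`
with `γ` inducing `(σ, χ)` then `y(x)^Q = y(γ x)` for `x` in the `F[X]`-span of the basis, in particular for `x = θ i b` and `x = rv ρ v`: note that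
`{x | y(x)^Q = y(γ x)}` is closed under sums and products and contains the image of `F[X]` and the basis elements.  `Φ` has size at most `C₁ (c + 1)`: it is a product of a bounded
number of factors of bounded size ((RMUL), multiplicativity of `Sz` (SZ of part CHEB)). -/
def StYR : Prop :=
  ∀ (F : Type) [Field F] [Fintype F], (2 : F) ≠ 0 → ∀ (ι : Type) [Fintype ι] (g : ι → ℕ)
    (f : ι → F[X][X]) (θ : ∀ i, Fin (2 * g i + 1) → Om F), (∀ i, (f i).Monic) → Rts g f θ → ∀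
    (J : Type) [Fintype J] (w : J → Om F) (c₀ : ℕ),
    RBas θ w c₀ → ∀ (i₀ : ι) (N₀ : ℕ), ∃ C₀ : ℕ, ∀ (a : F[X][X])
    (I : Type) [Fintype I] (z : I → Fin (2 * g i₀ + 1))
    (pm : (∀ i, Equiv.Perm (Fin (2 * g i + 1))) → Equiv.Perm I) (ρ : I → Om F)
    (W : Submodule (ZMod 2) (I → ZMod 2)) [Fintype W]
    [Fintype (Rg θ ρ W ≃ₐ[(kk F)[X]] Rg θ ρ W)] (c : ℕ), KDat θ i₀ a z pm ρ W c →
    Fintype.card I ≤ N₀ →
    ∃ (ω : Basis (J × W) (kk F)[X] (Rg θ ρ W)) (Φ : Rg θ ρ W)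
      (T : (Rg θ ρ W →ₐ[kk F] kk F) → kk F × (∀ i, Fin (2 * g i + 1) → kk F) × ((I → ZMod 2) → kk F)),
      Dat F ω (MonoidHom.id (Rg θ ρ W ≃ₐ[(kk F)[X]] Rg θ ρ W)) (C₀ * (c + 1)) ∧
      Φ ≠ 0 ∧ Φ ∈ Sz ω (C₀ * (c + 1)) ∧ Function.Injective T ∧
      (∀ y, (T y).1 = y (algebraMap (kk F)[X] (Rg θ ρ W) X)) ∧
      (∀ y, y Φ ≠ 0 → T y ∈ Tup f i₀ a z W) ∧
      ∀ (γ : Rg θ ρ W ≃ₐ[(kk F)[X]] Rg θ ρ W) (s : Om F ≃ₐ[KK F] Om F)
        (σ : ∀ i, Equiv.Perm (Fin (2 * g i + 1))) (χ : (I → ZMod 2) → ZMod 2),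
        (∀ x : Rg θ ρ W, s (x : Om F) = (γ x : Om F)) → Ind θ pm ρ W s σ χ → ∀ e : ℕ, ∀ y,
          y ∈ Pts F ω (MonoidHom.id (Rg θ ρ W ≃ₐ[(kk F)[X]] Rg θ ρ W)) γ e → y Φ ≠ 0 →
          T y ∈ TupF f i₀ a z W pm σ χ (Fintype.card F ^ e)

/-- (CNT) Counting tuples with given Frobenius.  PROOF.  Let `θ`, `w` be fixed, `R = Rg θ ρ W`, `N = card (J × W) = ∏ (2 g_i + 1)! card W` (the cardinality of `W` is at most `2^N₀`: take the
maximum of the constants of (CH) over the finitely many `N`).  Let `γ` with `(σ, χ)` from (RAUT).  By (YR) `T` maps the `y ∈ Pts γ` with `y(Φ) ≠ 0` injectively into `TupF`; by (CH) and (ZR) their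
number is `q^e + O((c+1) √(q^e))`.  It remains to bound the elements of `TupF` not of this form.  Let `Bad` be as in (TS) and `Bad'` the set of the `t` with `y(Φ) = 0` for some
`y` above `t`; both have at most `C (c + 1)` elements ((ZR)).  Above `t ∈ Bad ∪ Bad'` there are at most `N` tuples (YT).  If `t ∉ Bad ∪ Bad'` then there are exactly `N` points `y` above `t`
(TS), all mapped by `T` into `Tup`, so by (YT) every tuple above `t` is `T y` for some `y`; `y` belongs to exactly one `Pts γ'` (TS, if `t^(q^e) = t`), `γ'` induces `(σ', χ')` (RAUT), and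
`T y ∈ TupF` for `(σ', χ')` and `(σ, χ)`: so `σ' = σ` (the `τ i` are injective) and `χ' = χ` on `W` (`c v ≠ 0`, `2 ≠ 0`), so `γ' = γ` (an automorphism is determined by `σ` and
`χ` on `W`, as the `θ i b` and `rv ρ v` generate `R`).  -/
def StCNT : Prop :=
  ∀ (F : Type) [Field F] [Fintype F], (2 : F) ≠ 0 → ∀ (ι : Type) [Fintype ι] (g : ι → ℕ)
    (f : ι → F[X][X]) (θ : ∀ i, Fin (2 * g i + 1) → Om F), (∀ i, (f i).Monic) → Rts g f θ →
    ∀ (i₀ : ι) (N₀ : ℕ), ∃ C₀ : ℝ, 0 ≤ C₀ ∧ ∀ (a : F[X][X])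
    (I : Type) [Fintype I] (z : I → Fin (2 * g i₀ + 1))
    (pm : (∀ i, Equiv.Perm (Fin (2 * g i + 1))) → Equiv.Perm I) (ρ : I → Om F)
    (W : Submodule (ZMod 2) (I → ZMod 2)) (c : ℕ), KDat θ i₀ a z pm ρ W c →
    Fintype.card I ≤ N₀ → ∀ (σ : ∀ i, Equiv.Perm (Fin (2 * g i + 1))) (χ : (I → ZMod 2) → ZMod 2),
    Chr W χ → ∀ e : ℕ, 1 ≤ e →
      (TupF f i₀ a z W pm σ χ (Fintype.card F ^ e)).Finite ∧
      |((TupF f i₀ a z W pm σ χ (Fintype.card F ^ e)).ncard : ℝ) - (Fintype.card F : ℝ) ^ e| ≤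
        C₀ * (c + 1) * Real.sqrt ((Fintype.card F : ℝ) ^ e)

section sets

variable {F : Type} [Field F]

/-- Points with Frobenius: roots of the family. -/
def X0 {ι : Type} {g : ι → ℕ} (f : ι → F[X][X]) (σ : ∀ i, Equiv.Perm (Fin (2 * g i + 1)))
    (Q : ℕ) : Set (kk F × (∀ i, Fin (2 * g i + 1) → kk F)) :=
  {y | y.1 ^ Q = y.1 ∧ (∀ i, (f i).map (et y.1) = ∏ b, (X - C (y.2 i b))) ∧
    (∀ i, Function.Injective (y.2 i)) ∧ ∀ i b, y.2 i b ^ Q = y.2 i (σ i b)}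

/-- Points with Frobenius: roots of the family and square roots of the `a(τ_b)`, with product `s`. -/
def X1 {ι : Type} {g : ι → ℕ} (f : ι → F[X][X]) (i₀ : ι) (a : F[X][X]) (s : F[X])
    (σ : ∀ i, Equiv.Perm (Fin (2 * g i + 1))) (ε : Fin (2 * g i₀ + 1) → ZMod 2)
    (Q : ℕ) : Set (kk F × (∀ i, Fin (2 * g i + 1) → kk F) × (Fin (2 * g i₀ + 1) → kk F)) :=
  {y | (y.1, y.2.1) ∈ X0 f σ Q ∧ (∀ b, y.2.2 b ≠ 0) ∧
    (∀ b, y.2.2 b ^ 2 = av y.1 a (y.2.1 i₀ b)) ∧ ∏ b, y.2.2 b = et y.1 s ∧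
    ∀ b, y.2.2 b ^ Q = (-1) ^ (ε b).val * y.2.2 (σ i₀ b)}

/-- Points with Frobenius: roots of the family and a square root of `d`. -/
def X2 {ι : Type} {g : ι → ℕ} (f : ι → F[X][X]) (d : F[X])
    (σ : ∀ i, Equiv.Perm (Fin (2 * g i + 1))) (ε : ZMod 2)
    (Q : ℕ) : Set (kk F × (∀ i, Fin (2 * g i + 1) → kk F) × kk F) :=
  {y | (y.1, y.2.1) ∈ X0 f σ Q ∧ y.2.2 ≠ 0 ∧ y.2.2 ^ 2 = et y.1 d ∧
    y.2.2 ^ Q = (-1) ^ ε.val * y.2.2}

end sets

/-- (CN0) PROOF.  If `ι` is empty then `X0` is the set of the `t` with `t^(q^e) = t` (`q^e` elements, (RT)).  Otherwise (GAL) gives `θ`; (CNT) with some `i₀`, `a = 1 = C 1`, `I = Empty`-like type (`Fin 0`), `W = ⊥ = ⊤`, `pm = 1`,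
`χ = 0`: a tuple `(t, τ, c)` has `c 0 = 1` and no other value (`Fin 0 → ZMod 2` has one element), so `TupF` is in bijection with `X0`. -/
def StCN0 : Prop :=
  ∀ (F : Type) [Field F] [Fintype F], (2 : F) ≠ 0 → ∀ (ι : Type) [Fintype ι] (g : ι → ℕ)
    (f : ι → F[X][X]), Hyp0 g f → ∃ C₀ : ℝ, 0 ≤ C₀ ∧
    ∀ (σ : ∀ i, Equiv.Perm (Fin (2 * g i + 1))) (e : ℕ), 1 ≤ e →
      (X0 f σ (Fintype.card F ^ e)).Finite ∧
      |((X0 f σ (Fintype.card F ^ e)).ncard : ℝ) - (Fintype.card F : ℝ) ^ e| ≤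
        C₀ * Real.sqrt ((Fintype.card F : ℝ) ^ e)

/-- (CN1) PROOF.  (GAL) gives `θ`.  (CNT) with `I = Fin n`, `n = 2 g_(i₀) + 1`, `z = id`, `pm σ = σ i₀`, `W = {v | ∑ v b = 0}`, `ρ b` a square root of `ev a (θ i₀ b)` (`ind` and `ne` from (KI)) and
`χ v = ∑_b ε b * v (σ i₀ b)`.  The map `X1 → TupF`, `(t, τ, r) ↦ (t, τ, c)` with `c(v) = ∏_b r_b^(v b).val` for `v ∈ W` and `0` elsewhere is a bijection.  (1) It is well defined: the relations are clear,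
and with `v' = v ∘ σ i₀`: `c(v')^Q = ∏_b r_b^(Q v(σ b)) = ∏_b ((-1)^(ε b) r_(σ b))^(v(σ b)) = (-1)^χ(v) c(v)`.  (2) Inverse: let `(t, τ, c)` be a tuple and `r'_b` any square roots of the
`a(t, τ_b) ≠ 0`.  `c` and `v ↦ ∏_b r'_b^(v b)` satisfy the same relations on `W` and do not vanish there (`c(v)^2 = ∏ ... ≠ 0`), so their quotient has values `± 1` and is `(-1)^(l v)` with a linear
functional `l` on `W`, which extends to `Fin n → ZMod 2`: `l v = ∑ h_b v_b`.  So `c(v) = ∏_b r_b^(v b)` with `r_b = (-1)^(h b) r'_b`, and such `r` is unique up to a common sign (a functional vanishing on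
`W` is a multiple of the sum).  `(∏ r_b)^2 = ∏ a(t, τ_b) = s(t)^2 ≠ 0` by `UN`; as `n` is odd exactly one of `r`, `-r` has product `s(t)`.  (3) The Frobenius conditions correspond: `r_b^Q` is a square root of
`a(t, τ_b)^Q = a(t, τ_(σ b))`, so `r_b^Q = (-1)^(ε' b) r_(σ b)`, and the condition on `c` says that `∑_b (ε' b - ε b) v(σ b) = 0` for all `v ∈ W`, so `ε' - ε` is a constant `u`; the product over all `b`
(`s(t)^Q = s(t) ≠ 0`) gives `∑ ε' = 0 = ∑ ε`, so `n u = 0` and `u = 0`. -/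
def StCN1 : Prop :=
  ∀ (F : Type) [Field F] [Fintype F], (2 : F) ≠ 0 → ∀ (ι : Type) [Fintype ι] (g : ι → ℕ)
    (f : ι → F[X][X]), Hyp0 g f → ∀ (i₀ : ι) [Fact (Irreducible (fK (f i₀)))], ∃ C₀ : ℝ, 0 ≤ C₀ ∧
    ∀ (c : ℕ) (a : F[X][X]) (s : F[X]), Rp (f i₀) c a → UN (f i₀) a s →
      IsSquare (Algebra.norm (RatFunc F)
        (algebraMap (RR (f i₀)) (LL (f i₀)) (AdjoinRoot.mk (f i₀) a))) →
      ¬ IsSquare (algebraMap (RR (f i₀)) (LL (f i₀)) (AdjoinRoot.mk (f i₀) a)) →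
    ∀ (σ : ∀ i, Equiv.Perm (Fin (2 * g i + 1))) (ε : Fin (2 * g i₀ + 1) → ZMod 2),
      ∑ b, ε b = 0 → ∀ e : ℕ, 1 ≤ e →
      (X1 f i₀ a s σ ε (Fintype.card F ^ e)).Finite ∧
      |((X1 f i₀ a s σ ε (Fintype.card F ^ e)).ncard : ℝ) - (Fintype.card F : ℝ) ^ e| ≤
        C₀ * (c + 1) * Real.sqrt ((Fintype.card F : ℝ) ^ e)

/-- (CN2) PROOF.  (GAL) gives `θ`.  (CNT) with any `i₀`, `a = C d`, `I = Fin 1`, `z = 0`, `pm = 1`, `W = ⊤`, `ρ` a square root of `em F d` (`ind` from (KD): the only nonzero `v` is the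
constant `1`), `c = natDegree d`, `χ v = ε * v 0`: a tuple `(t, τ, c)` corresponds to `(t, τ, r)` with `r = c(1)`, `r^2 = d(t) ≠ 0`; `c 0 = 1`.  (`ev (C d) x = em F d`, `av t (C d) x = et t d`.) -/
def StCN2 : Prop :=
  ∀ (F : Type) [Field F] [Fintype F], (2 : F) ≠ 0 → ∀ (ι : Type) [Fintype ι] [Nonempty ι]
    (g : ι → ℕ) (f : ι → F[X][X]), Hyp0 g f → ∃ C₀ : ℝ, 0 ≤ C₀ ∧
    ∀ d : F[X], d.Monic → Squarefree d → d ≠ 1 →
      (∀ i, ∃ P : Prm F, P.1 ∣ (f i).discr ∧ ¬ P.1 ^ 2 ∣ (f i).discr ∧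
        (∀ j, j ≠ i → ¬ P.1 ∣ (f j).discr) ∧ ¬ P.1 ∣ d) →
    ∀ (σ : ∀ i, Equiv.Perm (Fin (2 * g i + 1))) (ε : ZMod 2) (e : ℕ), 1 ≤ e →
      (X2 f d σ ε (Fintype.card F ^ e)).Finite ∧
      |((X2 f d σ ε (Fintype.card F ^ e)).ncard : ℝ) - (Fintype.card F : ℝ) ^ e| ≤
        C₀ * (d.natDegree + 1) * Real.sqrt ((Fintype.card F : ℝ) ^ e)

/-! ### The final statements -/

/-- (TP) The tuple of roots above `t` for a good prime.  PROOF.  `P` good: `(f i).map (red P)` is separable (its discriminant is not zero, (FAC) or (DSC)), so `(f i).map (et t)` has `2 g_i + 1` distinct roots in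
`kk F`; number them.  The Frobenius `z ↦ z^Q`, `Q = #(kp P) = q^k`, fixes `t`, so the coefficients of `(f i).map (et t)`, and permutes the roots.  For fixed `t` the `τ` are the `∏ (2 g_i + 1)!` orderings. -/
def StTP : Prop :=
  ∀ (F : Type) [Field F] [Fintype F], (2 : F) ≠ 0 → ∀ (ι : Type) [Fintype ι] (g : ι → ℕ)
    (f : ι → F[X][X]), (∀ i, (f i).Monic) → (∀ i, (f i).natDegree = 2 * g i + 1) →
    ∀ (k : ℕ) (P : Prm F), 1 ≤ k → P ∈ prm F k → ∀ t : kk F, et t P.1 = 0 →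
    (GdF f P → {τ : ∀ i, Fin (2 * g i + 1) → kk F | (∀ i, (f i).map (et t) = ∏ b, (X - C (τ i b))) ∧
        ∀ i, Function.Injective (τ i)}.ncard = ∏ i, (2 * g i + 1).factorial) ∧
    ∀ τ : ∀ i, Fin (2 * g i + 1) → kk F, (∀ i, (f i).map (et t) = ∏ b, (X - C (τ i b))) →
      (∀ i, Function.Injective (τ i)) → GdF f P ∧
        ∃ σ : ∀ i, Equiv.Perm (Fin (2 * g i + 1)), (t, τ) ∈ X0 f σ (Fintype.card F ^ k)

/-- (A1) PROOF.  Apply (CN1) to the family with one member `f` (`ι = Unit`; `Hyp0` from `GeoSn`), `n = 2 g + 1`, `(UN)` gives `s`.  Let `k ≥ 1` (for `k = 0` there is no prime of degree `0`, `Q` is empty).  For `P ∈ Q` and a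
root `t` of `P` (there are `k` of them, (RT)): the number of `(τ, r)` with `(t, τ, r)` in some `X1 f a s σ ε (q^k)` is exactly `n! 2^(n-1)`: `τ` any ordering of the roots (TP), with Frobenius `σ`, and `r_b` any
square roots of `a(t, τ_b) ≠ 0` with product `s(t)` (`∏ a(t, τ_b) = s(t)^2 ≠ 0`: half of the `2^n` choices), `ε` is determined.  By (SQM) (with `κ = kp P`, `j` from (EB), `h = f.map (red P)`) there is an
equivariant choice `u_b` of square roots, `u_b^Q = u_(σ b)`; `r_b = (-1)^(h b) u_b`, so `ε b = h b + h (σ b)`: `ε` is a coboundary of `σ`.  By (DIV) `2^(#facs f P) = I_σ := #{T | T.map σ = T}` (the set of the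
monic irreducible factors is `facs f P`, (FAC)), so `√2^(#facs - 1) = √(I_σ / 2)`.  Summing over all `t`:
`n! 2^(n-1) k ∑_{P ∈ Q} √2^(#facs f P - 1) ≤ ∑_σ √(I_σ/2) ∑_{ε coboundary of σ} #X1(σ, ε) ≤ ∑_σ √(I_σ/2) (2^n / I_σ) (q^k + C₀ (c+1) √(q^k))` by (SGN) and (CN1).  Divide by `n! 2^(n-1)`:
`ρ = (1/n!) ∑_σ √(2 / I_σ)`, `I_σ ≥ 2` (`∅`, `univ`; `n ≥ 1`) and `I_1 = 2^n ≥ 8`, so `ρ < 1`; `C = C₀`. -/
def StA1' : Prop := StA1

/-- (A1p) PROOF.  (CN1) for the family and `i₀ = i`.  Let `σ` consist of an `n_j`-cycle (`finRotate`) for `j ≠ i` and for `i` of a permutation fixing `0` and permuting the other `2 g_i` elements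
cyclically, and `ε` with `ε 0 = ε 1 = 1`, `0` elsewhere.  `#X1(σ, ε) ≥ q^k - C₀ (c+1) √(q^k)`.  Remove the tuples whose `t` is not a root of an element of `prm F k`: at most `2 √q^k` values of `t` (RT), each with at most
`N = ∏ n_j! 2^(n_i)` tuples (at most `∏ n_j!` orderings, `2^(n_i)` square roots).  Let `Q` be the set of the `P ∈ prm F k` with a root `t` which occurs; the number of these `t` is `≥ (q^k - C (c+1) √q^k) / N`,
and it is at most `k #Q` (each `P` has `k` roots).  Let `P ∈ Q` with `(t, τ, r)`: `GdF f P` by (TP); by (DIV) `f j` is irreducible modulo `P` for `j ≠ i` (a cycle has only trivial invariant sets), and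
`TyT (g i) (f i) P` (third part, `b₀ = 0`); the residues of `a` are not zero because `a(t, τ_b) = r_b^2 ≠ 0` (SQM, second part; (FAC) for `facs`).  If all of them were squares then (SQM) gives an equivariant `u`, and
`r_b = (-1)^(h b) u_b` so `ε b = h b + h (σ b)` for all `b`; for `b = 0`: `ε 0 = 2 h 0 = 0`, contradiction.  (`1 : Fin n` is not `0` as `n ≥ 3`.)  For `k = 0`: `Q = ∅`, choose `C ≥ c₁`. -/
def StA1p' : Prop := StA1p

/-- (A2) PROOF (`ι` nonempty).  First part: (CN0) with `σ i = finRotate`, as in (A1p): `c₂ = 1 / N`, `N = ∏ n_i!`; the `P` obtained are good and all `f i` are irreducible modulo `P`.  Second part.  Let `𝓘` be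
the set of the `σ` such that each `σ i` has only the trivial invariant sets.  For `P ∈ prm F k`, `P ∤ d`, `GdF f P` and a root `t` of `P`: the tuples `(t, τ, r) ∈ ⋃_{σ, ε} X2(σ, ε)` are the `N` orderings `τ`
with the `2` square roots `r` of `d(t) ≠ 0`; `σ ∈ 𝓘` iff all `f i` are irreducible modulo `P` ((DIV)), and `ε = 0` iff `r^Q = r` iff `r ∈ j(kp P)` iff `red P d` is a square ((EB)).  So
`2 N k ∑_P (± 1) = ∑_{σ ∈ 𝓘} (#X2'(σ, 0) - #X2'(σ, 1))` where `X2'` consists of the tuples whose `t` is a root of an element of `prm F k`; `#X2 - #X2' ≤ 2 N · 2 √q^k` by (RT).  (CN2) gives the bound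
`2 N k |∑| ≤ #𝓘 (2 C₀ (deg d + 1) √(q^k) + 4 N √q^k)`.  `k = 0`: both sums are empty, `C ≥ c₂`. -/
def StA2' : Prop := StA2

end Pool.Agent.Helper54.GT
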