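import Pool.Agent.Helper54.GT.StA

/-!
# GT module A_KIb: second step of the independence of the square roots of conjugates (helper29)
-/

set_option autoImplicit false

namespace Pool.Agent.Helper54.GT

open Polynomial Module Finset

/-- The scalar tower. -/
private lemma em_eq_KIb {F : Type} [Field F] (p : F[X]) :
    ∃ y : KK F, em F p = algebraMap (KK F) (Om F) y := by
  refine ⟨algebraMap (kk F)[X] (KK F) (p.map (algebraMap F (kk F))), ?_⟩
  rw [← IsScalarTower.algebraMap_apply (kk F)[X] (KK F) (Om F)]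
  rfl

private lemma aut_em_KIb {F : Type} [Field F] (s : Om F ≃ₐ[KK F] Om F) (p : F[X]) :
    s (em F p) = em F p := by
  obtain ⟨y, hy⟩ := em_eq_KIb p
  rw [hy]
  exact s.commutes y

private lemma aut_ev_KIb {F : Type} [Field F] (s : Om F ≃ₐ[KK F] Om F) (a : F[X][X]) (x : Om F) :
    s (ev a x) = ev a (s x) := by
  unfold ev
  have h := Polynomial.hom_eval₂ a (em F) (s : Om F →+* Om F) x
  have h2 : ((s : Om F →+* Om F)).comp (em F) = em F := by
    ext p
    · exact aut_em_KIb s _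
    · exact aut_em_KIb s _
  rw [h2] at h
  exact h

private lemma aut_vdm_KIb {F : Type} [Field F] (s : Om F ≃ₐ[KK F] Om F) (n : ℕ)
    (θ : Fin n → Om F) (σ : Equiv.Perm (Fin n)) (h : ∀ b, s (θ b) = θ (σ b)) :
    s (Matrix.vandermonde θ).det = ((Equiv.Perm.sign σ : ℤ) : Om F) * (Matrix.vandermonde θ).det := by
  have h1 : s (Matrix.vandermonde θ).det
      = ((s : Om F →+* Om F).mapMatrix (Matrix.vandermonde θ)).det :=
    RingHom.map_det (s : Om F →+* Om F) _
  have h2 : (s : Om F →+* Om F).mapMatrix (Matrix.vandermonde θ)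
      = (Matrix.vandermonde θ).submatrix σ id := by
    ext i j
    simp [Matrix.vandermonde_apply, h]
  rw [h1, h2, Matrix.det_permute]

theorem aKIb (h1 : StPRM) (h2 : StCHR) (h3 : StFIX) (h4 : StDSC) : StKIb := by
  intro F _ hF2 ι _ g f θ hg hm hR i₀ a β hβ hβ2 hfix
  classical
  have hK2 : (2 : KK F) ≠ 0 := by
    intro h
    apply hF2
    have h5 : algebraMap F (kk F) 2 = 0 := by
      have h6 : (algebraMap (kk F)[X] (KK F)) (C (algebraMap F (kk F) 2)) = 0 := by
        rw [map_ofNat, map_ofNat, map_ofNat]; exact h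
      have h7 := (IsFractionRing.injective (kk F)[X] (KK F))
      have h8 : C (algebraMap F (kk F) 2) = 0 := h7 (by rw [h6, map_zero])
      exact C_eq_zero.mp h8
    exact (map_eq_zero _).mp h5
  have hO2 : (2 : Om F) ≠ 0 := by
    intro h
    apply hK2
    have : algebraMap (KK F) (Om F) 2 = 0 := by rw [map_ofNat]; exact h
    exact (map_eq_zero _).mp this
  have hββ : β ≠ -β := by
    intro h
    have : (2 : Om F) * β = 0 := by linear_combination h
    exact (mul_ne_zero hO2 hβ) this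
  -- the sign character
  let P : (∀ i, Equiv.Perm (Fin (2 * g i + 1))) → Prop := fun σ =>
    ∃ s : Om F ≃ₐ[KK F] Om F, (∀ i b, s (θ i b) = θ i (σ i b)) ∧ s β = β
  let φ : (∀ i, Equiv.Perm (Fin (2 * g i + 1))) → ℤˣ := fun σ => if P σ then 1 else -1
  have hsq : ∀ (s : Om F ≃ₐ[KK F] Om F), s (θ i₀ 0) = θ i₀ 0 → s β = β ∨ s β = -β := by
    intro s hs
    have : (s β) ^ 2 = β ^ 2 := by
      rw [← map_pow, hβ2, aut_ev_KIb, hs]
    exact sq_eq_sq_iff_eq_or_eq_neg.mp this
  have huniq : ∀ (s s' : Om F ≃ₐ[KK F] Om F) (σ : ∀ i, Equiv.Perm (Fin (2 * g i + 1))),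
      (∀ i b, s (θ i b) = θ i (σ i b)) → (∀ i b, s' (θ i b) = θ i (σ i b)) → s β = s' β := by
    intro s s' σ hs hs'
    have h5 : (s'⁻¹ * s) β = β := by
      apply hfix
      intro i b
      rw [AlgEquiv.mul_apply, hs, ← hs']
      exact s'.symm_apply_apply _
    have h6 : s' ((s'⁻¹ * s) β) = s' β := by rw [h5]
    rw [AlgEquiv.mul_apply] at h6
    rw [← h6]
    exact (s'.apply_symm_apply _).symm
  have hφ : ∀ (s : Om F ≃ₐ[KK F] Om F) (σ : ∀ i, Equiv.Perm (Fin (2 * g i + 1))),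
      (∀ i b, s (θ i b) = θ i (σ i b)) → σ i₀ 0 = 0 → s β = ((φ σ : ℤ) : Om F) * β := by
    intro s σ hs h0
    have hs0 : s (θ i₀ 0) = θ i₀ 0 := by rw [hs, h0]
    by_cases hP : P σ
    · obtain ⟨s', hs', hs'β⟩ := hP
      have : φ σ = 1 := if_pos ⟨s', hs', hs'β⟩
      rw [this, huniq s s' σ hs hs', hs'β]
      simp
    · have h5 : φ σ = -1 := if_neg hP
      rw [h5]
      rcases hsq s hs0 with h | h
      · exact absurd ⟨s, hs, h⟩ hP
      · rw [h]; simp
  have hinj : ∀ m n : ℤˣ, ((m : ℤ) : Om F) * β = ((n : ℤ) : Om F) * β → m = n := by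
    intro m n h
    rcases Int.units_eq_one_or m with rfl | rfl <;> rcases Int.units_eq_one_or n with rfl | rfl
    · rfl
    · exfalso; apply hββ; simpa using h
    · exfalso; apply hββ; simpa using h.symm
    · rfl
  have hmul : ∀ σ τ : (∀ i, Equiv.Perm (Fin (2 * g i + 1))), σ i₀ 0 = 0 → τ i₀ 0 = 0 →
      φ (σ * τ) = φ σ * φ τ := by
    intro σ τ hσ hτ
    obtain ⟨s, hs⟩ := hR.gal σ
    obtain ⟨t, ht⟩ := hR.gal τ
    have hst : ∀ i b, (s * t) (θ i b) = θ i ((σ * τ) i b) := by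
      intro i b
      rw [AlgEquiv.mul_apply, ht, hs]
      rfl
    have hστ : (σ * τ) i₀ 0 = 0 := by
      rw [Pi.mul_apply, Equiv.Perm.mul_apply, hτ, hσ]
    apply hinj
    rw [← hφ (s * t) _ hst hστ, AlgEquiv.mul_apply, hφ t τ ht hτ, map_mul, hφ s σ hs hσ, map_intCast]
    push_cast
    ring
  obtain ⟨T, hT⟩ := (h2 ι (fun i => 2 * g i + 1) φ).2 i₀ 0 hmul
  refine ⟨T, ?_⟩
  set x : Om F := β * ∏ i ∈ T, (Matrix.vandermonde (θ i)).det with hx
  -- the field generated by one root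
  have hfixx : ∀ s : Om F ≃ₐ[KK F] Om F, s (θ i₀ 0) = θ i₀ 0 → s x = x := by
    intro s hs
    obtain ⟨σ, hσ⟩ := h1 F ι g f θ hR s
    have hσ0 : σ i₀ 0 = 0 := by
      apply hR.inj i₀
      rw [← hσ, hs]
    rw [hx, map_mul, map_prod, hφ s σ hσ hσ0]
    have h5 : ∏ i ∈ T, s (Matrix.vandermonde (θ i)).det
        = ((φ σ : ℤ) : Om F) * ∏ i ∈ T, (Matrix.vandermonde (θ i)).det := by
      rw [hT σ hσ0]
      push_cast
      rw [← Finset.prod_mul_distrib]
      refine Finset.prod_congr rfl fun i _ => ?_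
      exact aut_vdm_KIb s _ (θ i) (σ i) (hσ i)
    rw [h5]
    have h6 : ((φ σ : ℤ) : Om F) * ((φ σ : ℤ) : Om F) = 1 := by
      rcases Int.units_eq_one_or (φ σ) with h | h <;> rw [h] <;> simp
    linear_combination (β * ∏ i ∈ T, (Matrix.vandermonde (θ i)).det) * h6
  set L : IntermediateField (KK F) (Om F) := IntermediateField.adjoin (KK F) {θ i₀ 0} with hL
  have hθL : θ i₀ 0 ∈ L := IntermediateField.mem_adjoin_simple_self _ _
  have hemL : ∀ p : F[X], em F p ∈ L := by
    intro p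
    obtain ⟨y, hy⟩ := em_eq_KIb p
    rw [hy]
    exact L.algebraMap_mem y
  have hevL : ev a (θ i₀ 0) ∈ L := by
    unfold ev
    rw [Polynomial.eval₂_eq_sum_range]
    exact sum_mem fun k _ => mul_mem (hemL _) (pow_mem hθL _)
  have hx2 : x ^ 2 ∈ L := by
    rw [hx, mul_pow, hβ2, ← Finset.prod_pow]
    refine mul_mem hevL (prod_mem fun i _ => ?_)
    have hdeg : (f i).natDegree = 2 * g i + 1 := by
      have h5 := congrArg Polynomial.natDegree (hR.fac i)
      rw [(hm i).natDegree_map, natDegree_prod_of_monic _ _ (fun b _ => monic_X_sub_C _)] at h5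
      simpa using h5
    rcases h4 F (f i) (Om F) (em F) _ (θ i) (hm i) hdeg (hR.fac i) with h | h
    · rw [h]; exact hemL _
    · rw [h]; exact neg_mem (hemL _)
  have hxL : x ∈ L := by
    refine h3 (KK F) (Om F) hK2 L x hx2 fun s hs => hfixx s (hs _ hθL)
  have hint : IsIntegral (KK F) (θ i₀ 0) := Algebra.IsIntegral.isIntegral _
  have h5 : x ∈ L.toSubalgebra := hxL
  rw [hL, IntermediateField.adjoin_simple_toSubalgebra_of_isAlgebraic hint.isAlgebraic,
    Algebra.adjoin_singleton_eq_range_aeval] at h5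
  obtain ⟨b, hb⟩ := h5
  exact ⟨b, hb.symm⟩

end Pool.Agent.Helper54.GT
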