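import Pool.Agent.Helper54.GT.StC

/-! MP_1d384c_nt, project GT, part CHEB: elements of a subspace with distinct valuations. -/

set_option autoImplicit false

namespace Pool.Agent.Helper54.GT

open Polynomial Module

section

variable {k R : Type} [Field k] [CommRing R] [Algebra k R] [Algebra k[X] R]
  [IsScalarTower k k[X] R] {v : R → ℕ∞}

theorem smul_Ab (hv : Val (k := k) v) {a : k} (ha : a ≠ 0) (x : R) : v (a • x) = v x := by
  have h1 : a • x = algebraMap k[X] R (C a) * x := by
    rw [Algebra.smul_def, IsScalarTower.algebraMap_apply k k[X] R]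
    rfl
  have h2 : v (algebraMap k[X] R (C a)) = 0 := by
    have := hv.poly (C a) (C_ne_zero.2 ha)
    rw [natDegree_C] at this
    exact le_antisymm this (zero_le)
  rw [h1, hv.mul, h2, zero_add]

/-- The elements of `W` of value greater than `j`. -/
def sub_Ab (hv : Val (k := k) v) (W : Submodule k R) (j : ℕ∞) (hj : j < ⊤) : Submodule k R where
  carrier := {x | x ∈ W ∧ j < v x}
  zero_mem' := ⟨W.zero_mem, by rw [(hv.top_iff 0).2 rfl]; exact hj⟩
  add_mem' := by
    rintro a b ⟨ha, ha2⟩ ⟨hb, hb2⟩
    exact ⟨W.add_mem ha hb, (lt_min ha2 hb2).trans_le (hv.add a b)⟩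
  smul_mem' := by
    rintro a x ⟨hx, hx2⟩
    refine ⟨W.smul_mem a hx, ?_⟩
    by_cases ha : a = 0
    · rw [ha, zero_smul, (hv.top_iff 0).2 rfl]
      exact hj
    · rw [smul_Ab hv ha]
      exact hx2

theorem main_Ab (hv : Val (k := k) v) (n : ℕ) : ∀ W : Submodule k R, Module.Finite k W →
    finrank k W = n →
    ∃ b : Fin n → R, (∀ i, b i ∈ W ∧ b i ≠ 0) ∧ Function.Injective (fun i => v (b i)) := by
  induction n with
  | zero =>
    intro W _ _
    exact ⟨fun i => i.elim0, fun i => i.elim0, fun i => i.elim0⟩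
  | succ n ih =>
    intro W hW hn
    have hne : ∃ x, x ∈ W ∧ x ≠ 0 := by
      by_contra hcon
      push Not at hcon
      have h1 : W = ⊥ := (Submodule.eq_bot_iff _).2 hcon
      rw [h1, finrank_bot] at hn
      omega
    obtain ⟨j, ⟨x0, hx0, hx00, hj⟩, hmin⟩ := WellFounded.has_min
      (wellFounded_lt : WellFounded ((· < ·) : ℕ∞ → ℕ∞ → Prop))
      {j | ∃ x, x ∈ W ∧ x ≠ 0 ∧ v x = j} (by
        obtain ⟨x, hx, hx1⟩ := hne
        exact ⟨v x, x, hx, hx1, rfl⟩)
    have hjt : j < ⊤ := by
      rw [lt_top_iff_ne_top, ← hj]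
      intro h
      exact hx00 ((hv.top_iff x0).1 h)
    have hge : ∀ x ∈ W, j ≤ v x := by
      intro x hx
      by_cases h0 : x = 0
      · rw [h0, (hv.top_iff 0).2 rfl]
        exact le_top
      · by_contra hcon
        push Not at hcon
        exact hmin (v x) ⟨x, hx, h0, rfl⟩ hcon
    have hle : sub_Ab hv W j hjt ≤ W := fun x hx => hx.1
    have hf1 : Module.Finite k (sub_Ab hv W j hjt) :=
      Submodule.finiteDimensional_of_le hle
    have hsup : sub_Ab hv W j hjt ⊔ (k ∙ x0) = W := by
      apply le_antisymm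
      · refine sup_le hle ?_
        rw [Submodule.span_singleton_le_iff_mem]
        exact hx0
      · intro x hx
        rcases (hge x hx).lt_or_eq with h | h
        · exact Submodule.mem_sup_left ⟨hx, h⟩
        · obtain ⟨a, ha⟩ := hv.sub x x0 hx00 (h.symm.trans hj.symm)
          have h3 : x = (x - a • x0) + a • x0 := by abel
          rw [h3]
          refine Submodule.add_mem _ (Submodule.mem_sup_left ⟨?_, ?_⟩)
            (Submodule.mem_sup_right (Submodule.mem_span_singleton.2 ⟨a, rfl⟩))
          · exact W.sub_mem hx (W.smul_mem a hx0)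
          · rw [← hj]
            exact ha
    have hinf : sub_Ab hv W j hjt ⊓ (k ∙ x0) = ⊥ := by
      rw [Submodule.eq_bot_iff]
      rintro x ⟨⟨_, h1⟩, h2⟩
      obtain ⟨a, rfl⟩ := Submodule.mem_span_singleton.1 h2
      by_cases ha : a = 0
      · rw [ha, zero_smul]
      · rw [smul_Ab hv ha, hj] at h1
        exact absurd h1 (lt_irrefl _)
    have hrank : finrank k (sub_Ab hv W j hjt) = n := by
      have h1 := Submodule.finrank_sup_add_finrank_inf_eq (sub_Ab hv W j hjt) (k ∙ x0)
      rw [hsup, hinf, finrank_bot, finrank_span_singleton hx00, hn] at h1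
      omega
    obtain ⟨b, hb1, hb2⟩ := ih _ hf1 hrank
    refine ⟨Fin.cons x0 b, ?_, ?_⟩
    · intro i
      refine Fin.cases ⟨hx0, hx00⟩ (fun i => ?_) i
      rw [Fin.cons_succ]
      exact ⟨(hb1 i).1.1, (hb1 i).2⟩
    · intro i i'
      refine Fin.cases ?_ (fun i => ?_) i
      · refine Fin.cases (fun _ => rfl) (fun i' h => ?_) i'
        exfalso
        simp only [Fin.cons_zero, Fin.cons_succ] at h
        have := (hb1 i').1.2
        rw [← h, hj] at this
        exact lt_irrefl _ this
      · refine Fin.cases (fun h => ?_) (fun i' h => ?_) i'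
        · exfalso
          simp only [Fin.cons_zero, Fin.cons_succ] at h
          have := (hb1 i).1.2
          rw [h, hj] at this
          exact lt_irrefl _ this
        · simp only [Fin.cons_succ] at h
          exact congrArg Fin.succ (hb2 h)

end

theorem hAb : StAb := by
  intro k R _ _ _ _ _ v hv W hW
  exact main_Ab hv _ W hW rfl

end Pool.Agent.Helper54.GT
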