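import Pool.Agent.Helper54.GT.StC

/-! GT, CHEB: module Ch (helper27): the final count. -/

set_option autoImplicit false

namespace Pool.Agent.Helper54.GT

open Polynomial Module

/-- The solutions of `t ^ (q ^ e) = t` in an algebraically closed field. -/
theorem roots_Ch (F k : Type) [Field F] [Fintype F] [Field k] [IsAlgClosed k] [Algebra F k]
    (e : ℕ) (he : 1 ≤ e) : ∃ T : Finset k, T.card = Fintype.card F ^ e ∧
      ∀ t : k, t ∈ T ↔ t ^ Fintype.card F ^ e = t := by
  classical
  obtain ⟨p, hp⟩ := CharP.exists F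
  obtain ⟨n, hpp, hn⟩ := FiniteField.card F p
  have : CharP k p := charP_of_injective_algebraMap (algebraMap F k).injective p
  have hq : 1 < Fintype.card F := Fintype.one_lt_card
  have he0 : e ≠ 0 := by omega
  set f : k[X] := X ^ Fintype.card F ^ e - X with hf
  have hsep : f.Separable := by
    refine galois_poly_separable p _ ?_
    rw [hn, ← pow_mul]
    exact dvd_pow_self p (Nat.mul_ne_zero n.ne_zero he0)
  have hne : f ≠ 0 := FiniteField.X_pow_card_pow_sub_X_ne_zero _ he0 hq
  have hdeg : f.natDegree = Fintype.card F ^ e :=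
    FiniteField.X_pow_card_pow_sub_X_natDegree_eq _ he0 hq
  refine ⟨f.roots.toFinset, ?_, ?_⟩
  · rw [Multiset.toFinset_card_of_nodup (nodup_roots hsep), IsAlgClosed.card_roots_eq_natDegree,
      hdeg]
  · intro t
    rw [Multiset.mem_toFinset, mem_roots hne, IsRoot.def, hf, eval_sub, eval_pow, eval_X,
      sub_eq_zero]

theorem hCh (h1 : StUp) (h2 : StTs) (h3 : StPt) : StCh := by
  classical
  intro F _ _ N
  obtain ⟨C₁, hC₁, H1⟩ := h1 F N
  refine ⟨C₁ * (N + 1) + N ^ 2 * (2 * N + 1), by positivity, ?_⟩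
  intro k R ι Γ _ _ _ _ _ _ _ _ _ _ _ ω act c hD hN γ₀ e he
  have hup := fun γ : Γ => H1 k R ι Γ ω act c hD hN γ e he
  refine ⟨(hup γ₀).1, ?_⟩
  set q : ℝ := (Fintype.card F : ℝ) with hqdef
  have hq1 : (1 : ℝ) < q := by
    have := Fintype.one_lt_card (α := F)
    rw [hqdef]
    exact_mod_cast this
  have hqe : (1 : ℝ) ≤ q ^ e := one_le_pow₀ hq1.le
  have hs1 : (1 : ℝ) ≤ Real.sqrt (q ^ e) := by
    rw [show (1 : ℝ) = Real.sqrt 1 by simp]
    exact Real.sqrt_le_sqrt hqe
  set E : ℝ := C₁ * (c + 1) * Real.sqrt (q ^ e) with hE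
  have hE0 : 0 ≤ E := by positivity
  have hN1 : 1 ≤ N := by
    rw [← hN, ← hD.card]
    exact Fintype.card_pos
  have hN1' : (1 : ℝ) ≤ N := by exact_mod_cast hN1
  have hc0 : (0 : ℝ) ≤ c := Nat.cast_nonneg c
  obtain ⟨Bad, hBad, hts⟩ := h2 F k R ι Γ ω act c hD
  obtain ⟨T, hT, hTm⟩ := roots_Ch F k e he
  have hfib := fun t : k => h3 F k R ι Γ ω act c hD t
  -- the points above the good `t`
  let fib : k → Finset (R →ₐ[k] k) := fun t => (hfib t).2.1.toFinset
  have hfib1 : ∀ t ∈ T \ Bad, (fib t).card = N := by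
    intro t ht
    rw [Finset.mem_sdiff] at ht
    exact (Set.ncard_eq_toFinset_card _ (hfib t).2.1).symm.trans ((hts t ht.2).1.trans hN)
  have hdis : ((T \ Bad : Finset k) : Set k).PairwiseDisjoint fib := by
    intro t _ t' _ htt
    refine Finset.disjoint_left.2 fun y hy hy' => htt ?_
    have e1 : y (algebraMap k[X] R X) = t := by
      have := (Set.Finite.mem_toFinset _).1 hy
      exact this
    have e2 : y (algebraMap k[X] R X) = t' := by
      have := (Set.Finite.mem_toFinset _).1 hy'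
      exact this
    exact e1.symm.trans e2
  have hsub : (T \ Bad).biUnion fib ⊆
      (Finset.univ : Finset Γ).biUnion (fun γ => (hup γ).1.toFinset) := by
    intro y hy
    rw [Finset.mem_biUnion] at hy
    obtain ⟨t, ht, hy⟩ := hy
    rw [Finset.mem_sdiff] at ht
    have e1 : y (algebraMap k[X] R X) = t := by
      have := (Set.Finite.mem_toFinset _).1 hy
      exact this
    obtain ⟨γ, hγ, -⟩ := (hts t ht.2).2.2 e ((hTm t).1 ht.1) y e1
    rw [Finset.mem_biUnion]
    exact ⟨γ, Finset.mem_univ _, (Set.Finite.mem_toFinset _).2 hγ⟩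
  have hcount : (T \ Bad).card * N ≤ ∑ γ : Γ, (Pts F ω act γ e).ncard := by
    calc (T \ Bad).card * N = ∑ t ∈ T \ Bad, (fib t).card := by
          rw [Finset.sum_congr rfl hfib1, Finset.sum_const, smul_eq_mul]
      _ = ((T \ Bad).biUnion fib).card := (Finset.card_biUnion hdis).symm
      _ ≤ ((Finset.univ : Finset Γ).biUnion (fun γ => (hup γ).1.toFinset)).card :=
          Finset.card_le_card hsub
      _ ≤ ∑ γ : Γ, ((hup γ).1.toFinset).card := Finset.card_biUnion_le
      _ = ∑ γ : Γ, (Pts F ω act γ e).ncard := by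
          exact Finset.sum_congr rfl fun γ _ => (Set.ncard_eq_toFinset_card _ (hup γ).1).symm
  have hTB : (T.card : ℝ) - Bad.card ≤ ((T \ Bad).card : ℝ) := by
    have : T.card ≤ (T \ Bad).card + Bad.card := by
      have := Finset.card_le_card (Finset.subset_union_left (s₁ := T) (s₂ := Bad))
      rw [← Finset.sdiff_union_self_eq_union] at this
      exact this.trans (Finset.card_union_le _ _)
    have : (T.card : ℝ) ≤ ((T \ Bad).card : ℝ) + Bad.card := by exact_mod_cast this
    linarith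
  have hTq : (T.card : ℝ) = q ^ e := by
    rw [hT, hqdef]
    push_cast
    rfl
  have hBad' : (Bad.card : ℝ) ≤ N * (2 * N * c + c) := by
    rw [hN] at hBad
    exact_mod_cast hBad
  have hcount' : ((T \ Bad).card : ℝ) * N ≤ ∑ γ : Γ, ((Pts F ω act γ e).ncard : ℝ) := by
    exact_mod_cast hcount
  have hsplit : ∑ γ : Γ, ((Pts F ω act γ e).ncard : ℝ) ≤
      ((Pts F ω act γ₀ e).ncard : ℝ) + (N - 1) * (q ^ e + E) := by
    rw [← Finset.add_sum_erase Finset.univ _ (Finset.mem_univ γ₀)]
    have hcard : ((Finset.univ.erase γ₀ : Finset Γ).card : ℝ) = N - 1 := by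
      rw [Finset.card_erase_of_mem (Finset.mem_univ _), Finset.card_univ, hD.card, hN,
        Nat.cast_sub hN1, Nat.cast_one]
    have hs := Finset.sum_le_card_nsmul (Finset.univ.erase γ₀)
      (fun γ : Γ => ((Pts F ω act γ e).ncard : ℝ)) (q ^ e + E) (fun γ _ => (hup γ).2)
    rw [nsmul_eq_mul, hcard] at hs
    linarith
  have hkey : q ^ e - N * E - N * (N * (2 * N * c + c)) ≤
      ((Pts F ω act γ₀ e).ncard : ℝ) := by
    have h5 : (q ^ e - N * (2 * N * c + c)) * N ≤ ((T \ Bad).card : ℝ) * N := by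
      refine mul_le_mul_of_nonneg_right ?_ (by positivity)
      linarith
    nlinarith
  have hb2 : N * (N * (2 * N * c + c)) ≤
      (N : ℝ) ^ 2 * (2 * N + 1) * (c + 1) * Real.sqrt (q ^ e) := by
    have h6 : (N : ℝ) * (N * (2 * N * c + c)) = (N : ℝ) ^ 2 * (2 * N + 1) * c := by ring
    rw [h6]
    have h7 : (N : ℝ) ^ 2 * (2 * N + 1) * c ≤ (N : ℝ) ^ 2 * (2 * N + 1) * (c + 1) := by
      refine mul_le_mul_of_nonneg_left ?_ (by positivity)
      linarith
    exact h7.trans (le_mul_of_one_le_right (by positivity) hs1)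
  have hEN : (C₁ * (N + 1) + N ^ 2 * (2 * N + 1)) * (c + 1) * Real.sqrt (q ^ e) =
      (N + 1) * E + (N : ℝ) ^ 2 * (2 * N + 1) * (c + 1) * Real.sqrt (q ^ e) := by
    rw [hE]; ring
  rw [hEN, abs_le]
  have h8 := (hup γ₀).2
  have h9 : 0 ≤ (N : ℝ) ^ 2 * (2 * N + 1) * (c + 1) * Real.sqrt (q ^ e) := by positivity
  have h10 : 0 ≤ N * E := by positivity
  constructor
  · nlinarith
  · nlinarith

end Pool.Agent.Helper54.GT
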