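import Pool.Agent.Helper54.GT.StC

set_option autoImplicit false

namespace Pool.Agent.Helper54.GT

open Polynomial Module

theorem hDl (h1 : StSz) : StDl := by
  classical
  intro F k R ι Γ _ _ _ _ _ _ _ _ _ _ _ ω act c hD
  obtain ⟨-, hmono, -, hmul, -, -, -, -, -⟩ := h1 F k R ι Γ ω act c hD
  let ε : Γ ≃ ι := Fintype.equivOfCardEq hD.card
  let M : Matrix ι ι R := fun j i => act (ε.symm j) (ω i)
  have hent : ∀ j i, M j i ∈ Sz ω c := by
    intro j i l
    obtain ⟨p0, hp, he⟩ := hD.gal (ε.symm j) i l
    have h2 : ω.repr (M j i) l = p0.map (algebraMap F k) := he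
    rw [h2]
    exact natDegree_map_le.trans hp
  have hprod : ∀ (s : Finset ι), s.Nonempty → ∀ x : ι → R, (∀ i, x i ∈ Sz ω c) →
      ∏ i ∈ s, x i ∈ Sz ω ((2 * s.card - 1) * c) := by
    intro s hs x hx
    induction hs using Finset.Nonempty.cons_induction with
    | singleton a => simpa using hx a
    | cons a s ha hs ih =>
      rw [Finset.prod_cons, Finset.card_cons]
      have h3 := hmul _ _ _ _ (hx a) ih
      refine hmono _ _ ?_ h3
      have h4 : 1 ≤ s.card := hs.card_pos
      obtain ⟨n, hn⟩ : ∃ n, s.card = n + 1 := ⟨s.card - 1, by omega⟩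
      rw [hn]
      have h5 : 2 * (n + 1) - 1 = 2 * n + 1 := by omega
      have h6 : 2 * (n + 1 + 1) - 1 = 2 * n + 3 := by omega
      rw [h5, h6]
      apply le_of_eq
      ring
  have hpos : 0 < Fintype.card ι := by
    rw [← hD.card]; exact Fintype.card_pos
  have : Nonempty ι := Fintype.card_pos_iff.mp hpos
  refine ⟨M.det, ?_, ?_, ?_⟩
  · intro h0
    obtain ⟨v, hv0, hv⟩ := Matrix.exists_vecMul_eq_zero_iff.mpr h0
    have hli := linearIndependent_monoidHom R R
    let g : Γ → (R →* R) := fun γ => ((act γ : R ≃ₐ[k[X]] R) : R →* R)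
    have hg : Function.Injective g := by
      intro a b hab
      apply hD.inj
      ext x
      exact DFunLike.congr_fun hab x
    have hli2 := hli.comp g hg
    rw [Fintype.linearIndependent_iff] at hli2
    have h7 : ∀ x : R, ∑ γ, v (ε γ) * act γ x = 0 := by
      intro x
      have h8 : ∀ i, ∑ γ, v (ε γ) * act γ (ω i) = 0 := by
        intro i
        have h9 := congrFun hv i
        simp only [Matrix.vecMul, dotProduct, Pi.zero_apply] at h9
        rw [← h9, ← Equiv.sum_comp ε]
        refine Finset.sum_congr rfl fun γ _ => ?_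
        simp [M]
      rw [← ω.sum_repr x]
      simp only [map_sum, map_smul, Finset.mul_sum]
      rw [Finset.sum_comm]
      refine Finset.sum_eq_zero fun i _ => ?_
      have h10 := h8 i
      calc ∑ γ, v (ε γ) * (ω.repr x i) • (act γ) (ω i)
          = (ω.repr x i) • ∑ γ, v (ε γ) * act γ (ω i) := by
            rw [Finset.smul_sum]
            refine Finset.sum_congr rfl fun γ _ => ?_
            rw [mul_smul_comm]
        _ = 0 := by rw [h10, smul_zero]
    have h11 := hli2 (fun γ => v (ε γ)) (by
      funext x
      have := h7 x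
      simpa [Finset.sum_apply, g] using this)
    apply hv0
    funext i
    have := h11 (ε.symm i)
    simpa using this
  · rw [Matrix.det_apply]
    refine Submodule.sum_mem _ fun σ _ => ?_
    have h12 : ∏ i, M (σ i) i ∈ Sz ω (2 * Fintype.card ι * c) := by
      refine hmono _ _ ?_ (hprod Finset.univ Finset.univ_nonempty (fun i => M (σ i) i)
        (fun i => hent _ _))
      rw [Finset.card_univ]
      exact Nat.mul_le_mul_right _ (Nat.sub_le _ _)
    rcases Int.units_eq_one_or (Equiv.Perm.sign σ) with h | h
    · rw [h]; simpa using h12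
    · rw [h]; simpa using (Submodule.neg_mem _ h12)
  · intro y hy
    let M' : Matrix ι ι k := (y : R →+* k).mapMatrix M
    have h13 : M'.det ≠ 0 := by
      intro h
      apply hy
      have h14 := RingHom.map_det (y : R →+* k) M
      have h15 : (y : R →+* k) M.det = y M.det := rfl
      rw [← h15, h14]
      exact h
    have h16 : LinearIndependent k (fun j => M' j) := Matrix.linearIndependent_rows_of_det_ne_zero h13
    have h17 := h16.comp ε ε.injective
    convert h17 using 1
    funext γ i
    change y (act γ (ω i)) = y (act (ε.symm (ε γ)) (ω i))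
    rw [Equiv.symm_apply_apply]

end Pool.Agent.Helper54.GT
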