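import Pool.Agent.Helper54.GT.StC

namespace Pool.Agent.Helper54.GT

open Polynomial Module IsLocalRing

theorem hDv : StDv := by
  intro k R _ _ _ _ _ y π hπ0 hyπ hy
  classical
  let m : Ideal R := RingHom.ker (y : R →+* k)
  have hsurj : Function.Surjective (y : R →+* k) := by
    intro a
    exact ⟨algebraMap k R a, by simp⟩
  have hmax : m.IsMaximal := RingHom.ker_isMaximal_of_surjective _ hsurj
  have hprime : m.IsPrime := hmax.isPrime
  let V := Localization.AtPrime m
  have hinj : Function.Injective (algebraMap R V) :=
    IsLocalization.injective V m.primeCompl_le_nonZeroDivisors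
  have : IsDomain V := IsLocalization.isDomain_localization m.primeCompl_le_nonZeroDivisors
  have : IsNoetherianRing V := IsLocalization.isNoetherianRing m.primeCompl V inferInstance
  have mem_m : ∀ x, x ∈ m ↔ y x = 0 := fun x => RingHom.mem_ker
  have hunit : ∀ x, y x ≠ 0 → IsUnit (algebraMap R V x) := by
    intro x hx
    exact IsLocalization.map_units V (⟨x, fun h => hx ((mem_m x).1 h)⟩ : m.primeCompl)
  set ϖ : V := algebraMap R V π with hϖ
  have hϖ0 : ϖ ≠ 0 := by
    intro h
    apply hπ0
    apply hinj
    rw [map_zero]; exact h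
  -- the maximal ideal
  have hmaxV : maximalIdeal V = Ideal.span {ϖ} := by
    apply le_antisymm
    · intro z hz
      obtain ⟨⟨x, s⟩, hxs⟩ := IsLocalization.surj m.primeCompl z
      simp only at hxs
      have hs : IsUnit (algebraMap R V (s : R)) := IsLocalization.map_units V s
      have hx : y x = 0 := by
        by_contra hne
        have h1 : IsUnit (algebraMap R V x) := hunit x hne
        rw [← hxs] at h1
        have : IsUnit z := isUnit_of_mul_isUnit_left h1
        exact (mem_maximalIdeal z).1 hz this
      obtain ⟨e, x', he, hex⟩ := hy x hx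
      have heu : IsUnit (algebraMap R V e) := hunit e (by rw [he]; exact one_ne_zero)
      rw [Ideal.mem_span_singleton]
      have h2 : algebraMap R V e * algebraMap R V x = ϖ * algebraMap R V x' := by
        rw [← map_mul, hex, map_mul]
      have h3 : ϖ ∣ algebraMap R V e * algebraMap R V x := ⟨_, h2⟩
      have h4 : ϖ ∣ algebraMap R V x := (heu.dvd_mul_left).1 h3
      rw [← hxs] at h4
      exact (hs.dvd_mul_right).1 h4
    · rw [Ideal.span_singleton_le_iff_mem, mem_maximalIdeal]
      intro hu
      have hu' : IsUnit (algebraMap R V π) := hu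
      rw [IsLocalization.AtPrime.isUnit_to_map_iff V m π] at hu'
      exact hu' ((mem_m π).2 hyπ)
  have hnotfield : ¬ IsField V := by
    intro hf
    have := (isField_iff_maximalIdeal_eq).1 hf
    rw [hmaxV, Ideal.span_singleton_eq_bot] at this
    exact hϖ0 this
  have hprinc : (maximalIdeal V).IsPrincipal := ⟨ϖ, hmaxV⟩
  have hdvr : IsDiscreteValuationRing V :=
    ((IsDiscreteValuationRing.TFAE V hnotfield).out 0 4).2 hprinc
  have hirr : Irreducible ϖ := (IsDiscreteValuationRing.irreducible_iff_uniformizer ϖ).2 hmaxV
  refine ⟨fun x => IsDiscreteValuationRing.addVal V (algebraMap R V x), ?_, ?_, ?_, ?_, ?_, ?_⟩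
  · intro x
    rw [IsDiscreteValuationRing.addVal_eq_top_iff]
    exact map_eq_zero_iff _ hinj
  · intro x z
    simp only [map_mul, IsDiscreteValuationRing.addVal_mul]
  · intro x z
    simp only [map_add]
    exact IsDiscreteValuationRing.addVal_add
  · intro x z hz hxz
    have hz' : algebraMap R V z ≠ 0 := fun h => hz (hinj (by rw [h, map_zero]))
    have hx' : algebraMap R V x ≠ 0 := by
      intro h
      have h1 := IsDiscreteValuationRing.addVal_eq_top_iff.2 h
      have h2 : IsDiscreteValuationRing.addVal V (algebraMap R V x) =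
        IsDiscreteValuationRing.addVal V (algebraMap R V z) := hxz
      rw [h1] at h2
      exact hz' (IsDiscreteValuationRing.addVal_eq_top_iff.1 h2.symm)
    -- x = u z with a unit
    have hass : Associated (algebraMap R V z) (algebraMap R V x) :=
      (IsDiscreteValuationRing.addVal_eq_iff_associated _ _).1 hxz.symm
    obtain ⟨u, hu⟩ := hass
    -- u = r / s
    obtain ⟨⟨r, s⟩, hrs⟩ := IsLocalization.surj m.primeCompl (u : V)
    simp only at hrs
    have hs : IsUnit (algebraMap R V (s : R)) := IsLocalization.map_units V s
    have hys : y (s : R) ≠ 0 := fun h => s.2 ((mem_m _).2 h)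
    refine ⟨y r / y s, ?_⟩
    set a : k := y r / y s with ha
    -- r - a s in m
    have hm : y (r - a • (s : R)) = 0 := by
      rw [map_sub, map_smul, smul_eq_mul, ha, div_mul_cancel₀ _ hys, sub_self]
    obtain ⟨e, x', he, hex⟩ := hy _ hm
    have heu : IsUnit (algebraMap R V e) := hunit e (by rw [he]; exact one_ne_zero)
    have h2 : ϖ ∣ algebraMap R V (r - a • (s : R)) := by
      refine (heu.dvd_mul_left).1 ⟨algebraMap R V x', ?_⟩
      rw [← map_mul, hex, map_mul]
    -- (x - a z) s = z (r - a s)
    have h3 : algebraMap R V (x - a • z) * algebraMap R V (s : R) =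
        algebraMap R V z * algebraMap R V (r - a • (s : R)) := by
      rw [Algebra.smul_def, Algebra.smul_def, map_sub, map_sub, map_mul, map_mul, ← hrs, ← hu]
      ring
    have h4 : ϖ * algebraMap R V z ∣ algebraMap R V (x - a • z) := by
      refine (hs.dvd_mul_right).1 ?_
      rw [h3, mul_comm ϖ]
      exact mul_dvd_mul_left _ h2
    have h5 := IsDiscreteValuationRing.addVal_le_iff_dvd.2 h4
    rw [IsDiscreteValuationRing.addVal_mul, IsDiscreteValuationRing.addVal_uniformizer hirr] at h5
    have h6 : IsDiscreteValuationRing.addVal V (algebraMap R V z) ≠ ⊤ := by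
      intro h
      exact hz' (IsDiscreteValuationRing.addVal_eq_top_iff.1 h)
    refine lt_of_lt_of_le ?_ h5
    rw [add_comm]
    exact ENat.lt_add_one_iff h6 |>.2 le_rfl
  · intro r hr
    exact IsDiscreteValuationRing.addVal_eq_zero_iff.2 (hunit r hr)
  · exact IsDiscreteValuationRing.addVal_uniformizer hirr

end Pool.Agent.Helper54.GT
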