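import Pool.Agent.Helper54.GT.StC

/-!
# GT, part CHEB, module ET: the points above an unramified point
-/

set_option autoImplicit false

namespace Pool.Agent.Helper54.GT

open Polynomial Module

theorem eval_Et {k R : Type} [Field k] [CommRing R] [Algebra k R] [Algebra k[X] R]
    [IsScalarTower k k[X] R] (z : R →ₐ[k] k) (p : k[X]) :
    z (algebraMap k[X] R p) = p.eval (z (algebraMap k[X] R X)) := by
  have h : z.comp (IsScalarTower.toAlgHom k k[X] R) = aeval (z (algebraMap k[X] R X)) := by
    apply Polynomial.algHom_ext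
    rw [aeval_X]
    rfl
  have h2 := congrArg (fun f : k[X] →ₐ[k] k => f p) h
  rw [Polynomial.coe_aeval_eq_eval] at h2
  exact h2

theorem hEt : StEt := by
  intro F k R ι Γ _ _ _ _ _ _ _ _ _ _ _ ω act c hD y hy
  classical
  obtain ⟨t, ht⟩ : ∃ t, t = y (algebraMap k[X] R X) := ⟨_, rfl⟩
  rw [← ht]
  have hexp : ∀ (x : R) (γ : Γ),
      y (act γ x) = ∑ i, (ω.repr x i).eval t * y (act γ (ω i)) := by
    intro x γ
    conv_lhs => rw [← ω.sum_repr x]
    rw [map_sum, map_sum]
    refine Finset.sum_congr rfl (fun i _ => ?_)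
    rw [map_smul, Algebra.smul_def, map_mul, eval_Et, ← ht]
  -- a basis of `ι → k`
  have hcard : Fintype.card Γ = finrank k (ι → k) := by
    rw [finrank_fintype_fun_eq_card, hD.card]
  have hnonempty : Nonempty Γ := ⟨1⟩
  let B : Basis Γ k (ι → k) := basisOfLinearIndependentOfCardEqFinrank hy hcard
  have hB : ∀ γ i, B γ i = y (act γ (ω i)) := by
    intro γ i
    have := congrFun (coe_basisOfLinearIndependentOfCardEqFinrank hy hcard) γ
    exact congrFun this i
  -- functionals are sums
  have hfun : ∀ (f : (ι → k) →ₗ[k] k) (w : ι → k), f w = ∑ i, w i * f (Pi.single i 1) := by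
    intro f w
    conv_lhs => rw [pi_eq_sum_univ' w]
    rw [map_sum]
    refine Finset.sum_congr rfl (fun i _ => ?_)
    rw [map_smul, smul_eq_mul]
  have h2 : ∀ x : R, (∀ γ, y (act γ x) = 0) →
      ∃ x' : R, x = algebraMap k[X] R (X - C t) * x' := by
    intro x hx
    let f : (ι → k) →ₗ[k] k :=
      ∑ i, (ω.repr x i).eval t • (LinearMap.proj i : (ι → k) →ₗ[k] k)
    have hf : ∀ w, f w = ∑ i, (ω.repr x i).eval t * w i := by
      intro w
      simp [f, LinearMap.sum_apply]
    have hf0 : f = 0 := by
      apply B.ext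
      intro γ
      rw [hf, LinearMap.zero_apply, ← hx γ, hexp]
      exact Finset.sum_congr rfl (fun i _ => by rw [hB])
    have hev : ∀ i, (ω.repr x i).eval t = 0 := by
      intro i
      have h := hf (Pi.single i 1)
      rw [hf0, LinearMap.zero_apply] at h
      rw [Finset.sum_eq_single i] at h
      · rw [Pi.single_eq_same, mul_one] at h
        exact h.symm
      · intro j _ hj
        rw [Pi.single_eq_of_ne hj, mul_zero]
      · intro h
        exact absurd (Finset.mem_univ i) h
    have hdvd : ∀ i, ∃ g : k[X], ω.repr x i = (X - C t) * g := fun i =>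
      (Polynomial.dvd_iff_isRoot).2 (hev i)
    choose g hg using hdvd
    refine ⟨∑ i, g i • ω i, ?_⟩
    rw [← Algebra.smul_def, Finset.smul_sum]
    conv_lhs => rw [← ω.sum_repr x]
    refine Finset.sum_congr rfl (fun i _ => ?_)
    rw [hg i, mul_smul]
  -- the idempotents
  have h3 : ∀ γ : Γ, ∃ x : R, ∀ δ, y (act δ x) = if δ = γ then 1 else 0 := by
    intro γ
    refine ⟨∑ i, (C (B.coord γ (Pi.single i 1)) : k[X]) • ω i, ?_⟩
    intro δ
    rw [hexp]
    have h := hfun (B.coord γ) (B δ)
    rw [Basis.coord_apply, Basis.repr_self, Finsupp.single_apply] at h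
    rw [h]
    refine Finset.sum_congr rfl (fun i _ => ?_)
    rw [Basis.repr_sum_self, eval_C, hB, mul_comm]
  choose ε hε using h3
  refine ⟨?_, h2, ε 1, ?_, ?_⟩
  · intro z hz
    -- `z` in terms of the idempotents
    have hzx : ∀ x : R, z x = ∑ γ, y (act γ x) * z (ε γ) := by
      intro x
      obtain ⟨x', hx'⟩ := h2 (x - ∑ γ, (C (y (act γ x)) : k[X]) • ε γ) (by
        intro δ
        rw [map_sub, map_sub, map_sum, map_sum, Finset.sum_eq_single δ]
        · rw [map_smul, Algebra.smul_def, map_mul, eval_Et, eval_C, hε, if_pos rfl, mul_one,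
            sub_self]
        · intro γ _ hγ
          rw [map_smul, Algebra.smul_def, map_mul, hε, if_neg (Ne.symm hγ), mul_zero]
        · intro h
          exact absurd (Finset.mem_univ δ) h)
      have h4 : z (x - ∑ γ, (C (y (act γ x)) : k[X]) • ε γ) = 0 := by
        rw [hx', map_mul, eval_Et, hz, eval_sub, eval_X, eval_C, sub_self, zero_mul]
      rw [map_sub, sub_eq_zero, map_sum] at h4
      rw [h4]
      refine Finset.sum_congr rfl (fun γ _ => ?_)
      rw [Algebra.smul_def, map_mul, eval_Et, eval_C]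
    obtain ⟨γ₀, hγ₀⟩ : ∃ γ, z (ε γ) ≠ 0 := by
      by_contra hcon
      push Not at hcon
      have h5 := hzx 1
      rw [map_one, Finset.sum_eq_zero (fun γ _ => by rw [hcon γ, mul_zero])] at h5
      exact one_ne_zero h5
    refine ⟨γ₀, ?_, ?_⟩
    · intro x
      have h5 := hzx (x * ε γ₀)
      rw [map_mul, Finset.sum_eq_single γ₀] at h5
      · rw [map_mul, map_mul, hε, if_pos rfl, mul_one] at h5
        exact mul_right_cancel₀ hγ₀ h5
      · intro γ _ hγ
        rw [map_mul, map_mul, hε, if_neg hγ, mul_zero, zero_mul]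
      · intro h
        exact absurd (Finset.mem_univ γ₀) h
    · intro γ hγ
      -- uniqueness
      by_contra hne
      have h9 := hγ (ε γ₀)
      rw [hε, if_neg hne] at h9
      exact hγ₀ h9
  · have := hε 1 1
    rw [if_pos rfl, map_one] at this
    exact this
  · intro γ hγ
    rw [hε, if_neg hγ]

end Pool.Agent.Helper54.GT
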