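import Pool.Agent.Helper54.GT.StC

/-!
# GT, part CHEB, module EX: Siegel's lemma
-/

set_option autoImplicit false

namespace Pool.Agent.Helper54.GT

open Polynomial Module

theorem hEx (h1 : StSz) : StEx := by
  intro F k R ι Γ _ _ _ _ _ _ _ _ _ _ _ _ ω act c hD p μ hp hchar r l m cc hcc hlt
  classical
  have : Fact p.Prime := ⟨hp⟩
  obtain ⟨hfin, hmono, -, hmul, hpow, -, hsm, hω, -⟩ := h1 F k R ι Γ ω act c hD
  have hQ : 1 ≤ p ^ μ := Nat.one_le_pow _ _ hp.pos
  have hcharR : CharP R p := charP_of_injective_algebraMap (algebraMap k R).injective p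
  let M : ℕ := p ^ μ * (l + c) + m + c
  let J : Type := Fin r × ι × Fin (l + 1)
  let v : J → R := fun J => ((X : k[X]) ^ (J.2.2.val * p ^ μ)) • (ω J.2.1) ^ p ^ μ * cc J.1
  have hv : ∀ j, v j ∈ Sz ω M := by
    intro j
    have e1 := hpow 0 (ω j.2.1) (p ^ μ) hQ (hω j.2.1)
    have e2 := hsm _ _ ((X : k[X]) ^ (j.2.2.val * p ^ μ)) e1
    have e3 := hmul _ _ _ _ e2 (hcc j.1)
    refine hmono _ _ ?_ e3
    rw [natDegree_X_pow]
    have e4 : j.2.2.val * p ^ μ ≤ l * p ^ μ := Nat.mul_le_mul_right _ (by omega)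
    show _ ≤ p ^ μ * (l + c) + m + c
    nlinarith [e4]
  let v' : J → Sz ω M := fun j => ⟨v j, hv j⟩
  let L : (J → k) →ₗ[k] Sz ω M := Fintype.linearCombination k v'
  have hfinM := (hfin M).1
  have hker : LinearMap.ker L ≠ ⊥ := by
    apply LinearMap.ker_ne_bot_of_finrank_lt
    rw [(hfin M).2, finrank_fintype_fun_eq_card]
    show _ < Fintype.card (Fin r × ι × Fin (l + 1))
    rw [Fintype.card_prod, Fintype.card_prod, Fintype.card_fin, Fintype.card_fin]
    exact hlt
  obtain ⟨z, hz, hz0⟩ := Submodule.exists_mem_ne_zero_of_ne_bot hker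
  have hroot : ∀ j, ∃ x : k, x ^ p ^ μ = z j := fun j =>
    IsAlgClosed.exists_pow_nat_eq (z j) (by omega)
  choose x hx using hroot
  let P : Fin r → ι → k[X] := fun i j => ∑ a : Fin (l + 1), C (x (i, j, a)) * X ^ a.val
  have hPcoeff : ∀ i j (a : Fin (l + 1)), (P i j).coeff a.val = x (i, j, a) := by
    intro i j a
    simp only [P, finsetSum_coeff, coeff_C_mul, coeff_X_pow]
    rw [Finset.sum_eq_single a]
    · simp
    · intro b _ hb
      rw [if_neg (fun h => hb (Fin.ext h.symm)), mul_zero]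
    · intro h
      exact absurd (Finset.mem_univ a) h
  have hPdeg : ∀ i j, (P i j).natDegree ≤ l := by
    intro i j
    apply natDegree_sum_le_of_forall_le
    intro a _
    refine (natDegree_C_mul_X_pow_le _ _).trans ?_
    omega
  have hPpow : ∀ i j, (P i j) ^ p ^ μ =
      ∑ a : Fin (l + 1), C (z (i, j, a)) * X ^ (a.val * p ^ μ) := by
    intro i j
    simp only [P]
    rw [sum_pow_char_pow]
    refine Finset.sum_congr rfl (fun a _ => ?_)
    rw [mul_pow, ← C_pow, hx, ← pow_mul]
  refine ⟨fun i => ∑ j, P i j • ω j, ?_, ?_, ?_⟩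
  · intro h
    apply hz0
    funext ⟨i, j, a⟩
    have h2 : ∑ j, P i j • ω j = 0 := congrFun h i
    have h3 : P i j = 0 := by
      have := ω.repr_sum_self (P i)
      rw [h2, map_zero] at this
      exact (congrFun this j).symm
    have h4 := hPcoeff i j a
    rw [h3, coeff_zero] at h4
    rw [← hx, ← h4, zero_pow (by omega)]
    rfl
  · intro i j
    rw [ω.repr_sum_self]
    exact hPdeg i j
  · have h5 : L z = 0 := hz
    have h6 : ∑ j : J, z j • v j = 0 := by
      have := congrArg (Subtype.val) h5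
      rw [Fintype.linearCombination_apply] at this
      simpa [v'] using this
    rw [← h6]
    show _ = ∑ j : Fin r × ι × Fin (l + 1), z j • v j
    rw [Fintype.sum_prod_type]
    refine Finset.sum_congr rfl (fun i _ => ?_)
    rw [Fintype.sum_prod_type, sum_pow_char_pow, Finset.sum_mul]
    refine Finset.sum_congr rfl (fun j _ => ?_)
    rw [_root_.smul_pow, hPpow, Finset.sum_smul, Finset.sum_mul]
    refine Finset.sum_congr rfl (fun a _ => ?_)
    show _ = z (i, j, a) • (((X : k[X]) ^ (a.val * p ^ μ)) • (ω j) ^ p ^ μ * cc i)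
    rw [mul_smul, ← smul_mul_assoc]
    congr 1
    rw [← algebraMap_smul k[X] (z (i, j, a))]
    rfl

end Pool.Agent.Helper54.GT
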