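import Pool.Agent.Helper54.GT.StC

set_option autoImplicit false

namespace Pool.Agent.Helper54.GT

open Polynomial Module

/-- The `card F ^ e` power map as an `F`-algebra endomorphism. -/
theorem frob_Fp (F k : Type) [Field F] [Fintype F] [Field k] [Algebra F k] (e : ℕ) :
    ∃ φ : k →ₐ[F] k, ∀ x, φ x = x ^ Fintype.card F ^ e := by
  induction e with
  | zero => exact ⟨AlgHom.id F k, fun x => by simp⟩
  | succ e ih =>
    obtain ⟨φ, hφ⟩ := ih
    refine ⟨(FiniteField.frobeniusAlgHom F k).comp φ, fun x => ?_⟩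
    rw [AlgHom.comp_apply, hφ, FiniteField.frobeniusAlgHom_apply, ← pow_mul, pow_succ]

theorem map_poly_Fp {k R : Type} [Field k] [CommRing R] [Algebra k R] [Algebra k[X] R]
    [IsScalarTower k k[X] R] (y : R →ₐ[k] k) (p : k[X]) :
    y (algebraMap k[X] R p) = p.eval (y (algebraMap k[X] R X)) := by
  have h : y.comp (IsScalarTower.toAlgHom k k[X] R) = aeval (y (algebraMap k[X] R X)) := by
    apply Polynomial.algHom_ext
    simp
  have h2 := DFunLike.congr_fun h p
  rw [AlgHom.comp_apply, IsScalarTower.toAlgHom_apply] at h2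
  rw [h2, Polynomial.coe_aeval_eq_eval]

theorem map_smul_Fp {k R : Type} [Field k] [CommRing R] [Algebra k R] [Algebra k[X] R]
    [IsScalarTower k k[X] R] (y : R →ₐ[k] k) (p : k[X]) (x : R) :
    y (p • x) = p.eval (y (algebraMap k[X] R X)) * y x := by
  rw [Algebra.smul_def, map_mul, map_poly_Fp]

theorem map_sum_Fp {k R ι : Type} [Field k] [CommRing R] [Algebra k R] [Algebra k[X] R]
    [IsScalarTower k k[X] R] [Fintype ι] (ω : Basis ι k[X] R) (y : R →ₐ[k] k) (x : R) :
    y x = ∑ i, (ω.repr x i).eval (y (algebraMap k[X] R X)) * y (ω i) := by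
  conv_lhs => rw [← ω.sum_repr x]
  rw [map_sum]
  exact Finset.sum_congr rfl fun i _ => map_smul_Fp y _ _

theorem hFp (_h1 : StSz) : StFp := by
  intro F k R ι Γ _ _ _ _ _ _ _ _ _ _ _ ω act c D e y ht
  obtain ⟨φ, hφ⟩ := frob_Fp F k e
  set t := y (algebraMap k[X] R X) with htdef
  -- the linear map
  have hCsmul : ∀ (a : k) (x : R), a • x = (C a : k[X]) • x := by
    intro a x
    rw [← algebraMap_smul k[X] a x]; rfl
  let f : R →ₗ[k] k :=
    { toFun := fun x => ∑ i, (ω.repr x i).eval t * φ (y (ω i))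
      map_add' := by
        intro x z
        rw [← Finset.sum_add_distrib]
        refine Finset.sum_congr rfl fun i _ => ?_
        rw [map_add, Finsupp.add_apply, eval_add, add_mul]
      map_smul' := by
        intro a x
        rw [RingHom.id_apply, smul_eq_mul, Finset.mul_sum]
        refine Finset.sum_congr rfl fun i _ => ?_
        rw [hCsmul, map_smul, Finsupp.smul_apply, smul_eq_mul, eval_mul, eval_C, mul_assoc] }
  have hf : ∀ x, f x = ∑ i, (ω.repr x i).eval t * φ (y (ω i)) := fun x => rfl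
  have hfp : ∀ (p : k[X]) (x : R), f (p • x) = p.eval t * f x := by
    intro p x
    rw [hf, hf, Finset.mul_sum]
    refine Finset.sum_congr rfl fun i _ => ?_
    rw [map_smul, Finsupp.smul_apply, smul_eq_mul, eval_mul, mul_assoc]
  have hfω : ∀ i, f (ω i) = φ (y (ω i)) := by
    intro i
    classical
    rw [hf, Finset.sum_eq_single i]
    · rw [Basis.repr_self, Finsupp.single_eq_same, eval_one, one_mul]
    · intro j _ hj
      rw [Basis.repr_self, Finsupp.single_eq_of_ne hj, eval_zero, zero_mul]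
    · intro h; exact absurd (Finset.mem_univ i) h
  have hpoly : ∀ p ∈ PolyLE F k c, p.eval t = φ (p.eval t) := by
    rintro p ⟨p0, -, rfl⟩
    rw [eval_map_algebraMap]
    have h3 : φ (aeval t p0) = aeval (φ t) p0 := by
      exact (Polynomial.aeval_algHom_apply φ t p0).symm
    rw [h3, hφ t, ht]
  -- for elements with coordinates in `F[X]`
  have key : ∀ x : R, (∀ l, ω.repr x l ∈ PolyLE F k c) → f x = φ (y x) := by
    intro x hx
    rw [map_sum_Fp ω y x, map_sum, hf]
    refine Finset.sum_congr rfl fun i _ => ?_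
    rw [map_mul, ← htdef, ← hpoly _ (hx i)]
  have hone : f 1 = 1 := by
    rw [key 1 D.one, map_one, map_one]
  have hmulω : ∀ i j, f (ω i * ω j) = f (ω i) * f (ω j) := by
    intro i j
    rw [key _ (D.mul i j), map_mul, map_mul, hfω, hfω]
  have hmul1 : ∀ i z, f (ω i * z) = f (ω i) * f z := by
    intro i z
    conv_lhs => rw [← ω.sum_repr z, Finset.mul_sum, map_sum]
    rw [hf z, Finset.mul_sum]
    refine Finset.sum_congr rfl fun j _ => ?_
    rw [mul_smul_comm, hfp, hmulω, ← hfω]
    ring
  have hmul : ∀ x z, f (x * z) = f x * f z := by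
    intro x z
    conv_lhs => rw [← ω.sum_repr x, Finset.sum_mul, map_sum]
    rw [hf x, Finset.sum_mul]
    refine Finset.sum_congr rfl fun j _ => ?_
    rw [smul_mul_assoc, hfp, hmul1, ← hfω]
    ring
  refine ⟨AlgHom.ofLinearMap f hone hmul, ?_, fun i => ?_⟩
  · rw [AlgHom.ofLinearMap_apply]
    have h4 : (algebraMap k[X] R X) = (X : k[X]) • (1 : R) := by
      rw [Algebra.smul_def, mul_one]
    rw [h4, hfp, hone, eval_X, mul_one]
  · rw [AlgHom.ofLinearMap_apply, hfω, hφ]

end Pool.Agent.Helper54.GT
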