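import Pool.Agent.Helper54.GT.StC

/-!
# GT, part CHEB: the Frobenius twist of the coordinates
-/

set_option autoImplicit false

namespace Pool.Agent.Helper54.GT

open Polynomial Module

/-- A homomorphism to `k` on multiples of polynomials. -/
private theorem y_smul_Ft {k R : Type} [Field k] [CommRing R] [Algebra k R] [Algebra k[X] R]
    [IsScalarTower k k[X] R] (y : R →ₐ[k] k) (p : k[X]) (r : R) :
    y (p • r) = p.eval (y (algebraMap k[X] R X)) * y r := by
  have h1 := Polynomial.aeval_algHom_apply (y.comp (IsScalarTower.toAlgHom k k[X] R)) X p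
  rw [aeval_X_left_apply] at h1
  have h2 : y (algebraMap k[X] R p) = p.eval (y (algebraMap k[X] R X)) := by
    rw [← coe_aeval_eq_eval]
    exact h1.symm
  rw [Algebra.smul_def, map_mul, h2]

theorem hFt : StFt := by
  intro F k R ι Γ _ _ _ _ _ _ _ _ _ _ _ ω act e m x hx
  obtain ⟨p, hp⟩ := CharP.exists F
  obtain ⟨n, hpp, hcard⟩ := FiniteField.card F p
  have : Fact p.Prime := ⟨hpp⟩
  have : CharP k p := charP_of_injective_algebraMap (algebraMap F k).injective p
  have : ExpChar k p := ExpChar.prime hpp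
  have hQ : Fintype.card F ^ e = p ^ ((n : ℕ) * e) := by
    rw [hcard, pow_mul]
  let φ : k →+* k := iterateFrobenius k p ((n : ℕ) * e)
  have hφ : ∀ a : k, φ a = a ^ Fintype.card F ^ e := by
    intro a
    rw [hQ]
    exact iterateFrobenius_def p _ a
  refine ⟨∑ i, ((ω.repr x i).map φ) • ω i, ?_, ?_⟩
  · intro i
    rw [ω.repr_sum_self]
    exact natDegree_map_le.trans (hx i)
  · intro γ y hy
    obtain ⟨hy1, hy2⟩ := hy
    have h1 : y x = ∑ i, (ω.repr x i).eval (y (algebraMap k[X] R X)) * y (ω i) := by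
      conv_lhs => rw [← ω.sum_repr x]
      rw [map_sum]
      exact Finset.sum_congr rfl fun i _ => y_smul_Ft y _ _
    rw [← hφ, h1, map_sum, map_sum, map_sum]
    refine Finset.sum_congr rfl fun i _ => ?_
    rw [map_mul, map_smul, y_smul_Ft, ← hy2, hφ (y (ω i))]
    congr 1
    have h2 : φ (y (algebraMap k[X] R X)) = y (algebraMap k[X] R X) := by
      rw [hφ]
      exact hy1
    conv_rhs => rw [← h2]
    rw [eval_map_apply]

end Pool.Agent.Helper54.GT
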