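import Pool.Agent.Helper54.GT.StC

set_option autoImplicit false

namespace Pool.Agent.Helper54.GT

open Polynomial Module

theorem hNm (h1 : StQt) : StNm := by
  intro F k R ι Γ _ _ _ _ _ _ _ _ _ _ _ ω act c hD d Φ hΦ hd
  obtain ⟨hfin, hrk⟩ := h1 F k R ι Γ ω act c hD d Φ hΦ hd
  set n := Fintype.card ι * (d + c) with hn
  let T : degreeLT k (n + 1) →ₗ[k] (R ⧸ Ideal.span {Φ}) :=
    (Ideal.Quotient.mkₐ k (Ideal.span {Φ})).toLinearMap ∘ₗ
      (IsScalarTower.toAlgHom k k[X] R).toLinearMap ∘ₗ (degreeLT k (n + 1)).subtype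
  have hdim : finrank k (degreeLT k (n + 1)) = n + 1 := by
    rw [(degreeLTEquiv k (n + 1)).finrank_eq, finrank_fin_fun]
  have : Module.Finite k (degreeLT k (n + 1)) := Module.Finite.equiv (degreeLTEquiv k (n + 1)).symm
  have hker : LinearMap.ker T ≠ ⊥ := by
    apply LinearMap.ker_ne_bot_of_finrank_lt
    rw [hdim]
    omega
  obtain ⟨p, hp, hp0⟩ := (Submodule.ne_bot_iff _).1 hker
  refine ⟨p.1, fun h => hp0 (Subtype.ext h), ?_, ?_⟩
  · have := mem_degreeLT.1 p.2
    have h0 : p.1 ≠ 0 := fun h => hp0 (Subtype.ext h)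
    rw [degree_eq_natDegree h0] at this
    have h2 : p.1.natDegree < n + 1 := by exact_mod_cast this
    omega
  · rw [LinearMap.mem_ker] at hp
    have h3 : Ideal.Quotient.mk (Ideal.span {Φ}) (algebraMap k[X] R p.1) = 0 := hp
    rw [Ideal.Quotient.eq_zero_iff_mem, Ideal.mem_span_singleton] at h3
    exact h3

end Pool.Agent.Helper54.GT
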