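import Pool.Agent.Helper54.GT.StC

/-!
# Module Nz: nonvanishing from distinct valuations
-/

set_option autoImplicit false

namespace Pool.Agent.Helper54.GT

open Polynomial Module

theorem hNz : StNz := by
  classical
  intro k R _ _ _ _ _ v hv r Q b ν hb hinj hν hne hsum
  obtain ⟨i1, hi1⟩ := Function.ne_iff.mp hne
  have hnt : (1 : R) ≠ 0 := by
    intro h
    apply hb i1
    rw [← mul_one (b i1), h, mul_zero]
  -- the value of `1` and `-1`
  have h1 : v 1 = 0 := by
    have h := hv.mul 1 1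
    rw [mul_one] at h
    have hfin : v 1 ≠ ⊤ := fun h' => hnt ((hv.top_iff 1).1 h')
    obtain ⟨n, hn⟩ := ENat.ne_top_iff_exists.1 hfin
    rw [← hn] at h ⊢
    have h2 : n = n + n := by exact_mod_cast h
    have h3 : n = 0 := by omega
    rw [h3]
    rfl
  have hm1 : v (-1) = 0 := by
    have h := hv.mul (-1) (-1)
    rw [neg_mul_neg, mul_one, h1] at h
    exact (add_eq_zero.1 h.symm).1
  have hneg : ∀ x, v (-x) = v x := by
    intro x
    have h := hv.mul (-1) x
    rw [neg_one_mul, hm1, zero_add] at h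
    exact h
  have hpow : ∀ (x : R) (n : ℕ), v (x ^ n) = n * v x := by
    intro x n
    induction n with
    | zero => rw [pow_zero, h1]; simp
    | succ n ih =>
      rw [pow_succ, hv.mul, ih]
      push_cast
      rw [add_mul, one_mul]
  have hz : v 0 = ⊤ := (hv.top_iff 0).2 rfl
  -- sums of elements of large value
  have hbig : ∀ (c : ℕ∞) (S : Finset (Fin r)) (x : Fin r → R), c < ⊤ → (∀ i ∈ S, c < v (x i)) →
      c < v (∑ i ∈ S, x i) := by
    intro c S x hc
    induction S using Finset.induction_on with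
    | empty => intro _; rw [Finset.sum_empty, hz]; exact hc
    | insert a S ha ih =>
      intro h
      rw [Finset.sum_insert ha]
      exact lt_of_lt_of_le (lt_min (h a (Finset.mem_insert_self a S))
        (ih (fun i hi => h i (Finset.mem_insert_of_mem hi)))) (hv.add _ _)
  -- natural numbers
  have hnat : ∀ i, ν i ≠ 0 → ∃ a m : ℕ, a < Q ∧ v (b i) = m ∧
      v (ν i * b i ^ Q) = ((a + Q * m : ℕ) : ℕ∞) := by
    intro i hi
    have hlt := hν i hi
    obtain ⟨a, ha⟩ := ENat.ne_top_iff_exists.1 (ne_top_of_lt hlt)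
    obtain ⟨m, hm⟩ := ENat.ne_top_iff_exists.1 (fun h => hb i ((hv.top_iff _).1 h))
    refine ⟨a, m, ?_, hm.symm, ?_⟩
    · rw [← ha] at hlt
      exact_mod_cast hlt
    · rw [hv.mul, hpow, ← ha, ← hm]
      push_cast
      rfl
  have hdist : ∀ i j, ν i ≠ 0 → ν j ≠ 0 → v (ν i * b i ^ Q) = v (ν j * b j ^ Q) → i = j := by
    intro i j hi hj h
    obtain ⟨a, m, haQ, hm, hE⟩ := hnat i hi
    obtain ⟨a', m', haQ', hm', hE'⟩ := hnat j hj
    rw [hE, hE'] at h
    have h2 : a + Q * m = a' + Q * m' := by exact_mod_cast h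
    have h3 : m = m' := by
      have e1 : (a + Q * m) / Q = m := by
        rw [Nat.add_mul_div_left _ _ (by omega), Nat.div_eq_of_lt haQ, zero_add]
      have e2 : (a' + Q * m') / Q = m' := by
        rw [Nat.add_mul_div_left _ _ (by omega), Nat.div_eq_of_lt haQ', zero_add]
      rw [← e1, ← e2, h2]
    apply hinj
    show v (b i) = v (b j)
    rw [hm, hm', h3]
  -- the term with the least value
  let S : Finset (Fin r) := Finset.univ.filter (fun i => ν i ≠ 0)
  have hSne : S.Nonempty := ⟨i1, by simpa [S] using hi1⟩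
  obtain ⟨i0, hi0, hmin⟩ := Finset.exists_min_image S (fun i => v (ν i * b i ^ Q)) hSne
  have hi0' : ν i0 ≠ 0 := by simpa [S] using hi0
  have hsplit : ∑ i, ν i * b i ^ Q = ν i0 * b i0 ^ Q + ∑ i ∈ S.erase i0, ν i * b i ^ Q := by
    have e1 : ∑ i, ν i * b i ^ Q = ∑ i ∈ S, ν i * b i ^ Q := by
      symm
      apply Finset.sum_subset (Finset.subset_univ S)
      intro i _ hi
      have : ν i = 0 := by
        by_contra h
        exact hi (by simpa [S] using h)
      rw [this, zero_mul]
    rw [e1, Finset.add_sum_erase S (fun i => ν i * b i ^ Q) hi0]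
  rw [hsplit] at hsum
  have h4 : ∑ i ∈ S.erase i0, ν i * b i ^ Q = -(ν i0 * b i0 ^ Q) := by
    rw [add_comm] at hsum
    exact eq_neg_of_add_eq_zero_left hsum
  have hfin : v (ν i0 * b i0 ^ Q) < ⊤ := by
    obtain ⟨a, m, -, -, hE⟩ := hnat i0 hi0'
    rw [hE]
    exact ENat.natCast_lt_top _
  have h5 := hbig (v (ν i0 * b i0 ^ Q)) (S.erase i0) (fun i => ν i * b i ^ Q) hfin (by
    intro i hi
    have hiS := Finset.mem_of_mem_erase hi
    have hii := Finset.ne_of_mem_erase hi
    have hi' : ν i ≠ 0 := by simpa [S] using hiS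
    exact lt_of_le_of_ne (hmin i hiS) (fun h => hii (hdist i0 i hi0' hi' h).symm))
  rw [h4, hneg] at h5
  exact lt_irrefl _ h5

end Pool.Agent.Helper54.GT
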