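import Pool.Agent.Helper54.GT.StC

/-! MP_1d384c_nt, project GT, part CHEB: points of `R` above a point of the line. -/

set_option autoImplicit false

namespace Pool.Agent.Helper54.GT

open Polynomial Module

/-- The value of a homomorphism in coordinates. -/
theorem eval_Pt {k R : Type} [Field k] [CommRing R] [Algebra k R]
    [Algebra k[X] R] [IsScalarTower k k[X] R] (y : R →ₐ[k] k) (p : k[X]) :
    y (algebraMap k[X] R p) = p.eval (y (algebraMap k[X] R X)) := by
  induction p using Polynomial.induction_on' with
  | add p q hp hq => rw [map_add, map_add, hp, hq, eval_add]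
  | monomial n a =>
    rw [← C_mul_X_pow_eq_monomial, map_mul, map_mul, map_pow, map_pow, eval_mul, eval_C, eval_pow,
      eval_X]
    have h1 : algebraMap k[X] R (C a) = algebraMap k R a := by
      rw [IsScalarTower.algebraMap_apply k k[X] R]
      rfl
    rw [h1, AlgHom.commutes]
    rfl

theorem hPt : StPt := by
  intro F k R ι Γ _ _ _ _ _ _ _ _ _ _ _ ω act c hD t
  classical
  have hcard : 0 < Fintype.card ι := by
    rw [← hD.card]
    exact Fintype.card_pos
  obtain ⟨i0⟩ := Fintype.card_pos_iff.1 hcard
  have hfin : Module.Finite k[X] R := Module.Finite.of_basis ω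
  have hint : Algebra.IsIntegral k[X] R := Algebra.IsIntegral.of_finite k[X] R
  have hinj : ∀ p : k[X], algebraMap k[X] R p = 0 → p = 0 := by
    intro p hp
    have h1 : p • ω i0 = 0 := by rw [Algebra.smul_def, hp, zero_mul]
    have h2 := congrArg (fun z => ω.repr z i0) h1
    simpa using h2
  refine ⟨?_, ?_⟩
  · -- existence
    have hmax : (Ideal.span {X - C t} : Ideal k[X]).IsMaximal := by
      have := PrincipalIdealRing.isMaximal_of_irreducible (irreducible_X_sub_C t)
      exact this
    obtain ⟨Q, hQ, hcomap⟩ := Ideal.exists_ideal_over_maximal_of_isIntegral (S := R)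
      (Ideal.span {X - C t} : Ideal k[X]) (by
        intro p hp
        rw [hinj p hp]
        exact Ideal.zero_mem _)
    have hX : algebraMap k[X] R (X - C t) ∈ Q := by
      have : (X - C t : k[X]) ∈ Ideal.comap (algebraMap k[X] R) Q := by
        rw [hcomap]
        exact Ideal.subset_span rfl
      exact this
    have hCk : ∀ a : k, algebraMap k[X] R (C a) = algebraMap k R a := by
      intro a
      rw [IsScalarTower.algebraMap_apply k k[X] R]
      rfl
    have hcomp : (algebraMap k (R ⧸ Q)).comp (evalRingHom t) =
        (Ideal.Quotient.mk Q).comp (algebraMap k[X] R) := by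
      refine Polynomial.ringHom_ext ?_ ?_
      · intro a
        simp only [RingHom.comp_apply, coe_evalRingHom, eval_C]
        rw [hCk]
        rfl
      · simp only [RingHom.comp_apply, coe_evalRingHom, eval_X]
        have h1 : Ideal.Quotient.mk Q (algebraMap k[X] R (X - C t)) = 0 :=
          Ideal.Quotient.eq_zero_iff_mem.2 hX
        rw [map_sub, map_sub, hCk, sub_eq_zero] at h1
        rw [h1]
        rfl
    have hint2 : Algebra.IsIntegral k (R ⧸ Q) := by
      refine ⟨fun z => ?_⟩
      obtain ⟨r, rfl⟩ := Ideal.Quotient.mk_surjective z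
      exact IsIntegral.map_of_comp_eq (evalRingHom t) (Ideal.Quotient.mk Q) hcomp
        (hint.isIntegral r)
    have hdom : IsDomain (R ⧸ Q) := Ideal.Quotient.isDomain Q
    have hbij : Function.Bijective (algebraMap k (R ⧸ Q)) :=
      IsAlgClosed.algebraMap_bijective_of_isIntegral
    refine ⟨((AlgEquiv.ofBijective (Algebra.ofId k (R ⧸ Q)) hbij).symm.toAlgHom.comp
      (Ideal.Quotient.mkₐ k Q)), ?_⟩
    have h2 : Ideal.Quotient.mk Q (algebraMap k[X] R X) = algebraMap k (R ⧸ Q) t := by
      have := congrArg (fun φ => φ X) hcomp
      simp only [RingHom.comp_apply, coe_evalRingHom, eval_X] at this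
      exact this.symm
    show (AlgEquiv.ofBijective (Algebra.ofId k (R ⧸ Q)) hbij).symm
      (Ideal.Quotient.mk Q (algebraMap k[X] R X)) = t
    rw [h2, AlgEquiv.symm_apply_eq]
    rfl
  · -- linear independence
    have hli : LinearIndependent k
        (fun (y : {y : R →ₐ[k] k | y (algebraMap k[X] R X) = t}) (i : ι) => y.1 (ω i)) := by
      have h1 := linearIndependent_monoidHom R k
      have h2 : LinearIndependent k
          (fun (y : {y : R →ₐ[k] k | y (algebraMap k[X] R X) = t}) => ((y.1 : R → k))) := by
        refine h1.comp (fun y : {y : R →ₐ[k] k | y (algebraMap k[X] R X) = t} =>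
          ((y.1 : R →+* k) : R →* k)) ?_
        intro y z hyz
        apply Subtype.ext
        apply AlgHom.ext
        intro x
        exact congrArg (fun φ : R →* k => φ x) hyz
      rw [linearIndependent_iff'] at h2 ⊢
      intro s g hg
      refine h2 s g ?_
      funext x
      have hx : x = ∑ i, ω.repr x i • ω i := (ω.sum_repr x).symm
      have h3 : ∀ y : {y : R →ₐ[k] k | y (algebraMap k[X] R X) = t},
          y.1 x = ∑ i, (ω.repr x i).eval t * y.1 (ω i) := by
        intro y
        conv_lhs => rw [hx]
        rw [map_sum]
        refine Finset.sum_congr rfl fun i _ => ?_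
        rw [Algebra.smul_def, map_mul, eval_Pt]
        have h4 : y.1 (algebraMap k[X] R X) = t := y.2
        rw [h4]
      have h5 : ∀ i, ∑ y ∈ s, g y * y.1 (ω i) = 0 := by
        intro i
        have := congrFun hg i
        simpa using this
      rw [Finset.sum_apply]
      simp only [Pi.smul_apply, smul_eq_mul, Pi.zero_apply]
      calc ∑ y ∈ s, g y * y.1 x = ∑ y ∈ s, ∑ i, (ω.repr x i).eval t * (g y * y.1 (ω i)) := by
            refine Finset.sum_congr rfl fun y _ => ?_
            rw [h3 y, Finset.mul_sum]
            refine Finset.sum_congr rfl fun i _ => ?_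
            ring
        _ = ∑ i, (ω.repr x i).eval t * ∑ y ∈ s, g y * y.1 (ω i) := by
            rw [Finset.sum_comm]
            refine Finset.sum_congr rfl fun i _ => ?_
            rw [Finset.mul_sum]
        _ = 0 := by simp [h5]
    have hF : Finite {y : R →ₐ[k] k | y (algebraMap k[X] R X) = t} := hli.finite
    refine ⟨hF, ?_⟩
    have := Fintype.ofFinite {y : R →ₐ[k] k | y (algebraMap k[X] R X) = t}
    have h6 := hli.fintype_card_le_finrank
    rw [Module.finrank_fintype_fun_eq_card] at h6
    rw [← Nat.card_coe_set_eq, Nat.card_eq_fintype_card]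
    exact h6

end Pool.Agent.Helper54.GT
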