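import Pool.Agent.Helper54.GT.StC

/-!
# GT module QT: the dimension of `R / Φ R`
-/

set_option autoImplicit false

namespace Pool.Agent.Helper54.GT

open Polynomial Module

theorem hQt (h1 : StSz) : StQt := by
  classical
  intro F k R ι Γ _ _ _ _ _ _ _ _ _ _ _ ω act c hD d Φ hΦ hΦd
  obtain ⟨hfin, hmono, hex, hmul, -, -, -, -, -⟩ := h1 F k R ι Γ ω act c hD
  let I : Ideal R := Ideal.span {Φ}
  let f : R →ₗ[k] (R ⧸ I) := (Ideal.Quotient.mkₐ k I).toLinearMap
  have hfs : Function.Surjective f := Ideal.Quotient.mkₐ_surjective k I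
  have hf0 : ∀ x, f (Φ * x) = 0 := by
    intro x
    exact Ideal.Quotient.eq_zero_iff_mem.2 (Ideal.mul_mem_right _ _ (Ideal.mem_span_singleton_self Φ))
  have key : ∀ s : Finset (R ⧸ I), (LinearIndependent k fun i : s => (i : R ⧸ I)) →
      s.card ≤ Fintype.card ι * (d + c) := by
    intro s hs
    choose g hg using hfs
    let g' : s → R := fun i => g i.1
    have hfg : (f ∘ g' : s → R ⧸ I) = fun i : s => (i : R ⧸ I) := by
      funext i
      exact hg i.1
    have hs' : LinearIndependent k (f ∘ g') := by rw [hfg]; exact hs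
    have hg' : LinearIndependent k g' := LinearIndependent.of_comp f hs'
    choose μ hμ using hex
    let m' : ℕ := ∑ i : s, μ (g' i)
    have hm' : ∀ i, g' i ∈ Sz ω (m' + (d + c)) := by
      intro i
      refine hmono _ _ ?_ (hμ (g' i))
      exact (Finset.single_le_sum (f := fun i => μ (g' i)) (fun _ _ => Nat.zero_le _)
        (Finset.mem_univ i)).trans (Nat.le_add_right _ _)
    have := (hfin (m' + (d + c))).1
    have := (hfin m').1
    let S1 : Submodule k R := Submodule.span k (Set.range g')
    let S2 : Submodule k R := (Sz ω m').map (LinearMap.mulLeft k Φ)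
    have hinj : Function.Injective (LinearMap.mulLeft k Φ) := by
      intro a b hab
      exact mul_left_cancel₀ hΦ hab
    have hS1 : S1 ≤ Sz ω (m' + (d + c)) := by
      apply Submodule.span_le.2
      rintro _ ⟨i, rfl⟩
      exact hm' i
    have hS2 : S2 ≤ Sz ω (m' + (d + c)) := by
      rintro _ ⟨x, hx, rfl⟩
      have h2 := hmul d m' Φ x hΦd hx
      have h3 : d + m' + c = m' + (d + c) := by ring
      rw [h3] at h2
      exact h2
    have hdisj : S1 ⊓ S2 = ⊥ := by
      have h2 : Disjoint S1 (LinearMap.ker f) := Submodule.range_ker_disjoint hs'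
      rw [← disjoint_iff]
      refine h2.mono_right ?_
      rintro _ ⟨x, hx, rfl⟩
      exact hf0 x
    have hd1 : finrank k S1 = s.card := by
      rw [finrank_span_eq_card hg', Fintype.card_coe]
    have hd2 : finrank k S2 = Fintype.card ι * (m' + 1) := by
      rw [← (hfin m').2]
      exact (LinearEquiv.finrank_eq (Submodule.equivMapOfInjective _ hinj _)).symm
    have hF1 : FiniteDimensional k S1 := FiniteDimensional.span_of_finite k (Set.finite_range g')
    have hF2 : FiniteDimensional k S2 :=
      inferInstanceAs (FiniteDimensional k ((Sz ω m').map (LinearMap.mulLeft k Φ)))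
    have hsup := Submodule.finrank_sup_add_finrank_inf_eq S1 S2
    rw [hdisj, finrank_bot, add_zero, hd1, hd2] at hsup
    have hle : finrank k (S1 ⊔ S2 : Submodule k R) ≤ finrank k (Sz ω (m' + (d + c))) :=
      Submodule.finrank_mono (sup_le hS1 hS2)
    rw [hsup, (hfin _).2] at hle
    have h4 : Fintype.card ι * (m' + (d + c) + 1) =
        Fintype.card ι * (d + c) + Fintype.card ι * (m' + 1) := by ring
    omega
  have hrank : Module.rank k (R ⧸ I) ≤ ((Fintype.card ι * (d + c) : ℕ) : Cardinal) := rank_le key
  constructor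
  · exact Module.rank_lt_aleph0_iff.1 (hrank.trans_lt (Cardinal.natCast_lt_aleph0))
  · exact Module.finrank_le_of_rank_le hrank

end Pool.Agent.Helper54.GT
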