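import Pool.Agent.Helper54.GT.StC

set_option autoImplicit false

namespace Pool.Agent.Helper54.GT

open Polynomial Module

theorem map_poly_Ts {k R : Type} [Field k] [CommRing R] [Algebra k R] [Algebra k[X] R]
    [IsScalarTower k k[X] R] (y : R →ₐ[k] k) (p : k[X]) :
    y (algebraMap k[X] R p) = p.eval (y (algebraMap k[X] R X)) := by
  have h : y.comp (IsScalarTower.toAlgHom k k[X] R) = aeval (y (algebraMap k[X] R X)) := by
    apply Polynomial.algHom_ext
    simp
  have h2 := DFunLike.congr_fun h p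
  rw [AlgHom.comp_apply, IsScalarTower.toAlgHom_apply] at h2
  rw [h2, Polynomial.coe_aeval_eq_eval]

theorem map_sum_Ts {k R ι : Type} [Field k] [CommRing R] [Algebra k R] [Algebra k[X] R]
    [IsScalarTower k k[X] R] [Fintype ι] (ω : Basis ι k[X] R) (y : R →ₐ[k] k) (x : R) :
    y x = ∑ i, (ω.repr x i).eval (y (algebraMap k[X] R X)) * y (ω i) := by
  conv_lhs => rw [← ω.sum_repr x]
  rw [map_sum]
  exact Finset.sum_congr rfl fun i _ => by rw [Algebra.smul_def, map_mul, map_poly_Ts]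

/-- The conjugate of a point. -/
noncomputable def conj_Ts {k R : Type} [Field k] [CommRing R] [Algebra k R] [Algebra k[X] R]
    [IsScalarTower k k[X] R] (y : R →ₐ[k] k) (g : R ≃ₐ[k[X]] R) : R →ₐ[k] k :=
  y.comp ((g : R →ₐ[k[X]] R).restrictScalars k)

theorem conj_apply_Ts {k R : Type} [Field k] [CommRing R] [Algebra k R] [Algebra k[X] R]
    [IsScalarTower k k[X] R] (y : R →ₐ[k] k) (g : R ≃ₐ[k[X]] R) (x : R) :
    conj_Ts y g x = y (g x) := rfl

theorem hTs (h1 : StDl) (h2 : StEt) (h3 : StPt) (h4 : StZr) (h5 : StFp) : StTs := by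
  classical
  intro F k R ι Γ _ _ _ _ _ _ _ _ _ _ _ _ _ ω act c D
  obtain ⟨Δ, hΔ0, hΔs, hΔ⟩ := h1 F k R ι Γ ω act c D
  obtain ⟨hfin, hcard⟩ := h4 F k R ι Γ ω act c D _ Δ hΔ0 hΔs
  refine ⟨hfin.toFinset.image (fun y => y (algebraMap k[X] R X)), ?_, ?_⟩
  · refine Finset.card_image_le.trans ?_
    rwa [← Set.ncard_eq_toFinset_card _ hfin]
  · intro t ht
    have hne : ∀ y : R →ₐ[k] k, y (algebraMap k[X] R X) = t → y Δ ≠ 0 := by
      intro y hy h0
      apply ht
      rw [Finset.mem_image]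
      exact ⟨y, by simpa using h0, hy⟩
    have hconjX : ∀ (y : R →ₐ[k] k) (γ : Γ),
        conj_Ts y (act γ) (algebraMap k[X] R X) = y (algebraMap k[X] R X) := by
      intro y γ
      rw [conj_apply_Ts, AlgEquiv.commutes]
    have hEt := fun (y : R →ₐ[k] k) (hy : y (algebraMap k[X] R X) = t) =>
      (h2 F k R ι Γ ω act c D y (hΔ y (hne y hy))).1
    refine ⟨?_, ?_, ?_⟩
    · obtain ⟨y0, hy0⟩ := (h3 F k R ι Γ ω act c D t).1
      have hrange : {y : R →ₐ[k] k | y (algebraMap k[X] R X) = t} =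
          Set.range (fun γ : Γ => conj_Ts y0 (act γ)) := by
        ext z
        simp only [Set.mem_ofPred_eq, Set.mem_range]
        constructor
        · intro hz
          obtain ⟨γ, hγ, -⟩ := hEt y0 hy0 z (hz.trans hy0.symm)
          exact ⟨γ, AlgHom.ext fun x => (hγ x).symm⟩
        · rintro ⟨γ, rfl⟩
          rw [hconjX, hy0]
      have hinj : Function.Injective (fun γ : Γ => conj_Ts y0 (act γ)) := by
        intro γ γ' h
        obtain ⟨γ₁, -, hu⟩ := hEt y0 hy0 (conj_Ts y0 (act γ)) (hconjX y0 γ)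
        have e1 := hu γ fun x => rfl
        have e2 := hu γ' fun x => by
          rw [show conj_Ts y0 (act γ) = conj_Ts y0 (act γ') from h]; rfl
        exact e1.trans e2.symm
      rw [hrange, ← Set.image_univ, Set.ncard_image_of_injective _ hinj, Set.ncard_univ,
        Nat.card_eq_fintype_card, D.card]
    · intro y hy z hz
      obtain ⟨γ, hγ, -⟩ := hEt y hy z (hz.trans hy.symm)
      exact ⟨γ, hγ⟩
    · intro e hte y hy
      obtain ⟨y', hy'X, hy'⟩ := h5 F k R ι Γ ω act c D e y (by rw [hy, hte])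
      obtain ⟨γ, hγ, hu⟩ := hEt y hy y' hy'X
      refine ⟨γ, ⟨by rw [hy, hte], fun i => ?_⟩, ?_⟩
      · rw [← hy' i, hγ]
      · intro γ' hγ'
        apply hu γ'
        intro x
        rw [map_sum_Ts ω y' x, ← conj_apply_Ts, map_sum_Ts ω (conj_Ts y (act γ')) x, hconjX,
          hy'X]
        refine Finset.sum_congr rfl fun i _ => ?_
        rw [hy' i, hγ'.2 i, conj_apply_Ts]

end Pool.Agent.Helper54.GT
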