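import Pool.Agent.Helper54.GT.M_Ch

/-! GT, CHEB: module Up (helper27): the choice of the parameters. -/

set_option autoImplicit false

namespace Pool.Agent.Helper54.GT

open Polynomial Module

/-- the parameters -/
theorem num_Up (N c Q₁ Q₂ : ℕ) (hN : 1 ≤ N) (h12 : Q₁ ≤ Q₂) (hb : 8 * N * (c + 1) ≤ Q₁) :
    ∃ l m : ℕ, N * (Q₁ * (l + c) + (m + c) + c + 1) < N * (m + 1) * (N * (l + 1)) ∧
      N * (l + c) < Q₂ ∧
      N * (l + Q₂ * (m + c) + c + c) ≤ Q₁ * Q₂ + 27 * N * (c + 1) * Q₂ := by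
  have hN4 : 0 < 4 * N := by omega
  obtain ⟨l, hl⟩ : ∃ l, l = Q₁ / (4 * N) := ⟨_, rfl⟩
  obtain ⟨Y, hY⟩ : ∃ Y, Y = 8 * N * (3 * c + 2) := ⟨_, rfl⟩
  obtain ⟨m, hm⟩ : ∃ m, m = (Q₁ + Y) / N := ⟨_, rfl⟩
  have l1 : 4 * N * l ≤ Q₁ := by rw [hl]; exact Nat.mul_div_le _ _
  have l2 : Q₁ < 4 * N * (l + 1) := by
    rw [hl]; exact Nat.lt_mul_div_succ Q₁ hN4
  have m1 : N * m ≤ Q₁ + Y := by rw [hm]; exact Nat.mul_div_le _ _
  have m2 : Q₁ + Y < N * (m + 1) := by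
    rw [hm]; exact Nat.lt_mul_div_succ (Q₁ + Y) (by omega)
  have m3 : m ≤ Q₁ + Y := by rw [hm]; exact Nat.div_le_self _ _
  have q8 : 8 * N ≤ Q₁ := by nlinarith
  have l3 : Q₁ ≤ 8 * N * l := by nlinarith
  have hQ1 : 1 ≤ Q₁ := by omega
  refine ⟨l, m, ?_, ?_, ?_⟩
  · have h1 : Y * l ≥ Q₁ * (3 * c + 2) := by
      rw [hY]
      calc 8 * N * (3 * c + 2) * l = (8 * N * l) * (3 * c + 2) := by ring
        _ ≥ Q₁ * (3 * c + 2) := Nat.mul_le_mul_right _ l3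
    have h2 : (Q₁ + Y + 1) * (l + 1) ≤ N * (m + 1) * (l + 1) := Nat.mul_le_mul_right _ m2
    have h3 : Q₁ * (l + c) + (m + c) + c + 1 < (Q₁ + Y + 1) * (l + 1) := by
      have h4 : c ≤ Q₁ * c := Nat.le_mul_of_pos_left c hQ1
      nlinarith
    have h5 : Q₁ * (l + c) + (m + c) + c + 1 < N * (m + 1) * (l + 1) := lt_of_lt_of_le h3 h2
    calc N * (Q₁ * (l + c) + (m + c) + c + 1) < N * (N * (m + 1) * (l + 1)) :=
          Nat.mul_lt_mul_of_pos_left h5 (by omega)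
      _ = N * (m + 1) * (N * (l + 1)) := by ring
  · nlinarith
  · have hQ2 : 1 ≤ Q₂ := by omega
    have h1 : N * l ≤ Q₂ := by nlinarith
    have h2 : Q₂ * (N * m) ≤ Q₂ * (Q₁ + Y) := Nat.mul_le_mul_left _ m1
    have h3 : N * c ≤ N * c * Q₂ := Nat.le_mul_of_pos_right _ hQ2
    have h4 : Q₂ ≤ N * Q₂ := Nat.le_mul_of_pos_left _ hN
    rw [hY] at h2
    nlinarith

theorem hUp (h1 : StUb) (h2 : StPt) : StUp := by
  classical
  intro F _ _ N
  obtain ⟨p, hp⟩ := CharP.exists F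
  obtain ⟨a, hpp, ha⟩ := FiniteField.card F p
  have hp0 : 0 < p := hpp.pos
  refine ⟨30 * (N + 1) ^ 2 * p, by positivity, ?_⟩
  intro k R ι Γ _ _ _ _ _ _ _ _ _ _ _ ω act c hD hN γ e he
  have : CharP k p := charP_of_injective_algebraMap (algebraMap F k).injective p
  have hN1 : 1 ≤ N := by
    rw [← hN, ← hD.card]
    exact Fintype.card_pos
  obtain ⟨A, hA⟩ : ∃ A, A = (a : ℕ) * e := ⟨_, rfl⟩
  have hQ : p ^ (A / 2) * p ^ (A - A / 2) = Fintype.card F ^ e := by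
    rw [← pow_add, ha, ← pow_mul, ← hA]
    congr 1
    omega
  have h12 : p ^ (A / 2) ≤ p ^ (A - A / 2) := Nat.pow_le_pow_right hp0 (by omega)
  have h21 : p ^ (A - A / 2) ≤ p * p ^ (A / 2) := by
    rw [← pow_succ']
    exact Nat.pow_le_pow_right hp0 (by omega)
  -- `Q₂ ≤ p √(q^e)`
  set Q₁ := p ^ (A / 2) with hQ1
  set Q₂ := p ^ (A - A / 2) with hQ2
  have hqe : (Fintype.card F : ℝ) ^ e = (Q₁ : ℝ) * Q₂ := by
    exact_mod_cast hQ.symm
  have hp1 : (1 : ℝ) ≤ p := by exact_mod_cast hp0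
  have hQ2s : (Q₂ : ℝ) ≤ p * Real.sqrt ((Fintype.card F : ℝ) ^ e) := by
    have h3 : (Q₂ : ℝ) ≤ p * Q₁ := by exact_mod_cast h21
    have h4 : (0 : ℝ) ≤ Q₂ := Nat.cast_nonneg _
    have h6 : (0 : ℝ) ≤ Q₁ := Nat.cast_nonneg _
    have h5 : (Q₂ : ℝ) ^ 2 ≤ (p * Real.sqrt ((Fintype.card F : ℝ) ^ e)) ^ 2 := by
      rw [mul_pow, Real.sq_sqrt (by positivity), hqe]
      calc (Q₂ : ℝ) ^ 2 = Q₂ * Q₂ := by ring
        _ ≤ (p * Q₁) * Q₂ := mul_le_mul_of_nonneg_right h3 h4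
        _ = p * (Q₁ * Q₂) := by ring
        _ ≤ p ^ 2 * (Q₁ * Q₂) := by
          refine mul_le_mul_of_nonneg_right ?_ (by positivity)
          nlinarith
    exact (pow_le_pow_iff_left₀ h4 (by positivity) (by norm_num)).1 h5
  have hN1' : (1 : ℝ) ≤ N := by exact_mod_cast hN1
  have hc0 : (0 : ℝ) ≤ c := Nat.cast_nonneg c
  set s := Real.sqrt ((Fintype.card F : ℝ) ^ e) with hs
  have hs0 : 0 ≤ s := Real.sqrt_nonneg _
  rcases Nat.lt_or_ge Q₁ (8 * N * (c + 1)) with hsm | hbg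
  · -- the trivial bound
    obtain ⟨T, hT, hTm⟩ := roots_Ch F k e he
    have hfib := fun t : k => h2 F k R ι Γ ω act c hD t
    have hsub : Pts F ω act γ e ⊆
        ((T.biUnion (fun t => (hfib t).2.1.toFinset) : Finset (R →ₐ[k] k)) : Set (R →ₐ[k] k)) := by
      intro y hy
      rw [Finset.mem_coe, Finset.mem_biUnion]
      exact ⟨y (algebraMap k[X] R X), (hTm _).2 hy.1, (Set.Finite.mem_toFinset _).2 rfl⟩
    refine ⟨(Finset.finite_toSet _).subset hsub, ?_⟩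
    have h3 : (Pts F ω act γ e).ncard ≤ Q₁ * Q₂ * N := by
      calc (Pts F ω act γ e).ncard ≤ _ := Set.ncard_le_ncard hsub (Finset.finite_toSet _)
        _ = (T.biUnion (fun t => (hfib t).2.1.toFinset)).card := Set.ncard_coe_finset _
        _ ≤ ∑ t ∈ T, ((hfib t).2.1.toFinset).card := Finset.card_biUnion_le
        _ ≤ ∑ _t ∈ T, N := by
            refine Finset.sum_le_sum fun t _ => ?_
            exact (Set.ncard_eq_toFinset_card _ (hfib t).2.1).symm.le.trans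
              ((hfib t).2.2.trans hN.le)
        _ = Q₁ * Q₂ * N := by rw [Finset.sum_const, smul_eq_mul, hT, ← hQ]
    have h4 : ((Pts F ω act γ e).ncard : ℝ) ≤ Q₁ * Q₂ * N := by exact_mod_cast h3
    have h5 : (Q₁ : ℝ) ≤ 8 * N * (c + 1) := by exact_mod_cast hsm.le
    have h6 : (0 : ℝ) ≤ Q₁ := Nat.cast_nonneg _
    have h7 : (0 : ℝ) ≤ Q₂ := Nat.cast_nonneg _
    rw [hqe]
    have h8 : (Q₁ : ℝ) * Q₂ * N ≤ 8 * N * (c + 1) * (p * s) * N := by
      refine mul_le_mul_of_nonneg_right ?_ (by positivity)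
      exact mul_le_mul h5 hQ2s h7 (by positivity)
    have h9 : 8 * (N : ℝ) * (c + 1) * (p * s) * N ≤ 30 * (N + 1) ^ 2 * p * (c + 1) * s := by
      have h10 : 8 * (N : ℝ) * (c + 1) * (p * s) * N = 8 * N ^ 2 * (p * (c + 1) * s) := by ring
      have h11 : 30 * ((N : ℝ) + 1) ^ 2 * p * (c + 1) * s =
          30 * (N + 1) ^ 2 * (p * (c + 1) * s) := by ring
      rw [h10, h11]
      refine mul_le_mul_of_nonneg_right ?_ (by positivity)
      nlinarith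
    have h12 : (0 : ℝ) ≤ Q₁ * Q₂ := by positivity
    linarith
  · obtain ⟨l, m, c1, c2, c3⟩ := num_Up N c Q₁ Q₂ hN1 h12 hbg
    have h3 := h1 F k R ι Γ ω act c hD p (A / 2) (A - A / 2) e hpp this hQ l m
      (by rw [hN]; exact c1) (by rw [hN]; exact c2) γ
    refine ⟨h3.1, ?_⟩
    have h4 := h3.2
    rw [hN] at h4
    have h5 : ((Pts F ω act γ e).ncard : ℝ) ≤ Q₁ * Q₂ + 27 * N * (c + 1) * Q₂ := by
      exact_mod_cast h4.trans c3
    rw [hqe]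
    have h6 : 27 * (N : ℝ) * (c + 1) * Q₂ ≤ 27 * N * (c + 1) * (p * s) :=
      mul_le_mul_of_nonneg_left hQ2s (by positivity)
    have h7 : 27 * (N : ℝ) * (c + 1) * (p * s) ≤ 30 * (N + 1) ^ 2 * p * (c + 1) * s := by
      have h10 : 27 * (N : ℝ) * (c + 1) * (p * s) = 27 * N * (p * (c + 1) * s) := by ring
      have h11 : 30 * ((N : ℝ) + 1) ^ 2 * p * (c + 1) * s =
          30 * (N + 1) ^ 2 * (p * (c + 1) * s) := by ring
      rw [h10, h11]
      refine mul_le_mul_of_nonneg_right ?_ (by positivity)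
      nlinarith
    linarith

end Pool.Agent.Helper54.GT
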