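import Pool.Agent.Helper54.GT.StC

set_option autoImplicit false

namespace Pool.Agent.Helper54.GT

open Polynomial Module

section helpers_Vl

variable {k R ι : Type} [Field k] [CommRing R] [Nontrivial R] [Algebra k R] [Algebra k[X] R]
  [IsScalarTower k k[X] R]

lemma algebraMap_ne_zero_Vl (ω : Basis ι k[X] R) (p : k[X]) (hp : p ≠ 0) :
    algebraMap k[X] R p ≠ 0 := by
  intro h
  have h1 : ω.repr (p • (1 : R)) = 0 := by
    rw [Algebra.smul_def, h, zero_mul, map_zero]
  rw [map_smul] at h1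
  have h2 : ω.repr (1 : R) ≠ 0 := by
    intro h3
    exact one_ne_zero (ω.repr.map_eq_zero_iff.1 h3)
  obtain ⟨i, hi⟩ := Finsupp.ne_iff.1 h2
  have h4 := DFunLike.congr_fun h1 i
  rw [Finsupp.smul_apply, smul_eq_mul] at h4
  simp only [Finsupp.coe_zero, Pi.zero_apply] at h4 hi
  rcases mul_eq_zero.1 h4 with h5 | h5
  · exact hp h5
  · exact hi h5

lemma eval_Vl (y : R →ₐ[k] k) (p : k[X]) :
    y (algebraMap k[X] R p) = p.eval (y (algebraMap k[X] R X)) := by
  have h : y.comp (IsScalarTower.toAlgHom k k[X] R) = aeval (y (algebraMap k[X] R X)) := by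
    apply Polynomial.algHom_ext
    simp
  have h2 := DFunLike.congr_fun h p
  simpa [Polynomial.aeval_def] using h2

end helpers_Vl

theorem hVl (h1 : StDl) (h2 : StEt) (h3 : StPt) (h4 : StZr) (h5 : StDv) : StVl := by
  intro F k R ι Γ _ _ _ _ _ _ _ _ _ _ _ _ ω act c hD
  obtain ⟨Δ, hΔ0, hΔs, hΔ⟩ := h1 F k R ι Γ ω act c hD
  obtain ⟨hfin, -⟩ := h4 F k R ι Γ ω act c hD _ Δ hΔ0 hΔs
  have hinf : Infinite k := IsAlgClosed.instInfinite
  obtain ⟨t, ht⟩ := (hfin.image (fun y : R →ₐ[k] k => y (algebraMap k[X] R X))).exists_notMem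
  obtain ⟨⟨y, hy⟩, -⟩ := h3 F k R ι Γ ω act c hD t
  have hyΔ : y Δ ≠ 0 := by
    intro h0
    exact ht ⟨y, h0, hy⟩
  obtain ⟨-, hz2, e, he1, he2⟩ := h2 F k R ι Γ ω act c hD y (hΔ y hyΔ)
  have hNoe : IsNoetherianRing R := by
    have : Module.Finite k[X] R := Module.Finite.of_basis ω
    exact IsNoetherianRing.of_finite k[X] R
  have hπ0 : algebraMap k[X] R (X - C t) ≠ 0 := algebraMap_ne_zero_Vl ω _ (X_sub_C_ne_zero t)
  have hyπ : y (algebraMap k[X] R (X - C t)) = 0 := by
    rw [eval_Vl, hy]; simp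
  obtain ⟨v, hv1, hv2, hv3, hv4, hv5, hv6⟩ := h5 k R y (algebraMap k[X] R (X - C t)) hπ0 hyπ
    (by
      intro x hx
      obtain ⟨x', hx'⟩ := hz2 (e * x) (by
        intro γ
        rw [map_mul, map_mul]
        by_cases hγ : γ = 1
        · subst hγ
          rw [map_one act]
          simp [hx]
        · rw [he2 γ hγ, zero_mul])
      rw [hy] at hx'
      exact ⟨e, x', he1, hx'⟩)
  refine ⟨v, ⟨hv1, hv2, hv3, hv4, ?_⟩⟩
  intro p hp
  obtain ⟨q, hq, hnd⟩ := exists_eq_pow_rootMultiplicity_mul_and_not_dvd p hp t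
  have hq0 : v (algebraMap k[X] R q) = 0 := by
    apply hv5
    rw [eval_Vl, hy]
    intro h0
    exact hnd (dvd_iff_isRoot.2 h0)
  have hpow : ∀ j : ℕ, v (algebraMap k[X] R (X - C t) ^ j) = j := by
    intro j
    induction j with
    | zero =>
      rw [pow_zero]
      have : v 1 = 0 := hv5 1 (by rw [map_one]; exact one_ne_zero)
      rw [this]; simp
    | succ j ih =>
      rw [pow_succ, hv2, ih, hv6]
      push_cast
      rfl
  have hqne : q ≠ 0 := by
    rintro rfl
    exact hnd (dvd_zero _)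
  have hdeg : p.natDegree = p.rootMultiplicity t + q.natDegree := by
    conv_lhs => rw [hq]
    rw [natDegree_mul (pow_ne_zero _ (X_sub_C_ne_zero t)) hqne, natDegree_pow, natDegree_X_sub_C,
      mul_one]
  have hval : v (algebraMap k[X] R p) = (p.rootMultiplicity t : ℕ∞) := by
    conv_lhs => rw [hq]
    rw [map_mul, map_pow, hv2, hpow, hq0, add_zero]
  rw [hval, hdeg]
  exact_mod_cast Nat.le_add_right _ _

end Pool.Agent.Helper54.GT
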