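import Pool.Agent.Helper54.GT.StC

set_option autoImplicit false

namespace Pool.Agent.Helper54.GT

open Polynomial Module

theorem hZr (h1 : StQt) : StZr := by
  intro F k R ι Γ _ _ _ _ _ _ _ _ _ _ _ ω act c hD d Φ hΦ hΦd
  obtain ⟨hfin, hrk⟩ := h1 F k R ι Γ ω act c hD d Φ hΦ hΦd
  let Q := R ⧸ Ideal.span {Φ}
  have hker : ∀ y : R →ₐ[k] k, y Φ = 0 → ∀ a : R, a ∈ Ideal.span {Φ} → y a = 0 := by
    intro y hy a ha
    obtain ⟨b, rfl⟩ := Ideal.mem_span_singleton'.1 ha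
    rw [map_mul, hy, mul_zero]
  let f : {y : R →ₐ[k] k // y Φ = 0} → (Q →ₐ[k] k) := fun y =>
    Ideal.Quotient.liftₐ (Ideal.span {Φ}) y.1 (hker y.1 y.2)
  have hf : Function.Injective f := by
    rintro ⟨y, hy⟩ ⟨z, hz⟩ hyz
    apply Subtype.ext
    exact congrArg (fun g : Q →ₐ[k] k => g.comp (Ideal.Quotient.mkₐ k (Ideal.span {Φ}))) hyz
  have hfinQ : Finite (Q →ₐ[k] k) := Finite.algHom k Q k
  have hfinY : Finite {y : R →ₐ[k] k // y Φ = 0} := Finite.of_injective f hf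
  refine ⟨Set.finite_coe_iff.1 hfinY, ?_⟩
  refine le_trans ?_ ((card_algHom_le_finrank k Q k).trans hrk)
  exact Nat.card_le_card_of_injective f hf

end Pool.Agent.Helper54.GT
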