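import Pool.Agent.Helper54.GT.M_Sz
import Pool.Agent.Helper54.GT.M_Qt
import Pool.Agent.Helper54.GT.M_Zr
import Pool.Agent.Helper54.GT.M_Nm
import Pool.Agent.Helper54.GT.M_Pt
import Pool.Agent.Helper54.GT.M_Dl
import Pool.Agent.Helper54.GT.M_Et
import Pool.Agent.Helper54.GT.M_Dv
import Pool.Agent.Helper54.GT.M_Vl
import Pool.Agent.Helper54.GT.M_Ab
import Pool.Agent.Helper54.GT.M_Nz
import Pool.Agent.Helper54.GT.M_Ex
import Pool.Agent.Helper54.GT.M_Ft
import Pool.Agent.Helper54.GT.M_Ub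
import Pool.Agent.Helper54.GT.M_Up
import Pool.Agent.Helper54.GT.M_Fp
import Pool.Agent.Helper54.GT.M_Ts
import Pool.Agent.Helper54.GT.M_Ch

/-!
# GT: part CHEB assembled
-/

set_option autoImplicit false

namespace Pool.Agent.Helper54.GT

theorem cSz : StSz := hSz
theorem cQt : StQt := hQt cSz
theorem cZr : StZr := hZr cQt
theorem cNm : StNm := hNm cQt
theorem cPt : StPt := hPt
theorem cDl : StDl := hDl cSz
theorem cEt : StEt := hEt
theorem cDv : StDv := hDv
theorem cVl : StVl := hVl cDl cEt cPt cZr cDv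
theorem cAb : StAb := hAb
theorem cNz : StNz := hNz
theorem cEx : StEx := hEx cSz
theorem cFt : StFt := hFt
theorem cUb : StUb := hUb cSz cVl cAb cFt cEx cNm cNz cZr
theorem cUp : StUp := hUp cUb cPt
theorem cFp : StFp := hFp cSz
theorem cTs : StTs := hTs cDl cEt cPt cZr cFp
theorem cCh : StCh := hCh cUp cTs cPt

end Pool.Agent.Helper54.GT
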