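import Pool.Agent.Helper79.GT.St5

/-! # GT MODULE RKX -/

set_option autoImplicit false

namespace Pool.Agent.Helper54.GT

open Pool.Agent.Helper19.SK Pool.Agent.Helper73.DC Pool.Agent.Helper79.GS Pool.Agent.Helper79.GT Finset
open scoped Classical

private theorem rk_bound (S L R Λ T r k d : ℕ) (h1 : R ≤ Λ) (h2 : S + 2 ≤ Λ) (h3 : L + 6 ≤ Λ)
    (h4 : 16 ≤ Λ) (hr : r ≤ R) (hk : k ≤ S + 1) (hd : d ≤ L + 1) :
    (if T = 0 then 0
      else r * ((S + 2) * (L + 6) + 2) +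
        (if T = 1 then 2 + (S + 2) * (L + 6)
        else if T = 2 then 1
        else if T = 3 then 2 + k * (L + 6)
        else if T = 4 then 2 + k * (L + 6) + L + 4
        else if T = 5 then 4 + k * (L + 6) + d
        else if T = 6 then 3 + k * (L + 6)
        else 3 + (S + 2) * (L + 6))) < (14 * Λ) ^ 3 := by
  have hA : (S + 2) * (L + 6) ≤ Λ * Λ := Nat.mul_le_mul h2 h3
  have hk6 : k * (L + 6) + (L + 6) ≤ (S + 2) * (L + 6) := by
    calc k * (L + 6) + (L + 6) = (k + 1) * (L + 6) := by ring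
      _ ≤ (S + 2) * (L + 6) := Nat.mul_le_mul_right _ (by omega)
  have hr5 : r * ((S + 2) * (L + 6) + 2) ≤ Λ * (Λ * Λ + 2) :=
    Nat.mul_le_mul (hr.trans h1) (by omega)
  have hin : (if T = 1 then 2 + (S + 2) * (L + 6)
        else if T = 2 then 1
        else if T = 3 then 2 + k * (L + 6)
        else if T = 4 then 2 + k * (L + 6) + L + 4
        else if T = 5 then 4 + k * (L + 6) + d
        else if T = 6 then 3 + k * (L + 6)
        else 3 + (S + 2) * (L + 6)) ≤ Λ * Λ + 3 := by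
    split_ifs <;> omega
  have hfin : Λ * (Λ * Λ + 2) + (Λ * Λ + 3) < (14 * Λ) ^ 3 := by
    have e1 : (14 * Λ) ^ 3 = 2744 * (Λ * Λ * Λ) := by ring
    have e2 : Λ * (Λ * Λ + 2) = Λ * Λ * Λ + 2 * Λ := by ring
    have e3 : Λ * Λ ≤ Λ * Λ * Λ := Nat.le_mul_of_pos_right _ (by omega)
    have e4 : Λ ≤ Λ * Λ := Nat.le_mul_of_pos_right _ (by omega)
    rw [e1, e2]
    omega
  split_ifs at hin ⊢ <;> omega

theorem hRKX (hBNX : StBNX) (hFLX : StFLX) : Pool.Agent.Helper79.GT.StRKX := by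
  have _ := hBNX
  intro X hX w z hz
  obtain ⟨-, h0, -, hF⟩ := hFLX X hX w
  rcases hz with hz | ⟨T, r, c, a, b, u, k, m, fl, d, s, t, x, hok, hz⟩
  · rw [hz]
    refine ⟨?_, ?_⟩
    · unfold NN
      positivity
    · rw [h0]
      positivity
  · obtain ⟨-, h1, -, h2, -⟩ := hF T r c a b u k m fl d s t x hok
    rw [hz]
    refine ⟨h1, ?_⟩
    rw [h2]
    obtain ⟨-, -, hr, -, -, -, -, hk, -, -, -, hd, -⟩ := hok
    refine lt_of_lt_of_le ?_ (hX.hsz w)
    unfold rkFX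
    have e1 : Lam X w = 32 * (X.K w + 2) ^ 2 + X.R w + X.S w + 16 := rfl
    have e2 : LX X w = X.K w + 1 := rfl
    have e3 : X.K w + 2 ≤ (X.K w + 2) ^ 2 := Nat.le_self_pow (by norm_num) _
    exact rk_bound (X.S w) (LX X w) (X.R w) (Lam X w) T r k d (by omega) (by omega) (by omega)
      (by omega) hr hk hd

end Pool.Agent.Helper54.GT
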