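import Pool.Agent.Helper79.GT.St4

/-! # GT MODULE SIM -/

set_option autoImplicit false

namespace Pool.Agent.Helper54.GT

open Pool.Agent.Helper73.DC Pool.Agent.Helper79.GS Pool.Agent.Helper79.GT Finset
open scoped Classical

private theorem bnd (G C k Q T q X l : ℕ) (hX : 2 ≤ X) (hl : l ≤ X ^ q) :
    (G * (C * l ^ k + C) + l + Q + 4) * T ≤ X ^ ((G * (2 * C) + Q + 5) * T + q * k + q) := by
  have h1 : 1 ≤ X := by omega
  have hY : 1 ≤ X ^ (q * k + q) := Nat.one_le_pow _ _ h1
  have ha : l ^ k ≤ X ^ (q * k + q) := by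
    calc l ^ k ≤ (X ^ q) ^ k := Nat.pow_le_pow_left hl k
      _ = X ^ (q * k) := (pow_mul _ _ _).symm
      _ ≤ X ^ (q * k + q) := Nat.pow_le_pow_right h1 (by omega)
  have hb : l ≤ X ^ (q * k + q) := hl.trans (Nat.pow_le_pow_right h1 (by omega))
  have hc : G * (C * l ^ k + C) + l + Q + 4 ≤ (G * (2 * C) + Q + 5) * X ^ (q * k + q) := by
    generalize X ^ (q * k + q) = Y at *
    have e1 : G * (C * l ^ k + C) ≤ G * (2 * C) * Y := by
      calc G * (C * l ^ k + C) ≤ G * (C * Y + C * Y) := by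
            refine Nat.mul_le_mul_left _ (Nat.add_le_add (Nat.mul_le_mul_left _ ha) ?_)
            exact Nat.le_mul_of_pos_right _ hY
        _ = G * (2 * C) * Y := by ring
    have e2 : Q ≤ Q * Y := Nat.le_mul_of_pos_right _ hY
    have e3 : (G * (2 * C) + Q + 5) * Y = G * (2 * C) * Y + Q * Y + 5 * Y := by ring
    rw [e3]
    omega
  calc (G * (C * l ^ k + C) + l + Q + 4) * T
      ≤ (G * (2 * C) + Q + 5) * X ^ (q * k + q) * T := Nat.mul_le_mul_right _ hc
    _ = (G * (2 * C) + Q + 5) * T * X ^ (q * k + q) := by ring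
    _ ≤ X ^ ((G * (2 * C) + Q + 5) * T) * X ^ (q * k + q) := by
        refine Nat.mul_le_mul_right _ ?_
        exact (Nat.lt_two_pow_self).le.trans (Nat.pow_le_pow_left hX _)
    _ = X ^ ((G * (2 * C) + Q + 5) * T + q * k + q) := by
        rw [← pow_add, ← Nat.add_assoc]

theorem hSIM (hSM1 : StSM1) (hSM5 : StSM5) : Pool.Agent.Helper79.GT.StSIM := by
  intro D hD q
  obtain ⟨k, M, C, hM⟩ := hD
  refine ⟨(nG M * (2 * C) + nQ M + 5) * (2 + 2 * M.tapes) + q * k + q, simP M C k,
    fun N l LT hN hl hLT => hSM1 M C k N l LT hN hl hLT, fun e he w x hx => ?_⟩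
  have hX : 2 ≤ w.length + 2 := by omega
  have hΛ := bnd (nG M) C k (nQ M) (2 + 2 * M.tapes) q (w.length + 2) x.length hX hx
  have hG : 1 ≤ nG M := by
    unfold nG
    omega
  have hT : 2 + 2 * M.tapes ≠ 0 := by omega
  have hN4 : (2 ^ (nG M * (C * x.length ^ k + C) + x.length + nQ M + 4)) ^ (2 + 2 * M.tapes) ≤
      NN e w := by
    rw [← pow_mul]
    unfold NN
    refine (Nat.pow_le_pow_left hX _).trans (Nat.pow_le_pow_right (by omega) ?_)
    exact hΛ.trans (Nat.pow_le_pow_right (by omega) he)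
  have hN2 : 2 ^ (nG M * (C * x.length ^ k + C) + x.length + nQ M + 4) ≤ NN e w :=
    (Nat.le_self_pow hT _).trans hN4
  have hβ : beN M C k (NN e w) x.length =
      2 ^ (nG M * (C * x.length ^ k + C) + x.length + nQ M + 4) := by
    unfold beN pw
    exact min_eq_left (by omega)
  have h1 : nG M ^ (C * x.length ^ k + C) ≤
      2 ^ (nG M * (C * x.length ^ k + C) + x.length + nQ M + 4) := by
    calc nG M ^ (C * x.length ^ k + C) ≤ (2 ^ nG M) ^ (C * x.length ^ k + C) :=
          Nat.pow_le_pow_left (Nat.lt_two_pow_self).le _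
      _ = 2 ^ (nG M * (C * x.length ^ k + C)) := (pow_mul _ _ _).symm
      _ ≤ _ := Nat.pow_le_pow_right (by omega) (by omega)
  have h3 : (C * x.length ^ k + C) + x.length + nQ M + 3 ≤
      2 ^ (nG M * (C * x.length ^ k + C) + x.length + nQ M + 4) := by
    have e1 : C * x.length ^ k + C ≤ nG M * (C * x.length ^ k + C) :=
      Nat.le_mul_of_pos_left _ hG
    have e2 : nG M * (C * x.length ^ k + C) + x.length + nQ M + 4 <
      2 ^ (nG M * (C * x.length ^ k + C) + x.length + nQ M + 4) := Nat.lt_two_pow_self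
    omega
  have h := hSM5 M D (fun n => C * n ^ k + C) hM x (NN e w) (beN M C k (NN e w) x.length)
    (by rw [hβ]; exact h1) (h1.trans hN2) (by rw [hβ]; exact h3) (by rw [hβ]; exact hN4)
  exact h

end Pool.Agent.Helper54.GT
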