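import Pool.Agent.Helper54.GT.StC

/-!
# GT, part CHEB: sizes
-/

set_option autoImplicit false

namespace Pool.Agent.Helper54.GT

open Polynomial Module

theorem natDegree_PolyLE_Sz {F k : Type} [Field F] [Field k] [Algebra F k] {c : ℕ} {p : k[X]}
    (h : p ∈ PolyLE F k c) : p.natDegree ≤ c := by
  obtain ⟨p0, h0, rfl⟩ := h
  exact natDegree_map_le.trans h0

section

variable {k R ι : Type} [Field k] [CommRing R] [Algebra k R] [Algebra k[X] R] [IsScalarTower k k[X] R]

theorem mem_Sz {ω : Basis ι k[X] R} {m : ℕ} {r : R} :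
    r ∈ Sz ω m ↔ ∀ i, (ω.repr r i).natDegree ≤ m := Iff.rfl

theorem Sz_mono {ω : Basis ι k[X] R} {a b : ℕ} (h : a ≤ b) : Sz ω a ≤ Sz ω b :=
  fun _ hr i => (hr i).trans h

theorem smul_Sz {ω : Basis ι k[X] R} {a : ℕ} {x : R} (p : k[X]) (hx : x ∈ Sz ω a) :
    p • x ∈ Sz ω (p.natDegree + a) := by
  intro i
  rw [map_smul, Finsupp.smul_apply, smul_eq_mul]
  exact natDegree_mul_le.trans (Nat.add_le_add_left (hx i) _)

theorem basis_Sz (ω : Basis ι k[X] R) (i : ι) : ω i ∈ Sz ω 0 := by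
  classical
  intro j
  rw [Basis.repr_self, Finsupp.single_apply]
  split_ifs <;> simp

theorem smul_repr_Sz (ω : Basis ι k[X] R) (a : k) (r : R) (i : ι) :
    ω.repr (a • r) i = C a * ω.repr r i := by
  have h : a • r = (C a : k[X]) • r := by
    rw [← algebraMap_smul k[X] a r]; rfl
  rw [h, map_smul, Finsupp.smul_apply, smul_eq_mul]

/-- the coordinates -/
noncomputable def cooSz (ω : Basis ι k[X] R) (m : ℕ) : Sz ω m →ₗ[k] (ι → Fin (m + 1) → k) where
  toFun r i j := (ω.repr (r : R) i).coeff j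
  map_add' r r' := by
    funext i j
    rw [Submodule.coe_add, map_add, Finsupp.add_apply, coeff_add]
    rfl
  map_smul' a r := by
    funext i j
    rw [Submodule.coe_smul, smul_repr_Sz, coeff_C_mul]
    rfl

theorem cooSz_inj (ω : Basis ι k[X] R) (m : ℕ) : Function.Injective (cooSz ω m) := by
  intro r r' h
  apply Subtype.ext
  apply ω.repr.injective
  ext i j
  rcases lt_or_ge j (m + 1) with hj | hj
  · exact congrFun (congrFun h i) ⟨j, hj⟩
  · rw [coeff_eq_zero_of_natDegree_lt (lt_of_le_of_lt (r.2 i) hj),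
      coeff_eq_zero_of_natDegree_lt (lt_of_le_of_lt (r'.2 i) hj)]

theorem cooSz_surj [Fintype ι] (ω : Basis ι k[X] R) (m : ℕ) : Function.Surjective (cooSz ω m) := by
  intro f
  set p : ι → k[X] := fun i => ∑ j : Fin (m + 1), monomial (j : ℕ) (f i j) with hp
  have hrep : ∀ i, ω.repr (∑ i, p i • ω i) i = p i := fun i => by rw [Basis.repr_sum_self]
  have hdeg : ∀ i, (p i).natDegree ≤ m := fun i =>
    natDegree_sum_le_of_forall_le _ _ fun j _ =>
      (natDegree_monomial_le _).trans (by omega)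
  refine ⟨⟨∑ i, p i • ω i, fun i => by rw [hrep]; exact hdeg i⟩, ?_⟩
  funext i j
  change (ω.repr (∑ i, p i • ω i) i).coeff (j : ℕ) = f i j
  rw [hrep, hp]
  simp only [finsetSum_coeff, coeff_monomial]
  rw [Finset.sum_eq_single j]
  · rw [if_pos rfl]
  · intro b _ hb
    rw [if_neg]
    exact fun h => hb (Fin.ext h)
  · exact fun h => absurd (Finset.mem_univ j) h

theorem exists_Sz [Fintype ι] (ω : Basis ι k[X] R) (r : R) : ∃ m, r ∈ Sz ω m :=
  ⟨∑ i, (ω.repr r i).natDegree, fun i =>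
    Finset.single_le_sum (f := fun i => (ω.repr r i).natDegree) (fun _ _ => Nat.zero_le _)
      (Finset.mem_univ i)⟩

theorem sum_Sz [Fintype ι] {κ : Type} (ω : Basis ι k[X] R) (m : ℕ) (t : Finset κ) (f : κ → R)
    (h : ∀ x ∈ t, f x ∈ Sz ω m) : ∑ x ∈ t, f x ∈ Sz ω m := Submodule.sum_mem _ h

end

theorem mul_Sz {F k R ι Γ : Type} [Field F] [Field k] [Algebra F k] [CommRing R] [Algebra k R]
    [Algebra k[X] R] [IsScalarTower k k[X] R] [Fintype ι] [Fintype Γ] [Group Γ]
    {ω : Basis ι k[X] R} {act : Γ →* (R ≃ₐ[k[X]] R)} {c : ℕ} (hD : Dat F ω act c) {a b : ℕ}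
    {x y : R} (hx : x ∈ Sz ω a) (hy : y ∈ Sz ω b) : x * y ∈ Sz ω (a + b + c) := by
  rw [← ω.sum_repr x, ← ω.sum_repr y, Finset.sum_mul_sum]
  refine Submodule.sum_mem _ fun i _ => Submodule.sum_mem _ fun j _ => ?_
  rw [smul_mul_smul_comm]
  refine Sz_mono ?_ (smul_Sz _ (show ω i * ω j ∈ Sz ω c from fun l =>
    natDegree_PolyLE_Sz (hD.mul i j l)))
  have h1 := natDegree_mul_le (p := ω.repr x i) (q := ω.repr y j)
  have h2 := hx i
  have h3 := hy j
  omega

/-- sizes -/
theorem hSz : StSz := by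
  intro F k R ι Γ _ _ _ _ _ _ _ _ _ _ ω act c hD
  refine ⟨fun m => ?_, fun a b h => Sz_mono h, exists_Sz ω, fun a b x y hx hy => mul_Sz hD hx hy,
    ?_, ?_, fun a x p hx => smul_Sz p hx, basis_Sz ω, ?_⟩
  · let e : Sz ω m ≃ₗ[k] (ι → Fin (m + 1) → k) :=
      LinearEquiv.ofBijective (cooSz ω m) ⟨cooSz_inj ω m, cooSz_surj ω m⟩
    refine ⟨Module.Finite.equiv e.symm, ?_⟩
    rw [e.finrank_eq, Module.finrank_pi_fintype]
    simp
  · intro a x r hr hx
    obtain ⟨s, rfl⟩ : ∃ s, r = s + 1 := ⟨r - 1, by omega⟩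
    clear hr
    induction s with
    | zero =>
      rw [zero_add, pow_one, one_mul]
      exact Sz_mono (Nat.le_add_right a c) hx
    | succ s ih =>
      rw [pow_succ]
      refine Sz_mono (le_of_eq ?_) (mul_Sz hD ih hx)
      ring
  · intro a x γ hx
    rw [← ω.sum_repr x, map_sum]
    refine Submodule.sum_mem _ fun i _ => ?_
    rw [map_smul]
    exact Sz_mono (Nat.add_le_add_right (hx i) c) (smul_Sz _ (show act γ (ω i) ∈ Sz ω c from
      fun l => natDegree_PolyLE_Sz (hD.gal γ i l)))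
  · intro p
    rw [Algebra.algebraMap_eq_smul_one]
    exact smul_Sz p (show (1 : R) ∈ Sz ω c from fun l => natDegree_PolyLE_Sz (hD.one l))

end Pool.Agent.Helper54.GT
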