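import Pool.Agent.Helper54.GT.StC

/-!
# GT: the Stepanov-Bombieri upper bound with parameters (Ub)
-/

set_option autoImplicit false

namespace Pool.Agent.Helper54.GT

open Polynomial Module

theorem hUb (h1 : StSz) (h2 : StVl) (h3 : StAb) (h4 : StFt) (h5 : StEx) (h6 : StNm) (h7 : StNz)
    (h8 : StZr) : StUb := by
  intro F k R ι Γ _ _ _ _ _ _ _ _ _ _ _ _ _ ω act c hD p μ μ' e hp hchar hpq l m hA hB γ
  obtain ⟨hfin, hmono, hex, hmul, hpow, hact, hpoly, hω, halg⟩ := h1 F k R ι Γ ω act c hD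
  obtain ⟨v, hv⟩ := h2 F k R ι Γ ω act c hD
  obtain ⟨b, hb, hbi⟩ := h3 k R v hv (Sz ω m) (hfin m).1
  have hr : finrank k (Sz ω m) = Fintype.card ι * (m + 1) := (hfin m).2
  choose b' hb' hb'' using fun i => h4 F k R ι Γ ω act e m (b i) (hb i).1
  obtain ⟨ν, hν0, hνl, hνs⟩ := h5 F k R ι Γ ω act c hD p μ hp hchar (finrank k (Sz ω m)) l (m + c)
    (fun i => act γ (b' i)) (fun i => hact m (b' i) γ (hb' i)) (by rw [hr]; exact hA)
  have hνv : ∀ i, ν i ≠ 0 → v (ν i) < ((p ^ μ' : ℕ) : ℕ∞) := by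
    intro i hi
    obtain ⟨P, hP0, hPd, z, hz⟩ := h6 F k R ι Γ ω act c hD l (ν i) hi (hνl i)
    have h9 : v (ν i) ≤ v (algebraMap k[X] R P) := by
      rw [hz, hv.mul]
      exact le_self_add
    refine (h9.trans (hv.poly P hP0)).trans_lt ?_
    exact_mod_cast hPd.trans_lt hB
  set Φ : R := ∑ i, ν i * b i ^ p ^ μ' with hΦ
  have hΦ0 : Φ ≠ 0 :=
    h7 k R v hv (finrank k (Sz ω m)) (p ^ μ') b ν (fun i => (hb i).2) hbi hνv hν0
  have hΦS : Φ ∈ Sz ω (l + p ^ μ' * (m + c) + c) := by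
    rw [hΦ]
    refine Submodule.sum_mem _ fun i _ => ?_
    exact hmul l (p ^ μ' * (m + c)) _ _ (hνl i)
      (hpow m (b i) (p ^ μ') (Nat.one_le_pow _ _ hp.pos) (hb i).1)
  obtain ⟨hf, hc⟩ := h8 F k R ι Γ ω act c hD _ Φ hΦ0 hΦS
  have := Fact.mk hp
  have hsub : Pts F ω act γ e ⊆ {y : R →ₐ[k] k | y Φ = 0} := by
    intro y hy
    have h10 : (y Φ) ^ p ^ μ = 0 := by
      rw [hΦ, map_sum, sum_pow_char_pow]
      have h11 : ∀ i, (y (ν i * b i ^ p ^ μ')) ^ p ^ μ = y (ν i ^ p ^ μ * act γ (b' i)) := by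
        intro i
        rw [map_mul, mul_pow, map_mul, map_pow, map_pow, ← pow_mul, mul_comm (p ^ μ') (p ^ μ),
          hpq, hb'' i γ y hy]
      rw [Finset.sum_congr rfl fun i _ => h11 i, ← map_sum, hνs, map_zero]
    exact (pow_eq_zero_iff (pow_ne_zero _ hp.ne_zero)).1 h10
  exact ⟨hf.subset hsub, (Set.ncard_le_ncard hsub hf).trans hc⟩

end Pool.Agent.Helper54.GT
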