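import Pool.Agent.Helper54.GT.StC
import Pool.Agent.Helper3.GT.St

/-!
# GT, parts A1, A1p, A2: covers of the line attached to the family and to square roots

`F` is a finite field of odd order, `kk F` its algebraic closure, `KK F = kk F (X)`, `Om F` the algebraic closure of
`KK F`.
-/

set_option autoImplicit false

namespace Pool.Agent.Helper54.GT

open Polynomial Module Finset Filter Topology
open Pool.Agent.Helper54.PT (Prm prm)
open Pool.Agent.Helper3.HY (fK RR LL kp red TType)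
open Pool.Agent.Helper3.GT (Gd GdF HypF facs TyI TyT Rp GeoSn StFAC)

/-! ### Definitions -/

section defs

/-- The algebraic closure of `F`. -/
abbrev kk (F : Type) [Field F] : Type := AlgebraicClosure F

/-- The rational functions over it. -/
abbrev KK (F : Type) [Field F] : Type := RatFunc (kk F)

/-- The algebraic closure of the rational functions. -/
abbrev Om (F : Type) [Field F] : Type := AlgebraicClosure (KK F)

variable {F : Type} [Field F]

/-- The coefficients, extended. -/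
noncomputable def exC (f : F[X][X]) : (kk F)[X][X] := f.map (mapRingHom (algebraMap F (kk F)))

/-- `F[X]` in `Om F`. -/
noncomputable def em (F : Type) [Field F] : F[X] →+* Om F :=
  (algebraMap (kk F)[X] (Om F)).comp (mapRingHom (algebraMap F (kk F)))

/-- Evaluation at `t`. -/
noncomputable def et (t : kk F) : F[X] →+* kk F := eval₂RingHom (algebraMap F (kk F)) t

/-- `a(x)` for `x` in `Om F`. -/
noncomputable def ev (a : F[X][X]) (x : Om F) : Om F := a.eval₂ (em F) x

/-- `a(t, x)`. -/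
noncomputable def av (t : kk F) (a : F[X][X]) (x : kk F) : kk F := a.eval₂ (et t) x

/-- The hypotheses on the family (without the condition on the discriminants). -/
structure Hyp0 {ι : Type} [Fintype ι] (g : ι → ℕ) (f : ι → F[X][X]) : Prop where
  one_le : ∀ i, 1 ≤ g i
  monic : ∀ i, (f i).Monic
  deg : ∀ i, (f i).natDegree = 2 * g i + 1
  geo : Nat.card (fK ((∏ i, f i).map (mapRingHom (algebraMap F (AlgebraicClosure F))))).Gal =
    ∏ i, (f i).natDegree.factorial

/-- The roots. -/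
structure Rts {ι : Type} [Fintype ι] (g : ι → ℕ) (f : ι → F[X][X])
    (θ : ∀ i, Fin (2 * g i + 1) → Om F) : Prop where
  inj : ∀ i, Function.Injective (θ i)
  fac : ∀ i, (f i).map (em F) = ∏ b, (X - C (θ i b))
  gal : ∀ σ : (∀ i, Equiv.Perm (Fin (2 * g i + 1))), ∃ s : Om F ≃ₐ[KK F] Om F,
    ∀ i b, s (θ i b) = θ i (σ i b)

/-- The product of some of the `ρ x`. -/
noncomputable def rv {I : Type} [Fintype I] (ρ : I → Om F) (v : I → ZMod 2) : Om F :=
  ∏ x, ρ x ^ (v x).val

/-- `s` is, up to sign, the square root of the resultant of `f` and `a`. -/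
def UN (f a : F[X][X]) (s : F[X]) : Prop :=
  ∀ (B : Type) [Field B] (φ : F[X] →+* B) (n : ℕ) (τ : Fin n → B),
    f.map φ = ∏ b, (X - C (τ b)) → ∏ b, a.eval₂ φ (τ b) = φ s ^ 2

/-- A combination of the `w j` with coefficients in `F[X]` of degree at most `c`. -/
def InW {J : Type} [Fintype J] (w : J → Om F) (c : ℕ) (x : Om F) : Prop :=
  ∃ p : J → F[X], (∀ j, (p j).natDegree ≤ c) ∧ x = ∑ j, em F (p j) * w j

/-- A basis of the order generated by the roots. -/
structure RBas {ι : Type} [Fintype ι] {g : ι → ℕ} (θ : ∀ i, Fin (2 * g i + 1) → Om F) {J : Type}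
    [Fintype J] (w : J → Om F) (c₀ : ℕ) : Prop where
  card : Fintype.card J = ∏ i, (2 * g i + 1).factorial
  ind : LinearIndependent (KK F) w
  mul : ∀ j j', InW w c₀ (w j * w j')
  one : InW w c₀ 1
  root : ∀ i b, InW w c₀ (θ i b)
  gal : ∀ (s : Om F ≃ₐ[KK F] Om F) j, InW w c₀ (s (w j))
  fix : ∀ s : Om F ≃ₐ[KK F] Om F, (∀ i b, s (θ i b) = θ i b) → ∀ j, s (w j) = w j
  alg : ∀ j, w j ∈ Algebra.adjoin (kk F)[X] {x | ∃ i b, x = θ i b}

end defs

/-! ### Abstract algebra -/

/-- (SPN) The ring generated by the roots is spanned by `∏ n_i!` elements.  PROOF.  One polynomial: by induction on `n` for every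
subalgebra `B` of `Ω` and every monic `h ∈ B[X]` with `h = ∏_{b < n} (X - θ_b)` the ring `B[θ_0, ..., θ_(n-1)]` is
spanned over `B` by `n!` elements of `ℤ[θ]`: `B₁ = B[θ_0]` is spanned by `1, ..., θ_0^(n-1)`, and
`h / (X - θ_0) = ∏_{b ≥ 1} (X - θ_b)` has coefficients in `B₁` (division by a monic polynomial).  The family: adjoin the
roots of one `h_i` after the other (`Finset.induction` over `ι`); spans multiply. -/
def StSPN : Prop :=
  ∀ (A Ω : Type) [CommRing A] [Field Ω] [Algebra A Ω] (ι : Type) [Fintype ι] (n : ι → ℕ)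
    (θ : ∀ i, Fin (n i) → Ω) (h : ι → A[X]), (∀ i, (h i).Monic) →
    (∀ i, (h i).map (algebraMap A Ω) = ∏ b, (X - C (θ i b))) →
    ∃ w : Fin (∏ i, (n i).factorial) → Ω,
      (∀ j, w j ∈ Algebra.adjoin A {x | ∃ i b, x = θ i b}) ∧
      ∀ x ∈ Algebra.adjoin A {x : Ω | ∃ i b, x = θ i b},
        ∃ p : Fin (∏ i, (n i).factorial) → A, x = ∑ j, p j • w j

/-- (FIX) PROOF.  If `x ∉ L` then `X ^ 2 - x ^ 2` has no root in `L` (a root is `± x`), so it is the minimal polynomial of `x` over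
`L`; `-x` is another root, so there is an `L`-automorphism `s` of the algebraically closed field `Ω` with `s x = -x ≠ x`
(`Ω / L` is algebraic and normal); restrict scalars to `K`. -/
def StFIX : Prop :=
  ∀ (K Ω : Type) [Field K] [Field Ω] [Algebra K Ω] [IsAlgClosure K Ω], (2 : K) ≠ 0 →
    ∀ (L : IntermediateField K Ω) (x : Ω), x ^ 2 ∈ L →
      (∀ s : Ω ≃ₐ[K] Ω, (∀ l ∈ L, s l = l) → s x = x) → x ∈ L

/-- (CHR) Characters of products of symmetric groups.  PROOF.  A homomorphism `Perm (Fin n) → ℤˣ` is trivial or the sign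
(`Equiv.Perm.eq_sign_of_surjective_hom`).  First part: `φ` restricted to the `i`-th factor (`Pi.mulSingle i`) is trivial or
the sign; `T` = the set of `i` where it is not trivial; `σ = ∏ Pi.mulSingle i (σ i)`.  Second part: the same for the subgroup of
the `σ` with `σ i₀ b₀ = b₀`, whose `i₀`-th factor is the image of `Perm {b // b ≠ b₀}` under `Equiv.Perm.ofSubtype`
(`Equiv.Perm.sign_ofSubtype`). -/
def StCHR : Prop :=
  ∀ (ι : Type) [Fintype ι] [DecidableEq ι] (n : ι → ℕ) (φ : (∀ i, Equiv.Perm (Fin (n i))) → ℤˣ),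
    ((∀ σ τ, φ (σ * τ) = φ σ * φ τ) →
      ∃ T : Finset ι, ∀ σ, φ σ = ∏ i ∈ T, Equiv.Perm.sign (σ i)) ∧
    ∀ (i₀ : ι) (b₀ : Fin (n i₀)),
      (∀ σ τ, σ i₀ b₀ = b₀ → τ i₀ b₀ = b₀ → φ (σ * τ) = φ σ * φ τ) →
      ∃ T : Finset ι, ∀ σ, σ i₀ b₀ = b₀ → φ σ = ∏ i ∈ T, Equiv.Perm.sign (σ i)

/-- (LI) PROOF.  Let `∑_{j,v} c_{j,v} w_j r_v = 0`, `m_v = ∑_j c_{j,v} w_j`, fixed by `G`.  For `s ∈ G` put `χ_v(s) = s(r_v) / r_v = ± 1`;
`χ_v : G → Ω` is a homomorphism of monoids and the `χ_v` are distinct by the last hypothesis (`χ_v = χ_v'` implies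
`s(r_v r_v') = r_v r_v'`).  Applying `s`: `∑_v m_v χ_v(s) r_v = 0` for all `s ∈ G`; by the linear independence of characters
(`linearIndependent_monoidHom`) `m_v r_v = 0`, so `m_v = 0` and all `c_{j,v} = 0`. -/
def StLI : Prop :=
  ∀ (K Ω : Type) [Field K] [Field Ω] [Algebra K Ω] (J V : Type) [Fintype J] [Fintype V]
    (w : J → Ω) (r : V → Ω), LinearIndependent K w → (∀ v, r v ≠ 0) →
    ∀ G : Subgroup (Ω ≃ₐ[K] Ω), (∀ s ∈ G, ∀ j, s (w j) = w j) →
      (∀ s ∈ G, ∀ v, s (r v) = r v ∨ s (r v) = -r v) →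
      (∀ v v', v ≠ v' → ∃ s ∈ G, s (r v * r v') ≠ r v * r v') →
      LinearIndependent K (fun jv : J × V => w jv.1 * r jv.2)

/-- (SGN) Coboundaries.  PROOF.  The additive homomorphism `h ↦ h + h ∘ σ` of `Fin n → ZMod 2` (`2^n` elements) has as kernel the `h` with
`h ∘ σ = h` (characteristic two), which correspond to the sets `T` with `T.map σ = T` (supports). -/
def StSGN : Prop :=
  ∀ (n : ℕ) (σ : Equiv.Perm (Fin n)),
    {e : Fin n → ZMod 2 | ∃ h : Fin n → ZMod 2, ∀ b, e b = h b + h (σ b)}.ncard *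
      {T : Finset (Fin n) | T.map σ.toEmbedding = T}.ncard = 2 ^ n

/-- (DIV) Divisors and invariant sets.  PROOF.  An element `z` of `k` with `z^Q = z`, `Q = #κ`, lies in `j(κ)` (`X^Q - X` has at most `Q` roots).
`h` is squarefree.  For `T ⊆ Fin n` the polynomial `h_T = ∏_{b ∈ T} (X - τ_b)` has coefficients in `j(κ)` iff they are fixed
by the Frobenius iff `σ(T) = T` (the Frobenius maps `h_T` to `h_{σ(T)}`).  So `T ↦ h_T` is a bijection of the `T` with
`T.map σ = T` onto the monic divisors of `h` in `κ[X]` (every monic divisor splits over `k` with roots among the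
`τ_b`), and the monic divisors of the squarefree `h` correspond to the subsets of the set of monic irreducible
factors.  Second part: immediate from this.  Third part: `{b₀}` is invariant, so `τ_(b₀) = j(a)` and `h = (X - a) p`, where
the monic divisors of `p` correspond to the invariant sets not containing `b₀`: `p` is irreducible of degree `2 g ≥ 2`. -/
def StDIV : Prop :=
  ∀ (κ k : Type) [Field κ] [Fintype κ] [Field k] (j : κ →+* k) (n : ℕ) (h : κ[X]) (τ : Fin n → k)
    (σ : Equiv.Perm (Fin n)), h.Monic → h.map j = ∏ b, (X - C (τ b)) → Function.Injective τ →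
    (∀ b, τ b ^ Fintype.card κ = τ (σ b)) →
    ({T : Finset (Fin n) | T.map σ.toEmbedding = T}.ncard =
      2 ^ {ψ : κ[X] | ψ.Monic ∧ Irreducible ψ ∧ ψ ∣ h}.ncard) ∧
    (1 ≤ n → ((∀ T : Finset (Fin n), T.map σ.toEmbedding = T → T = ∅ ∨ T = univ) ↔
      Irreducible h)) ∧
    ∀ (g : ℕ) (b₀ : Fin n), n = 2 * g + 1 → 1 ≤ g → σ b₀ = b₀ →
      (∀ T : Finset (Fin n), T.map σ.toEmbedding = T → b₀ ∉ T → T = ∅ ∨ T = {b₀}ᶜ) →
      h ∈ TType κ g

/-- (SQM) Squares modulo `h`.  PROOF.  First part: `h` is the product of its distinct monic irreducible factors `ψ`; by the Chinese remainder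
theorem there is `b ∈ κ[X]` with `b ^ 2 ≡ a` modulo `h`; put `u_x = b(τ_x)` (coefficients through `j`):
`u_x^Q = b(τ_x^Q) = u_(σ x)` because the coefficients of `b` are fixed by the Frobenius.  Second part: a root of `ψ` in `k` is one
of the `τ_b` (`ψ ∣ h`), and `ψ ∣ a` would give `a(τ_b) = 0`. -/
def StSQM : Prop :=
  ∀ (κ k : Type) [Field κ] [Fintype κ] [Field k] (j : κ →+* k) (n : ℕ) (h : κ[X]) (τ : Fin n → k)
    (σ : Equiv.Perm (Fin n)), h.Monic → h.map j = ∏ b, (X - C (τ b)) → Function.Injective τ →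
    (∀ b, τ b ^ Fintype.card κ = τ (σ b)) → ∀ a : κ[X],
    ((∀ ψ : κ[X], ψ.Monic → Irreducible ψ → ψ ∣ h → IsSquare (AdjoinRoot.mk ψ a)) →
      ∃ u : Fin n → k, (∀ b, u b ^ 2 = (a.map j).eval (τ b)) ∧
        ∀ b, u b ^ Fintype.card κ = u (σ b)) ∧
    ((∀ b, (a.map j).eval (τ b) ≠ 0) → ∀ ψ : κ[X], ψ.Monic → Irreducible ψ → ψ ∣ h →
      AdjoinRoot.mk ψ a ≠ 0)

/-- (RT) Primes and elements of the algebraic closure.  PROOF.  `P` is separable of degree `k`, its roots generate the field with `q^k` elements.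
Two primes with a common root are equal (minimal polynomials).  `X^(q^k) - X` is separable.  An element `t` with
`t^(q^k) = t` which is not a root of a `P ∈ prm F k` has a minimal polynomial of degree `d ∣ k`, `d < k`, so `d ≤ k / 2` and
`t^(q^d) = t`: at most `∑_{d ≤ k/2} q^d ≤ 2 q^(k/2)` (natural division) elements, `q^(k/2) ≤ √q ^ k`. -/
def StRT : Prop :=
  ∀ (F : Type) [Field F] [Fintype F] (k : ℕ), 1 ≤ k →
    (∀ P ∈ prm F k, {t : kk F | et t P.1 = 0}.ncard = k ∧
      ∀ t : kk F, et t P.1 = 0 → t ^ Fintype.card F ^ k = t ∧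
        ∀ P' : Prm F, et t P'.1 = 0 → P' = P) ∧
    {t : kk F | t ^ Fintype.card F ^ k = t}.Finite ∧
    {t : kk F | t ^ Fintype.card F ^ k = t}.ncard = Fintype.card F ^ k ∧
    ({t : kk F | t ^ Fintype.card F ^ k = t ∧ ∀ P ∈ prm F k, et t P.1 ≠ 0}.ncard : ℝ) ≤
      2 * Real.sqrt (Fintype.card F) ^ k

/-- (EB) The residue field in the algebraic closure.  PROOF.  `AdjoinRoot.lift (algebraMap F (kk F)) t`; the cardinality is that of an `F`-space of
dimension `deg P`. -/
def StEB : Prop :=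
  ∀ (F : Type) [Field F] [Fintype F] (P : Prm F) (t : kk F), et t P.1 = 0 →
    Finite (kp P) ∧ Nat.card (kp P) = Fintype.card F ^ P.1.natDegree ∧
      ∃ j : kp P →+* kk F, ∀ p : F[X], j (red P p) = et t p

/-- (UN) PROOF.  Let `r` be the resultant of `f` and `a` (`Polynomial.resultant f a`, with the degrees `natDegree f` and any bound for the
degree of `a`).  `f` is monic, so the norm of `mk a` is the image of `r` (in the pool: `Pool.Agent.Helper54.HL.StNR`, proved in
`Pool/Agent/Helper54/HL`, file M_NR, by the norm as determinant), and for every `φ` and every factorization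
`f.map φ = ∏ (X - τ_b)`: `φ r = ∏_b a(τ_b)` (`resultant_map_map`, `resultant_prod_left`, `resultant_X_sub_C_left`).  `r` is a square in
`RatFunc F`, hence a square `s ^ 2` in `F[X]` (integrally closed: `IsIntegrallyClosed.algebraMap_eq_of_integral` or
`IsInteger` of a root of `T ^ 2 - r`). -/
def StUN : Prop :=
  ∀ (F : Type) [Field F] (f a : F[X][X]), f.Monic → ∀ [Fact (Irreducible (fK f))],
    IsSquare (Algebra.norm (RatFunc F) (algebraMap (RR f) (LL f) (AdjoinRoot.mk f a))) →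
    ∃ s : F[X], UN f a s

/-- (DSC) The discriminant and the Vandermonde determinant.  PROOF.  The resultant of `f` and `f'` is `± discr f` for monic `f`
(`resultant_deriv`) and maps under `φ` to `∏_b f'(τ_b) = ∏_b ∏_{b' ≠ b} (τ_b - τ_b')` `= ± (det V)^2`
(`Matrix.det_vandermonde`). -/
def StDSC : Prop :=
  ∀ (F : Type) [Field F] (f : F[X][X]) (B : Type) [Field B] (φ : F[X] →+* B) (n : ℕ) (τ : Fin n → B),
    f.Monic → f.natDegree = n → f.map φ = ∏ b, (X - C (τ b)) →
    (Matrix.vandermonde τ).det ^ 2 = φ f.discr ∨ (Matrix.vandermonde τ).det ^ 2 = -φ f.discr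

/-! ### The Galois group -/

/-- (GAL) PROOF.  (Compare the proof of `StIRR` in `Pool/Agent/Helper3/GT/St.lean`.)  Let `h_i = fK (exC (f i))` over `KK F`, `h = ∏ h_i`.  The
Galois group of `h` (automorphisms of the splitting field `E`, which embeds into `Om F`) acts faithfully on the roots and preserves the
set `R_i` of roots of `h_i`, so it embeds into `∏ Perm R_i`, of order `∏ r_i!`, `r_i = #R_i ≤ n_i = 2 g_i + 1`.  The hypothesis gives
`r_i = n_i` (`n_i ≥ 3`) and that the embedding is onto.  Number the roots: `θ i`.  Automorphisms of the image of `E` in `Om F`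
extend to `Om F` (`AlgEquiv.liftNormal`, `Om F` is normal over `KK F`). -/
def StGAL : Prop :=
  ∀ (F : Type) [Field F] [Fintype F], (2 : F) ≠ 0 → ∀ (ι : Type) [Fintype ι] (g : ι → ℕ)
    (f : ι → F[X][X]), Hyp0 g f → ∃ θ : ∀ i, Fin (2 * g i + 1) → Om F, Rts g f θ

/-- (PRM) PROOF.  `s` fixes the coefficients of `(f i).map (em F)` (they lie in `KK F`), so it permutes the roots `θ i b`. -/
def StPRM : Prop :=
  ∀ (F : Type) [Field F] (ι : Type) [Fintype ι] (g : ι → ℕ)
    (f : ι → F[X][X]) (θ : ∀ i, Fin (2 * g i + 1) → Om F), Rts g f θ →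
    ∀ s : Om F ≃ₐ[KK F] Om F, ∃ σ : (∀ i, Equiv.Perm (Fin (2 * g i + 1))),
      ∀ i b, s (θ i b) = θ i (σ i b)

/-- (IRB) PROOF.  By `Rts.gal` the automorphisms of `Om F` act transitively on the `2 g_i + 1` distinct roots of `h = fK (exC (f i))`, so the
minimal polynomial over `KK F` of one root has all of them as roots and equals `h`. -/
def StIRB : Prop :=
  ∀ (F : Type) [Field F] (ι : Type) [Fintype ι] (g : ι → ℕ)
    (f : ι → F[X][X]) (θ : ∀ i, Fin (2 * g i + 1) → Om F), Rts g f θ → (∀ i, (f i).Monic) →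
    ∀ i, Irreducible (fK (exC (f i))) ∧
      ∀ (b : Fin (2 * g i + 1)) (p : (KK F)[X]), aeval (θ i b) p = 0 ↔ fK (exC (f i)) ∣ p

/-- (ORD) PROOF.  (SPN) with `A = F[X]` acting through `em F` gives `w`, `J = Fin _`.  All elements of the ring `B` generated over `F[X]` by the `θ i b` are
combinations of the `w j` with coefficients in `F[X]`; the products `w j w j'`, `1`, `θ i b` and the `s (w j)` lie in `B` (`w j` is a
polynomial in the `θ i b` with coefficients in `F[X]`, and `s` permutes them, (PRM)); the `s (w j)` take finitely many values (they depend on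
the permutations only).  So there is a common bound `c₀` for the degrees.  `ind`: the `KK F`-span of the `w j` is the ring
`KK F [θ]`, which is a field `M` (algebraic elements); by `Rts.gal` it has at least `∏ n_i!` different `KK F`-embeddings into `Om F`
(restrict the `s`), so its dimension is at least `∏ n_i! = card J`; a spanning family with so many elements is independent
(`linearIndependent_of_top_le_span_of_card_eq_finrank`). -/
def StORD : Prop :=
  ∀ (F : Type) [Field F] [Fintype F] (ι : Type) [Fintype ι] (g : ι → ℕ)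
    (f : ι → F[X][X]) (θ : ∀ i, Fin (2 * g i + 1) → Om F), (∀ i, (f i).Monic) → Rts g f θ →
    ∃ (J : Type) (_ : Fintype J) (w : J → Om F) (c₀ : ℕ), RBas θ w c₀

/-- (CD) Descent of constants.  PROOF.  Let `q = #F`, `φ` the `q`-th power map on `kk F`, extended to `KK F` (coefficientwise on numerator and denominator:
`RatFunc.mapRingHom` / `IsFractionRing.map`) and to `(KK F)[X]`; it fixes `h = fK (exC f)` and the image `A` of `a`.  Replace `b` by its remainder
modulo `h`.  `h ∣ φ(b)^2 - b^2 = (φ(b) - b)(φ(b) + b)`, `h` is irreducible, degrees: `φ(b) = b` or `φ(b) = -b`.  Let `u₀ = 1` in the first case and in the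
second case `u₀ ∈ kk F` with `u₀^(q-1) = -1` (`q` odd).  Then `u₀ b` is fixed by `φ` and `u = u₀^2` is fixed by the `q`-th power map, so
`u ∈ F`, `u ≠ 0`.  An element of `KK F` fixed by `φ` lies in the image of `RatFunc F` (numerator and monic denominator, which are coprime, are
unique, so fixed), hence `u₀ b` comes from `b₀ ∈ (RatFunc F)[X]` and `fK f ∣ b₀^2 - u a` (divisibility descends). -/
def StCD : Prop :=
  ∀ (F : Type) [Field F] [Fintype F], (2 : F) ≠ 0 → ∀ (f a : F[X][X]), f.Monic →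
    Irreducible (fK (exC f)) → ∀ [Fact (Irreducible (fK f))] (b : (KK F)[X]),
    fK (exC f) ∣ b ^ 2 - fK (exC a) →
    ∃ u : F, u ≠ 0 ∧ IsSquare (algebraMap (RR f) (LL f) (AdjoinRoot.mk f (C (C u) * a)))

/-- (KIa) First step of the independence: from a product of an even number of square roots fixed by the stabilizer of all roots to one
square root.  PROOF.  Call `G₀` the group of the `s` fixing all `θ i b`; it is normal.  Write `r_v = rv ρ v`, `supp v = {b | v b ≠ 0}`, a set with an even number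
of elements, `≠ ∅`, `≠ univ` (`n = 2 g_(i₀) + 1` is odd).  Choose `x ∈ supp v`, `y ∉ supp v`, and `s` inducing the transposition `(x y)` on the roots of `f i₀`
(`Rts.gal`).  Then `s(r_v)` is fixed by `G₀`, and so is `m = r_v s(r_v) / ∏_{b ∈ supp v, b ≠ x} α_b`, with `m^2 = α_x α_y`.  Applying further
`s'` (`Rts.gal` is 2-transitive): for all `x ≠ y` there is `m_{xy}` fixed by `G₀` with `m_{xy}^2 = α_x α_y`.  Now
`∏_{y ≠ 0} m_{0y}^2 = α_0^(n-1) ∏_{y ≠ 0} α_y = α_0^(n-2) s₀^2`, `n - 2` is odd, so `β = ∏_{y ≠ 0} m_{0y} / (s₀ α_0^((n-3)/2))` satisfies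
`β^2 = α_0` and is fixed by `G₀`. -/
def StKIa : Prop :=
  ∀ (F : Type) [Field F], (2 : F) ≠ 0 → ∀ (ι : Type) [Fintype ι] (g : ι → ℕ)
    (f : ι → F[X][X]) (θ : ∀ i, Fin (2 * g i + 1) → Om F), (∀ i, 1 ≤ g i) → Rts g f θ →
    ∀ (i₀ : ι) (α ρ : Fin (2 * g i₀ + 1) → Om F) (s₀ : Om F), (∀ b, α b ≠ 0) →
      (∀ b, ρ b ^ 2 = α b) →
      (∀ (s : Om F ≃ₐ[KK F] Om F) (σ : (∀ i, Equiv.Perm (Fin (2 * g i + 1)))),
        (∀ i b, s (θ i b) = θ i (σ i b)) → ∀ b, s (α b) = α (σ i₀ b)) →
      ∏ b, α b = s₀ ^ 2 → (∀ s : Om F ≃ₐ[KK F] Om F, s s₀ = s₀) →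
      ∀ v : Fin (2 * g i₀ + 1) → ZMod 2, ∑ b, v b = 0 → v ≠ 0 →
        (∀ s : Om F ≃ₐ[KK F] Om F, (∀ i b, s (θ i b) = θ i b) → s (rv ρ v) = rv ρ v) →
        ∃ β : Om F, β ^ 2 = α 0 ∧
          ∀ s : Om F ≃ₐ[KK F] Om F, (∀ i b, s (θ i b) = θ i b) → s β = β

/-- (KIb) Second step.  PROOF.  Write `δ_i = (Matrix.vandermonde (θ i)).det`, `≠ 0`, `s δ_i = sign(σ_i) δ_i` if `s` induces `σ` (`Matrix.det_permute`).  For `σ` with
`σ i₀ 0 = 0` choose `s` inducing `σ` (`Rts.gal`); `(s β)^2 = s α_0 = α_0`, so `s β = φ(σ) β`, `φ(σ) = ± 1` independent of the choice of `s` (two choices differ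
by an element fixing all roots) and `φ(σ τ) = φ(σ) φ(τ)`; `φ = 1` for the other `σ`.  (CHR) gives `T`, and `β ∏_{i ∈ T} δ_i` is fixed by all
`s` with `s (θ i₀ 0) = θ i₀ 0` (each `s` induces some `σ`, (PRM)).  Its square is `α_0 ∏ δ_i^2`, which lies in `L = KK F (θ i₀ 0)`: `δ_i^2 ∈ KK F` by (DSC), and
`α_0 = ev a (θ i₀ 0)`.  By (FIX) `β ∏ δ_i ∈ L`, so it is a polynomial in `θ i₀ 0`. -/
def StKIb : Prop :=
  ∀ (F : Type) [Field F], (2 : F) ≠ 0 → ∀ (ι : Type) [Fintype ι] (g : ι → ℕ)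
    (f : ι → F[X][X]) (θ : ∀ i, Fin (2 * g i + 1) → Om F), (∀ i, 1 ≤ g i) → (∀ i, (f i).Monic) →
    Rts g f θ → ∀ (i₀ : ι) (a : F[X][X]) (β : Om F), β ≠ 0 → β ^ 2 = ev a (θ i₀ 0) →
      (∀ s : Om F ≃ₐ[KK F] Om F, (∀ i b, s (θ i b) = θ i b) → s β = β) →
      ∃ (T : Finset ι) (b : (KK F)[X]),
        β * ∏ i ∈ T, (Matrix.vandermonde (θ i)).det = aeval (θ i₀ 0) b

/-- (KIc) Third step.  PROOF.  Put `Δ = ∏_{i ∈ T} δ_i ≠ 0` (`θ i` injective), `D = Δ^2`, fixed by all `s` (`s δ_i = ± δ_i`), `α_x = ev a (θ i₀ x)`.  `b(θ_0)^2 = α_0 D`; apply an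
`s` which moves `θ i₀ 0` to `θ i₀ x`: `b(θ_x)^2 = α_x D` for all `x`.  The product over all `x`: `B^2 = s₀^2 D^n`, `B = ∏_x b(θ_x)`, which is
fixed by all `s` ((PRM)).  So `B = ± s₀ Δ^n` and `Δ^n` is fixed by all `s` (`s₀ ≠ 0`).  If `i ∈ T` take `s` inducing a transposition on the roots of `f i`
and the identity on the others: `s Δ = -Δ`, so `Δ^n = - Δ^n`, `n` odd: contradiction (`2 ≠ 0`). -/
def StKIc : Prop :=
  ∀ (F : Type) [Field F], (2 : F) ≠ 0 → ∀ (ι : Type) [Fintype ι] (g : ι → ℕ)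
    (f : ι → F[X][X]) (θ : ∀ i, Fin (2 * g i + 1) → Om F), (∀ i, 1 ≤ g i) → Rts g f θ →
    ∀ (i₀ : ι) (a : F[X][X]) (β s₀ : Om F), (∀ b, ev a (θ i₀ b) ≠ 0) → β ^ 2 = ev a (θ i₀ 0) →
      ∏ b, ev a (θ i₀ b) = s₀ ^ 2 → (∀ s : Om F ≃ₐ[KK F] Om F, s s₀ = s₀) →
      ∀ (T : Finset ι) (b : (KK F)[X]),
        β * ∏ i ∈ T, (Matrix.vandermonde (θ i)).det = aeval (θ i₀ 0) b → T = ∅

/-- (KI) Independence of the square roots of the conjugates of `a(θ)`.  PROOF.  `ev a (θ i₀ b) ≠ 0`: otherwise the minimal polynomial `fK (exC (f i₀))` (IRB) divides the image of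
`a`, hence `fK (f i₀)` divides `fK a` (descent of divisibility by a monic polynomial under an injective ring homomorphism) and `mk a` maps to `0` in
`LL (f i₀)`, a square.  By (UN) there is `s` with `UN (f i₀) a s`, so `∏_b ev a (θ i₀ b) = (em F s)^2`.  If the conclusion fails for `v`,
then, since every `s'` fixing all roots maps `rv ρ v` to `± rv ρ v` (its square is a product of `ev a (θ i₀ b)`), all of them fix
`rv ρ v`; (KIa), (KIb), (KIc) give `β^2 = ev a (θ i₀ 0)`, `β = aeval (θ i₀ 0) b`, so `fK (exC (f i₀)) ∣ b^2 - fK (exC a)` (IRB) and (CD) gives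
`u ≠ 0` with `mk (u a)` a square in `L = LL (f i₀)`.  The norm of `mk (u a)` is `u^n` times the norm of `mk a`; both norms are squares and the
norm of `mk a` is not `0`, so `u^n`, `n` odd, is a square in `RatFunc F`, so `u` is a square in `RatFunc F`, hence in `F` (degree, constants; a square root is integral
of degree `0`).  So `mk a` is a square in `L`: contradiction. -/
def StKI : Prop :=
  ∀ (F : Type) [Field F] [Fintype F], (2 : F) ≠ 0 → ∀ (ι : Type) [Fintype ι] (g : ι → ℕ)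
    (f : ι → F[X][X]) (θ : ∀ i, Fin (2 * g i + 1) → Om F), (∀ i, 1 ≤ g i) → (∀ i, (f i).Monic) →
    Rts g f θ → ∀ (i₀ : ι) [Fact (Irreducible (fK (f i₀)))] (a : F[X][X]),
      IsSquare (Algebra.norm (RatFunc F)
        (algebraMap (RR (f i₀)) (LL (f i₀)) (AdjoinRoot.mk (f i₀) a))) →
      ¬ IsSquare (algebraMap (RR (f i₀)) (LL (f i₀)) (AdjoinRoot.mk (f i₀) a)) →
      (∀ b, ev a (θ i₀ b) ≠ 0) ∧
      ∀ ρ : Fin (2 * g i₀ + 1) → Om F, (∀ b, ρ b ^ 2 = ev a (θ i₀ b)) →
        ∀ v : Fin (2 * g i₀ + 1) → ZMod 2, ∑ b, v b = 0 → v ≠ 0 →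
          ∃ s : Om F ≃ₐ[KK F] Om F, (∀ i b, s (θ i b) = θ i b) ∧ s (rv ρ v) = -rv ρ v

/-- (KD) Independence of the square root of `d`.  PROOF.  Every `s` maps `r` to `± r`.  Suppose all `s` fixing all the roots fix `r`.  As in (KIb) (first part of (CHR)) there is `T` such that
`r ∏_{i ∈ T} δ_i` is fixed by all `s` (`δ_i = (Matrix.vandermonde (θ i)).det`), so by (FIX) with `L = ⊥` (its square is `em d ∏ δ_i^2`, in `KK F` by (DSC)) it lies
in `KK F`: `± d ∏_{i ∈ T} discr (f i)` is a square in `KK F`, hence (integrally closed) in `(kk F)[X]`.  If `i ∈ T` let `P` be as in the hypothesis and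
`t ∈ kk F` a root of `P`: `t` is a simple root of `P` (`F` is perfect), `P` divides `discr (f i)` exactly once, so the root
multiplicity of `t` in the product `d ∏ discr (f j)` is `1`: odd, contradiction.  So `T = ∅`, and `d`, monic squarefree of positive degree, has a
root of multiplicity `1` in `kk F`: contradiction. -/
def StKD : Prop :=
  ∀ (F : Type) [Field F] [Fintype F], (2 : F) ≠ 0 → ∀ (ι : Type) [Fintype ι] (g : ι → ℕ)
    (f : ι → F[X][X]) (θ : ∀ i, Fin (2 * g i + 1) → Om F), (∀ i, 1 ≤ g i) → (∀ i, (f i).Monic) →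
    Rts g f θ → (∀ i, (f i).natDegree = 2 * g i + 1) →
    ∀ d : F[X], d.Monic → Squarefree d → d ≠ 1 →
      (∀ i, ∃ P : Prm F, P.1 ∣ (f i).discr ∧ ¬ P.1 ^ 2 ∣ (f i).discr ∧
        (∀ j, j ≠ i → ¬ P.1 ∣ (f j).discr) ∧ ¬ P.1 ∣ d) →
      ∀ r : Om F, r ^ 2 = em F d →
        ∃ s : Om F ≃ₐ[KK F] Om F, (∀ i b, s (θ i b) = θ i b) ∧ s r = -r

end Pool.Agent.Helper54.GT
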