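import Mathlib

/-!
# GT, part CHEB: points with given Frobenius on a ring which is free over `k[X]`

`F` is a finite field with `q` elements, `k` an algebraically closed field containing `F`, `R` a domain which
is a free `k[X]`-algebra with basis `ω` (`N` elements), whose structure constants are polynomials of degree
at most `c` with coefficients in `F`, with a group `Γ` of `N` automorphisms whose matrices have the same
property.  For `γ ∈ Γ` the number of `k`-homomorphisms `y : R → k` with `y(b)^(q^e) = y(γ b)` (for the elements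
`b` of the basis and for `X`) is `q^e + O((c+1) q^(e/2))` (Stepanov, Bombieri).
-/

set_option autoImplicit false

namespace Pool.Agent.Helper54.GT

open Polynomial Module

/-- Polynomials over `k` of degree at most `c` with coefficients in `F`. -/
def PolyLE (F k : Type) [Field F] [Field k] [Algebra F k] (c : ℕ) : Set k[X] :=
  {p | ∃ p0 : F[X], p0.natDegree ≤ c ∧ p = p0.map (algebraMap F k)}

section defs

variable {k R ι : Type} [Field k] [CommRing R] [Algebra k R] [Algebra k[X] R] [IsScalarTower k k[X] R]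

/-- The elements of `R` all of whose coordinates have degree at most `m`. -/
noncomputable def Sz (ω : Basis ι k[X] R) (m : ℕ) : Submodule k R where
  carrier := {r | ∀ i, (ω.repr r i).natDegree ≤ m}
  zero_mem' := by intro i; simp
  add_mem' := by
    intro a b ha hb i
    rw [map_add, Finsupp.add_apply]
    exact (natDegree_add_le _ _).trans (max_le (ha i) (hb i))
  smul_mem' := by
    intro a r hr i
    have h : a • r = (C a : k[X]) • r := by
      rw [← algebraMap_smul k[X] a r]; rfl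
    rw [h, map_smul, Finsupp.smul_apply, smul_eq_mul]
    exact (natDegree_C_mul_le _ _).trans (hr i)

/-- A discrete valuation of `R` with residue field `k`, bounded by the degree on `k[X]`. -/
structure Val (v : R → ℕ∞) : Prop where
  top_iff : ∀ x, v x = ⊤ ↔ x = 0
  mul : ∀ x y, v (x * y) = v x + v y
  add : ∀ x y, min (v x) (v y) ≤ v (x + y)
  sub : ∀ x y, y ≠ 0 → v x = v y → ∃ a : k, v y < v (x - a • y)
  poly : ∀ p : k[X], p ≠ 0 → v (algebraMap k[X] R p) ≤ p.natDegree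

end defs

/-- The data. -/
structure Dat (F : Type) {k R ι Γ : Type} [Field F] [Field k] [Algebra F k] [CommRing R]
    [Algebra k[X] R] [Fintype ι] [Fintype Γ] [Group Γ]
    (ω : Basis ι k[X] R) (act : Γ →* (R ≃ₐ[k[X]] R)) (c : ℕ) : Prop where
  mul : ∀ i j l, ω.repr (ω i * ω j) l ∈ PolyLE F k c
  one : ∀ l, ω.repr 1 l ∈ PolyLE F k c
  gal : ∀ γ i l, ω.repr (act γ (ω i)) l ∈ PolyLE F k c
  inj : Function.Injective act
  card : Fintype.card Γ = Fintype.card ι

/-- The points with Frobenius `γ`. -/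
def Pts (F : Type) {k R ι Γ : Type} [Fintype F] [Field k] [CommRing R] [Algebra k R]
    [Algebra k[X] R] [Group Γ] (ω : Basis ι k[X] R) (act : Γ →* (R ≃ₐ[k[X]] R)) (γ : Γ) (e : ℕ) :
    Set (R →ₐ[k] k) :=
  {y | y (algebraMap k[X] R X) ^ Fintype.card F ^ e = y (algebraMap k[X] R X) ∧
    ∀ i, y (ω i) ^ Fintype.card F ^ e = y (act γ (ω i))}

/-! ### Sizes -/

/-- (SZ) Sizes.  PROOF.  Coordinates.  `Sz ω m` is isomorphic over `k` to `ι → degreeLT k (m + 1)`; the products from `mul`; the power by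
induction on `r` (`x^(r+1) = x^r x ∈ Sz (r (a + c) + a + c)`, start `r = 1`); `act γ (∑ p_i ω_i) = ∑ p_i act γ (ω_i)`. -/
def StSz : Prop :=
  ∀ (F k R ι Γ : Type) [Field F] [Field k] [Algebra F k] [CommRing R] [Algebra k R]
    [Algebra k[X] R] [IsScalarTower k k[X] R] [Fintype ι] [Fintype Γ] [Group Γ]
    (ω : Basis ι k[X] R) (act : Γ →* (R ≃ₐ[k[X]] R)) (c : ℕ), Dat F ω act c →
    (∀ m, Module.Finite k (Sz ω m) ∧ finrank k (Sz ω m) = Fintype.card ι * (m + 1)) ∧
    (∀ a b, a ≤ b → Sz ω a ≤ Sz ω b) ∧ (∀ r : R, ∃ m, r ∈ Sz ω m) ∧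
    (∀ a b x y, x ∈ Sz ω a → y ∈ Sz ω b → x * y ∈ Sz ω (a + b + c)) ∧
    (∀ a x r, 1 ≤ r → x ∈ Sz ω a → x ^ r ∈ Sz ω (r * (a + c))) ∧
    (∀ a x γ, x ∈ Sz ω a → act γ x ∈ Sz ω (a + c)) ∧
    (∀ a x (p : k[X]), x ∈ Sz ω a → p • x ∈ Sz ω (p.natDegree + a)) ∧
    (∀ i, ω i ∈ Sz ω 0) ∧ ∀ p : k[X], algebraMap k[X] R p ∈ Sz ω (p.natDegree + c)

/-- (QT) Quotients by one element.  PROOF.  Put `D = N (d + c)`, `N = card ι`.  Multiplication by `Φ` is injective and
maps `Sz ω j` into `Sz ω (j + d + c)`.  Suppose `D + 1` elements of `R / Φ R` are linearly independent over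
`k`; lift them to `R`; all lie in `Sz ω m` for some `m ≥ d + c`.  Their span meets `Φ (Sz ω (m - d - c))` in
`0`, so `N (m + 1) ≥ D + 1 + N (m - d - c + 1) = D + 1 + N (m + 1) - D`: contradiction.  Hence every linearly
independent family has at most `D` elements, so the quotient is finite of rank `≤ D`
(`Module.rank_le` / `rank_le_of_..`, `Module.finite_of_rank_eq_nat` etc.). -/
def StQt : Prop :=
  ∀ (F k R ι Γ : Type) [Field F] [Field k] [Algebra F k] [CommRing R] [IsDomain R] [Algebra k R]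
    [Algebra k[X] R] [IsScalarTower k k[X] R] [Fintype ι] [Fintype Γ] [Group Γ]
    (ω : Basis ι k[X] R) (act : Γ →* (R ≃ₐ[k[X]] R)) (c : ℕ), Dat F ω act c →
    ∀ (d : ℕ) (Φ : R), Φ ≠ 0 → Φ ∈ Sz ω d →
      Module.Finite k (R ⧸ Ideal.span {Φ}) ∧
      finrank k (R ⧸ Ideal.span {Φ}) ≤ Fintype.card ι * (d + c)

/-- (ZR) Zeros.  PROOF.  The `y` with `y(Φ) = 0` factor through `R / Φ R`; distinct homomorphisms of algebras to a
field are linearly independent (`linearIndependent_monoidHom`), and the dual of `R / Φ R` has dimension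
`≤ N (d + c)` by (QT).  (Or: `s` distinct `y` give a surjection of `R / Φ R` onto `k^s`.) -/
def StZr : Prop :=
  ∀ (F k R ι Γ : Type) [Field F] [Field k] [Algebra F k] [CommRing R] [IsDomain R] [Algebra k R]
    [Algebra k[X] R] [IsScalarTower k k[X] R] [Fintype ι] [Fintype Γ] [Group Γ]
    (ω : Basis ι k[X] R) (act : Γ →* (R ≃ₐ[k[X]] R)) (c : ℕ), Dat F ω act c →
    ∀ (d : ℕ) (Φ : R), Φ ≠ 0 → Φ ∈ Sz ω d →
      {y : R →ₐ[k] k | y Φ = 0}.Finite ∧
      {y : R →ₐ[k] k | y Φ = 0}.ncard ≤ Fintype.card ι * (d + c)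

/-- (NM) A multiple in `k[X]`.  PROOF.  The polynomials of degree `≤ N (d + c)` form a space of dimension
`N (d + c) + 1`, greater than the dimension of `R / Φ R` by (QT); so some nonzero one maps to `0` there. -/
def StNm : Prop :=
  ∀ (F k R ι Γ : Type) [Field F] [Field k] [Algebra F k] [CommRing R] [IsDomain R] [Algebra k R]
    [Algebra k[X] R] [IsScalarTower k k[X] R] [Fintype ι] [Fintype Γ] [Group Γ]
    (ω : Basis ι k[X] R) (act : Γ →* (R ≃ₐ[k[X]] R)) (c : ℕ), Dat F ω act c →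
    ∀ (d : ℕ) (Φ : R), Φ ≠ 0 → Φ ∈ Sz ω d →
      ∃ p : k[X], p ≠ 0 ∧ p.natDegree ≤ Fintype.card ι * (d + c) ∧ Φ ∣ algebraMap k[X] R p

/-- (PT) Points above a given element of the line.  PROOF.  `R / (X - t) R` is a `k`-algebra with basis the images of
`ω` (coordinates: `ω.repr x i` evaluated at `t`), of dimension `N = card ι ≥ 1` (`card ι = card Γ ≥ 1`).  It is
not zero, take a maximal ideal; the residue field is finite over `k`, hence equal to `k`
(`IsAlgClosed.algebraMap_bijective_of_isIntegral`).  At most `N` homomorphisms by linear independence. -/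
def StPt : Prop :=
  ∀ (F k R ι Γ : Type) [Field F] [Field k] [IsAlgClosed k] [Algebra F k] [CommRing R] [Algebra k R]
    [Algebra k[X] R] [IsScalarTower k k[X] R] [Fintype ι] [Fintype Γ] [Group Γ]
    (ω : Basis ι k[X] R) (act : Γ →* (R ≃ₐ[k[X]] R)) (c : ℕ), Dat F ω act c →
    ∀ t : k, (∃ y : R →ₐ[k] k, y (algebraMap k[X] R X) = t) ∧
      {y : R →ₐ[k] k | y (algebraMap k[X] R X) = t}.Finite ∧
      {y : R →ₐ[k] k | y (algebraMap k[X] R X) = t}.ncard ≤ Fintype.card ι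

/-- (DL) The discriminant element.  PROOF.  Choose an equivalence `ε : Γ ≃ ι` (`Fintype.equivOfCardEq`) and put
`Δ = det (act (ε.symm j) (ω i))_{j, i}`.  Each entry lies in `Sz ω c` (by `gal`), a product of `N` of them in
`Sz ω (N c + (N - 1) c)`, so `Δ ∈ Sz ω (2 N c)`.  `Δ ≠ 0`: otherwise there is a vector `(a_γ) ≠ 0` over the
fraction field `Q` of `R` with `∑_γ a_γ act γ (ω i) = 0` for all `i` (`Matrix.exists_vecMul_eq_zero_iff`), hence
`∑_γ a_γ act γ (x) = 0` for all `x ∈ R` by `k[X]`-linearity; but the maps `x ↦ act γ x`, `R → Q`, are distinct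
monoid homomorphisms, so linearly independent (`linearIndependent_monoidHom`).  If `y Δ ≠ 0` then the
matrix `(y (act γ (ω i)))` has determinant `y Δ ≠ 0` (`RingHom.map_det`), so its rows are independent. -/
def StDl : Prop :=
  ∀ (F k R ι Γ : Type) [Field F] [Field k] [Algebra F k] [CommRing R] [IsDomain R] [Algebra k R]
    [Algebra k[X] R] [IsScalarTower k k[X] R] [Fintype ι] [Fintype Γ] [Group Γ]
    (ω : Basis ι k[X] R) (act : Γ →* (R ≃ₐ[k[X]] R)) (c : ℕ), Dat F ω act c →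
    ∃ Δ : R, Δ ≠ 0 ∧ Δ ∈ Sz ω (2 * Fintype.card ι * c) ∧
      ∀ y : R →ₐ[k] k, y Δ ≠ 0 →
        LinearIndependent k (fun γ : Γ => fun i : ι => y (act γ (ω i)))

/-- (ET) Above an unramified point.  PROOF.  Put `t = y(X)`, `A = R / (X - t) R`, a `k`-algebra of dimension
`N = card ι = card Γ`.  The `N` homomorphisms `y ∘ act γ` kill `X - t` (`act γ` is `k[X]`-linear) and are
linearly independent on `A`, so `A → k^Γ` is an isomorphism.  This gives (2) and (3).  (1): a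
homomorphism `z` with `z(X) = t` is a homomorphism of algebras `k^Γ → k`, hence one of the projections (or: `N + 1`
distinct homomorphisms on `A` would be linearly independent).  Uniqueness: linear independence. -/
def StEt : Prop :=
  ∀ (F k R ι Γ : Type) [Field F] [Field k] [Algebra F k] [CommRing R] [IsDomain R] [Algebra k R]
    [Algebra k[X] R] [IsScalarTower k k[X] R] [Fintype ι] [Fintype Γ] [Group Γ]
    (ω : Basis ι k[X] R) (act : Γ →* (R ≃ₐ[k[X]] R)) (c : ℕ), Dat F ω act c →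
    ∀ y : R →ₐ[k] k, LinearIndependent k (fun γ : Γ => fun i : ι => y (act γ (ω i))) →
      (∀ z : R →ₐ[k] k, z (algebraMap k[X] R X) = y (algebraMap k[X] R X) →
        ∃! γ : Γ, ∀ x, z x = y (act γ x)) ∧
      (∀ x : R, (∀ γ, y (act γ x) = 0) →
        ∃ x' : R, x = algebraMap k[X] R (X - C (y (algebraMap k[X] R X))) * x') ∧
      ∃ x : R, y x = 1 ∧ ∀ γ, γ ≠ 1 → y (act γ x) = 0

/-- (DV) A discrete valuation ring.  PROOF.  Let `m = ker y`, a maximal ideal, and `V` the localization of `R` at `m`: a noetherian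
local domain, `R → V` injective.  For `x ∈ m` the hypothesis gives `e x ∈ π R` with `e ∉ m`, a unit in `V`: the maximal ideal of `V` is
`π V`, and `π ≠ 0`.  So `V` is a discrete valuation ring (`IsDiscreteValuationRing.TFAE` /
`tfae_of_isNoetherianRing_of_isLocalRing_of_isDomain`, principal maximal ideal).  Put `v x = IsDiscreteValuationRing.addVal V (algebraMap R V x)`.
`top_iff`, `mul`, `add`: `addVal_eq_top_iff`, `addVal_mul`, `addVal_add`.  `sub`: let `v x = v z = j < ⊤` (`z ≠ 0`); in `V` write `x = u π^j`, `z = w π^j`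
with units `u`, `w`; `V / π V = R / m = k` (every element of `V` is `r / s`, `y s ≠ 0`, congruent to the constant `y r / y s`), so there is `a ∈ k` with
`u - a w ∈ π V`, so `v (x - a z) ≥ j + 1`. -/
def StDv : Prop :=
  ∀ (k R : Type) [Field k] [CommRing R] [IsDomain R] [IsNoetherianRing R] [Algebra k R]
    (y : R →ₐ[k] k) (π : R), π ≠ 0 → y π = 0 →
    (∀ x, y x = 0 → ∃ e x' : R, y e = 1 ∧ e * x = π * x') →
    ∃ v : R → ℕ∞, (∀ x, v x = ⊤ ↔ x = 0) ∧ (∀ x z, v (x * z) = v x + v z) ∧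
      (∀ x z, min (v x) (v z) ≤ v (x + z)) ∧
      (∀ x z, z ≠ 0 → v x = v z → ∃ a : k, v z < v (x - a • z)) ∧
      (∀ r, y r ≠ 0 → v r = 0) ∧ v π = 1

/-- (VL) A valuation.  PROOF.  By (DL) take `Δ`; `k` is infinite, above every `t ∈ k` there is a point by (PT), and
only finitely many `y` kill `Δ` by (ZR): so there is `y` with `y Δ ≠ 0`; let `t = y(X)`, `π = X - t`.  `R` is noetherian because it
is finite over `k[X]`.  If `y x = 0` let `e` be as in (ET)(3): `y e = 1`, `y (act γ e) = 0` for `γ ≠ 1`; then all `y (act γ (e x))` vanish, so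
`e x ∈ π R` by (ET)(2).  Apply (DV).  `poly`: `p = (X - t)^j p₁` with `p₁(t) ≠ 0`, `y p₁ = p₁(t) ≠ 0`, so `v p = j ≤ natDegree p`
(`j = rootMultiplicity t p`). -/
def StVl : Prop :=
  ∀ (F k R ι Γ : Type) [Field F] [Field k] [IsAlgClosed k] [Algebra F k] [CommRing R] [IsDomain R]
    [Algebra k R] [Algebra k[X] R] [IsScalarTower k k[X] R] [Fintype ι] [Fintype Γ] [Group Γ]
    (ω : Basis ι k[X] R) (act : Γ →* (R ≃ₐ[k[X]] R)) (c : ℕ), Dat F ω act c →
    ∃ v : R → ℕ∞, Val (k := k) v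

/-- (AB) Elements with distinct valuations.  PROOF.  Induction on `finrank k W`.  If it is `n + 1` let `x₀` be a nonzero element of
`W` with least value `j = v x₀` (`< ⊤`).  `W' = {x ∈ W | j < v x}` is a subspace (`v (a • x) = v x` or `⊤`: `a • x = algebraMap (C a) * x`
and `v (algebraMap (C a)) = 0` for `a ≠ 0` by `poly`); by `sub` every `x ∈ W` is `a x₀ + w'` (if `v x > j` take `a = 0`, otherwise `v x = j`),
and `x₀ ∉ W'`: `finrank W' = n`.  Take the elements for `W'` and `x₀`. -/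
def StAb : Prop :=
  ∀ (k R : Type) [Field k] [CommRing R] [Algebra k R] [Algebra k[X] R] [IsScalarTower k k[X] R]
    (v : R → ℕ∞), Val (k := k) v → ∀ W : Submodule k R, Module.Finite k W →
    ∃ b : Fin (finrank k W) → R, (∀ i, b i ∈ W ∧ b i ≠ 0) ∧ Function.Injective (fun i => v (b i))

/-- (NZ) The auxiliary function does not vanish.  PROOF.  For the `i` with `ν i ≠ 0` the values
`v (ν_i b_i^Q) = v (ν_i) + Q v (b_i)` are finite and distinct because `v (ν_i) < Q` and the `v (b_i)` are distinct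
(division with remainder).  A finite nonempty sum of elements with distinct finite values is not zero: let `x₁` be the
term with the least value; if the sum were zero, `-x₁` would be the sum of the other terms, of value
`> v x₁`, but `v (-x₁) = v x₁` (`v(-1) = 0` since `2 v(-1) = v 1 = 0`). -/
def StNz : Prop :=
  ∀ (k R : Type) [Field k] [CommRing R] [Algebra k R] [Algebra k[X] R] [IsScalarTower k k[X] R]
    (v : R → ℕ∞), Val (k := k) v → ∀ (r Q : ℕ) (b ν : Fin r → R), (∀ i, b i ≠ 0) →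
    Function.Injective (fun i => v (b i)) → (∀ i, ν i ≠ 0 → v (ν i) < Q) → ν ≠ 0 →
    ∑ i, ν i * b i ^ Q ≠ 0

/-- (EX) Siegel's lemma.  PROOF.  Put `Q = p^μ`.  The `k`-linear map
`(z_{i,j,a}) ↦ ∑_{i,j,a} z_{i,j,a} X^(a Q) (ω_j)^Q cc_i`, `i < r`, `j ∈ ι`, `a ≤ l`, has values in
`Sz ω (Q (l + c) + m + c)` by (SZ): `(ω_j)^Q ∈ Sz ω (Q (0 + c))`, `X^(aQ) (ω_j)^Q ∈ Sz ω (l Q + Q c)`.  This space has dimension
`N (Q (l + c) + m + c + 1) < r N (l + 1)`, so there is a kernel element `z ≠ 0`.  `k` is algebraically closed, so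
`z = x^Q`; put `ν_i = ∑_{j,a} x_{i,j,a} X^a ω_j`.  `R` has characteristic `p` (it is a nonzero `k`-algebra, free over `k[X]`; if `R`
is zero nothing can be independent), so `ν_i^Q = ∑ x^Q X^(aQ) (ω_j)^Q` (`add_pow_char_pow`, `sum_pow_char_pow`,
`CharP R p` via `charP_of_injective_algebraMap` or directly `iterateFrobenius`/`frobenius` for `ExpChar`). -/
def StEx : Prop :=
  ∀ (F k R ι Γ : Type) [Field F] [Field k] [IsAlgClosed k] [Algebra F k] [CommRing R] [IsDomain R]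
    [Algebra k R] [Algebra k[X] R] [IsScalarTower k k[X] R] [Fintype ι] [Fintype Γ] [Group Γ]
    (ω : Basis ι k[X] R) (act : Γ →* (R ≃ₐ[k[X]] R)) (c : ℕ), Dat F ω act c →
    ∀ (p μ : ℕ), p.Prime → CharP k p → ∀ (r l m : ℕ) (cc : Fin r → R), (∀ i, cc i ∈ Sz ω m) →
      Fintype.card ι * (p ^ μ * (l + c) + m + c + 1) < r * (Fintype.card ι * (l + 1)) →
      ∃ ν : Fin r → R, ν ≠ 0 ∧ (∀ i, ν i ∈ Sz ω l) ∧ ∑ i, ν i ^ p ^ μ * cc i = 0

/-- (FT) The Frobenius twist.  PROOF.  Let `Q = card F ^ e`, a power `p^s` of the characteristic `p` of `k`, and `x'` the element whose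
coordinates are those of `x` with all coefficients raised to the power `Q` (`Polynomial.map (iterateFrobenius k p s)`).  For
`x = ∑ p_i ω_i`, `t = y(X)`: `y(x) = ∑ p_i(t) y(ω_i)`, `y(x)^Q = ∑ p_i'(t^Q) y(ω_i)^Q = ∑ p_i'(t) y(act γ (ω_i)) = y(act γ x')`. -/
def StFt : Prop :=
  ∀ (F k R ι Γ : Type) [Field F] [Fintype F] [Field k] [Algebra F k] [CommRing R]
    [Algebra k R] [Algebra k[X] R] [IsScalarTower k k[X] R] [Fintype ι] [Fintype Γ]
    [Group Γ] (ω : Basis ι k[X] R) (act : Γ →* (R ≃ₐ[k[X]] R)) (e m : ℕ), ∀ x ∈ Sz ω m,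
    ∃ x' ∈ Sz ω m, ∀ (γ : Γ), ∀ y ∈ Pts F ω act γ e, y x ^ Fintype.card F ^ e = y (act γ x')

/-- (UB) The upper bound with parameters.  PROOF.  Let `v` be as in (VL), `W = Sz ω m`, of dimension `r = N (m + 1)` (SZ), `b_i`
as in (AB), `b_i'` as in (FT) and `cc_i = act γ (b_i') ∈ Sz ω (m + c)`.
(EX) with `m + c` gives `ν`.  By (NM) and `poly`, for `0 ≠ ν_i ∈ Sz ω l`: `v (ν_i) ≤ N (l + c) < p^μ'` (`ν_i ∣ p`,
`v ν_i ≤ v p` by `mul`).  So `Φ = ∑ ν_i b_i^(p^μ') ≠ 0` by (NZ), `Φ ∈ Sz ω (l + p^μ' (m + c) + c)` by (SZ).  For `y ∈ Pts`: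
`y(Φ)^(p^μ) = ∑ y(ν_i)^(p^μ) y(b_i)^(q^e) = y(∑ ν_i^(p^μ) cc_i) = 0`, so `y(Φ) = 0`.  Apply (ZR). -/
def StUb : Prop :=
  ∀ (F k R ι Γ : Type) [Field F] [Fintype F] [Field k] [IsAlgClosed k] [Algebra F k] [CommRing R]
    [IsDomain R] [Algebra k R] [Algebra k[X] R] [IsScalarTower k k[X] R] [Fintype ι] [Fintype Γ]
    [Group Γ] (ω : Basis ι k[X] R) (act : Γ →* (R ≃ₐ[k[X]] R)) (c : ℕ), Dat F ω act c →
    ∀ (p μ μ' e : ℕ), p.Prime → CharP k p → p ^ μ * p ^ μ' = Fintype.card F ^ e → ∀ (l m : ℕ),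
      Fintype.card ι * (p ^ μ * (l + c) + (m + c) + c + 1) <
        Fintype.card ι * (m + 1) * (Fintype.card ι * (l + 1)) →
      Fintype.card ι * (l + c) < p ^ μ' →
      ∀ γ : Γ, (Pts F ω act γ e).Finite ∧
        (Pts F ω act γ e).ncard ≤ Fintype.card ι * (l + p ^ μ' * (m + c) + c + c)

/-- (UP) The upper bound.  PROOF.  Let `q = p^a`, `q^e = p^(a e)`, `μ = a e / 2` (natural division), `μ' = a e - μ`, `Q₁ = p^μ`, `Q₂ = p^μ'`,
`Q₁ ≤ √(q^e) ≤ Q₂ ≤ p Q₁`, `Q₂ ≤ p √(q^e)`.  (a) If `Q₁ < 8 N (c + 1)` use the trivial bound: `y(X)` is one of the `≤ q^e` roots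
of `T^(q^e) - T` and above each there are at most `N` points (PT): `ncard ≤ N q^e = N Q₁ Q₂ ≤ 8 N² (c+1) Q₂`.  (b) If `Q₁ ≥ 8 N (c+1)` let
`l = Q₁ / (4 N)` (natural division; `l ≥ Q₁ / (8 N)` as a real number, `N l ≤ Q₁ / 4`), `Y = 8 N (3 c + 2)` and `m + 1 = (Q₁ + Y) / N + 1`
(natural division), so `Q₁ + Y ≤ N (m + 1) ≤ Q₁ + Y + N`.  `N (l + c) ≤ Q₁/4 + Q₁/8 < Q₂`.  First condition of (UB) (divide by
`N`): `(l + 1) N (m + 1) ≥ (l + 1)(Q₁ + Y) > Q₁ l + Q₁ c + (m + 1) + 2 c` because `m + 1 ≤ Q₁ + Y + 1` and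
`l Y ≥ Q₁ (3 c + 2) ≥ Q₁ c + 2 c + 2`.  Bound: `N (l + Q₂ (m + c) + 2 c) ≤ Q₂ (Q₁ + Y + N + N c) + Q₂ + 2 N c Q₂
≤ q^e + 30 N (c + 1) Q₂` for `N ≥ 1`.  So `C = 30 N² p` works. -/
def StUp : Prop :=
  ∀ (F : Type) [Field F] [Fintype F] (N : ℕ), ∃ C₀ : ℝ, 0 < C₀ ∧
  ∀ (k R ι Γ : Type) [Field k] [IsAlgClosed k] [Algebra F k] [CommRing R]
    [IsDomain R] [Algebra k R] [Algebra k[X] R] [IsScalarTower k k[X] R] [Fintype ι] [Fintype Γ]
    [Group Γ] (ω : Basis ι k[X] R) (act : Γ →* (R ≃ₐ[k[X]] R)) (c : ℕ), Dat F ω act c →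
    Fintype.card ι = N → ∀ (γ : Γ) (e : ℕ), 1 ≤ e → (Pts F ω act γ e).Finite ∧
      ((Pts F ω act γ e).ncard : ℝ) ≤
        (Fintype.card F : ℝ) ^ e + C₀ * (c + 1) * Real.sqrt ((Fintype.card F : ℝ) ^ e)

/-- (FP) The Frobenius conjugate of a point.  PROOF.  Let `Q = card F ^ e`, a power of the characteristic, `t = y(X)`.  The map
`y' : ∑ p_i ω_i ↦ ∑ p_i(t) y(ω_i)^Q` is `k`-linear and multiplicative: it suffices that `y'(1) = 1` and `y'(ω_i ω_j) = y'(ω_i) y'(ω_j)`
(both sides of `y'(x z) = y'(x) y'(z)` are bilinear over `k[X]` acting through `t`), and these hold because the structure constants have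
coefficients in `F` and `t^Q = t`, so `c(t)^Q = c(t)` for `c ∈ F[X]` (elements of `F` satisfy `a^Q = a`).  `y'(X) = t`. -/
def StFp : Prop :=
  ∀ (F k R ι Γ : Type) [Field F] [Fintype F] [Field k] [Algebra F k] [CommRing R]
    [Algebra k R] [Algebra k[X] R] [IsScalarTower k k[X] R] [Fintype ι] [Fintype Γ]
    [Group Γ] (ω : Basis ι k[X] R) (act : Γ →* (R ≃ₐ[k[X]] R)) (c : ℕ), Dat F ω act c →
    ∀ (e : ℕ) (y : R →ₐ[k] k), y (algebraMap k[X] R X) ^ Fintype.card F ^ e = y (algebraMap k[X] R X) →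
      ∃ y' : R →ₐ[k] k, y' (algebraMap k[X] R X) = y (algebraMap k[X] R X) ∧
        ∀ i, y' (ω i) = y (ω i) ^ Fintype.card F ^ e

/-- (TS) Outside a small set the points above `t` are a torsor and each of them has exactly one Frobenius.  PROOF.  Let
`Δ` be as in (DL) and `Bad = {y(X) | y Δ = 0}`, at most `N (2 N c + c)` elements by (ZR).  Let `t ∉ Bad`; by (PT) there is `y₀`
above `t`, `y₀ Δ ≠ 0`, so by (DL), (ET) `γ ↦ y₀ ∘ act γ` is a bijection of `Γ` onto the points above `t`: `N` points.  Let `t^(q^e) = t` and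
`y` above `t`, `y'` as in (FP).  By (ET) (for `y`, which also satisfies `y Δ ≠ 0`) there is exactly one `γ` with `y' = y ∘ act γ`,
and `y ∈ Pts F ω act γ e` iff `y' = y ∘ act γ` (compare on `X` and the `ω_i`). -/
def StTs : Prop :=
  ∀ (F k R ι Γ : Type) [Field F] [Fintype F] [Field k] [IsAlgClosed k] [Algebra F k] [CommRing R]
    [IsDomain R] [Algebra k R] [Algebra k[X] R] [IsScalarTower k k[X] R] [Fintype ι] [Fintype Γ]
    [Group Γ] (ω : Basis ι k[X] R) (act : Γ →* (R ≃ₐ[k[X]] R)) (c : ℕ), Dat F ω act c →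
    ∃ Bad : Finset k, Bad.card ≤ Fintype.card ι * (2 * Fintype.card ι * c + c) ∧
      ∀ t : k, t ∉ Bad → {y : R →ₐ[k] k | y (algebraMap k[X] R X) = t}.ncard = Fintype.card ι ∧
        (∀ y : R →ₐ[k] k, y (algebraMap k[X] R X) = t →
          ∀ z : R →ₐ[k] k, z (algebraMap k[X] R X) = t → ∃ γ : Γ, ∀ x, z x = y (act γ x)) ∧
        ∀ e : ℕ, t ^ Fintype.card F ^ e = t → ∀ y : R →ₐ[k] k, y (algebraMap k[X] R X) = t →
          ∃! γ : Γ, y ∈ Pts F ω act γ e

/-- (CH) The theorem.  PROOF.  Upper bound (UP).  Let `E = C₀ (c+1) √(q^e)`.  The set `{t ∈ k | t^(q^e) = t}` has `q^e` elements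
(`X^(q^e) - X` is separable; `e = 0`: then the `t` are all of `k` if `q^0 = 1`!  For `e = 0` the condition `t^1 = t` holds for all `t`;
so here `1 ≤ e` is assumed).  By (TS) `∑_γ ncard (Pts γ) ≥ N (q^e - #Bad)` (the points above the `t ∉ Bad`; each in one `Pts`), so
`ncard (Pts γ₀) ≥ N q^e - N #Bad - (N - 1)(q^e + E) ≥ q^e - N E - N² (2 N c + c)`. -/
def StCh : Prop :=
  ∀ (F : Type) [Field F] [Fintype F] (N : ℕ), ∃ C₀ : ℝ, 0 < C₀ ∧
  ∀ (k R ι Γ : Type) [Field k] [IsAlgClosed k] [Algebra F k] [CommRing R]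
    [IsDomain R] [Algebra k R] [Algebra k[X] R] [IsScalarTower k k[X] R] [Fintype ι] [Fintype Γ]
    [Group Γ] (ω : Basis ι k[X] R) (act : Γ →* (R ≃ₐ[k[X]] R)) (c : ℕ), Dat F ω act c →
    Fintype.card ι = N → ∀ (γ : Γ) (e : ℕ), 1 ≤ e → (Pts F ω act γ e).Finite ∧
      |((Pts F ω act γ e).ncard : ℝ) - (Fintype.card F : ℝ) ^ e| ≤
        C₀ * (c + 1) * Real.sqrt ((Fintype.card F : ℝ) ^ e)

end Pool.Agent.Helper54.GT
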